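import Pool.Agent.Lib.RobT.Gs

/-!
# Gr: the reservoir and the final matching (about 200 lines)

RESERVOIR.  `select` with objects the vertices `v ∉ U` (`vs v = {v}`, `Ok v = (v ∉ U)`, `D = 1`),
index set `Fin f`, `Bad v i = ¬ Acc i v`, number of steps `r = (f+1)/2`, `p = 1/8`: for `|Z| ≤ r`
there
are at least `n - n/10 - n/10` vertices outside `U ∪ Z`, and
`∑_{v} ∑_{i : ¬ Acc i v} w i ≤ (n/10) ∑ w`, so some `v` outside `U ∪ Z` has
`∑_{i : ¬ Acc i v} w i ≤ (1/8) ∑ w`.  We get `r` distinct vertices, the set `R₀`, such that every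
`i` rejects at most `log f + r/4 ≤ 3 r/10` of them (`r ≥ f/2`, `f ≥ 250`: `log f ≤ f/40`).  So
every `i`
accepts at least `7 r/10 ≥ 35 f/100` elements of `R₀`.
MATCHING.  Hall's theorem (`Finset.all_card_le_biUnion_card_iff_exists_injective`) for
`t i = {v ∈ L | Acc i v}`, `i : Fin f`.  Let `S` be a set of indices.  If `S = ∅` clear.  If
`0 < |S| ≤ 35 f/100`: one `t i` has at least `35 f/100` elements.  If `|S| > 35 f/100 > f/10`: every
`v ∈ L` is rejected by at most `f/10 < |S|` indices, so accepted by some `i ∈ S`: the union is `L`,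
`|L| = f ≥ |S|`.  The injective `σ : Fin f → L` is onto `L` as `|L| = f`.
-/

namespace Pool.Agent.Lib.RobT

open Finset

private theorem log_bd (f : ℕ) (hf : 250 ≤ f) : Real.log f ≤ (f : ℝ) / 40 := by
  have hf' : (250 : ℝ) ≤ f := by exact_mod_cast hf
  have h0 : (0 : ℝ) < f := by linarith
  have h1 : Real.log ((f : ℝ) / 250) ≤ (f : ℝ) / 250 - 1 :=
    Real.log_le_sub_one_of_pos (by positivity)
  have h2 : Real.log f = Real.log ((f : ℝ) / 250) + Real.log 250 := by
    rw [← Real.log_mul (by positivity) (by norm_num)]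
    congr 1
    field_simp
  have h3 : Real.log 250 ≤ 8 * Real.log 2 := by
    have : (8 : ℝ) * Real.log 2 = Real.log (2 ^ 8) := by
      rw [Real.log_pow]
      norm_num
    rw [this]
    exact Real.log_le_log (by norm_num) (by norm_num)
  have h4 := Real.log_two_lt_d9
  linarith

open Classical in
theorem reserve {V : Type} [Fintype V] [DecidableEq V] (f : ℕ) (Acc : Fin f → V → Prop)
    (U : Finset V) (hf : 250 ≤ f) (hfn : (f : ℝ) ≤ Fintype.card V / 10)
    (hU : (U.card : ℝ) ≤ Fintype.card V / 10)
    (h1 : ∀ v, ((univ.filter fun i => ¬ Acc i v).card : ℝ) ≤ f / 10)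
    (h2 : ∀ i, ((univ.filter fun v => ¬ Acc i v).card : ℝ) ≤ Fintype.card V / 10) :
    ∃ R₀ : Finset V, Disjoint R₀ U ∧ R₀.card = (f + 1) / 2 ∧
      ∀ L : Finset V, R₀ ⊆ L → L.card = f →
        ∃ σ : Fin f → V, Function.Injective σ ∧ univ.image σ = L ∧ ∀ i, Acc i (σ i) := by
  have hf' : (250 : ℝ) ≤ f := by exact_mod_cast hf
  set r : ℕ := (f + 1) / 2 with hr
  have hr1 : r ≤ f := by omega
  have hr2 : (f : ℝ) / 2 ≤ r := by
    have : f ≤ 2 * r := by omega
    have : (f : ℝ) ≤ 2 * r := by exact_mod_cast this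
    linarith
  have hr1' : (r : ℝ) ≤ f := by exact_mod_cast hr1
  obtain ⟨g, hg1, hg2, hg3⟩ := select (G := V) (V := V) (I := Fin f) (fun v => {v})
    (fun v => v ∉ U) (fun v i => ¬ Acc i v) r 1 (1 / 8) (by norm_num) (by
      intro Z hZ w hw
      have hZ' : (Z.card : ℝ) ≤ r := by
        have : Z.card ≤ r := by simpa using hZ
        exact_mod_cast this
      have hS : (8 / 10 : ℝ) * Fintype.card V ≤ ((U ∪ Z)ᶜ.card : ℝ) := by
        have h3 : (U ∪ Z).card ≤ U.card + Z.card := card_union_le _ _
        have h4 : (U ∪ Z)ᶜ.card + (U ∪ Z).card = Fintype.card V := by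
          rw [card_compl]
          have := Finset.card_le_univ (U ∪ Z)
          omega
        have h3' : ((U ∪ Z).card : ℝ) ≤ U.card + Z.card := by exact_mod_cast h3
        have h4' : ((U ∪ Z)ᶜ.card : ℝ) + (U ∪ Z).card = Fintype.card V := by exact_mod_cast h4
        linarith
      have hne : (U ∪ Z)ᶜ.Nonempty := by
        rw [← card_pos]
        have : (0 : ℝ) < ((U ∪ Z)ᶜ.card : ℝ) := by linarith
        exact_mod_cast this
      have hw0 : 0 ≤ ∑ i, w i := sum_nonneg fun i _ => hw i
      have hsum : ∑ v ∈ (U ∪ Z)ᶜ, ∑ i ∈ univ.filter (fun i => ¬ Acc i v), w i ≤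
          ∑ v ∈ (U ∪ Z)ᶜ, (1 / 8 * ∑ i, w i) := by
        calc ∑ v ∈ (U ∪ Z)ᶜ, ∑ i ∈ univ.filter (fun i => ¬ Acc i v), w i
            ≤ ∑ v, ∑ i ∈ univ.filter (fun i => ¬ Acc i v), w i :=
              sum_le_sum_of_subset_of_nonneg (subset_univ _)
                (fun v _ _ => sum_nonneg fun i _ => hw i)
          _ = ∑ i, ∑ v, (if ¬ Acc i v then w i else 0) := by
              simp only [sum_filter]
              rw [sum_comm]
          _ = ∑ i, ((univ.filter fun v => ¬ Acc i v).card : ℝ) * w i := by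
              refine sum_congr rfl fun i _ => ?_
              rw [← sum_filter, sum_const, nsmul_eq_mul]
          _ ≤ ∑ i, ((Fintype.card V : ℝ) / 10) * w i :=
              sum_le_sum fun i _ => mul_le_mul_of_nonneg_right (h2 i) (hw i)
          _ = (Fintype.card V : ℝ) / 10 * ∑ i, w i := by rw [mul_sum]
          _ ≤ ((U ∪ Z)ᶜ.card : ℝ) * (1 / 8 * ∑ i, w i) := by
              nlinarith
          _ = _ := by rw [sum_const, nsmul_eq_mul]
      obtain ⟨v, hv, hv2⟩ := exists_le_of_sum_le hne hsum
      rw [mem_compl, mem_union, not_or] at hv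
      refine ⟨v, hv.1, by simp, by simpa using hv.2, le_trans (le_of_eq ?_) hv2⟩
      exact sum_congr (by ext i; simp) fun _ _ => rfl)
  have hginj : Function.Injective g := by
    intro a b hab
    by_contra hne
    have := hg2 a b hne
    rw [hab] at this
    simp at this
  have hcard : (univ.image g).card = r := by
    rw [card_image_of_injective _ hginj]
    simp
  refine ⟨univ.image g, ?_, hcard, ?_⟩
  · rw [disjoint_left]
    intro v hv
    obtain ⟨t, -, rfl⟩ := mem_image.1 hv
    exact hg1 t
  intro L hRL hLf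
  have hacc : ∀ i, (35 : ℝ) / 100 * f ≤ ((L.filter (Acc i)).card : ℝ) := by
    intro i
    have h3 := hg3 i
    rw [Fintype.card_fin] at h3
    have h4 := log_bd f hf
    have h5 : (univ.filter fun t => ¬ Acc i (g t)).card +
        (univ.filter fun t => Acc i (g t)).card = r := by
      rw [add_comm, Finset.card_filter_add_card_filter_not]
      simp
    have h6 : (univ.filter fun t => Acc i (g t)).card ≤ (L.filter (Acc i)).card := by
      rw [← card_image_of_injective _ hginj]
      refine card_le_card ?_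
      intro v hv
      obtain ⟨t, ht, rfl⟩ := mem_image.1 hv
      exact mem_filter.2 ⟨hRL (mem_image_of_mem _ (mem_univ _)), (mem_filter.1 ht).2⟩
    have h5' : ((univ.filter fun t => ¬ Acc i (g t)).card : ℝ) +
        ((univ.filter fun t => Acc i (g t)).card : ℝ) = r := by exact_mod_cast h5
    have h6' : ((univ.filter fun t => Acc i (g t)).card : ℝ) ≤ ((L.filter (Acc i)).card : ℝ) := by
      exact_mod_cast h6
    have h3' : ((univ.filter fun t => ¬ Acc i (g t)).card : ℝ) ≤
        Real.log f + 2 * (1 / 8) * r := by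
      convert h3
    linarith
  have hall : ∀ S : Finset (Fin f), S.card ≤ (S.biUnion fun i => L.filter (Acc i)).card := by
    intro S
    rcases S.eq_empty_or_nonempty with rfl | ⟨i, hi⟩
    · simp
    by_cases hS : (S.card : ℝ) ≤ 35 / 100 * f
    · have h3 : (L.filter (Acc i)).card ≤ (S.biUnion fun i => L.filter (Acc i)).card :=
        card_le_card (subset_biUnion_of_mem (fun i => L.filter (Acc i)) hi)
      have h4 : ((L.filter (Acc i)).card : ℝ) ≤
          ((S.biUnion fun i => L.filter (Acc i)).card : ℝ) := by exact_mod_cast h3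
      have h5 := hacc i
      have h6 : (S.card : ℝ) ≤ ((S.biUnion fun i => L.filter (Acc i)).card : ℝ) := by linarith
      exact_mod_cast h6
    · rw [not_le] at hS
      have h3 : L ⊆ S.biUnion fun i => L.filter (Acc i) := by
        intro v hv
        by_contra hcon
        have h4 : S ⊆ univ.filter fun i => ¬ Acc i v := by
          intro j hj
          refine mem_filter.2 ⟨mem_univ _, fun hA => hcon ?_⟩
          exact mem_biUnion.2 ⟨j, hj, mem_filter.2 ⟨hv, hA⟩⟩
        have h5 : (S.card : ℝ) ≤ ((univ.filter fun i => ¬ Acc i v).card : ℝ) := by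
          exact_mod_cast card_le_card h4
        have h6 := h1 v
        linarith
      have h4 := card_le_card h3
      have h5 := Finset.card_le_univ S
      rw [Fintype.card_fin] at h5
      omega
  obtain ⟨σ, hσ, hσ2⟩ := (Finset.all_card_le_biUnion_card_iff_exists_injective _).1 hall
  refine ⟨σ, hσ, ?_, fun i => (mem_filter.1 (hσ2 i)).2⟩
  refine Finset.eq_of_subset_of_card_le ?_ ?_
  · intro v hv
    obtain ⟨i, -, rfl⟩ := mem_image.1 hv
    exact (mem_filter.1 (hσ2 i)).1
  · rw [card_image_of_injective _ hσ, hLf]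
    simp

end Pool.Agent.Lib.RobT
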