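import Pool.Agent.Lib.RobT.Gc

/-!
# Te: embedding a small forest with prescribed vertices (about 350 lines)

The forest is `{i < m | i ∉ Lt}` with the edges `i - par i` (`0 < i`, `i, par i ∉ Lt`).  `Pr` are
the
vertices with prescribed images `ψ`; `X ⊆ Pr` are those with an embedded parent: above `a ∈ X` there
is the chain `par^[j] a`, `0 < j < l`, of vertices outside `Pr ∪ Lt`, the chains are disjoint, and
`par^[l] a ∉ Lt`.
Note: `par` is strictly decreasing on `0 < i < m`, so `par^[j] a` is strictly decreasing in `j` as
long as it is `≠ 0`.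
PROOF.  For `i ≤ m` let `B_i` = the set of the `k < m`, `k ∉ Lt`, with `k < i` or `k ∈ Pr` or
`k = par^[j] a` for some `a ∈ X`, `0 < j < l` with `par^[l-1] a < i`.  CLAIM(i): there is `φ` with
`φ = ψ` on `Pr`, injective on `B_i`, `φ k ∉ Z` for `k ∈ B_i \ Pr`, and
`Arc R (s k) (φ (par k)) (φ k)` whenever `0 < k`, `k, par k ∈ B_i` (so neither is in `Lt`) and
[`k < i` or `k` is on a chain `par^[j] a`, `0 ≤ j < l`, with `par^[l-1] a < i`].
`i = 0`: `B_0 = Pr`, `φ = ψ` (extended arbitrarily).  Nothing else to prove: `par^[l-1] a < 0` is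
impossible.
`i → i + 1`, `i < m`:
(1) `i ∈ Lt`: `B_{i+1} = B_i` (`par^[l-1] a = i` is impossible, as `l - 1 > 0` and chain vertices
are
not in `Lt`).
(2) `i = par^[l-1] a`, `a ∈ X` (unique `a`, as chains are disjoint).  `p = par^[l] a = par i < i` is
not in `Lt`, so `p ∈ B_i`.  `φ p ≠ ψ a` (`p ≠ a` both in `B_i`).  `Con` for `φ p`, `ψ a`, the
pattern
`w t = s (par^[l-1-t] a)` and the set `Z ∪ φ(B_i)` (at most `m + |Z| ≤ ε n` elements) gives
`z 0 = φ p, …, z l = ψ a`; put `φ (par^[l-t] a) = z t` for `0 < t < l`.  These chain vertices are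
not in
`B_i`: they are `≥ i` (`par^[j] a ≥ par^[l-1] a = i` for `j ≤ l-1`), not in `Pr`, not on another
chain.
Arcs: for the chain vertices and `a` by `Con`.  The other conditions `k ≤ i`: only `k = i` is new,
which is a chain vertex.
(3) `i ∈ Pr`, not case 2: `B_{i+1} = B_i`; the new arc condition is for `k = i`: if `i ∈ X` then
`i = a`, `par^[l-1] a < a = i` (as `l ≥ 2`), so it was already known (`k` on a chain, `j = 0`); if
`i ∉ X` then `par i ∈ Lt`, no condition.
(4) `i` on a chain `par^[j] a`, `0 < j < l - 1`: then `par^[l-1] a < i`, already in `B_i`, arcs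
known.
(5) otherwise (`i ∉ Lt ∪ Pr`, not on a chain; or `i = 0`): `B_{i+1} = B_i ∪ {i}`.  If `i = 0` choose
`φ 0` outside `Z ∪ φ(B_i)`.  If `i > 0` then `par i ∉ Lt` (hypothesis `hLt`), `par i < i`, so
`par i ∈ B_i`; choose `φ i ∈ Nb R (s i) (φ (par i))` outside `Z ∪ φ(B_i)`
(`ζ (n-1) > m + |Z|`, `deg_lo`).  Children of `i` in `B_i`: only `Pr` or chain vertices; a `Pr`
vertex `a ∈ X` has its parent on its chain or (`l ≥ 2`) `par a` is a chain vertex, not `i`;
`p ∈ Pr \ X` has its parent in `Lt`; a chain vertex has its parent on the chain or is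
`par^[l-1] a < i`, impossible for a child of `i`.  So there is no new arc condition except for `i`.
Take `i = m`.
-/

namespace Pool.Agent.Lib.RobT

open Finset

/-- the vertices treated before step `i` -/
private def tB (m l : ℕ) (par : ℕ → ℕ) (Lt Pr X : Finset ℕ) (i k : ℕ) : Prop :=
  k < m ∧ k ∉ Lt ∧ (k < i ∨ k ∈ Pr ∨ ∃ a ∈ X, ∃ j, 0 < j ∧ j < l ∧ par^[j] a = k ∧
    par^[l - 1] a < i)

/-- the vertices whose upper edge is treated before step `i` -/
private def tK (l : ℕ) (par : ℕ → ℕ) (X : Finset ℕ) (i k : ℕ) : Prop :=
  k < i ∨ ∃ a ∈ X, ∃ j, j < l ∧ par^[j] a = k ∧ par^[l - 1] a < i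

private theorem te_lt {m l : ℕ} {par : ℕ → ℕ} (hpar : ∀ i, 0 < i → i < m → par i < i) {a : ℕ}
    (ha : a < m) (h0 : ∀ j < l, par^[j] a ≠ 0) :
    ∀ j ≤ l, par^[j] a < m ∧ ∀ i < j, par^[j] a < par^[i] a := by
  intro j
  induction j with
  | zero => exact fun _ => ⟨ha, fun i hi => absurd hi (Nat.not_lt_zero i)⟩
  | succ j ih =>
    intro hj
    obtain ⟨h1, h2⟩ := ih (by omega)
    have h3 : par^[j + 1] a < par^[j] a := by
      rw [Function.iterate_succ_apply']
      exact hpar _ (Nat.pos_of_ne_zero (h0 j (by omega))) h1
    refine ⟨h3.trans h1, fun i hi => ?_⟩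
    rcases Nat.lt_succ_iff_lt_or_eq.1 hi with h | h
    · exact h3.trans (h2 i h)
    · rw [h]; exact h3

theorem embed_forest {V : Type} [Fintype V] [DecidableEq V] {R : V → V → Prop} {ζ ε : ℝ}
    {l : ℕ} (hl : 2 ≤ l) (hR : IsTour R) (hrob : Rob ζ R) (hcon : Con l ε R)
    (m : ℕ) (par : ℕ → ℕ) (s : ℕ → Bool) (hpar : ∀ i, 0 < i → i < m → par i < i)
    (Lt Pr X : Finset ℕ) (ψ : ℕ → V) (Z : Finset V)
    (hψ : Set.InjOn ψ Pr) (hψZ : ∀ p ∈ Pr, ψ p ∉ Z) (h0P : 0 ∉ Pr) (h0L : 0 ∉ Lt)
    (hPL : Disjoint Pr Lt) (hPm : ∀ p ∈ Pr, p < m) (hXP : X ⊆ Pr)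
    (hc0 : ∀ a ∈ X, ∀ j < l, par^[j] a ≠ 0)
    (hc1 : ∀ a ∈ X, ∀ j, 0 < j → j < l → par^[j] a ∉ Pr ∧ par^[j] a ∉ Lt)
    (hc2 : ∀ a ∈ X, par^[l] a ∉ Lt)
    (hdis : ∀ a ∈ X, ∀ b ∈ X, a ≠ b → ∀ i j, 0 < i → i < l → 0 < j → j < l →
      par^[i] a ≠ par^[j] b)
    (hPX : ∀ p ∈ Pr, p ∉ X → par p ∈ Lt)
    (hLt : ∀ i, 0 < i → i < m → i ∉ Pr → i ∉ Lt → par i ∉ Lt)
    (hs1 : (m : ℝ) + Z.card ≤ ε * Fintype.card V)
    (hs2 : (m : ℝ) + Z.card < ζ * ((Fintype.card V : ℝ) - 1)) :
    ∃ φ : ℕ → V, (∀ p ∈ Pr, φ p = ψ p) ∧ Set.InjOn φ {i | i < m ∧ i ∉ Lt} ∧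
      (∀ i < m, i ∉ Lt → i ∉ Pr → φ i ∉ Z) ∧
      ∀ i, 0 < i → i < m → i ∉ Lt → par i ∉ Lt → Arc R (s i) (φ (par i)) (φ i) := by
  classical
  have hXm : ∀ a ∈ X, a < m := fun a ha => hPm a (hXP ha)
  have hit : ∀ a ∈ X, ∀ j ≤ l, par^[j] a < m ∧ ∀ i < j, par^[j] a < par^[i] a :=
    fun a ha => te_lt hpar (hXm a ha) (hc0 a ha)
  have hinj : ∀ a ∈ X, ∀ i j, i ≤ l → j ≤ l → par^[i] a = par^[j] a → i = j := by
    intro a ha i j hi hj h
    rcases lt_trichotomy i j with h1 | h1 | h1
    · exact absurd h (ne_of_gt ((hit a ha j hj).2 i h1))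
    · exact h1
    · exact absurd h (ne_of_lt ((hit a ha i hi).2 j h1))
  have huniq : ∀ a ∈ X, ∀ b ∈ X, ∀ i j, 0 < i → i < l → 0 < j → j < l →
      par^[i] a = par^[j] b → a = b := by
    intro a ha b hb i j h1 h2 h3 h4 h5
    by_contra hab
    exact hdis a ha b hb hab i j h1 h2 h3 h4 h5
  have hPLt : ∀ p ∈ Pr, p ∉ Lt := fun p hp => Finset.disjoint_left.1 hPL hp
  have main : ∀ i, i ≤ m → ∃ φ : ℕ → V, (∀ p ∈ Pr, φ p = ψ p) ∧
      Set.InjOn φ {k | tB m l par Lt Pr X i k} ∧
      (∀ k, tB m l par Lt Pr X i k → k ∉ Pr → φ k ∉ Z) ∧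
      ∀ k, 0 < k → tB m l par Lt Pr X i k → tB m l par Lt Pr X i (par k) →
        tK l par X i k → Arc R (s k) (φ (par k)) (φ k) := by
    intro i
    induction i with
    | zero =>
      intro _
      have hB0 : ∀ k, tB m l par Lt Pr X 0 k → k ∈ Pr := by
        rintro k ⟨-, -, h | h | ⟨a, -, j, -, -, -, h⟩⟩
        · exact absurd h (Nat.not_lt_zero k)
        · exact h
        · exact absurd h (Nat.not_lt_zero _)
      refine ⟨ψ, fun p _ => rfl, ?_, fun k hk hkP => absurd (hB0 k hk) hkP, ?_⟩
      · intro x hx y hy hxy
        exact hψ (hB0 x hx) (hB0 y hy) hxy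
      · rintro k - - - (h | ⟨a, -, j, -, -, h⟩)
        · exact absurd h (Nat.not_lt_zero k)
        · exact absurd h (Nat.not_lt_zero _)
    | succ i ih =>
      intro him
      obtain ⟨φ, hφ1, hφ2, hφ3, hφ4⟩ := ih (by omega)
      have him' : i < m := by omega
      -- the set of used images
      obtain ⟨U, hU⟩ : ∃ U : Finset V,
          U = Z ∪ ((range m).filter (fun k => tB m l par Lt Pr X i k)).image φ := ⟨_, rfl⟩
      have hUc : (U.card : ℝ) ≤ m + Z.card := by
        have h1 : U.card ≤ Z.card + m := by
          rw [hU]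
          refine (Finset.card_union_le _ _).trans ?_
          have h2 := (Finset.card_image_le
            (s := (range m).filter (fun k => tB m l par Lt Pr X i k)) (f := φ)).trans
            (Finset.card_filter_le _ _)
          rw [Finset.card_range] at h2
          omega
        have h3 : ((U.card : ℕ) : ℝ) ≤ ((Z.card + m : ℕ) : ℝ) := by exact_mod_cast h1
        push_cast at h3
        linarith
      have hUZ : ∀ v, v ∉ U → v ∉ Z := fun v hv h => hv (by rw [hU]; exact mem_union_left _ h)
      have hUφ : ∀ v, v ∉ U → ∀ k, tB m l par Lt Pr X i k → φ k ≠ v := by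
        intro v hv k hk h
        apply hv
        rw [hU]
        refine mem_union_right _ (mem_image.2 ⟨k, ?_, h⟩)
        rw [mem_filter, mem_range]
        exact ⟨hk.1, hk⟩
      by_cases hcase : ∃ a ∈ X, par^[l - 1] a = i
      · -- case 2: a chain is embedded
        obtain ⟨a, ha, hai⟩ := hcase
        have haP := hXP ha
        have hpar_i : par^[l] a = par i := by
          have h1 : l = (l - 1) + 1 := by omega
          conv_lhs => rw [h1]
          rw [Function.iterate_succ_apply', hai]
        have hp_lt : par i < i := by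
          have h1 := (hit a ha l le_rfl).2 (l - 1) (by omega)
          rwa [hpar_i, hai] at h1
        have hpB : tB m l par Lt Pr X i (par i) :=
          ⟨by omega, by rw [← hpar_i]; exact hc2 a ha, Or.inl hp_lt⟩
        have haB : tB m l par Lt Pr X i a := ⟨hXm a ha, hPLt a haP, Or.inr (Or.inl haP)⟩
        have hia : i < a := by
          have h1 := (hit a ha (l - 1) (by omega)).2 0 (by omega)
          rwa [hai] at h1
        have hne : φ (par i) ≠ ψ a := by
          intro h
          have h1 : par i = a := hφ2 hpB haB (by rw [h, hφ1 a haP])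
          omega
        obtain ⟨z, hz0, hzl, hzarc, hzout, hzinj⟩ := hcon (fun t => s (par^[l - 1 - t] a))
          (φ (par i)) (ψ a) hne U (hUc.trans hs1)
        -- chain vertices are above `i`
        have hch_ge : ∀ j, j < l → i ≤ par^[j] a := by
          intro j hj
          rcases Nat.lt_or_ge j (l - 1) with h | h
          · have h1 := (hit a ha (l - 1) (by omega)).2 j h
            omega
          · have h1 : j = l - 1 := by omega
            rw [h1, hai]
        have hch_nB : ∀ j, 0 < j → j < l → ¬ tB m l par Lt Pr X i (par^[j] a) := by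
          rintro j hj0 hjl ⟨-, -, h | h | ⟨b, hb, j', h1, h2, h3, h4⟩⟩
          · have := hch_ge j hjl
            omega
          · exact (hc1 a ha j hj0 hjl).1 h
          · have hba : b = a := huniq b hb a ha j' j h1 h2 hj0 hjl h3
            rw [hba, hai] at h4
            omega
        obtain ⟨φ', hφ'⟩ : ∃ φ' : ℕ → V, φ' = fun k =>
            if h : ∃ j, 0 < j ∧ j < l ∧ par^[j] a = k then z (l - h.choose) else φ k := ⟨_, rfl⟩
        have hφ'c : ∀ j, 0 < j → j < l → φ' (par^[j] a) = z (l - j) := by
          intro j hj0 hjl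
          have hex : ∃ j', 0 < j' ∧ j' < l ∧ par^[j'] a = par^[j] a := ⟨j, hj0, hjl, rfl⟩
          have h1 := hex.choose_spec
          have h2 : hex.choose = j := hinj a ha _ _ (by omega) (by omega) h1.2.2
          rw [hφ']
          simp only [dif_pos hex, h2]
        have hφ'n : ∀ k, (∀ j, 0 < j → j < l → par^[j] a ≠ k) → φ' k = φ k := by
          intro k hk
          rw [hφ']
          have : ¬ ∃ j, 0 < j ∧ j < l ∧ par^[j] a = k := by
            rintro ⟨j, h1, h2, h3⟩
            exact hk j h1 h2 h3
          simp only [dif_neg this]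
        have hφ'B : ∀ k, tB m l par Lt Pr X i k → φ' k = φ k := by
          intro k hk
          apply hφ'n
          rintro j h1 h2 rfl
          exact hch_nB j h1 h2 hk
        -- the new set
        have hBs : ∀ k, tB m l par Lt Pr X (i + 1) k → tB m l par Lt Pr X i k ∨
            ∃ j, 0 < j ∧ j < l ∧ par^[j] a = k := by
          rintro k ⟨h1, h2, h | h | ⟨b, hb, j', h3, h4, h5, h6⟩⟩
          · rcases Nat.lt_succ_iff_lt_or_eq.1 h with h' | h'
            · exact Or.inl ⟨h1, h2, Or.inl h'⟩
            · exact Or.inr ⟨l - 1, by omega, by omega, by rw [hai, h']⟩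
          · exact Or.inl ⟨h1, h2, Or.inr (Or.inl h)⟩
          · rcases Nat.lt_succ_iff_lt_or_eq.1 h6 with h' | h'
            · exact Or.inl ⟨h1, h2, Or.inr (Or.inr ⟨b, hb, j', h3, h4, h5, h'⟩)⟩
            · have hba : b = a := huniq b hb a ha (l - 1) (l - 1) (by omega) (by omega)
                (by omega) (by omega) (by rw [h', hai])
              rw [hba] at h5
              exact Or.inr ⟨j', h3, h4, h5⟩
        have hzt : ∀ j, 0 < j → j < l → z (l - j) ∉ U := fun j h1 h2 =>
          (hzout (l - j) (by omega) (by omega)).1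
        refine ⟨φ', ?_, ?_, ?_, ?_⟩
        · intro p hp
          rw [← hφ1 p hp]
          apply hφ'n
          rintro j h1 h2 rfl
          exact (hc1 a ha j h1 h2).1 hp
        · intro x hx y hy hxy
          rcases hBs x hx with hx' | ⟨jx, hx1, hx2, rfl⟩
          · rcases hBs y hy with hy' | ⟨jy, hy1, hy2, rfl⟩
            · rw [hφ'B x hx', hφ'B y hy'] at hxy
              exact hφ2 hx' hy' hxy
            · rw [hφ'B x hx', hφ'c jy hy1 hy2] at hxy
              exact absurd hxy (hUφ _ (hzt jy hy1 hy2) x hx')
          · rcases hBs y hy with hy' | ⟨jy, hy1, hy2, rfl⟩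
            · rw [hφ'B y hy', hφ'c jx hx1 hx2] at hxy
              exact absurd hxy.symm (hUφ _ (hzt jx hx1 hx2) y hy')
            · rw [hφ'c jx hx1 hx2, hφ'c jy hy1 hy2] at hxy
              have h1 : l - jx = l - jy := hzinj (by simp) (by simp) hxy
              have h2 : jx = jy := by omega
              rw [h2]
        · intro k hk hkP
          rcases hBs k hk with hk' | ⟨j, h1, h2, rfl⟩
          · rw [hφ'B k hk']
            exact hφ3 k hk' hkP
          · rw [hφ'c j h1 h2]
            exact hUZ _ (hzt j h1 h2)
        · intro k hk0 hk hkp hkK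
          by_cases hkc : ∃ j, j < l ∧ par^[j] a = k
          · obtain ⟨j, hj, rfl⟩ := hkc
            have e1 : φ' (par^[j] a) = z (l - j) := by
              rcases Nat.eq_zero_or_pos j with rfl | hj0
              · have h1 : φ' (par^[0] a) = φ a := hφ'B a haB
                rw [h1, hφ1 a haP, Nat.sub_zero, hzl]
              · exact hφ'c j hj0 hj
            have e2 : φ' (par (par^[j] a)) = z (l - (j + 1)) := by
              have e0 : par (par^[j] a) = par^[j + 1] a :=
                (Function.iterate_succ_apply' par j a).symm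
              rw [e0]
              rcases Nat.lt_or_ge (j + 1) l with h | h
              · exact hφ'c (j + 1) (by omega) h
              · have h1 : j + 1 = l := by omega
                rw [h1, hpar_i, hφ'B _ hpB, Nat.sub_self, hz0]
            have h3 := hzarc (l - (j + 1)) (by omega)
            have h4 : l - (j + 1) + 1 = l - j := by omega
            have h5 : l - 1 - (l - (j + 1)) = j := by omega
            simp only [h4, h5] at h3
            rw [e1, e2]
            exact h3
          · have hkn : ∀ j, j < l → par^[j] a ≠ k := fun j h1 h2 => hkc ⟨j, h1, h2⟩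
            have hkB : tB m l par Lt Pr X i k := by
              rcases hBs k hk with h | ⟨j, h1, h2, h3⟩
              · exact h
              · exact absurd h3 (hkn j h2)
            have hkK' : tK l par X i k := by
              rcases hkK with h | ⟨b, hb, j, h1, h2, h3⟩
              · rcases Nat.lt_succ_iff_lt_or_eq.1 h with h' | h'
                · exact Or.inl h'
                · exact absurd (by rw [hai, h']) (hkn (l - 1) (by omega))
              · rcases Nat.lt_succ_iff_lt_or_eq.1 h3 with h' | h'
                · exact Or.inr ⟨b, hb, j, h1, h2, h'⟩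
                · have hba : b = a := huniq b hb a ha (l - 1) (l - 1) (by omega) (by omega)
                    (by omega) (by omega) (by rw [h', hai])
                  rw [hba] at h2
                  exact absurd h2 (hkn j h1)
            have hpk_lt : par k < k := hpar k hk0 hk.1
            have hpkB : tB m l par Lt Pr X i (par k) := by
              rcases hBs _ hkp with h | ⟨j, h1, h2, h3⟩
              · exact h
              · exfalso
                have hge := hch_ge j h2
                rcases hkK' with h | ⟨b, hb, j', h4, h5, h6⟩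
                · omega
                · have hba : b ≠ a := by
                    rintro rfl
                    exact hkn j' h4 h5
                  rcases Nat.lt_or_ge (j' + 1) l with h | h
                  · apply hba
                    apply huniq b hb a ha (j' + 1) j (by omega) h h1 h2
                    rw [Function.iterate_succ_apply', h5, h3]
                  · have h7 : j' = l - 1 := by omega
                    rw [h7] at h5
                    omega
            rw [hφ'B k hkB, hφ'B _ hpkB]
            exact hφ4 k hk0 hkB hpkB hkK'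
      · -- no chain has its top at `i`
        have hnt : ∀ a ∈ X, par^[l - 1] a ≠ i := fun a ha h => hcase ⟨a, ha, h⟩
        have hBs : ∀ k, tB m l par Lt Pr X (i + 1) k → tB m l par Lt Pr X i k ∨ k = i := by
          rintro k ⟨h1, h2, h | h | ⟨b, hb, j', h3, h4, h5, h6⟩⟩
          · rcases Nat.lt_succ_iff_lt_or_eq.1 h with h' | h'
            · exact Or.inl ⟨h1, h2, Or.inl h'⟩
            · exact Or.inr h'
          · exact Or.inl ⟨h1, h2, Or.inr (Or.inl h)⟩
          · rcases Nat.lt_succ_iff_lt_or_eq.1 h6 with h' | h'
            · exact Or.inl ⟨h1, h2, Or.inr (Or.inr ⟨b, hb, j', h3, h4, h5, h'⟩)⟩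
            · exact absurd h' (hnt b hb)
        have hKs : ∀ k, tK l par X (i + 1) k → tK l par X i k ∨ k = i := by
          rintro k (h | ⟨b, hb, j, h1, h2, h3⟩)
          · rcases Nat.lt_succ_iff_lt_or_eq.1 h with h' | h'
            · exact Or.inl (Or.inl h')
            · exact Or.inr h'
          · rcases Nat.lt_succ_iff_lt_or_eq.1 h3 with h' | h'
            · exact Or.inl (Or.inr ⟨b, hb, j, h1, h2, h'⟩)
            · exact absurd h' (hnt b hb)
        by_cases hiB : i ∈ Lt ∨ tB m l par Lt Pr X i i
        · -- nothing to do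
          have hBs' : ∀ k, tB m l par Lt Pr X (i + 1) k → tB m l par Lt Pr X i k := by
            intro k hk
            rcases hBs k hk with h | h
            · exact h
            · rcases hiB with h' | h'
              · exact absurd h' (by rw [← h]; exact hk.2.1)
              · rw [h]; exact h'
          refine ⟨φ, hφ1, fun x hx y hy hxy => hφ2 (hBs' x hx) (hBs' y hy) hxy,
            fun k hk => hφ3 k (hBs' k hk), ?_⟩
          intro k hk0 hk hkp hkK
          refine hφ4 k hk0 (hBs' k hk) (hBs' _ hkp) ?_
          rcases hKs k hkK with h | h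
          · exact h
          · rw [h] at hk hkp ⊢
            rcases (hBs' i hk).2.2 with h' | h' | ⟨b, hb, j', h3, h4, h5, h6⟩
            · exact absurd h' (lt_irrefl i)
            · by_cases hiX : i ∈ X
              · right
                refine ⟨i, hiX, 0, by omega, rfl, ?_⟩
                exact (hit i hiX (l - 1) (by omega)).2 0 (by omega)
              · exact absurd (hPX i h' hiX) hkp.2.1
            · exact Or.inr ⟨b, hb, j', h4, h5, h6⟩
        · -- a new vertex
          rw [not_or] at hiB
          obtain ⟨hiL, hiB⟩ := hiB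
          have hnch : ∀ b ∈ X, ∀ j, 0 < j → j < l → par^[j] b ≠ i := by
            intro b hb j h1 h2 h3
            apply hiB
            refine ⟨him', hiL, Or.inr (Or.inr ⟨b, hb, j, h1, h2, h3, ?_⟩)⟩
            rcases Nat.lt_or_ge j (l - 1) with h | h
            · have h4 := (hit b hb (l - 1) (by omega)).2 j h
              omega
            · exact absurd (by rw [← h3]; congr 1; omega) (hnt b hb)
          have hx : ∃ x, x ∈ Nb R (s i) (φ (par i)) ∧ x ∉ U := by
            by_contra hno
            push Not at hno
            have h1 : (Nb R (s i) (φ (par i))).card ≤ U.card := Finset.card_le_card hno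
            have h2 := deg_lo hR hrob (s i) (φ (par i))
            have h3 : ((Nb R (s i) (φ (par i))).card : ℝ) ≤ (U.card : ℝ) := by exact_mod_cast h1
            linarith
          obtain ⟨x, hxN, hxU⟩ := hx
          have hxarc : Arc R (s i) (φ (par i)) x := by
            unfold Nb at hxN
            exact (mem_filter.1 hxN).2
          have hupd : ∀ k, tB m l par Lt Pr X i k → Function.update φ i x k = φ k := by
            intro k hk
            apply Function.update_of_ne
            rintro rfl
            exact hiB hk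
          have hupi : Function.update φ i x i = x := Function.update_self _ _ _
          refine ⟨Function.update φ i x, ?_, ?_, ?_, ?_⟩
          · intro p hp
            rw [hupd p ⟨hPm p hp, hPLt p hp, Or.inr (Or.inl hp)⟩, hφ1 p hp]
          · intro u hu v hv huv
            rcases hBs u hu with hu' | rfl
            · rcases hBs v hv with hv' | rfl
              · rw [hupd u hu', hupd v hv'] at huv
                exact hφ2 hu' hv' huv
              · rw [hupd u hu', hupi] at huv
                exact absurd huv (hUφ x hxU u hu')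
            · rcases hBs v hv with hv' | rfl
              · rw [hupd v hv', hupi] at huv
                exact absurd huv.symm (hUφ x hxU v hv')
              · rfl
          · intro k hk hkP
            rcases hBs k hk with hk' | rfl
            · rw [hupd k hk']
              exact hφ3 k hk' hkP
            · rw [hupi]
              exact hUZ x hxU
          · intro k hk0 hk hkp hkK
            have hpk_lt : par k < k := hpar k hk0 hk.1
            rcases eq_or_ne k i with hki | hki
            · rw [hki] at hpk_lt ⊢
              rw [hupi, Function.update_of_ne (by omega)]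
              exact hxarc
            · have hkB : tB m l par Lt Pr X i k := (hBs k hk).resolve_right hki
              have hkK' : tK l par X i k := (hKs k hkK).resolve_right hki
              have hpki : par k ≠ i := by
                intro h
                rcases hkK' with h' | ⟨b, hb, j, h1, h2, h3⟩
                · omega
                · rcases Nat.lt_or_ge (j + 1) l with h4 | h4
                  · apply hnch b hb (j + 1) (by omega) h4
                    rw [Function.iterate_succ_apply', h2, h]
                  · have h5 : j = l - 1 := by omega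
                    rw [h5] at h2
                    omega
              have hpkB : tB m l par Lt Pr X i (par k) := (hBs _ hkp).resolve_right hpki
              rw [hupd k hkB, hupd _ hpkB]
              exact hφ4 k hk0 hkB hpkB hkK'
  obtain ⟨φ, h1, h2, h3, h4⟩ := main m le_rfl
  have hB : ∀ k, k < m → k ∉ Lt → tB m l par Lt Pr X m k := fun k hk hk' =>
    ⟨hk, hk', Or.inl hk⟩
  refine ⟨φ, h1, ?_, fun i hi hi' => h3 i (hB i hi hi'), ?_⟩
  · rintro x ⟨hx1, hx2⟩ y ⟨hy1, hy2⟩ hxy
    exact h2 (hB x hx1 hx2) (hB y hy1 hy2) hxy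
  · intro i hi0 him hiL hpL
    exact h4 i hi0 (hB i him hiL) (hB _ ((hpar i hi0 him).trans him) hpL) (Or.inl him)

end Pool.Agent.Lib.RobT
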