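import Pool.Agent.Lib.RobT.Defs

/-!
# Ts: many disjoint sinks, sources or directed bare paths (about 300 lines)

`CH x` = the set of children of `x`.  Number of vertices `x` with `par^[j] x = z` and
`par^[i] x ≠ 0` for `i < j`: at most `Δ^j` (induction); in the following: descendants of `z` within
`h` levels, at most `(Δ+1)^h`.
NONSMOOTH vertices: `0 < x < m` which do not have exactly one child `y` with `s y = s x`.
A nonsmooth `x` is either a LEAF (no child), or BRANCHING (at least two children), or TURNING (one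
child `y`, `s y = ! s x`).  Leaves and turning vertices satisfy `Snk m par s (s x) x`.  The number
of
branching vertices is at most the number of leaves: `m - 1 = ∑_{x < m} |CH x|`, so
`#branching ≤ #leaves` (`∑_{x<m} (|CH x| - 1) = -1`; the leaves contribute `-1`, branching
vertices at
least `1`, the others `≥ 0` except possibly the root if `m = 1`; `m ≥ 2`: the root has a child).
So `#nonsmooth ≤ 2 #{x | ∃ σ, Snk σ x}`.
CASE A: `#{0 < x < m | ∃ σ, Snk σ x} ≥ β' m`.  Some `σ` has `≥ β' m/2` of them, at most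
`(Δ+1)^(l+1)`
have `par^[j] x = 0` for some `j ≤ l`, so at least `β' m/3` remain (`m` large).  The set
`US m par l x` has at most `Δ + l + 1` elements and every vertex `z` is in `US m par l x` for at
most
`1 + (Δ+1)^(l+1)` vertices `x` (`x = par z` or `x` a descendant of `z` within `l` levels).  So a
maximal subset `X` of pairwise disjoint ones has at least
`β' m/(3 (Δ+l+1)(1 + (Δ+1)^(l+1)))` elements.
CASE B: otherwise.  A vertex `0 < x < m` is BAD if some `par^[j] x`, `j ≤ L + l`, is `0` or
nonsmooth.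
Number of bad vertices: at most `(2 β' m + 1)(Δ+1)^(L+l+1) ≤ m/2` for
`β' = (Δ+1)^(-(L+l+1))/8`, `m` large.  If `x` is not bad then `par^[j+1] x` has the unique child
`par^[j] x` and `s (par^[j+1] x) = s (par^[j] x)` for `j + 1 ≤ L + l`; so `VPath m par s (s x) L x`
and `par^[j] x ≠ 0` for `j < L - 1 + l`.  Some `σ` has at least `m/5` such `x`; the sets
`UP par l L x` have at most `L + l` elements and every `z` is in at most `(Δ+1)^(L+l)` of them.
Take
a maximal subset with pairwise disjoint sets.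
-/

namespace Pool.Agent.Lib.RobT

open Finset

/-- All arcs at `x` are directed to `x` (`σ = true`) or all from `x` (`σ = false`). -/
def Snk (m : ℕ) (par : ℕ → ℕ) (s : ℕ → Bool) (σ : Bool) (x : ℕ) : Prop :=
  s x = σ ∧ ∀ y, 0 < y → y < m → par y = x → s y = !σ

/-- `x, par x, …, par^[L-1] x` is a bare path (from below), directed to `x` (`σ = true`) or from `x`
(`σ = false`). -/
def VPath (m : ℕ) (par : ℕ → ℕ) (s : ℕ → Bool) (σ : Bool) (L x : ℕ) : Prop :=
  ∀ j, j + 1 < L → s (par^[j] x) = σ ∧
    ∀ y, 0 < y → y < m → par y = par^[j + 1] x → y = par^[j] x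

/-- The children of `x`. -/
def CH (m : ℕ) (par : ℕ → ℕ) (x : ℕ) : Finset ℕ := (range m).filter fun y => 0 < y ∧ par y = x

/-- The children of `x`, `x` and its `l` next ancestors. -/
def US (m : ℕ) (par : ℕ → ℕ) (l x : ℕ) : Finset ℕ :=
  CH m par x ∪ (range (l + 1)).image fun j => par^[j] x

/-- `x` and its `L + l - 2` next ancestors. -/
def UP (par : ℕ → ℕ) (l L x : ℕ) : Finset ℕ := (range (L - 1 + l)).image fun j => par^[j] x

open Classical in
private theorem greedy (Y : Finset ℕ) (U : ℕ → Finset ℕ) (a b : ℕ) (hself : ∀ x ∈ Y, x ∈ U x)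
    (ha : ∀ x ∈ Y, (U x).card ≤ a) (hb : ∀ z, (Y.filter fun x => z ∈ U x).card ≤ b) :
    ∃ X ⊆ Y, (∀ x ∈ X, ∀ y ∈ X, x ≠ y → Disjoint (U x) (U y)) ∧
      Y.card ≤ X.card * (a * b) := by
  obtain ⟨Q, hQ⟩ : ∃ Q : Finset ℕ → Prop, ∀ X, Q X ↔
      ∀ x ∈ X, ∀ y ∈ X, x ≠ y → Disjoint (U x) (U y) := ⟨_, fun _ => Iff.rfl⟩
  obtain ⟨X, hX, hmax⟩ := Finset.exists_max_image (Y.powerset.filter Q) Finset.card
    ⟨∅, by rw [mem_filter, hQ]; simp⟩
  rw [mem_filter, mem_powerset, hQ] at hX
  refine ⟨X, hX.1, hX.2, ?_⟩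
  have hsub : Y ⊆ X.biUnion fun y => (U y).biUnion fun z => Y.filter fun x => z ∈ U x := by
    intro x hx
    by_contra hcon0
    have hcon : ∀ y ∈ X, x ∉ (U y).biUnion fun z => Y.filter fun x => z ∈ U x := by
      intro y hy hxy
      exact hcon0 (mem_biUnion.2 ⟨y, hy, hxy⟩)
    have hxX : x ∉ X := by
      intro h
      exact hcon x h (mem_biUnion.2 ⟨x, hself x hx, mem_filter.2 ⟨hx, hself x hx⟩⟩)
    have hdis : ∀ y ∈ X, Disjoint (U x) (U y) := by
      intro y hy
      rw [Finset.disjoint_left]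
      intro z hz1 hz2
      exact hcon y hy (mem_biUnion.2 ⟨z, hz2, mem_filter.2 ⟨hx, hz1⟩⟩)
    have := hmax (insert x X) (by
      rw [mem_filter, mem_powerset, hQ]
      refine ⟨insert_subset hx hX.1, ?_⟩
      intro u hu v hv huv
      rw [mem_insert] at hu hv
      rcases hu with rfl | hu <;> rcases hv with rfl | hv
      · exact absurd rfl huv
      · exact hdis v hv
      · exact (hdis u hu).symm
      · exact hX.2 u hu v hv huv)
    rw [card_insert_of_notMem hxX] at this
    omega
  calc Y.card ≤ _ := card_le_card hsub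
    _ ≤ X.card * (a * b) := by
      refine card_biUnion_le_card_mul _ _ _ fun y hy => ?_
      refine (card_biUnion_le_card_mul _ _ b fun z _ => hb z).trans ?_
      exact Nat.mul_le_mul_right b (ha y (hX.1 hy))

open Classical in
private theorem desc {m Δ : ℕ} {par : ℕ → ℕ} (h : RT m Δ par) (z : ℕ) : ∀ j : ℕ,
    ((range m).filter fun x => par^[j] x = z ∧ ∀ i < j, par^[i] x ≠ 0).card ≤ Δ ^ j := by
  intro j
  induction j with
  | zero =>
    rw [pow_zero]
    refine (card_le_card (t := {z}) ?_).trans (by simp)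
    intro x hx
    rw [mem_filter] at hx
    rw [mem_singleton]
    exact hx.2.1
  | succ j ih =>
    have hsub : ((range m).filter fun x => par^[j + 1] x = z ∧ ∀ i < j + 1, par^[i] x ≠ 0) ⊆
        ((range m).filter fun x => par^[j] x = z ∧ ∀ i < j, par^[i] x ≠ 0).biUnion
          fun y => (range m).filter fun x => 0 < x ∧ par x = y := by
      intro x hx
      rw [mem_filter, mem_range] at hx
      obtain ⟨hxm, hx1, hx2⟩ := hx
      have hx0 : 0 < x := Nat.pos_of_ne_zero (hx2 0 (Nat.succ_pos j))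
      rw [mem_biUnion]
      refine ⟨par x, ?_, ?_⟩
      · rw [mem_filter, mem_range]
        refine ⟨(h.lt x hx0 hxm).trans hxm, hx1, ?_⟩
        intro i hi
        exact hx2 (i + 1) (by omega)
      · rw [mem_filter, mem_range]
        exact ⟨hxm, hx0, rfl⟩
    refine (card_le_card hsub).trans ?_
    refine (card_biUnion_le_card_mul _ _ Δ fun y _ => ?_).trans ?_
    · convert h.deg y
    · rw [pow_succ]
      exact Nat.mul_le_mul_right Δ ih

open Classical in
private theorem hit {m Δ : ℕ} {par : ℕ → ℕ} (h : RT m Δ par) (B : Finset ℕ) (h0 : 0 ∈ B)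
    (n : ℕ) : ((range m).filter fun x => ∃ j < n, par^[j] x ∈ B).card ≤
      B.card * ∑ j ∈ range n, Δ ^ j := by
  have hsub : ((range m).filter fun x => ∃ j < n, par^[j] x ∈ B) ⊆
      B.biUnion fun z => (range n).biUnion fun j =>
        (range m).filter fun x => par^[j] x = z ∧ ∀ i < j, par^[i] x ≠ 0 := by
    intro x hx
    rw [mem_filter] at hx
    obtain ⟨hxm, hx1⟩ := hx
    have hex : ∃ j, j < n ∧ par^[j] x ∈ B := hx1
    obtain ⟨hj1, hj2⟩ := Nat.find_spec hex
    refine mem_biUnion.2 ⟨par^[Nat.find hex] x, hj2, mem_biUnion.2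
      ⟨Nat.find hex, mem_range.2 hj1, mem_filter.2 ⟨hxm, rfl, ?_⟩⟩⟩
    intro i hi hi0
    exact Nat.find_min hex hi ⟨hi.trans hj1, by rw [hi0]; exact h0⟩
  refine (card_le_card hsub).trans (card_biUnion_le_card_mul _ _ _ fun z _ => ?_)
  exact card_biUnion_le.trans (sum_le_sum fun j _ => desc h z j)

open Classical in
private theorem hit1 {m Δ : ℕ} {par : ℕ → ℕ} (h : RT m Δ par) (z n : ℕ) :
    ((range m).filter fun x => (∃ j < n, par^[j] x = z) ∧ ∀ i < n, par^[i] x ≠ 0).card ≤
      ∑ j ∈ range n, Δ ^ j := by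
  have hsub : ((range m).filter fun x => (∃ j < n, par^[j] x = z) ∧ ∀ i < n, par^[i] x ≠ 0) ⊆
      (range n).biUnion fun j =>
        (range m).filter fun x => par^[j] x = z ∧ ∀ i < j, par^[i] x ≠ 0 := by
    intro x hx
    rw [mem_filter] at hx
    obtain ⟨hxm, ⟨j, hj, hjz⟩, hx1⟩ := hx
    exact mem_biUnion.2 ⟨j, mem_range.2 hj, mem_filter.2 ⟨hxm, hjz, fun i hi => hx1 i
      (hi.trans hj)⟩⟩
  refine (card_le_card hsub).trans ?_
  exact card_biUnion_le.trans (sum_le_sum fun j _ => desc h z j)

private theorem sumCH {m Δ : ℕ} {par : ℕ → ℕ} (h : RT m Δ par) (hm : 1 ≤ m) :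
    ∑ x ∈ range m, (CH m par x).card + 1 = m := by
  have h1 : ((range m).filter fun y => 0 < y).card = ∑ x ∈ range m, (CH m par x).card := by
    rw [Finset.card_eq_sum_card_fiberwise (f := par) (t := range m)]
    · refine sum_congr rfl fun x _ => ?_
      congr 1
      ext y
      simp only [CH, mem_filter]
      tauto
    · intro y hy
      rw [Finset.mem_coe, mem_filter, mem_range] at hy
      rw [Finset.mem_coe, mem_range]
      exact (h.lt y hy.2 hy.1).trans hy.1
  have h2 : (range m).filter (fun y => 0 < y) = (range m).erase 0 := by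
    ext y
    simp only [mem_filter, mem_range, mem_erase]
    omega
  rw [← h1, h2, card_erase_of_mem (mem_range.2 hm), card_range]
  omega

open Classical in
/-- branching vertices are fewer than leaves. -/
private theorem branch {m Δ : ℕ} {par : ℕ → ℕ} (h : RT m Δ par) (hm : 1 ≤ m) :
    ((range m).filter fun x => 2 ≤ (CH m par x).card).card ≤
      ((range m).filter fun x => (CH m par x).card = 0).card := by
  have h1 : ∑ x ∈ range m, (1 + if 2 ≤ (CH m par x).card then 1 else 0) ≤
      ∑ x ∈ range m, ((CH m par x).card + if (CH m par x).card = 0 then 1 else 0) := by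
    refine sum_le_sum fun x _ => ?_
    split_ifs <;> omega
  rw [sum_add_distrib, sum_add_distrib, ← card_filter, ← card_filter, sum_const, card_range] at h1
  have h2 := sumCH h hm
  simp only [smul_eq_mul, mul_one] at h1
  omega

open Classical in
/-- nonsmooth vertices. -/
private theorem nonsmooth {m Δ : ℕ} {par : ℕ → ℕ} (h : RT m Δ par) (hm : 1 ≤ m)
    (s : ℕ → Bool) :
    ((range m).filter fun x => ¬ ((CH m par x).card = 1 ∧ ∀ y ∈ CH m par x, s y = s x)).card ≤
      2 * ((range m).filter fun x => ∃ σ, Snk m par s σ x).card := by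
  have hsub : ((range m).filter fun x =>
      ¬ ((CH m par x).card = 1 ∧ ∀ y ∈ CH m par x, s y = s x)) ⊆
      ((range m).filter fun x => ∃ σ, Snk m par s σ x) ∪
      ((range m).filter fun x => 2 ≤ (CH m par x).card) := by
    intro x hx
    rw [mem_filter] at hx
    obtain ⟨hxm, hx⟩ := hx
    by_cases hc : 2 ≤ (CH m par x).card
    · exact mem_union_right _ (mem_filter.2 ⟨hxm, hc⟩)
    · refine mem_union_left _ (mem_filter.2 ⟨hxm, s x, rfl, ?_⟩)
      intro y hy1 hy2 hy3
      have hyC : y ∈ CH m par x := mem_filter.2 ⟨mem_range.2 hy2, hy1, hy3⟩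
      have hpos : 0 < (CH m par x).card := card_pos.2 ⟨y, hyC⟩
      have hc1 : (CH m par x).card = 1 := by omega
      obtain ⟨w, hw⟩ := card_eq_one.1 hc1
      rw [hw, mem_singleton] at hyC
      subst hyC
      have hne : s y ≠ s x := by
        intro hsy
        apply hx
        refine ⟨hc1, ?_⟩
        intro y' hy'
        rw [hw, mem_singleton] at hy'
        rw [hy']
        exact hsy
      cases hsy : s y <;> cases hsx : s x <;> simp_all
  have hleaf : ((range m).filter fun x => (CH m par x).card = 0).card ≤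
      ((range m).filter fun x => ∃ σ, Snk m par s σ x).card := by
    refine card_le_card fun x hx => ?_
    rw [mem_filter] at hx
    refine mem_filter.2 ⟨hx.1, s x, rfl, ?_⟩
    intro y hy1 hy2 hy3
    have hyC : y ∈ CH m par x := mem_filter.2 ⟨mem_range.2 hy2, hy1, hy3⟩
    rw [card_eq_zero] at hx
    rw [hx.2] at hyC
    exact absurd hyC (notMem_empty y)
  have h1 := (card_le_card hsub).trans (card_union_le _ _)
  have h2 := branch h hm
  omega

/-- ancestors stay below `m`. -/
private theorem anc_lt {m Δ : ℕ} {par : ℕ → ℕ} (h : RT m Δ par) {x : ℕ} (hx : x < m) (n : ℕ)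
    (hn : ∀ j < n, par^[j] x ≠ 0) : ∀ j ≤ n, par^[j] x < m := by
  intro j
  induction j with
  | zero => intro _; exact hx
  | succ j ih =>
    intro hj
    rw [Function.iterate_succ_apply']
    exact (h.lt _ (Nat.pos_of_ne_zero (hn j (by omega))) (ih (by omega))).trans (ih (by omega))

open Classical in
private theorem core (Δ l L : ℕ) (hL : 3 ≤ L) (hl : 1 ≤ l) (K : ℕ)
    (hK : K = ∑ j ∈ range (L + l + 1), Δ ^ j) (m : ℕ) (par : ℕ → ℕ) (s : ℕ → Bool)
    (hm : 16 * K ^ 2 ≤ m) (hm1 : 1 ≤ m) (h : RT m Δ par) : ∃ σ : Bool,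
      (∃ X : Finset ℕ, (∀ x ∈ X, x < m) ∧
        m ≤ (32 * K * ((Δ + l + 1) * (1 + K)) + 4 * ((L - 1 + l) * K)) * X.card ∧
        (∀ x ∈ X, Snk m par s σ x ∧ ∀ j ≤ l, par^[j] x ≠ 0) ∧
        (∀ x ∈ X, ∀ y ∈ X, x ≠ y → Disjoint (US m par l x) (US m par l y))) ∨
      (∃ X : Finset ℕ, (∀ x ∈ X, x < m) ∧
        m ≤ (32 * K * ((Δ + l + 1) * (1 + K)) + 4 * ((L - 1 + l) * K)) * X.card ∧
        (∀ x ∈ X, VPath m par s σ L x ∧ ∀ j < L - 1 + l, par^[j] x ≠ 0) ∧
        (∀ x ∈ X, ∀ y ∈ X, x ≠ y → Disjoint (UP par l L x) (UP par l L y))) := by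
  have hKn : ∀ n ≤ L + l + 1, ∑ j ∈ range n, Δ ^ j ≤ K := by
    intro n hn
    rw [hK]
    exact sum_le_sum_of_subset (range_subset_range.2 hn)
  have hK1 : 1 ≤ K := by
    have := hKn 1 (by omega)
    simpa using this
  set Z := (range m).filter fun x => ∃ σ, Snk m par s σ x with hZ
  by_cases hcase : m ≤ 8 * K * Z.card
  · -- many sinks
    set Y : Bool → Finset ℕ := fun σ => (range m).filter fun x => Snk m par s σ x ∧
      ∀ j ≤ l, par^[j] x ≠ 0 with hY
    have hsub : Z ⊆ Y true ∪ Y false ∪ ((range m).filter fun x =>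
        ∃ j < l + 1, par^[j] x ∈ ({0} : Finset ℕ)) := by
      intro x hx
      rw [hZ, mem_filter] at hx
      obtain ⟨hxm, σ, hσ⟩ := hx
      by_cases hb : ∀ j ≤ l, par^[j] x ≠ 0
      · refine mem_union_left _ ?_
        cases σ
        · exact mem_union_right _ (mem_filter.2 ⟨hxm, hσ, hb⟩)
        · exact mem_union_left _ (mem_filter.2 ⟨hxm, hσ, hb⟩)
      · refine mem_union_right _ (mem_filter.2 ⟨hxm, ?_⟩)
        push Not at hb
        obtain ⟨j, hj, hj0⟩ := hb
        exact ⟨j, by omega, by rw [hj0]; exact mem_singleton_self 0⟩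
    have hc := (card_le_card hsub).trans (card_union_le _ _)
    have hc2 := card_union_le (Y true) (Y false)
    have hc3 := hit h {0} (mem_singleton_self 0) (l + 1)
    have hc4 := hKn (l + 1) (by omega)
    rw [card_singleton, one_mul] at hc3
    have hc5 : Z.card ≤ (Y true).card + (Y false).card + K := by omega
    obtain ⟨σ, hσ⟩ : ∃ σ, Z.card ≤ 2 * (Y σ).card + K := by
      by_cases ht : (Y false).card ≤ (Y true).card
      · exact ⟨true, by omega⟩
      · exact ⟨false, by omega⟩
    refine ⟨σ, Or.inl ?_⟩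
    obtain ⟨X, hXY, hdis, hcard⟩ := greedy (Y σ) (US m par l) (Δ + l + 1) (1 + K)
      (by
        intro x _
        exact mem_union_right _ (mem_image.2 ⟨0, mem_range.2 (Nat.succ_pos l), rfl⟩))
      (by
        intro x _
        refine (card_union_le _ _).trans ?_
        have e1 : (CH m par x).card ≤ Δ := h.deg x
        have e2 : ((range (l + 1)).image fun j => par^[j] x).card ≤ l + 1 :=
          card_image_le.trans (by rw [card_range])
        omega)
      (by
        intro z
        have hs : ((Y σ).filter fun x => z ∈ US m par l x) ⊆ {par z} ∪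
            ((range m).filter fun x => (∃ j < l + 1, par^[j] x = z) ∧
              ∀ i < l + 1, par^[i] x ≠ 0) := by
          intro x hx
          rw [mem_filter] at hx
          obtain ⟨hxY, hxz⟩ := hx
          rw [hY, mem_filter] at hxY
          rcases mem_union.1 hxz with h1 | h1
          · refine mem_union_left _ (mem_singleton.2 ?_)
            exact (mem_filter.1 h1).2.2.symm
          · refine mem_union_right _ (mem_filter.2 ⟨hxY.1, ?_, ?_⟩)
            · obtain ⟨j, hj, hjz⟩ := mem_image.1 h1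
              exact ⟨j, mem_range.1 hj, hjz⟩
            · intro i hi
              exact hxY.2.2 i (by omega)
        refine (card_le_card hs).trans ((card_union_le _ _).trans ?_)
        have e1 := hit1 h z (l + 1)
        rw [card_singleton]
        omega)
    refine ⟨X, fun x hx => mem_range.1 (mem_filter.1 (hXY hx)).1, ?_,
      fun x hx => (mem_filter.1 (hXY hx)).2, hdis⟩
    have e1 : m ≤ 8 * K * (2 * (Y σ).card + K) := hcase.trans (Nat.mul_le_mul_left _ hσ)
    have e2 : m ≤ 32 * K * (Y σ).card := by nlinarith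
    calc m ≤ 32 * K * (Y σ).card := e2
      _ ≤ 32 * K * (X.card * ((Δ + l + 1) * (1 + K))) := Nat.mul_le_mul_left _ hcard
      _ = 32 * K * ((Δ + l + 1) * (1 + K)) * X.card := by ring
      _ ≤ _ := Nat.mul_le_mul_right _ (Nat.le_add_right _ _)
  · -- bare paths
    push Not at hcase
    set NS := (range m).filter fun x =>
      ¬ ((CH m par x).card = 1 ∧ ∀ y ∈ CH m par x, s y = s x) with hNS
    have hns : NS.card ≤ 2 * Z.card := nonsmooth h hm1 s
    set Y : Bool → Finset ℕ := fun σ => (range m).filter fun x => s x = σ ∧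
      ∀ j < L + l + 1, par^[j] x ∉ insert 0 NS with hY
    have hsub : range m ⊆ Y true ∪ Y false ∪ ((range m).filter fun x =>
        ∃ j < L + l + 1, par^[j] x ∈ insert 0 NS) := by
      intro x hxm
      by_cases hb : ∃ j < L + l + 1, par^[j] x ∈ insert 0 NS
      · exact mem_union_right _ (mem_filter.2 ⟨hxm, hb⟩)
      · refine mem_union_left _ ?_
        have hb' : ∀ j < L + l + 1, par^[j] x ∉ insert 0 NS := fun j hj hjn => hb ⟨j, hj, hjn⟩
        cases hsx : s x
        · exact mem_union_right _ (mem_filter.2 ⟨hxm, hsx, hb'⟩)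
        · exact mem_union_left _ (mem_filter.2 ⟨hxm, hsx, hb'⟩)
    have hc := (card_le_card hsub).trans (card_union_le _ _)
    have hc2 := card_union_le (Y true) (Y false)
    have hc3 := hit h (insert 0 NS) (mem_insert_self 0 NS) (L + l + 1)
    rw [← hK] at hc3
    have hc4 := card_insert_le 0 NS
    rw [card_range] at hc
    have hc5 : (insert 0 NS).card * K ≤ (2 * Z.card + 1) * K :=
      Nat.mul_le_mul_right _ (by omega)
    have hc6 : m ≤ (Y true).card + (Y false).card + (2 * Z.card + 1) * K := by omega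
    have hKm : 16 * K ≤ m := by nlinarith
    have hc7 : m ≤ 2 * ((Y true).card + (Y false).card) := by nlinarith
    obtain ⟨σ, hσ⟩ : ∃ σ, m ≤ 4 * (Y σ).card := by
      by_cases ht : (Y false).card ≤ (Y true).card
      · exact ⟨true, by omega⟩
      · exact ⟨false, by omega⟩
    refine ⟨σ, Or.inr ?_⟩
    have hne0 : ∀ x ∈ Y σ, ∀ j < L + l + 1, par^[j] x ≠ 0 := by
      intro x hx j hj h0
      exact (mem_filter.1 hx).2.2 j hj (by rw [h0]; exact mem_insert_self 0 NS)
    obtain ⟨X, hXY, hdis, hcard⟩ := greedy (Y σ) (UP par l L) (L - 1 + l) K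
      (by
        intro x _
        exact mem_image.2 ⟨0, mem_range.2 (by omega), rfl⟩)
      (by
        intro x _
        exact card_image_le.trans (by rw [card_range]))
      (by
        intro z
        have hs : ((Y σ).filter fun x => z ∈ UP par l L x) ⊆
            ((range m).filter fun x => (∃ j < L - 1 + l, par^[j] x = z) ∧
              ∀ i < L - 1 + l, par^[i] x ≠ 0) := by
          intro x hx
          rw [mem_filter] at hx
          obtain ⟨hxY, hxz⟩ := hx
          refine mem_filter.2 ⟨(mem_filter.1 hxY).1, ?_, ?_⟩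
          · obtain ⟨j, hj, hjz⟩ := mem_image.1 hxz
            exact ⟨j, mem_range.1 hj, hjz⟩
          · intro i hi
            exact hne0 x hxY i (by omega)
        exact (card_le_card hs).trans ((hit1 h z _).trans (hKn _ (by omega))))
    have hlast : ∀ x ∈ X, VPath m par s σ L x ∧ ∀ j < L - 1 + l, par^[j] x ≠ 0 := by
      intro x hx
      have hxY := hXY hx
      have hx0 := hne0 x hxY
      have hxm : x < m := mem_range.1 (mem_filter.1 hxY).1
      refine ⟨?_, fun j hj => hx0 j (by omega)⟩
      have hanc := anc_lt h hxm (L + l) (fun j hj => hx0 j (by omega))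
      have hkey : ∀ j, j + 1 < L + l + 1 → (CH m par (par^[j + 1] x)).card = 1 ∧
          ∀ y ∈ CH m par (par^[j + 1] x), s y = s (par^[j + 1] x) := by
        intro j hj
        by_contra hcon
        refine (mem_filter.1 hxY).2.2 (j + 1) hj (mem_insert_of_mem ?_)
        rw [hNS, mem_filter]
        exact ⟨mem_range.2 (hanc (j + 1) (by omega)), hcon⟩
      have hchild : ∀ j, j + 1 < L + l + 1 → par^[j] x ∈ CH m par (par^[j + 1] x) := by
        intro j hj
        refine mem_filter.2 ⟨mem_range.2 (hanc j (by omega)),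
          Nat.pos_of_ne_zero (hx0 j (by omega)), ?_⟩
        rw [Function.iterate_succ_apply']
      have hsj : ∀ j, j < L + l + 1 → s (par^[j] x) = σ := by
        intro j
        induction j with
        | zero => intro _; exact (mem_filter.1 hxY).2.1
        | succ j ih =>
          intro hj
          rw [← (hkey j hj).2 _ (hchild j hj)]
          exact ih (by omega)
      intro j hj
      refine ⟨hsj j (by omega), ?_⟩
      intro y hy1 hy2 hy3
      obtain ⟨w, hw⟩ := card_eq_one.1 (hkey j (by omega)).1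
      have hyC : y ∈ CH m par (par^[j + 1] x) := mem_filter.2 ⟨mem_range.2 hy2, hy1, hy3⟩
      have hjC := hchild j (by omega)
      rw [hw, mem_singleton] at hyC hjC
      rw [hyC, hjC]
    refine ⟨X, fun x hx => mem_range.1 (mem_filter.1 (hXY hx)).1, ?_, hlast, hdis⟩
    calc m ≤ 4 * (Y σ).card := hσ
      _ ≤ 4 * (X.card * ((L - 1 + l) * K)) := Nat.mul_le_mul_left _ hcard
      _ = 4 * ((L - 1 + l) * K) * X.card := by ring
      _ ≤ _ := Nat.mul_le_mul_right _ (Nat.le_add_left _ _)

theorem tree_structure (Δ l L : ℕ) (hL : 3 ≤ L) (hl : 1 ≤ l) :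
    ∃ (β : ℝ) (m₀ : ℕ), 0 < β ∧ ∀ (m : ℕ) (par : ℕ → ℕ) (s : ℕ → Bool), m₀ ≤ m →
      RT m Δ par → ∃ σ : Bool,
      (∃ X : Finset ℕ, (∀ x ∈ X, x < m) ∧ β * m ≤ X.card ∧
        (∀ x ∈ X, Snk m par s σ x ∧ ∀ j ≤ l, par^[j] x ≠ 0) ∧
        (∀ x ∈ X, ∀ y ∈ X, x ≠ y → Disjoint (US m par l x) (US m par l y))) ∨
      (∃ X : Finset ℕ, (∀ x ∈ X, x < m) ∧ β * m ≤ X.card ∧
        (∀ x ∈ X, VPath m par s σ L x ∧ ∀ j < L - 1 + l, par^[j] x ≠ 0) ∧
        (∀ x ∈ X, ∀ y ∈ X, x ≠ y → Disjoint (UP par l L x) (UP par l L y))) := by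
  set K := ∑ j ∈ range (L + l + 1), Δ ^ j with hK
  have hK1 : 1 ≤ K := by
    have : ∑ j ∈ range 1, Δ ^ j ≤ K := by
      rw [hK]
      exact sum_le_sum_of_subset (range_subset_range.2 (by omega))
    simpa using this
  set M := 32 * K * ((Δ + l + 1) * (1 + K)) + 4 * ((L - 1 + l) * K) with hM
  have hMpos : 0 < M := by
    rw [hM]
    positivity
  have hMR : (0 : ℝ) < M := by exact_mod_cast hMpos
  have hconv : ∀ (m : ℕ) (X : Finset ℕ), m ≤ M * X.card → (1 / (M : ℝ)) * m ≤ X.card := by
    intro m X hmX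
    have : (m : ℝ) ≤ M * X.card := by exact_mod_cast hmX
    rw [one_div, inv_mul_le_iff₀ hMR]
    exact this
  refine ⟨1 / M, 16 * K ^ 2 + 1, by positivity, ?_⟩
  intro m par s hm h
  obtain ⟨σ, hσ⟩ := core Δ l L hL hl K hK m par s (by omega) (by omega) h
  refine ⟨σ, ?_⟩
  rcases hσ with ⟨X, h1, h2, h3, h4⟩ | ⟨X, h1, h2, h3, h4⟩
  · exact Or.inl ⟨X, h1, hconv m X h2, h3, h4⟩
  · exact Or.inr ⟨X, h1, hconv m X h2, h3, h4⟩

end Pool.Agent.Lib.RobT
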