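import Pool.Agent.Lib.RobT.Gz
import Pool.Agent.Lib.RobT.Gr
import Pool.Agent.Lib.RobT.Te
import Pool.Agent.Lib.RobT.Ts

/-!
# Ab: absorbing structures, definition, symmetry (short)

`Absb R θ m par s`: all but `f ≥ θ |V|` vertices of the tree can be placed on the set `U` such that
every set `L` of `f` further vertices which contains the reservoir `R₀` can be absorbed.
-/

namespace Pool.Agent.Lib.RobT

open Finset

/-- The tree `(m, par, s)` absorbs linearly many vertices. -/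
def Absb {V : Type} [Fintype V] [DecidableEq V] (R : V → V → Prop) (θ : ℝ) (m : ℕ)
    (par : ℕ → ℕ) (s : ℕ → Bool) : Prop :=
  ∃ (f : ℕ) (U R₀ : Finset V) (r : V), θ * Fintype.card V ≤ f ∧ U.card + f = m ∧
    R₀.card = (f + 1) / 2 ∧ Disjoint R₀ U ∧ r ∈ U ∧
    ∀ L : Finset V, R₀ ⊆ L → Disjoint L U → L.card = f →
      ∃ φ : ℕ → V, φ 0 = r ∧ Set.InjOn φ (Set.Iio m) ∧ (range m).image φ = U ∪ L ∧
        ∀ i, 0 < i → i < m → Arc R (s i) (φ (par i)) (φ i)

theorem arc_flip {V : Type} (R : V → V → Prop) (b : Bool) (u v : V) :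
    Arc (fun x y => R y x) (!b) u v ↔ Arc R b u v := by
  cases b <;> simp [Arc]

theorem tour_flip {V : Type} {R : V → V → Prop} (hR : IsTour R) : IsTour fun x y => R y x :=
  ⟨hR.irr, fun u v h => hR.asym v u h, fun u v h => (hR.tot u v h).symm⟩

theorem eN_flip {V : Type} [DecidableEq V] (R : V → V → Prop) (X Y : Finset V) :
    eN (fun x y => R y x) X Y = eN R Y X := by
  classical
  unfold eN
  refine Finset.card_bij (fun p _ => (p.2, p.1)) ?_ ?_ ?_
  · intro p hp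
    simp only [Finset.mem_filter, Finset.mem_product] at hp ⊢
    exact ⟨⟨hp.1.2, hp.1.1⟩, hp.2⟩
  · intro p _ q _ h
    simp only [Prod.mk.injEq] at h
    exact Prod.ext h.2 h.1
  · intro p hp
    simp only [Finset.mem_filter, Finset.mem_product] at hp
    exact ⟨(p.2, p.1), by
      simp only [Finset.mem_filter, Finset.mem_product]
      exact ⟨⟨hp.1.2, hp.1.1⟩, hp.2⟩, rfl⟩

theorem rob_flip {V : Type} [Fintype V] [DecidableEq V] {R : V → V → Prop} {ζ : ℝ}
    (h : Rob ζ R) : Rob ζ fun x y => R y x := by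
  intro A
  have h1 := h Aᶜ
  rw [compl_compl] at h1
  rw [eN_flip]
  linarith [mul_right_comm ζ (A.card : ℝ) ((Aᶜ).card : ℝ)]

theorem absb_flip {V : Type} [Fintype V] [DecidableEq V] {R : V → V → Prop} {θ : ℝ} {m : ℕ}
    {par : ℕ → ℕ} {s : ℕ → Bool} (h : Absb (fun x y => R y x) θ m par fun i => !(s i)) :
    Absb R θ m par s := by
  obtain ⟨f, U, R₀, r, h1, h2, h3, h4, h5, h6⟩ := h
  refine ⟨f, U, R₀, r, h1, h2, h3, h4, h5, fun L hL1 hL2 hL3 => ?_⟩
  obtain ⟨φ, p1, p2, p3, p4⟩ := h6 L hL1 hL2 hL3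
  exact ⟨φ, p1, p2, p3, fun i hi him => (arc_flip R (s i) _ _).1 (p4 i hi him)⟩

end Pool.Agent.Lib.RobT
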