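import Pool.Agent.Lib.RobT.Ab

/-!
# Ai: absorbing with sinks (about 400 lines)

CONSTANTS.  `T = Δ + 1`; `M, θ₀, n₁` from `gadI`; `γ₁ = min (ε/2) (min (ζ/4) (1/10))`,
`D = (M+1) T + M`; `θ' = min (θ₀/D) (β γ/(M+1))`, `f = ⌊θ' n⌋`, `θ = θ'/2`, `n₀` so large that `f
≥ θ n`,
`f ≥ 250` and `log n ≤ (3/50) f`.
GADGETS.  `select` (objects `Gad V T M`, `vs = Gad.vs`, `Ok g = g.Ok R` and at most `n/10` vertices
not accepted, `I = V`, `Bad g v = ¬ g.Acc R v`, `p = 1/50`) with `gadI`: gadgets `g i`, `i : Fin f`,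
with pairwise disjoint vertex sets, every `v` not accepted by at most `log n + f/25 ≤ f/10` of them.
SLOTS.  `f (M+1) ≤ β γ n ≤ β m ≤ |X|`: an injective map `xx : Fin f × Fin (M+1) → X`.
`Lt = range xx`, `Pr = ⋃_{x ∈ Lt} ({par x} ∪ CH x)`, `Xe = {par x | x ∈ Lt}`.
`ψ (par x) = env i j 0` and `ψ y = env i j (1 + rank of y in CH x)` for `y ∈ CH x`, `x = xx (i, j)`
(`|CH x| ≤ Δ`).  `Z` = the set of all fillers, `|Z| = f M ≤ |X| ≤ m`.
`embed_forest` (for `X := Xe`): its conditions, by the disjointness of the sets `US x` and because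
`par^[j] x` is strictly decreasing for `j ≤ l + 1`:
`Disjoint Pr Lt`, `0 ∉ Pr, Lt` clear.  `a = par x`: `par^[j] a = par^[j+1] x ≠ 0` for `j < l`; for
`0 < j < l` it is in `US x`, so not in `Lt`, not `par x'`, not in `CH x'` for `x' ≠ x`, and it is
`< par x`, so it is not `x`, `par x`, a child of `x`.  `par^[l] a = par^[l+1] x ∉ Lt`: if it were
`x' ∈ Lt`, then `par^[l] x ∈ CH x' ⊆ US x'`, so `x' = x`, impossible.  `hPX`: `p ∈ CH x` has
`par p = x ∈ Lt`.  `hLt`: if `par i = x ∈ Lt` then `i ∈ CH x ⊆ Pr`.  `m + |Z| ≤ 2 m ≤ ε n` and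
`< ζ (n-1)`.
Get `φ`; `U = φ([0,m) \ Lt) ∪ Z`, `|U| = m - f (M+1) + f M = m - f`; `r = φ 0`.
`reserve` with `Acc i v = (g i).Acc R v` (`f ≤ m ≤ n/10`, `|U| ≤ n/10`): `R₀`.
ABSORPTION.  `L` given: `σ : Fin f → V` with image `L`; `absorb_chain` for `g i`, `v = σ i` (not a
filler, as `L ∩ U = ∅`): `τ i : Fin (M+1) → V`.  `φ' = φ` outside `Lt`, `φ' (xx (i, j)) = τ i j`.
Injective: the values on `Lt` are in `Z ∪ L`, the `τ i` are injective with disjoint images.
Image `= φ([0,m) \ Lt) ∪ Z ∪ L = U ∪ L`.  Arcs at `x = xx (i, j)`: `s x = true` and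
`R (env i j 0) (τ i j)`; for `y ∈ CH x`: `s y = false` and `R (ψ y) (τ i j)`.
-/

namespace Pool.Agent.Lib.RobT

open Finset

private theorem iter_step {m l : ℕ} {par : ℕ → ℕ} (hpar : ∀ i, 0 < i → i < m → par i < i)
    {x : ℕ} (hx : x < m) (h0 : ∀ j ≤ l, par^[j] x ≠ 0) :
    ∀ j ≤ l, par^[j] x < m ∧ par^[j + 1] x < par^[j] x := by
  intro j
  induction j with
  | zero =>
    intro _
    have h1 : x ≠ 0 := h0 0 (Nat.zero_le _)
    exact ⟨hx, hpar x (Nat.pos_of_ne_zero h1) hx⟩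
  | succ j ih =>
    intro hj
    have h1 := ih (by omega)
    have h2 : par^[j + 1] x < m := lt_trans h1.2 h1.1
    refine ⟨h2, ?_⟩
    rw [Function.iterate_succ_apply' par (j + 1) x]
    exact hpar _ (Nat.pos_of_ne_zero (h0 (j + 1) hj)) h2

private theorem iter_le {m l : ℕ} {par : ℕ → ℕ} (hpar : ∀ i, 0 < i → i < m → par i < i)
    {x : ℕ} (hx : x < m) (h0 : ∀ j ≤ l, par^[j] x ≠ 0) :
    ∀ j, j ≤ l → par^[j + 1] x ≤ par x := by
  intro j
  induction j with
  | zero => intro _; exact le_refl _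
  | succ j ih =>
    intro hj
    have h1 := ih (by omega)
    have h2 := (iter_step hpar hx h0 (j + 1) hj).2
    omega

private theorem exists_rank (T : ℕ) (hT : 1 ≤ T) (S : Finset ℕ) (hS : S.card ≤ T) :
    ∃ ρ : ℕ → Fin T, Set.InjOn ρ S := by
  classical
  have h1 : Fintype.card S ≤ Fintype.card (Fin T) := by simpa using hS
  obtain ⟨e⟩ := Function.Embedding.nonempty_of_card_le h1
  refine ⟨fun y => if h : y ∈ S then e ⟨y, h⟩ else ⟨0, hT⟩, ?_⟩
  intro a ha b hb hab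
  have ha' : a ∈ S := ha
  have hb' : b ∈ S := hb
  simp only [ha', hb', dif_pos] at hab
  have := e.injective hab
  simpa using this

/-- The vertices with prescribed images at the slot `x`. -/
private def NN (m : ℕ) (par : ℕ → ℕ) (x : ℕ) : Finset ℕ := insert (par x) (CH m par x)

private theorem NN_card {m Δ : ℕ} {par : ℕ → ℕ} (h : RT m Δ par) (x : ℕ) :
    (NN m par x).card ≤ Δ + 1 := by
  unfold NN
  refine (Finset.card_insert_le _ _).trans ?_
  have := h.deg x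
  unfold CH
  omega

private theorem mem_CH {m : ℕ} {par : ℕ → ℕ} {x y : ℕ} :
    y ∈ CH m par x ↔ y < m ∧ 0 < y ∧ par y = x := by
  unfold CH
  simp

private theorem mem_US_iter {m l : ℕ} {par : ℕ → ℕ} {x : ℕ} (j : ℕ) (hj : j ≤ l) :
    par^[j] x ∈ US m par l x := by
  unfold US
  refine Finset.mem_union_right _ (Finset.mem_image.2 ⟨j, ?_, rfl⟩)
  simp only [Finset.mem_range]
  omega

private theorem mem_US_ch {m l : ℕ} {par : ℕ → ℕ} {x y : ℕ} (h : y ∈ CH m par x) :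
    y ∈ US m par l x := by
  unfold US
  exact Finset.mem_union_left _ h

private theorem NN_sub {m l : ℕ} {par : ℕ → ℕ} (hl : 1 ≤ l) {x y : ℕ} (h : y ∈ NN m par x) :
    y ∈ US m par l x := by
  unfold NN at h
  rcases Finset.mem_insert.1 h with h | h
  · rw [h]
    exact mem_US_iter (m := m) (par := par) (x := x) 1 hl
  · exact mem_US_ch h

open Classical in
/-- The combinatorial part: gadgets in slots, forest, reservoir, absorption. -/
private theorem core {V : Type} [Fintype V] [DecidableEq V] {R : V → V → Prop} {ζ ε : ℝ}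
    {l Δ M f m : ℕ} (hl : 2 ≤ l) (hR : IsTour R) (hrob : Rob ζ R) (hcon : Con l ε R)
    (par : ℕ → ℕ) (s : ℕ → Bool) (hRT : RT m Δ par) (X : Finset ℕ) (hXm : ∀ x ∈ X, x < m)
    (hX : ∀ x ∈ X, Snk m par s true x ∧ ∀ j ≤ l, par^[j] x ≠ 0)
    (hdis : ∀ x ∈ X, ∀ y ∈ X, x ≠ y → Disjoint (US m par l x) (US m par l y))
    (g : Fin f → Gad V (Δ + 1) M) (hg : ∀ i, (g i).Ok R)
    (hgd : ∀ t t', t ≠ t' → Disjoint (g t).vs (g t').vs)
    (h1 : ∀ v, ((univ.filter fun i => ¬ (g i).Acc R v).card : ℝ) ≤ f / 10)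
    (h2 : ∀ i, ((univ.filter fun v => ¬ (g i).Acc R v).card : ℝ) ≤ Fintype.card V / 10)
    (hf : 250 ≤ f) (hfX : f * (M + 1) ≤ X.card)
    (hm1 : 2 * (m : ℝ) ≤ ε * Fintype.card V)
    (hm2 : 2 * (m : ℝ) < ζ * ((Fintype.card V : ℝ) - 1))
    (hm3 : (m : ℝ) ≤ Fintype.card V / 10) :
    ∃ (U R₀ : Finset V) (r : V), U.card + f = m ∧
      R₀.card = (f + 1) / 2 ∧ Disjoint R₀ U ∧ r ∈ U ∧
      ∀ L : Finset V, R₀ ⊆ L → Disjoint L U → L.card = f →
        ∃ φ : ℕ → V, φ 0 = r ∧ Set.InjOn φ (Set.Iio m) ∧ (range m).image φ = U ∪ L ∧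
          ∀ i, 0 < i → i < m → Arc R (s i) (φ (par i)) (φ i) := by
  have hpar := hRT.lt
  -- the slots
  have hcard : Fintype.card (Fin f × Fin (M + 1)) ≤ Fintype.card X := by
    simpa using hfX
  obtain ⟨e⟩ := Function.Embedding.nonempty_of_card_le hcard
  obtain ⟨xx, hxx⟩ : ∃ xx : Fin f × Fin (M + 1) → ℕ, xx = fun p => (e p : ℕ) := ⟨_, rfl⟩
  have hxxX : ∀ p, xx p ∈ X := fun p => by rw [hxx]; exact (e p).2
  have hxxi : Function.Injective xx := by
    intro a b hab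
    rw [hxx] at hab
    exact e.injective (Subtype.ext hab)
  have hXle : X.card ≤ m := by
    have : X ⊆ range m := fun x hx => Finset.mem_range.2 (hXm x hx)
    simpa using Finset.card_le_card this
  -- basic facts on the slots
  have hx0 : ∀ p, 0 < xx p := fun p => Nat.pos_of_ne_zero ((hX _ (hxxX p)).2 0 (Nat.zero_le _))
  have hxm : ∀ p, xx p < m := fun p => hXm _ (hxxX p)
  have hUS : ∀ p q y, y ∈ US m par l (xx p) → y ∈ US m par l (xx q) → p = q := by
    intro p q y hy hy'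
    by_contra hpq
    exact Finset.disjoint_left.1 (hdis _ (hxxX p) _ (hxxX q) fun h => hpq (hxxi h)) hy hy'
  have hNN : ∀ p y, y ∈ NN m par (xx p) → y ∈ US m par l (xx p) := fun p y hy =>
    NN_sub (by omega) hy
  have hself : ∀ p, xx p ∈ US m par l (xx p) := fun p =>
    mem_US_iter (m := m) (par := par) (x := xx p) 0 (Nat.zero_le _)
  have hNlt : ∀ p, xx p ∉ NN m par (xx p) := by
    intro p hp
    rcases Finset.mem_insert.1 hp with h | h
    · have := hpar _ (hx0 p) (hxm p)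
      omega
    · have h3 := (mem_CH.1 h).2.2
      have := hpar _ (hx0 p) (hxm p)
      omega
  have hst := fun p => iter_step hpar (hxm p) (hX _ (hxxX p)).2
  have hle := fun p => iter_le hpar (hxm p) (hX _ (hxxX p)).2
  -- the local numbering
  choose ρ hρ using fun x => exists_rank (Δ + 1) (by omega) (NN m par x) (NN_card hRT x)
  obtain ⟨Lt, hLt⟩ : ∃ Lt : Finset ℕ, Lt = univ.image xx := ⟨_, rfl⟩
  obtain ⟨Pr, hPr⟩ : ∃ Pr : Finset ℕ, Pr = univ.biUnion fun p => NN m par (xx p) := ⟨_, rfl⟩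
  obtain ⟨Xe, hXe⟩ : ∃ Xe : Finset ℕ, Xe = univ.image fun p => par (xx p) := ⟨_, rfl⟩
  have mLt : ∀ y, y ∈ Lt ↔ ∃ p, xx p = y := by intro y; rw [hLt]; simp
  have mPr : ∀ y, y ∈ Pr ↔ ∃ p, y ∈ NN m par (xx p) := by intro y; rw [hPr]; simp
  have mXe : ∀ y, y ∈ Xe ↔ ∃ p, par (xx p) = y := by intro y; rw [hXe]; simp
  -- the prescribed images
  have hf0 : 0 < f := by omega
  obtain ⟨v0, -⟩ : ∃ v0 : V, True := ⟨(g ⟨0, hf0⟩).env 0 0, trivial⟩
  obtain ⟨ψ, hψ⟩ : ∃ ψ : ℕ → V, ∀ p y, y ∈ NN m par (xx p) →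
      ψ y = (g p.1).env p.2 (ρ (xx p) y) := by
    refine ⟨fun y => if h : ∃ p, y ∈ NN m par (xx p) then
      (g h.choose.1).env h.choose.2 (ρ (xx h.choose) y) else v0, ?_⟩
    intro p y hy
    have h : ∃ p, y ∈ NN m par (xx p) := ⟨p, hy⟩
    have hp : h.choose = p := hUS _ _ _ (hNN _ _ h.choose_spec) (hNN _ _ hy)
    simp only [dif_pos h]
    rw [hp]
  have envvs : ∀ i a t, (g i).env a t ∈ (g i).vs := by
    intro i a t
    unfold Gad.vs
    exact Finset.mem_union_left _ (Finset.mem_image.2 ⟨(a, t), Finset.mem_univ _, rfl⟩)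
  have filvs : ∀ i a, (g i).fil a ∈ (g i).vs := by
    intro i a
    unfold Gad.vs
    exact Finset.mem_union_right _ (Finset.mem_image.2 ⟨a, Finset.mem_univ _, rfl⟩)
  have hvs : ∀ i i' v, v ∈ (g i).vs → v ∈ (g i').vs → i = i' := by
    intro i i' v hv hv'
    by_contra hne
    exact Finset.disjoint_left.1 (hgd i i' hne) hv hv'
  have hψi : Set.InjOn ψ Pr := by
    intro y hy y' hy' hyy
    obtain ⟨p, hp⟩ := (mPr y).1 hy
    obtain ⟨q, hq⟩ := (mPr y').1 hy'
    rw [hψ p y hp, hψ q y' hq] at hyy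
    have h3 : p.1 = q.1 := hvs _ _ _ (envvs p.1 p.2 (ρ (xx p) y)) (by
      rw [hyy]; exact envvs _ _ _)
    obtain ⟨p1, p2⟩ := p
    obtain ⟨q1, q2⟩ := q
    simp only at h3 hyy
    subst h3
    have h4 := (hg p1).ie (a₁ := (p2, ρ (xx (p1, p2)) y)) (a₂ := (q2, ρ (xx (p1, q2)) y')) hyy
    simp only [Prod.mk.injEq] at h4
    obtain ⟨h5, h6⟩ := h4
    subst h5
    exact hρ _ hp hq h6
  -- the fillers
  obtain ⟨fz, hfz⟩ : ∃ fz : Fin f × Fin M → V, fz = fun q => (g q.1).fil q.2 := ⟨_, rfl⟩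
  have hfzi : Function.Injective fz := by
    intro a b hab
    rw [hfz] at hab
    obtain ⟨a1, a2⟩ := a
    obtain ⟨b1, b2⟩ := b
    simp only at hab
    have h3 : a1 = b1 := hvs _ _ _ (filvs a1 a2) (by rw [hab]; exact filvs _ _)
    subst h3
    rw [(hg a1).jf hab]
  obtain ⟨Z, hZ⟩ : ∃ Z : Finset V, Z = univ.image fz := ⟨_, rfl⟩
  have mZ : ∀ v, v ∈ Z ↔ ∃ i a, (g i).fil a = v := by
    intro v; rw [hZ, hfz]; simp
  have hZc : Z.card = f * M := by
    rw [hZ, Finset.card_image_of_injective _ hfzi]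
    simp
  have hψZ : ∀ p ∈ Pr, ψ p ∉ Z := by
    intro y hy hyZ
    obtain ⟨p, hp⟩ := (mPr y).1 hy
    obtain ⟨i, a, hia⟩ := (mZ _).1 hyZ
    rw [hψ p y hp] at hia
    have h3 : i = p.1 := hvs _ _ _ (filvs _ _) (hia ▸ envvs _ _ _)
    subst h3
    exact (hg p.1).ef (p.2, ρ (xx p) y) a hia.symm
  -- the hypotheses of `embed_forest`
  have h0P : 0 ∉ Pr := by
    intro h
    obtain ⟨p, hp⟩ := (mPr 0).1 h
    rcases Finset.mem_insert.1 hp with h | h
    · exact (hX _ (hxxX p)).2 1 (by omega) h.symm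
    · exact absurd (mem_CH.1 h).2.1 (by omega)
  have h0L : 0 ∉ Lt := by
    intro h
    obtain ⟨p, hp⟩ := (mLt 0).1 h
    have := hx0 p
    omega
  have hPL : Disjoint Pr Lt := by
    rw [Finset.disjoint_left]
    intro y hy hy'
    obtain ⟨p, hp⟩ := (mPr y).1 hy
    obtain ⟨q, hq⟩ := (mLt y).1 hy'
    subst hq
    have h3 : p = q := hUS _ _ _ (hNN _ _ hp) (hself q)
    subst h3
    exact hNlt _ hp
  have hPm : ∀ p ∈ Pr, p < m := by
    intro y hy
    obtain ⟨p, hp⟩ := (mPr y).1 hy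
    rcases Finset.mem_insert.1 hp with h | h
    · rw [h]
      exact lt_trans (hpar _ (hx0 p) (hxm p)) (hxm p)
    · exact (mem_CH.1 h).1
  have hXP : Xe ⊆ Pr := by
    intro y hy
    obtain ⟨p, hp⟩ := (mXe y).1 hy
    exact (mPr y).2 ⟨p, Finset.mem_insert.2 (Or.inl hp.symm)⟩
  have hc0 : ∀ a ∈ Xe, ∀ j < l, par^[j] a ≠ 0 := by
    intro a ha j hj
    obtain ⟨p, hp⟩ := (mXe a).1 ha
    subst hp
    exact (hX _ (hxxX p)).2 (j + 1) (by omega)
  have hc1 : ∀ a ∈ Xe, ∀ j, 0 < j → j < l → par^[j] a ∉ Pr ∧ par^[j] a ∉ Lt := by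
    intro a ha j hj0 hj
    obtain ⟨p, hp⟩ := (mXe a).1 ha
    subst hp
    have e1 : par^[j] (par (xx p)) = par^[j + 1] (xx p) := rfl
    rw [e1]
    have h3 : par^[j + 1] (xx p) ∈ US m par l (xx p) := mem_US_iter (j + 1) (by omega)
    have h4 : par^[j + 1] (xx p) < par (xx p) := by
      have h5 := (hst p j (by omega)).2
      have h6 := hle p (j - 1) (by omega)
      rw [show j - 1 + 1 = j by omega] at h6
      omega
    have h5 : par (xx p) < xx p := hpar _ (hx0 p) (hxm p)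
    constructor
    · intro hy
      obtain ⟨q, hq⟩ := (mPr _).1 hy
      have h6 : p = q := hUS _ _ _ h3 (hNN _ _ hq)
      subst h6
      rcases Finset.mem_insert.1 hq with h | h
      · omega
      · have h7 := mem_CH.1 h
        have h8 := hpar _ h7.2.1 h7.1
        rw [h7.2.2] at h8
        omega
    · intro hy
      obtain ⟨q, hq⟩ := (mLt _).1 hy
      have h6 : p = q := hUS _ _ _ h3 (hq ▸ hself q)
      subst h6
      omega
  have hc2 : ∀ a ∈ Xe, par^[l] a ∉ Lt := by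
    intro a ha hy
    obtain ⟨p, hp⟩ := (mXe a).1 ha
    subst hp
    obtain ⟨q, hq⟩ := (mLt _).1 hy
    have e1 : par^[l] (par (xx p)) = par^[l + 1] (xx p) := rfl
    have e2 : par^[l + 1] (xx p) = par (par^[l] (xx p)) := Function.iterate_succ_apply' _ _ _
    have h3 : par^[l] (xx p) ∈ CH m par (xx q) := by
      rw [mem_CH]
      refine ⟨(hst p l (le_refl _)).1, Nat.pos_of_ne_zero ((hX _ (hxxX p)).2 l (le_refl _)), ?_⟩
      rw [← e2, ← e1, hq]
    have h4 : p = q := hUS _ _ _ (mem_US_iter l (le_refl _)) (mem_US_ch h3)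
    subst h4
    have h5 := (hst p l (le_refl _)).2
    have h6 := hle p (l - 1) (by omega)
    rw [show l - 1 + 1 = l by omega] at h6
    have h7 : par (xx p) < xx p := hpar _ (hx0 p) (hxm p)
    rw [e1] at hq
    omega
  have hdisj : ∀ a ∈ Xe, ∀ b ∈ Xe, a ≠ b → ∀ i j, 0 < i → i < l → 0 < j → j < l →
      par^[i] a ≠ par^[j] b := by
    intro a ha b hb hab i j _ hi _ hj hij
    obtain ⟨p, hp⟩ := (mXe a).1 ha
    obtain ⟨q, hq⟩ := (mXe b).1 hb
    subst hp
    subst hq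
    have e1 : par^[i] (par (xx p)) = par^[i + 1] (xx p) := rfl
    have e2 : par^[j] (par (xx q)) = par^[j + 1] (xx q) := rfl
    rw [e1, e2] at hij
    have h3 : par^[i + 1] (xx p) ∈ US m par l (xx p) := mem_US_iter (i + 1) (by omega)
    have h4 : par^[j + 1] (xx q) ∈ US m par l (xx q) := mem_US_iter (j + 1) (by omega)
    have h5 : p = q := hUS _ _ _ h3 (hij ▸ h4)
    exact hab (by rw [h5])
  have hPX : ∀ p ∈ Pr, p ∉ Xe → par p ∈ Lt := by
    intro y hy hyX
    obtain ⟨p, hp⟩ := (mPr y).1 hy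
    rcases Finset.mem_insert.1 hp with h | h
    · exact absurd ((mXe y).2 ⟨p, h.symm⟩) hyX
    · rw [(mem_CH.1 h).2.2]
      exact (mLt _).2 ⟨p, rfl⟩
  have hLt' : ∀ i, 0 < i → i < m → i ∉ Pr → i ∉ Lt → par i ∉ Lt := by
    intro i hi him hiP _ hy
    obtain ⟨p, hp⟩ := (mLt _).1 hy
    exact hiP ((mPr i).2 ⟨p, Finset.mem_insert.2 (Or.inr (mem_CH.2 ⟨him, hi, hp.symm⟩))⟩)
  have hZm : (Z.card : ℝ) ≤ m := by
    have h3 : Z.card ≤ m := by
      rw [hZc]
      calc f * M ≤ f * (M + 1) := Nat.mul_le_mul_left _ (Nat.le_succ _)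
        _ ≤ X.card := hfX
        _ ≤ m := hXle
    exact_mod_cast h3
  obtain ⟨φ, φP, φi, φZ, φa⟩ := embed_forest hl hR hrob hcon m par s hpar Lt Pr Xe ψ Z hψi hψZ
    h0P h0L hPL hPm hXP hc0 hc1 hc2 hdisj hPX hLt' (by linarith) (by linarith)
  -- the set `U`
  have hLtc : Lt.card = f * (M + 1) := by
    rw [hLt, Finset.card_image_of_injective _ hxxi]
    simp
  have hLtm : Lt ⊆ range m := by
    intro y hy
    obtain ⟨p, hp⟩ := (mLt y).1 hy
    rw [← hp]
    exact Finset.mem_range.2 (hxm p)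
  obtain ⟨W, hW⟩ : ∃ W : Finset V, W = (range m \ Lt).image φ := ⟨_, rfl⟩
  have hWc : W.card = m - f * (M + 1) := by
    rw [hW, Finset.card_image_of_injOn, Finset.card_sdiff_of_subset hLtm, hLtc]
    · simp
    · intro a ha b hb hab
      have ha' := Finset.mem_sdiff.1 (Finset.mem_coe.1 ha)
      have hb' := Finset.mem_sdiff.1 (Finset.mem_coe.1 hb)
      exact φi ⟨Finset.mem_range.1 ha'.1, ha'.2⟩ ⟨Finset.mem_range.1 hb'.1, hb'.2⟩ hab
  have hWZ : Disjoint W Z := by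
    rw [Finset.disjoint_left]
    intro v hv hvZ
    rw [hW] at hv
    obtain ⟨y, hy, rfl⟩ := Finset.mem_image.1 hv
    have hy' := Finset.mem_sdiff.1 hy
    by_cases hyP : y ∈ Pr
    · rw [φP y hyP] at hvZ
      exact hψZ y hyP hvZ
    · exact φZ y (Finset.mem_range.1 hy'.1) hy'.2 hyP hvZ
  have hfm : f * (M + 1) ≤ m := hfX.trans hXle
  have hUc : (W ∪ Z).card + f = m := by
    rw [Finset.card_union_of_disjoint hWZ, hWc, hZc]
    have : f * (M + 1) = f * M + f := by ring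
    omega
  have hm0 : 0 < m := by
    have : f ≤ f * (M + 1) := Nat.le_mul_of_pos_right _ (Nat.succ_pos _)
    omega
  have hfle : (f : ℝ) ≤ m := by
    have : f ≤ m := by omega
    exact_mod_cast this
  have hUle : ((W ∪ Z).card : ℝ) ≤ m := by
    have : (W ∪ Z).card ≤ m := by omega
    exact_mod_cast this
  obtain ⟨R₀, r1, r2, r3⟩ := reserve f (fun i v => (g i).Acc R v) (W ∪ Z) hf (by linarith)
    (by linarith) h1 h2
  refine ⟨W ∪ Z, R₀, φ 0, hUc, r2, r1, ?_, ?_⟩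
  · refine Finset.mem_union_left _ ?_
    rw [hW]
    exact Finset.mem_image.2 ⟨0, Finset.mem_sdiff.2 ⟨Finset.mem_range.2 hm0, h0L⟩, rfl⟩
  intro L hL1 hL2 hL3
  obtain ⟨σ, σi, σL, σa⟩ := r3 L hL1 hL3
  have hσL : ∀ i, σ i ∈ L := by
    intro i
    rw [← σL]
    exact Finset.mem_image_of_mem _ (Finset.mem_univ _)
  have hτ' := fun i => absorb_chain (hg i) (σ i) (σa i) (by
    intro j hj
    refine Finset.disjoint_left.1 hL2 (hσL i) (Finset.mem_union_right _ ((mZ _).2 ⟨i, j, hj⟩)))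
  choose τ τi τI τR using hτ'
  obtain ⟨φ', hφ'⟩ : ∃ φ' : ℕ → V, φ' = fun y => if h : ∃ p, xx p = y then
      τ h.choose.1 h.choose.2 else φ y := ⟨_, rfl⟩
  have φx : ∀ p, φ' (xx p) = τ p.1 p.2 := by
    intro p
    have h : ∃ q, xx q = xx p := ⟨p, rfl⟩
    have hp : h.choose = p := hxxi h.choose_spec
    rw [hφ']
    simp only [dif_pos h]
    rw [hp]
  have φn : ∀ y, y ∉ Lt → φ' y = φ y := by
    intro y hy
    have h : ¬ ∃ q, xx q = y := fun h => hy ((mLt y).2 h)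
    rw [hφ']
    simp only [dif_neg h]
  have himg : (range m).image φ' = (W ∪ Z) ∪ L := by
    ext v
    constructor
    · intro hv
      obtain ⟨y, hy, rfl⟩ := Finset.mem_image.1 hv
      by_cases hyL : y ∈ Lt
      · obtain ⟨p, rfl⟩ := (mLt y).1 hyL
        rw [φx p]
        have h3 : τ p.1 p.2 ∈ insert (σ p.1) (univ.image (g p.1).fil) := by
          rw [← τI p.1]
          exact Finset.mem_image_of_mem _ (Finset.mem_univ _)
        rcases Finset.mem_insert.1 h3 with h | h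
        · rw [h]
          exact Finset.mem_union_right _ (hσL _)
        · obtain ⟨j, -, hj⟩ := Finset.mem_image.1 h
          exact Finset.mem_union_left _ (Finset.mem_union_right _ ((mZ _).2 ⟨p.1, j, hj⟩))
      · rw [φn y hyL]
        refine Finset.mem_union_left _ (Finset.mem_union_left _ ?_)
        rw [hW]
        exact Finset.mem_image_of_mem _ (Finset.mem_sdiff.2 ⟨hy, hyL⟩)
    · intro hv
      have key : ∀ i, v ∈ insert (σ i) (univ.image (g i).fil) → v ∈ (range m).image φ' := by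
        intro i hvi
        rw [← τI i] at hvi
        obtain ⟨j, -, hj⟩ := Finset.mem_image.1 hvi
        rw [← hj, ← φx (i, j)]
        exact Finset.mem_image_of_mem _ (Finset.mem_range.2 (hxm _))
      rcases Finset.mem_union.1 hv with h | h
      · rcases Finset.mem_union.1 h with h | h
        · rw [hW] at h
          obtain ⟨y, hy, rfl⟩ := Finset.mem_image.1 h
          have hy' := Finset.mem_sdiff.1 hy
          rw [← φn y hy'.2]
          exact Finset.mem_image_of_mem _ hy'.1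
        · obtain ⟨i, j, hij⟩ := (mZ v).1 h
          exact key i (Finset.mem_insert_of_mem (Finset.mem_image.2 ⟨j, Finset.mem_univ _, hij⟩))
      · rw [← σL] at h
        obtain ⟨i, -, hi⟩ := Finset.mem_image.1 h
        exact key i (by rw [hi]; exact Finset.mem_insert_self _ _)
  refine ⟨φ', φn 0 h0L, ?_, himg, ?_⟩
  · have h3 : ((range m).image φ').card = (range m).card := by
      rw [himg, Finset.card_union_of_disjoint hL2.symm, hL3, hUc]
      simp
    have h4 := Finset.card_image_iff.1 h3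
    intro a ha b hb hab
    exact h4 (Finset.mem_coe.2 (Finset.mem_range.2 ha)) (Finset.mem_coe.2 (Finset.mem_range.2 hb))
      hab
  · intro i hi him
    by_cases hiL : i ∈ Lt
    · obtain ⟨p, rfl⟩ := (mLt i).1 hiL
      have hN : par (xx p) ∈ NN m par (xx p) := Finset.mem_insert_self _ _
      have hP : par (xx p) ∈ Pr := (mPr _).2 ⟨p, hN⟩
      have hnL : par (xx p) ∉ Lt := Finset.disjoint_left.1 hPL hP
      rw [φx p, φn _ hnL, φP _ hP, hψ p _ hN, (hX _ (hxxX p)).1.1]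
      exact Or.inl ⟨rfl, τR p.1 p.2 _⟩
    · by_cases hpL : par i ∈ Lt
      · obtain ⟨p, hp⟩ := (mLt _).1 hpL
        have hN : i ∈ NN m par (xx p) :=
          Finset.mem_insert.2 (Or.inr (mem_CH.2 ⟨him, hi, hp.symm⟩))
        have hP : i ∈ Pr := (mPr _).2 ⟨p, hN⟩
        rw [← hp, φx p, φn _ hiL, φP _ hP, hψ p _ hN, (hX _ (hxxX p)).1.2 i hi him hp.symm]
        exact Or.inr ⟨rfl, τR p.1 p.2 _⟩
      · rw [φn _ hiL, φn _ hpL]
        exact φa i hi him hiL hpL

private theorem large_n (c : ℝ) (hc : 0 < c) :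
    ∃ n₂ : ℕ, ∀ n : ℕ, n₂ ≤ n → (3 : ℝ) ≤ n ∧ 251 ≤ c * n ∧ Real.log n ≤ 3 / 100 * (c * n) := by
  have h1 := Real.isLittleO_log_id_atTop.bound (show (0 : ℝ) < 3 / 100 * c by positivity)
  have h2 := tendsto_natCast_atTop_atTop (R := ℝ) |>.eventually h1
  obtain ⟨a, ha⟩ := Filter.eventually_atTop.1 h2
  obtain ⟨b, hb⟩ := exists_nat_ge (251 / c)
  refine ⟨max a (max b 3), fun n hn => ?_⟩
  have hna : a ≤ n := (le_max_left _ _).trans hn
  have hnb : b ≤ n := ((le_max_left _ _).trans (le_max_right _ _)).trans hn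
  have hn3 : 3 ≤ n := ((le_max_right _ _).trans (le_max_right _ _)).trans hn
  have hnbR : (b : ℝ) ≤ n := by exact_mod_cast hnb
  have hn3R : (3 : ℝ) ≤ n := by exact_mod_cast hn3
  refine ⟨hn3R, ?_, ?_⟩
  · have h4 : 251 / c ≤ (n : ℝ) := hb.trans hnbR
    rw [div_le_iff₀ hc] at h4
    linarith [mul_comm c (n : ℝ)]
  · have h5 := ha n hna
    simp only [id, Real.norm_eq_abs] at h5
    have h6 : |(n : ℝ)| = n := abs_of_nonneg (Nat.cast_nonneg _)
    rw [h6] at h5
    have h7 := le_abs_self (Real.log n)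
    linarith [mul_assoc (3 / 100) c (n : ℝ)]

theorem absI (ζ ε : ℝ) (Δ l : ℕ) (hζ : 0 < ζ) (hε : 0 < ε) (hl : 2 ≤ l) :
    ∃ γ₁ : ℝ, 0 < γ₁ ∧ ∀ β γ : ℝ, 0 < β → 0 < γ → ∃ (θ : ℝ) (n₀ : ℕ), 0 < θ ∧
      ∀ (V : Type) [Fintype V] [DecidableEq V] (R : V → V → Prop), n₀ ≤ Fintype.card V →
      IsTour R → Rob ζ R → Con l ε R → ∀ (m : ℕ) (par : ℕ → ℕ) (s : ℕ → Bool),
      γ * Fintype.card V ≤ m → (m : ℝ) ≤ γ₁ * Fintype.card V → RT m Δ par →
      ∀ X : Finset ℕ, (∀ x ∈ X, x < m) → β * m ≤ X.card →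
      (∀ x ∈ X, Snk m par s true x ∧ ∀ j ≤ l, par^[j] x ≠ 0) →
      (∀ x ∈ X, ∀ y ∈ X, x ≠ y → Disjoint (US m par l x) (US m par l y)) →
      Absb R θ m par s := by
  classical
  obtain ⟨M, θ₀, n₁, hθ₀, hgad⟩ := gadI ζ hζ (Δ + 1) (by omega)
  refine ⟨min (ε / 2) (min (ζ / 4) (1 / 10)), by positivity, ?_⟩
  intro β γ hβ hγ
  obtain ⟨D, hD⟩ : ∃ D : ℕ, D = (M + 1) * (Δ + 1) + M := ⟨_, rfl⟩
  have hD0 : 0 < D := by
    rw [hD]
    positivity
  have hD0R : (0 : ℝ) < D := by exact_mod_cast hD0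
  obtain ⟨c, hc⟩ : ∃ c : ℝ, c = min (θ₀ / D) (β * γ / (M + 1)) := ⟨_, rfl⟩
  have hc0 : 0 < c := by
    rw [hc]
    have : (0 : ℝ) < (M : ℝ) + 1 := by positivity
    positivity
  have hc1 : c * D ≤ θ₀ := by
    have : c ≤ θ₀ / D := by rw [hc]; exact min_le_left _ _
    rwa [le_div_iff₀ hD0R] at this
  have hc2 : c * (M + 1) ≤ β * γ := by
    have h : c ≤ β * γ / (M + 1) := by rw [hc]; exact min_le_right _ _
    rwa [le_div_iff₀ (by positivity)] at h
  obtain ⟨n₂, hn₂⟩ := large_n c hc0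
  refine ⟨c / 2, max n₁ n₂, by positivity, ?_⟩
  intro V _ _ R hn hR hrob hcon m par s hγm hmγ hRT X hXm hXβ hX hdis
  obtain ⟨hn3, hn251, hnlog⟩ := hn₂ (Fintype.card V) ((le_max_right _ _).trans hn)
  have hn1 : n₁ ≤ Fintype.card V := (le_max_left _ _).trans hn
  obtain ⟨n, hnn⟩ : ∃ n : ℝ, n = (Fintype.card V : ℝ) := ⟨_, rfl⟩
  rw [← hnn] at hn3 hn251 hnlog hγm hmγ
  have hn0 : 0 < n := by linarith
  obtain ⟨f, hff⟩ : ∃ f : ℕ, f = ⌊c * n⌋₊ := ⟨_, rfl⟩
  have hfle : (f : ℝ) ≤ c * n := by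
    rw [hff]
    exact Nat.floor_le (by positivity)
  have hfge : c * n - 1 < f := by
    rw [hff]
    have := Nat.lt_floor_add_one (c * n)
    linarith
  have hf250 : 250 ≤ f := by
    have h : (250 : ℝ) < f := by linarith
    have : (250 : ℕ) < f := by exact_mod_cast h
    omega
  have hfhalf : c / 2 * n ≤ f := by linarith
  obtain ⟨g, hg1, hg2, hg3⟩ := select (G := Gad V (Δ + 1) M) (V := V) (I := V) Gad.vs
    (fun g => g.Ok R ∧
      ((univ.filter fun v => ¬ g.Acc R v).card : ℝ) ≤ Fintype.card V / 10)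
    (fun g v => ¬ g.Acc R v) f D (1 / 50) (by norm_num) (by
      intro Z hZ w hw
      have hZ' : (Z.card : ℝ) ≤ θ₀ * Fintype.card V := by
        have h3 : (Z.card : ℝ) ≤ f * D := by exact_mod_cast hZ
        rw [← hnn]
        calc (Z.card : ℝ) ≤ f * D := h3
          _ ≤ (c * n) * D := by gcongr
          _ = (c * D) * n := by ring
          _ ≤ θ₀ * n := by gcongr
      obtain ⟨g, q1, q2, q3, q4⟩ := hgad V R hn1 hR hrob Z hZ' w hw
      refine ⟨g, ⟨q1, ?_⟩, ?_, q2, ?_⟩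
      · convert q3
      · unfold Gad.vs
        rw [hD]
        refine (Finset.card_union_le _ _).trans ?_
        have e1 : (univ.image fun p : Fin (M + 1) × Fin (Δ + 1) => g.env p.1 p.2).card ≤
            (M + 1) * (Δ + 1) := by
          refine Finset.card_image_le.trans ?_
          simp
        have e2 : (univ.image g.fil).card ≤ M := by
          refine Finset.card_image_le.trans ?_
          simp
        exact Nat.add_le_add e1 e2
      · convert q4)
  have hm1 : (m : ℝ) ≤ ε / 2 * n :=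
    hmγ.trans (mul_le_mul_of_nonneg_right (min_le_left _ _) hn0.le)
  have hm2 : (m : ℝ) ≤ ζ / 4 * n :=
    hmγ.trans (mul_le_mul_of_nonneg_right ((min_le_right _ _).trans (min_le_left _ _)) hn0.le)
  have hm3 : (m : ℝ) ≤ 1 / 10 * n :=
    hmγ.trans (mul_le_mul_of_nonneg_right ((min_le_right _ _).trans (min_le_right _ _)) hn0.le)
  have hfX : f * (M + 1) ≤ X.card := by
    have h3 : ((f * (M + 1) : ℕ) : ℝ) ≤ X.card := by
      push_cast
      calc (f : ℝ) * (M + 1) ≤ (c * n) * (M + 1) := by gcongr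
        _ = (c * (M + 1)) * n := by ring
        _ ≤ (β * γ) * n := by gcongr
        _ = β * (γ * n) := by ring
        _ ≤ β * m := by gcongr
        _ ≤ X.card := hXβ
    exact_mod_cast h3
  obtain ⟨U, R₀, r, k1, k2, k3, k4, k5⟩ := core (ε := ε) hl hR hrob hcon par s hRT X hXm hX hdis g
    (fun i => (hg1 i).1) hg2 (by
      intro v
      have h3 := hg3 v
      rw [← hnn] at h3
      have h4 : Real.log n + 2 * (1 / 50) * f ≤ f / 10 := by linarith
      refine le_trans (le_of_eq ?_) (h3.trans h4)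
      congr!) (by
      intro i
      convert (hg1 i).2) hf250 hfX (by rw [← hnn]; linarith) (by
      rw [← hnn]
      nlinarith) (by rw [← hnn]; linarith)
  exact ⟨f, U, R₀, r, by rw [← hnn]; exact hfhalf, k1, k2, k3, k4, k5⟩

end Pool.Agent.Lib.RobT
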