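import Pool.Agent.Lib.RobT.Ab

/-!
# Ap: absorbing with directed bare paths (about 400 lines)

CONSTANTS.  `L, θ₀, n₁` from `gadII`; `γ₁ = min (ε/2) (min (ζ/4) (1/10))`; `θ' = min (θ₀/L) (β γ)`
(and `θ' ≤ γ`), `f = ⌊θ' n⌋`, `θ = θ'/2`, `n₀` so large that `f ≥ θ n`, `f ≥ 250` and
`log n ≤ (3/50) f`.
GADGETS.  `select` (objects `Fin L → V`, `vs p = univ.image p`, `Ok p = PG.Ok R p` and at most
`n/10`
vertices not accepted, `D = L`, `I = V`, `Bad p v = ¬ PG.Acc R p v`, `p = 1/50`) with `gadII`: paths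
`p i`, `i : Fin f`, pairwise disjoint, every `v` not accepted by at most `f/10` of them.
SLOTS.  `f ≤ β γ n ≤ |X|`: an injective map `xx : Fin f → X`.  For `x = xx i` the vertices
`par^[j] x`, `j = 0, …, L`, form the bare path; `Lt` = all `par^[j] x` with `1 ≤ j ≤ L - 1`,
`Pr` = all `x` and `par^[L] x`, `Xe` = all `par^[L] x`; `ψ (par^[L] x) = p i 0`,
`ψ x = p i (L-1)`; `Z` = all `p i j`, `0 < j < L - 1`.  `|Lt| = f (L-1) ≤ m`, `|Z| = f (L-2) ≤ m`.
`embed_forest` (for `X := Xe`): conditions by the disjointness of the sets `UP par l (L+1) x` =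
`{par^[j] x | j < L + l}`, the strict decrease of `par^[j] x` for `j ≤ L + l`, and `VPath`:
`a = par^[L] x`, `par^[j] a = par^[L+j] x ≠ 0` for `j < l`, not in `Pr ∪ Lt` for `0 < j < l`.
`par^[l] a = par^[L+l] x ∉ Lt`: if it were `par^[j'] x'`, `1 ≤ j' ≤ L - 1`, its only child would be
`par^[j'-1] x'`, so `par^[L+l-1] x = par^[j'-1] x'`, `x = x'` by disjointness and
`L + l - 1 = j' - 1`, impossible.  `hPX`: `par x ∈ Lt`.  `hLt`: a child `i` of `par^[j] x`,
`1 ≤ j ≤ L - 1`, is `par^[j-1] x ∈ Lt ∪ Pr`.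
Get `φ`; `U = φ([0,m) \ Lt) ∪ Z`, `|U| = m - f (L-1) + f (L-2) = m - f`; `r = φ 0`.
`reserve` with `Acc i v = PG.Acc R (p i) v`: `R₀`.
ABSORPTION.  `L'` given: `σ : Fin f → V` with image `L'`; `absorb_path` for `p i`, `v = σ i`:
`p' i : Fin (L+1) → V`.  `φ' = φ` outside `Lt`, `φ' (par^[j] x) = p' i (L - j)` for `1 ≤ j ≤ L - 1`
(this holds for `j = 0, L` as well).  Arcs: for `i' = par^[j] x`, `0 ≤ j < L`: `s i' = true` and
`R (p' i (L-j-1)) (p' i (L-j))`.
-/

namespace Pool.Agent.Lib.RobT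

open Finset

private theorem it_facts {m : ℕ} {par : ℕ → ℕ} (hpar : ∀ i, 0 < i → i < m → par i < i)
    {x n : ℕ} (hx : x < m) (h0 : ∀ j < n, par^[j] x ≠ 0) :
    ∀ j ≤ n, par^[j] x < m ∧ ∀ i < j, par^[j] x < par^[i] x := by
  intro j
  induction j with
  | zero => intro _; exact ⟨hx, fun i hi => absurd hi (Nat.not_lt_zero i)⟩
  | succ j ih =>
    intro hj
    obtain ⟨h1, h2⟩ := ih (by omega)
    have h3 : par^[j + 1] x < par^[j] x := by
      rw [Function.iterate_succ_apply']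
      exact hpar _ (Nat.pos_of_ne_zero (h0 j (by omega))) h1
    refine ⟨h3.trans h1, fun i hi => ?_⟩
    rcases Nat.lt_succ_iff_lt_or_eq.1 hi with h | h
    · exact h3.trans (h2 i h)
    · subst h; exact h3

private theorem core {V : Type} [Fintype V] [DecidableEq V] {R : V → V → Prop} {ζ ε : ℝ}
    {l L f m : ℕ} (v0 : V) (hl : 2 ≤ l) (hL : 3 ≤ L) (hR : IsTour R) (hrob : Rob ζ R)
    (hcon : Con l ε R)
    (par : ℕ → ℕ) (s : ℕ → Bool) (hpar : ∀ i, 0 < i → i < m → par i < i)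
    (xx : Fin f → ℕ) (hx : ∀ i, xx i < m) (hVP : ∀ i, VPath m par s true (L + 1) (xx i))
    (h0 : ∀ i, ∀ j < L + l, par^[j] (xx i) ≠ 0)
    (hdis : ∀ i i', i ≠ i' → Disjoint (UP par l (L + 1) (xx i)) (UP par l (L + 1) (xx i')))
    (p : Fin f → Fin L → V) (hp : ∀ i, PG.Ok R (p i))
    (hpd : ∀ i i', i ≠ i' → Disjoint (univ.image (p i)) (univ.image (p i')))
    (hm : 0 < m) (hs1 : (2 * m : ℝ) ≤ ε * Fintype.card V)
    (hs2 : (2 * m : ℝ) < ζ * ((Fintype.card V : ℝ) - 1)) :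
    ∃ (U : Finset V) (r : V), U.card + f = m ∧ r ∈ U ∧
      ∀ (L' : Finset V) (σ : Fin f → V), Function.Injective σ → univ.image σ = L' →
        Disjoint L' U → (∀ i, PG.Acc R (p i) (σ i)) →
        ∃ φ : ℕ → V, φ 0 = r ∧ Set.InjOn φ (Set.Iio m) ∧ (range m).image φ = U ∪ L' ∧
          ∀ i, 0 < i → i < m → Arc R (s i) (φ (par i)) (φ i) := by
  classical
  -- the vertices of the bare paths
  obtain ⟨A, hA⟩ : ∃ A : Fin f → ℕ → ℕ, ∀ i j, A i j = par^[j] (xx i) := ⟨_, fun _ _ => rfl⟩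
  have hA0 : ∀ i, ∀ j < L + l, A i j ≠ 0 := fun i j hj => by rw [hA]; exact h0 i j hj
  have hAit : ∀ i, ∀ j ≤ L + l, A i j < m ∧ ∀ k < j, A i j < A i k := by
    intro i j hj
    have h := it_facts hpar (hx i) (h0 i) j hj
    refine ⟨by rw [hA]; exact h.1, fun k hk => ?_⟩
    rw [hA, hA]
    exact h.2 k hk
  have hApar : ∀ i j, par (A i j) = A i (j + 1) := by
    intro i j
    rw [hA, hA, Function.iterate_succ_apply']
  have hAadd : ∀ i j k, par^[k] (A i j) = A i (j + k) := by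
    intro i j k
    rw [hA, hA, add_comm j k, Function.iterate_add_apply]
  have hAinj : ∀ i i' j j', j < L + l → j' < L + l → A i j = A i' j' → i = i' ∧ j = j' := by
    intro i i' j j' hj hj' h
    by_cases hii : i = i'
    · subst hii
      refine ⟨rfl, ?_⟩
      rcases lt_trichotomy j j' with h1 | h1 | h1
      · exact absurd h (ne_of_gt ((hAit i j' hj'.le).2 j h1))
      · exact h1
      · exact absurd h (ne_of_lt ((hAit i j hj.le).2 j' h1))
    · exfalso
      have h1 : A i j ∈ UP par l (L + 1) (xx i) :=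
        mem_image.2 ⟨j, mem_range.2 (by omega), (hA i j).symm⟩
      have h2 : A i j ∈ UP par l (L + 1) (xx i') :=
        mem_image.2 ⟨j', mem_range.2 (by omega), by rw [h, hA]⟩
      exact Finset.disjoint_left.1 (hdis i i' hii) h1 h2
  have hAs : ∀ i, ∀ j < L, s (A i j) = true := by
    intro i j hj
    rw [hA]
    exact (hVP i j (by omega)).1
  have hAch : ∀ i, ∀ j < L, ∀ y, 0 < y → y < m → par y = A i (j + 1) → y = A i j := by
    intro i j hj y hy1 hy2 hy3
    rw [hA] at hy3 ⊢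
    exact (hVP i j (by omega)).2 y hy1 hy2 hy3
  have hpi : ∀ i i' j j', p i j = p i' j' → i = i' ∧ j = j' := by
    intro i i' j j' h
    by_cases hii : i = i'
    · subst hii
      exact ⟨rfl, (hp i).inj h⟩
    · exfalso
      have h1 : p i j ∈ univ.image (p i) := mem_image_of_mem _ (mem_univ _)
      have h2 : p i j ∈ univ.image (p i') := by rw [h]; exact mem_image_of_mem _ (mem_univ _)
      exact Finset.disjoint_left.1 (hpd i i' hii) h1 h2
  -- the sets
  obtain ⟨Lt, hLt⟩ : ∃ Lt : Finset ℕ, Lt =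
      univ.image (fun ij : Fin f × Fin (L - 1) => A ij.1 (ij.2 + 1)) := ⟨_, rfl⟩
  obtain ⟨Pr, hPr⟩ : ∃ Pr : Finset ℕ, Pr =
      univ.image (fun i : Fin f => A i 0) ∪ univ.image (fun i : Fin f => A i L) := ⟨_, rfl⟩
  obtain ⟨Xe, hXe⟩ : ∃ Xe : Finset ℕ, Xe = univ.image (fun i : Fin f => A i L) := ⟨_, rfl⟩
  obtain ⟨Z, hZ⟩ : ∃ Z : Finset V, Z =
      univ.image (fun ij : Fin f × Fin (L - 2) => p ij.1 ⟨ij.2 + 1, by omega⟩) := ⟨_, rfl⟩
  have mLt : ∀ k, k ∈ Lt ↔ ∃ i j, 1 ≤ j ∧ j < L ∧ k = A i j := by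
    intro k
    rw [hLt]
    simp only [mem_image, mem_univ, true_and, Prod.exists]
    constructor
    · rintro ⟨i, j, h⟩
      exact ⟨i, j + 1, by omega, by omega, h.symm⟩
    · rintro ⟨i, j, h1, h2, h3⟩
      refine ⟨i, ⟨j - 1, by omega⟩, ?_⟩
      rw [h3]
      congr 1
      simp only
      omega
  have mPr : ∀ k, k ∈ Pr ↔ ∃ i, k = A i 0 ∨ k = A i L := by
    intro k
    rw [hPr]
    simp only [mem_union, mem_image, mem_univ, true_and]
    constructor
    · rintro (⟨i, h⟩ | ⟨i, h⟩)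
      · exact ⟨i, Or.inl h.symm⟩
      · exact ⟨i, Or.inr h.symm⟩
    · rintro ⟨i, h | h⟩
      · exact Or.inl ⟨i, h.symm⟩
      · exact Or.inr ⟨i, h.symm⟩
  have mXe : ∀ k, k ∈ Xe ↔ ∃ i, k = A i L := by
    intro k
    rw [hXe]
    simp only [mem_image, mem_univ, true_and]
    exact ⟨fun ⟨i, h⟩ => ⟨i, h.symm⟩, fun ⟨i, h⟩ => ⟨i, h.symm⟩⟩
  have mZ : ∀ v, v ∈ Z ↔ ∃ i, ∃ j : Fin L, 0 < (j : ℕ) ∧ (j : ℕ) < L - 1 ∧ v = p i j := by
    intro v
    rw [hZ]
    simp only [mem_image, mem_univ, true_and, Prod.exists]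
    constructor
    · rintro ⟨i, j, h⟩
      exact ⟨i, ⟨j + 1, by omega⟩, by simp, by simp only; omega, h.symm⟩
    · rintro ⟨i, j, h1, h2, h3⟩
      refine ⟨i, ⟨j - 1, by omega⟩, ?_⟩
      rw [h3]
      congr 1
      apply Fin.ext
      simp only
      omega
  have cLt : Lt.card = f * (L - 1) := by
    rw [hLt, card_image_of_injective]
    · simp
    · rintro ⟨i, j⟩ ⟨i', j'⟩ h
      simp only at h
      obtain ⟨h1, h2⟩ := hAinj i i' _ _ (by omega) (by omega) h
      subst h1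
      have : j = j' := Fin.ext (by omega)
      rw [this]
  have cZ : Z.card = f * (L - 2) := by
    rw [hZ, card_image_of_injective]
    · simp
    · rintro ⟨i, j⟩ ⟨i', j'⟩ h
      simp only at h
      obtain ⟨h1, h2⟩ := hpi i i' _ _ h
      subst h1
      have h3 := congrArg Fin.val h2
      simp only at h3
      have : j = j' := Fin.ext (by omega)
      rw [this]
  have sLt : Lt ⊆ range m := by
    intro k hk
    obtain ⟨i, j, h1, h2, h3⟩ := (mLt k).1 hk
    rw [mem_range, h3]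
    exact (hAit i j (by omega)).1
  have cLtm : Lt.card ≤ m := by
    have := card_le_card sLt
    rwa [card_range] at this
  have cZm : Z.card ≤ m := by
    refine le_trans ?_ cLtm
    rw [cZ, cLt]
    exact Nat.mul_le_mul_left _ (by omega)
  -- prescribed values
  obtain ⟨ψ, hψ0, hψL⟩ : ∃ ψ : ℕ → V, (∀ i, ψ (A i 0) = p i ⟨L - 1, by omega⟩) ∧
      ∀ i, ψ (A i L) = p i ⟨0, by omega⟩ := by
    have hi : Function.Injective
        (fun ib : Fin f × Bool => A ib.1 (if ib.2 = true then L else 0)) := by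
      rintro ⟨i, b⟩ ⟨i', b'⟩ h
      simp only at h
      obtain ⟨h1, h2⟩ := hAinj i i' _ _ (by split_ifs <;> omega) (by split_ifs <;> omega) h
      subst h1
      have : b = b' := by
        cases b <;> cases b' <;> simp at h2 ⊢ <;> omega
      rw [this]
    obtain ⟨g, hg⟩ : ∃ g : Fin f × Bool → V, g = fun ib =>
      p ib.1 (if ib.2 = true then ⟨0, by omega⟩ else ⟨L - 1, by omega⟩) := ⟨_, rfl⟩
    refine ⟨Function.extend (fun ib : Fin f × Bool => A ib.1 (if ib.2 = true then L else 0)) g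
      (fun _ => v0), ?_, ?_⟩
    · intro i
      have := hi.extend_apply g (fun _ => v0) (i, false)
      rw [hg] at this ⊢
      exact this
    · intro i
      have := hi.extend_apply g (fun _ => v0) (i, true)
      rw [hg] at this ⊢
      exact this
  have hψZ : ∀ k ∈ Pr, ψ k ∉ Z := by
    intro k hk hkZ
    obtain ⟨i, h | h⟩ := (mPr k).1 hk
    · subst h
      rw [hψ0] at hkZ
      obtain ⟨i', j, h1, h2, h3⟩ := (mZ _).1 hkZ
      obtain ⟨-, h4⟩ := hpi _ _ _ _ h3
      have := congrArg Fin.val h4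
      simp only at this
      omega
    · subst h
      rw [hψL] at hkZ
      obtain ⟨i', j, h1, h2, h3⟩ := (mZ _).1 hkZ
      obtain ⟨-, h4⟩ := hpi _ _ _ _ h3
      have := congrArg Fin.val h4
      simp only at this
      omega
  have hψi : Set.InjOn ψ Pr := by
    intro a ha b hb hab
    obtain ⟨i, h⟩ := (mPr a).1 ha
    obtain ⟨i', h'⟩ := (mPr b).1 hb
    rcases h with h | h <;> rcases h' with h' | h' <;> subst h <;> subst h' <;>
      simp only [hψ0, hψL] at hab <;> obtain ⟨h1, h2⟩ := hpi _ _ _ _ hab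
    · rw [h1]
    · exfalso
      have := congrArg Fin.val h2
      simp only at this
      omega
    · exfalso
      have := congrArg Fin.val h2
      simp only at this
      omega
    · rw [h1]
  have hn0L : 0 ∉ Lt := by
    intro h
    obtain ⟨i, j, h1, h2, h3⟩ := (mLt 0).1 h
    exact hA0 i j (by omega) h3.symm
  have hPrLt : Disjoint Pr Lt := by
    rw [Finset.disjoint_left]
    intro k hk hk'
    obtain ⟨i, j, h1, h2, h3⟩ := (mLt k).1 hk'
    obtain ⟨i', h | h⟩ := (mPr k).1 hk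
    · obtain ⟨-, h4⟩ := hAinj i i' j 0 (by omega) (by omega) (h3.symm.trans h)
      omega
    · obtain ⟨-, h4⟩ := hAinj i i' j L (by omega) (by omega) (h3.symm.trans h)
      omega
  have hLtc : ∀ i, 0 < i → i < m → par i ∈ Lt → ∃ a j, j + 1 < L ∧ i = A a j := by
    intro i hi1 hi2 hi3
    obtain ⟨a, j, h1, h2, h3⟩ := (mLt _).1 hi3
    obtain ⟨j', rfl⟩ : ∃ j', j = j' + 1 := ⟨j - 1, by omega⟩
    exact ⟨a, j', h2, hAch a j' (by omega) i hi1 hi2 h3⟩
  obtain ⟨φ, hφ1, hφ2, hφ3, hφ4⟩ := embed_forest (R := R) hl hR hrob hcon m par s hpar Lt Pr Xe ψ Z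
    hψi hψZ
    (by
      intro h
      obtain ⟨i, h | h⟩ := (mPr 0).1 h
      · exact hA0 i 0 (by omega) h.symm
      · exact hA0 i L (by omega) h.symm)
    hn0L hPrLt
    (by
      intro k hk
      obtain ⟨i, h | h⟩ := (mPr k).1 hk
      · rw [h]; exact (hAit i 0 (by omega)).1
      · rw [h]; exact (hAit i L (by omega)).1)
    (by rw [hXe, hPr]; exact subset_union_right)
    (by
      intro a ha j hj
      obtain ⟨i, rfl⟩ := (mXe a).1 ha
      rw [hAadd]
      exact hA0 i _ (by omega))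
    (by
      intro a ha j hj0 hj
      obtain ⟨i, rfl⟩ := (mXe a).1 ha
      rw [hAadd]
      constructor
      · intro h
        obtain ⟨i', h | h⟩ := (mPr _).1 h
        · obtain ⟨-, h4⟩ := hAinj _ _ _ _ (by omega) (by omega) h
          omega
        · obtain ⟨-, h4⟩ := hAinj _ _ _ _ (by omega) (by omega) h
          omega
      · intro h
        obtain ⟨i', j', h1, h2, h3⟩ := (mLt _).1 h
        obtain ⟨-, h4⟩ := hAinj _ _ _ _ (by omega) (by omega) h3
        omega)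
    (by
      intro a ha h
      obtain ⟨i, rfl⟩ := (mXe a).1 ha
      rw [hAadd] at h
      obtain ⟨l', rfl⟩ : ∃ l', l = l' + 1 := ⟨l - 1, by omega⟩
      rw [← add_assoc, ← hApar] at h
      obtain ⟨a, j, h1, h2⟩ := hLtc _ (Nat.pos_of_ne_zero (hA0 i (L + l') (by omega)))
        (hAit i (L + l') (by omega)).1 h
      obtain ⟨-, h4⟩ := hAinj _ _ _ _ (by omega) (by omega) h2
      omega)
    (by
      intro a ha b hb hab i j hi1 hi2 hj1 hj2 h
      obtain ⟨a', rfl⟩ := (mXe a).1 ha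
      obtain ⟨b', rfl⟩ := (mXe b).1 hb
      rw [hAadd, hAadd] at h
      obtain ⟨h3, -⟩ := hAinj _ _ _ _ (by omega) (by omega) h
      exact hab (by rw [h3]))
    (by
      intro k hk hkX
      obtain ⟨i, h | h⟩ := (mPr k).1 hk
      · rw [h, hApar]
        exact (mLt _).2 ⟨i, 1, le_rfl, by omega, rfl⟩
      · exact absurd ((mXe k).2 ⟨i, h⟩) hkX)
    (by
      intro i hi1 hi2 hi3 hi4 hi5
      obtain ⟨a, j, h1, h2⟩ := hLtc i hi1 hi2 hi5
      rcases Nat.eq_zero_or_pos j with h | h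
      · subst h
        exact hi3 ((mPr i).2 ⟨a, Or.inl h2⟩)
      · exact hi4 ((mLt i).2 ⟨a, j, h, by omega, h2⟩))
    (by
      have : (Z.card : ℝ) ≤ m := by exact_mod_cast cZm
      linarith)
    (by
      have : (Z.card : ℝ) ≤ m := by exact_mod_cast cZm
      linarith)
  have hφZ : ∀ k < m, k ∉ Lt → φ k ∉ Z := by
    intro k hk hkL
    by_cases hkP : k ∈ Pr
    · rw [hφ1 k hkP]
      exact hψZ k hkP
    · exact hφ3 k hk hkL hkP
  have hPm : ∀ k ∈ Pr, k < m := by
    intro k hk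
    obtain ⟨i, h | h⟩ := (mPr k).1 hk
    · rw [h]; exact (hAit i 0 (by omega)).1
    · rw [h]; exact (hAit i L (by omega)).1
  have hPnL : ∀ k ∈ Pr, k ∉ Lt := fun k hk => Finset.disjoint_left.1 hPrLt hk
  have hφA0 : ∀ i, φ (A i 0) = p i ⟨L - 1, by omega⟩ := by
    intro i
    rw [hφ1 _ ((mPr _).2 ⟨i, Or.inl rfl⟩), hψ0]
  have hφAL : ∀ i, φ (A i L) = p i ⟨0, by omega⟩ := by
    intro i
    rw [hφ1 _ ((mPr _).2 ⟨i, Or.inr rfl⟩), hψL]
  -- the set U
  obtain ⟨U, hU⟩ : ∃ U : Finset V, U = (range m \ Lt).image φ ∪ Z := ⟨_, rfl⟩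
  have mU : ∀ k < m, k ∉ Lt → φ k ∈ U := by
    intro k hk hkL
    rw [hU]
    exact mem_union_left _ (mem_image_of_mem _ (mem_sdiff.2 ⟨mem_range.2 hk, hkL⟩))
  have hpU : ∀ i j, p i j ∈ U := by
    intro i j
    by_cases hj0 : (j : ℕ) = 0
    · have : p i j = φ (A i L) := by
        rw [hφAL]
        congr 1
        exact Fin.ext hj0
      rw [this]
      exact mU _ (hAit i L (by omega)).1 (hPnL _ ((mPr _).2 ⟨i, Or.inr rfl⟩))
    · by_cases hjL : (j : ℕ) = L - 1
      · have : p i j = φ (A i 0) := by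
          rw [hφA0]
          congr 1
          exact Fin.ext hjL
        rw [this]
        exact mU _ (hAit i 0 (by omega)).1 (hPnL _ ((mPr _).2 ⟨i, Or.inl rfl⟩))
      · rw [hU]
        refine mem_union_right _ ((mZ _).2 ⟨i, j, by omega, ?_, rfl⟩)
        have := j.2
        omega
  have cU : U.card + f = m := by
    rw [hU, card_union_of_disjoint, card_image_of_injOn, card_sdiff_of_subset sLt, card_range, cZ,
      cLt]
    · have h1 : f * (L - 1) ≤ m := by rw [← cLt]; exact cLtm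
      have h2 : f * (L - 1) = f * (L - 2) + f := by
        obtain ⟨K, rfl⟩ : ∃ K, L = K + 2 := ⟨L - 2, by omega⟩
        have : K + 2 - 1 = K + 1 := by omega
        rw [this, Nat.add_sub_cancel]
        ring
      omega
    · intro a ha b hb hab
      rw [mem_coe, mem_sdiff, mem_range] at ha hb
      exact hφ2 ha hb hab
    · rw [Finset.disjoint_left]
      intro v hv hvZ
      obtain ⟨k, hk, rfl⟩ := mem_image.1 hv
      rw [mem_sdiff, mem_range] at hk
      exact hφZ k hk.1 hk.2 hvZ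
  refine ⟨U, φ 0, cU, mU 0 hm hn0L, ?_⟩
  intro L' σ hσi hσL hLU hAcc
  have hσL' : ∀ i, σ i ∈ L' := fun i => by rw [← hσL]; exact mem_image_of_mem _ (mem_univ _)
  have hσU : ∀ i, σ i ∉ U := fun i => Finset.disjoint_left.1 hLU (hσL' i)
  have habs : ∀ i, ∃ p' : Fin (L + 1) → V, PG.Ok R p' ∧ p' 0 = p i ⟨0, by omega⟩ ∧
      p' (Fin.last L) = p i ⟨L - 1, by omega⟩ ∧
      univ.image p' = insert (σ i) (univ.image (p i)) := by
    intro i
    exact absorb_path hR (hp i) (by omega) (σ i) (hAcc i)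
      (fun j h => hσU i (by rw [← h]; exact hpU i j))
  choose p' hp'1 hp'2 hp'3 hp'4 using habs
  have hp'm : ∀ i j, p' i j = σ i ∨ ∃ j', p' i j = p i j' := by
    intro i j
    have : p' i j ∈ insert (σ i) (univ.image (p i)) := by
      rw [← hp'4]
      exact mem_image_of_mem _ (mem_univ _)
    rcases mem_insert.1 this with h | h
    · exact Or.inl h
    · obtain ⟨j', -, h⟩ := mem_image.1 h
      exact Or.inr ⟨j', h.symm⟩
  have hi' : Function.Injective (fun ij : Fin f × Fin (L + 1) => A ij.1 ij.2) := by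
    rintro ⟨i, j⟩ ⟨i', j'⟩ h
    simp only at h
    obtain ⟨h1, h2⟩ := hAinj i i' _ _ (by omega) (by omega) h
    subst h1
    have : j = j' := Fin.ext h2
    rw [this]
  obtain ⟨φ', hφ'A, hφ'o⟩ : ∃ φ' : ℕ → V, (∀ i (j : Fin (L + 1)), φ' (A i j) = p' i (Fin.rev j)) ∧
      ∀ k, (¬ ∃ i, ∃ j : Fin (L + 1), A i j = k) → φ' k = φ k := by
    refine ⟨Function.extend (fun ij : Fin f × Fin (L + 1) => A ij.1 ij.2)
      (fun ij => p' ij.1 (Fin.rev ij.2)) φ, ?_, ?_⟩
    · intro i j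
      exact hi'.extend_apply (fun ij : Fin f × Fin (L + 1) => p' ij.1 (Fin.rev ij.2)) φ (i, j)
    · intro k hk
      refine Function.extend_apply' _ _ _ ?_
      rintro ⟨⟨i, j⟩, h⟩
      exact hk ⟨i, j, h⟩
  have hφ'L : ∀ k, k ∉ Lt → φ' k = φ k := by
    intro k hk
    by_cases h : ∃ i, ∃ j : Fin (L + 1), A i j = k
    · obtain ⟨i, j, rfl⟩ := h
      rw [hφ'A]
      by_cases hj0 : (j : ℕ) = 0
      · have : Fin.rev j = Fin.last L := Fin.ext (by simp [Fin.val_rev]; omega)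
        rw [this, hp'3, hj0, hφA0]
      · by_cases hjL : (j : ℕ) = L
        · have : Fin.rev j = 0 := Fin.ext (by simp [Fin.val_rev]; omega)
          rw [this, hp'2, hjL, hφAL]
        · exact absurd ((mLt _).2 ⟨i, j, by omega, by omega, rfl⟩) hk
    · exact hφ'o k h
  have hnon : ∀ k, (¬ ∃ i, ∃ j : Fin (L + 1), A i j = k) → k ∉ Lt ∧ k ∉ Pr := by
    intro k hk
    constructor
    · intro h
      obtain ⟨i, j, h1, h2, h3⟩ := (mLt k).1 h
      exact hk ⟨i, ⟨j, by omega⟩, h3.symm⟩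
    · intro h
      obtain ⟨i, h | h⟩ := (mPr k).1 h
      · exact hk ⟨i, ⟨0, by omega⟩, h.symm⟩
      · exact hk ⟨i, ⟨L, by omega⟩, h.symm⟩
  have hmix : ∀ (i : Fin f) (j : Fin (L + 1)) (k : ℕ), k < m →
      (¬ ∃ i, ∃ j : Fin (L + 1), A i j = k) → φ' (A i j) ≠ φ' k := by
    intro i j k hk hn h
    obtain ⟨hn1, hn2⟩ := hnon k hn
    rw [hφ'A, hφ'o k hn] at h
    rcases hp'm i (Fin.rev j) with h1 | ⟨j', h1⟩
    · rw [h1] at h
      exact hσU i (by rw [h]; exact mU k hk hn1)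
    · rw [h1] at h
      by_cases hj0 : (j' : ℕ) = 0
      · have h2 : p i j' = φ (A i L) := by
          rw [hφAL]
          congr 1
          exact Fin.ext hj0
        rw [h2] at h
        have hPL : A i L ∈ Pr := (mPr _).2 ⟨i, Or.inr rfl⟩
        have := hφ2 ⟨hPm _ hPL, hPnL _ hPL⟩ ⟨hk, hn1⟩ h
        rw [this] at hPL
        exact hn2 hPL
      · by_cases hjL : (j' : ℕ) = L - 1
        · have h2 : p i j' = φ (A i 0) := by
            rw [hφA0]
            congr 1
            exact Fin.ext hjL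
          rw [h2] at h
          have hPL : A i 0 ∈ Pr := (mPr _).2 ⟨i, Or.inl rfl⟩
          have := hφ2 ⟨hPm _ hPL, hPnL _ hPL⟩ ⟨hk, hn1⟩ h
          rw [this] at hPL
          exact hn2 hPL
        · refine hφ3 k hk hn1 hn2 ((mZ _).2 ⟨i, j', by omega, ?_, h.symm⟩)
          have := j'.2
          omega
  have hinj : Set.InjOn φ' (Set.Iio m) := by
    intro a ha b hb hab
    rw [Set.mem_Iio] at ha hb
    by_cases hA1 : ∃ i, ∃ j : Fin (L + 1), A i j = a
    · obtain ⟨i, j, rfl⟩ := hA1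
      by_cases hB1 : ∃ i, ∃ j : Fin (L + 1), A i j = b
      · obtain ⟨i', j', rfl⟩ := hB1
        rw [hφ'A, hφ'A] at hab
        by_cases hii : i = i'
        · subst hii
          have h1 := (hp'1 i).inj hab
          rw [Fin.rev_inj] at h1
          rw [h1]
        · exfalso
          rcases hp'm i (Fin.rev j) with h1 | ⟨k, h1⟩ <;>
            rcases hp'm i' (Fin.rev j') with h2 | ⟨k', h2⟩ <;> rw [h1, h2] at hab
          · exact hii (hσi hab)
          · exact hσU i (by rw [hab]; exact hpU _ _)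
          · exact hσU i' (by rw [← hab]; exact hpU _ _)
          · exact hii (hpi _ _ _ _ hab).1
      · exact absurd hab (hmix i j b hb hB1)
    · by_cases hB1 : ∃ i, ∃ j : Fin (L + 1), A i j = b
      · obtain ⟨i', j', rfl⟩ := hB1
        exact absurd hab.symm (hmix i' j' a ha hA1)
      · rw [hφ'o a hA1, hφ'o b hB1] at hab
        exact hφ2 ⟨ha, (hnon a hA1).1⟩ ⟨hb, (hnon b hB1).1⟩ hab
  have hcL' : L'.card = f := by
    rw [← hσL, card_image_of_injective _ hσi]
    simp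
  refine ⟨φ', hφ'L 0 hn0L, hinj, ?_, ?_⟩
  · refine Finset.eq_of_subset_of_card_le ?_ ?_
    · intro v hv
      obtain ⟨k, hk, rfl⟩ := mem_image.1 hv
      rw [mem_range] at hk
      by_cases hA1 : ∃ i, ∃ j : Fin (L + 1), A i j = k
      · obtain ⟨i, j, rfl⟩ := hA1
        rw [hφ'A]
        rcases hp'm i (Fin.rev j) with h1 | ⟨j', h1⟩
        · rw [h1]
          exact mem_union_right _ (hσL' i)
        · rw [h1]
          exact mem_union_left _ (hpU _ _)
      · rw [hφ'o k hA1]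
        exact mem_union_left _ (mU k hk (hnon k hA1).1)
    · rw [card_union_of_disjoint hLU.symm, hcL', cU, card_image_of_injOn, card_range]
      intro a ha b hb hab
      rw [mem_coe, mem_range] at ha hb
      exact hinj ha hb hab
  · intro i hi1 hi2
    by_cases hc : ∃ a j, j < L ∧ i = A a j
    · obtain ⟨a, j, hj, rfl⟩ := hc
      left
      refine ⟨hAs a j hj, ?_⟩
      rw [hApar]
      have h1 := hφ'A a ⟨j, by omega⟩
      have h2 := hφ'A a ⟨j + 1, by omega⟩
      simp only at h1 h2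
      rw [h1, h2]
      apply (hp'1 a).arc
      simp only [Fin.val_rev]
      omega
    · have h1 : i ∉ Lt := by
        intro h
        obtain ⟨a, j, _, h2, h3⟩ := (mLt i).1 h
        exact hc ⟨a, j, h2, h3⟩
      have h2 : par i ∉ Lt := by
        intro h
        obtain ⟨a, j, h3, h4⟩ := hLtc i hi1 hi2 h
        exact hc ⟨a, j, by omega, h4⟩
      rw [hφ'L i h1, hφ'L _ h2]
      exact hφ4 i hi1 hi2 h1 h2

private theorem numerics {t : ℝ} (ht : 0 < t) :
    ∃ n₀ : ℕ, ∀ n : ℕ, n₀ ≤ n → t / 2 * n ≤ (⌊t * n⌋₊ : ℝ) ∧ 250 ≤ ⌊t * n⌋₊ ∧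
      Real.log n ≤ 3 / 50 * (⌊t * n⌋₊ : ℝ) ∧ 3 ≤ n := by
  have hlog : ∀ᶠ n : ℕ in Filter.atTop, Real.log (n : ℝ) ≤ (3 * t / 100) * (n : ℝ) := by
    have h1 := (Real.isLittleO_log_id_atTop).bound (c := 3 * t / 100) (by positivity)
    have h2 := tendsto_natCast_atTop_atTop (R := ℝ) |>.eventually h1
    filter_upwards [h2, Filter.eventually_ge_atTop 1] with n hn hn1
    have hn1' : (1 : ℝ) ≤ n := by exact_mod_cast hn1
    rw [Real.norm_of_nonneg (Real.log_nonneg hn1')] at hn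
    simpa using hn
  obtain ⟨n₁, hn₁⟩ := Filter.eventually_atTop.1 hlog
  obtain ⟨n₂, hn₂⟩ := exists_nat_ge (251 / t)
  obtain ⟨n₃, hn₃⟩ := exists_nat_ge (2 / t)
  refine ⟨max (max n₁ n₂) (max n₃ 3), fun n hn => ?_⟩
  have h1 : n₁ ≤ n := le_trans (le_trans (le_max_left _ _) (le_max_left _ _)) hn
  have h2 : n₂ ≤ n := le_trans (le_trans (le_max_right _ _) (le_max_left _ _)) hn
  have h3 : n₃ ≤ n := le_trans (le_trans (le_max_left _ _) (le_max_right _ _)) hn
  have h4 : 3 ≤ n := le_trans (le_trans (le_max_right _ _) (le_max_right _ _)) hn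
  have h2' : 251 ≤ t * n := by
    have : (n₂ : ℝ) ≤ n := by exact_mod_cast h2
    have := (div_le_iff₀ ht).1 (hn₂.trans this)
    linarith
  have h3' : 2 ≤ t * n := by linarith
  have h5 : t * n - 1 < (⌊t * n⌋₊ : ℝ) := by
    have := Nat.lt_floor_add_one (t * n)
    linarith
  have h6 : t / 2 * n ≤ (⌊t * n⌋₊ : ℝ) := by linarith
  refine ⟨h6, ?_, ?_, h4⟩
  · have : (250 : ℝ) ≤ (⌊t * n⌋₊ : ℝ) := by linarith
    exact_mod_cast this
  · have := hn₁ n h1
    linarith

theorem absII (ζ ε : ℝ) (Δ l : ℕ) (hζ : 0 < ζ) (hε : 0 < ε) (hl : 2 ≤ l) :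
    ∃ (L : ℕ) (γ₁ : ℝ), 3 ≤ L ∧ 0 < γ₁ ∧ ∀ β γ : ℝ, 0 < β → 0 < γ → ∃ (θ : ℝ) (n₀ : ℕ), 0 < θ ∧
      ∀ (V : Type) [Fintype V] [DecidableEq V] (R : V → V → Prop), n₀ ≤ Fintype.card V →
      IsTour R → Rob ζ R → Con l ε R → ∀ (m : ℕ) (par : ℕ → ℕ) (s : ℕ → Bool),
      γ * Fintype.card V ≤ m → (m : ℝ) ≤ γ₁ * Fintype.card V → RT m Δ par →
      ∀ X : Finset ℕ, (∀ x ∈ X, x < m) → β * m ≤ X.card →
      (∀ x ∈ X, VPath m par s true (L + 1) x ∧ ∀ j < L + 1 - 1 + l, par^[j] x ≠ 0) →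
      (∀ x ∈ X, ∀ y ∈ X, x ≠ y → Disjoint (UP par l (L + 1) x) (UP par l (L + 1) y)) →
      Absb R θ m par s := by
  classical
  obtain ⟨L, θ₀, n₁, hL, hθ₀, hgad⟩ := gadII ζ hζ
  refine ⟨L, min (ε / 2) (min (ζ / 4) (1 / 10)), hL, by positivity, fun β γ hβ hγ => ?_⟩
  have hL0 : (0 : ℝ) < L := by
    have : 0 < L := by omega
    exact_mod_cast this
  obtain ⟨t, ht0, ht1, ht2⟩ : ∃ t : ℝ, 0 < t ∧ t ≤ θ₀ / L ∧ t ≤ β * γ :=
    ⟨min (θ₀ / L) (β * γ), by positivity, min_le_left _ _, min_le_right _ _⟩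
  obtain ⟨n₂, hn₂⟩ := numerics ht0
  refine ⟨t / 2, max n₁ n₂, by positivity, ?_⟩
  intro V _ _ R hn hR hrob hcon m par s hm1 hm2 hRT X hX1 hX2 hX3 hX4
  obtain ⟨hf1, hf2, hf3, hn3⟩ := hn₂ (Fintype.card V) (le_trans (le_max_right _ _) hn)
  set n := Fintype.card V with hndef
  set f := ⌊t * (n : ℝ)⌋₊ with hfdef
  have hn3' : (3 : ℝ) ≤ n := by exact_mod_cast hn3
  have hf0 : (f : ℝ) ≤ t * n := Nat.floor_le (by positivity)
  have hm0 : 0 < m := by
    have : (0 : ℝ) < m := lt_of_lt_of_le (by positivity) hm1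
    exact_mod_cast this
  have hm2a : (m : ℝ) ≤ ε / 2 * n := hm2.trans
    (mul_le_mul_of_nonneg_right (min_le_left _ _) (by positivity))
  have hm2b : (m : ℝ) ≤ ζ / 4 * n := hm2.trans
    (mul_le_mul_of_nonneg_right (le_trans (min_le_right _ _) (min_le_left _ _)) (by positivity))
  have hm2c : (m : ℝ) ≤ 1 / 10 * n := hm2.trans
    (mul_le_mul_of_nonneg_right (le_trans (min_le_right _ _) (min_le_right _ _)) (by positivity))
  have hfX : f ≤ X.card := by
    have h1 : (f : ℝ) ≤ X.card := by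
      calc (f : ℝ) ≤ t * n := hf0
        _ ≤ β * γ * n := mul_le_mul_of_nonneg_right ht2 (by positivity)
        _ = β * (γ * n) := by ring
        _ ≤ β * m := mul_le_mul_of_nonneg_left hm1 hβ.le
        _ ≤ X.card := hX2
    exact_mod_cast h1
  have hXm : X.card ≤ m := by
    have : X ⊆ range m := fun x hx => mem_range.2 (hX1 x hx)
    have := card_le_card this
    rwa [card_range] at this
  have hfm : (f : ℝ) ≤ m := by exact_mod_cast hfX.trans hXm
  obtain ⟨p, hp1, hp2, hp3⟩ := select (G := Fin L → V) (V := V) (I := V)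
    (fun q => univ.image q)
    (fun q => PG.Ok R q ∧ ((univ.filter fun v => ¬ PG.Acc R q v).card : ℝ) ≤ n / 10)
    (fun q v => ¬ PG.Acc R q v) f L (1 / 50) (by norm_num) (by
      intro Z hZ w hw
      have hZ' : (Z.card : ℝ) ≤ θ₀ * Fintype.card V := by
        have h1 : (Z.card : ℝ) ≤ f * L := by exact_mod_cast hZ
        calc (Z.card : ℝ) ≤ f * L := h1
          _ ≤ (t * n) * L := mul_le_mul_of_nonneg_right hf0 hL0.le
          _ ≤ (θ₀ / L * n) * L := by gcongr
          _ = θ₀ * n := by field_simp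
      obtain ⟨q, q1, q2, q3, q4⟩ := hgad V R (le_trans (le_max_left _ _) hn) hR hrob Z hZ' w hw
      refine ⟨q, ⟨q1, ?_⟩, ?_, q2, ?_⟩
      · convert q3
      · refine card_image_le.trans ?_
        simp
      · convert q4)
  -- slots
  obtain ⟨xx, hxxi, hxxX⟩ : ∃ xx : Fin f → ℕ, Function.Injective xx ∧ ∀ i, xx i ∈ X := by
    obtain ⟨Y, hY, hYf⟩ := Finset.exists_subset_card_eq hfX
    let e := (Y.equivFinOfCardEq hYf).symm
    refine ⟨fun i => (e i : ℕ), fun a b h => e.injective (Subtype.ext h), fun i => hY (e i).2⟩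
  have v0 : V := by
    have : Nonempty V := Fintype.card_pos_iff.1 (by omega)
    exact Classical.choice this
  obtain ⟨U, r, hU1, hU2, hU3⟩ := core (R := R) (ζ := ζ) (ε := ε) v0 hl hL hR hrob hcon par s
    hRT.lt xx (fun i => hX1 _ (hxxX i)) (fun i => (hX3 _ (hxxX i)).1)
    (fun i j hj => (hX3 _ (hxxX i)).2 j (by omega))
    (fun i i' hii => hX4 _ (hxxX i) _ (hxxX i') (fun h => hii (hxxi h))) p (fun i => (hp1 i).1)
    hp2 hm0 (by linarith) (by nlinarith)
  have hUm : (U.card : ℝ) ≤ m := by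
    have : U.card ≤ m := by omega
    exact_mod_cast this
  obtain ⟨R₀, hR1, hR2, hR3⟩ := reserve f (fun i v => PG.Acc R (p i) v) U hf2
    (by linarith) (by linarith)
    (by
      intro v
      have h1 := hp3 v
      have h2 : ((univ.filter fun i => ¬ PG.Acc R (p i) v).card : ℝ) ≤
        Real.log n + 2 * (1 / 50) * f := by convert h1
      refine le_trans (le_of_eq ?_) (h2.trans (by linarith))
      congr!)
    (by
      intro i
      have h1 := (hp1 i).2
      convert h1)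
  refine ⟨f, U, R₀, r, hf1, hU1, hR2, hR1, hU2, fun L' hL1 hL2 hL3 => ?_⟩
  obtain ⟨σ, hσ1, hσ2, hσ3⟩ := hR3 L' hL1 hL3
  exact hU3 L' σ hσ1 hσ2 hL2 hσ3

end Pool.Agent.Lib.RobT
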