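import Pool.Agent.Lib.RobT.Ai
import Pool.Agent.Lib.RobT.Ap

/-!
# Az: every tree of small linear size absorbs
-/

namespace Pool.Agent.Lib.RobT

open Finset

theorem snk_flip {m : ℕ} {par : ℕ → ℕ} {s : ℕ → Bool} {x : ℕ} (h : Snk m par s false x) :
    Snk m par (fun i => !(s i)) true x := by
  refine ⟨by simp [h.1], fun y hy hym hyx => ?_⟩
  simp [h.2 y hy hym hyx]

theorem vpath_flip {m : ℕ} {par : ℕ → ℕ} {s : ℕ → Bool} {L x : ℕ}
    (h : VPath m par s false L x) : VPath m par (fun i => !(s i)) true L x := by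
  intro j hj
  exact ⟨by simp [(h j hj).1], (h j hj).2⟩

theorem absorber (ζ : ℝ) (Δ : ℕ) (hζ : 0 < ζ) :
    ∃ γ₁ : ℝ, 0 < γ₁ ∧ ∀ γ : ℝ, 0 < γ → ∃ (θ : ℝ) (n₀ : ℕ), 0 < θ ∧
      ∀ (V : Type) [Fintype V] [DecidableEq V] (R : V → V → Prop), n₀ ≤ Fintype.card V →
      IsTour R → Rob ζ R → ∀ (m : ℕ) (par : ℕ → ℕ) (s : ℕ → Bool),
      γ * Fintype.card V ≤ m → (m : ℝ) ≤ γ₁ * Fintype.card V → RT m Δ par →
      Absb R θ m par s := by
  obtain ⟨l, ε, n1, hl, hε, hcon⟩ := connect ζ hζ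
  obtain ⟨g1, hg1, hI⟩ := absI ζ ε Δ l hζ hε hl
  obtain ⟨L, g2, hL, hg2, hII⟩ := absII ζ ε Δ l hζ hε hl
  obtain ⟨β, m0, hβ, htree⟩ := tree_structure Δ l (L + 1) (by omega) (by omega)
  refine ⟨min g1 g2, lt_min hg1 hg2, fun γ hγ => ?_⟩
  obtain ⟨t1, n2, ht1, hI⟩ := hI β γ hβ hγ
  obtain ⟨t2, n3, ht2, hII⟩ := hII β γ hβ hγ
  obtain ⟨n4, hn4⟩ := exists_nat_ge ((m0 : ℝ) / γ)
  refine ⟨min t1 t2, max (max n1 n2) (max n3 n4), lt_min ht1 ht2, ?_⟩
  intro V _ _ R hn hR hrob m par s hm1 hm2 hRT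
  have hn1 : n1 ≤ Fintype.card V := le_trans (le_trans (le_max_left _ _) (le_max_left _ _)) hn
  have hn2 : n2 ≤ Fintype.card V := le_trans (le_trans (le_max_right _ _) (le_max_left _ _)) hn
  have hn3 : n3 ≤ Fintype.card V := le_trans (le_trans (le_max_left _ _) (le_max_right _ _)) hn
  have hn4' : n4 ≤ Fintype.card V := le_trans (le_trans (le_max_right _ _) (le_max_right _ _)) hn
  have hm0 : m0 ≤ m := by
    have h1 : (m0 : ℝ) ≤ γ * Fintype.card V := by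
      have h2 : (n4 : ℝ) ≤ Fintype.card V := by exact_mod_cast hn4'
      have h3 := (div_le_iff₀ hγ).1 (hn4.trans h2)
      linarith
    exact_mod_cast h1.trans hm1
  have hmono : ∀ (R' : V → V → Prop) (s' : ℕ → Bool) (t : ℝ), min t1 t2 ≤ t →
      Absb R' t m par s' → Absb R' (min t1 t2) m par s' := by
    rintro R' s' t ht ⟨f, U, R₀, r, h1, h2⟩
    refine ⟨f, U, R₀, r, le_trans ?_ h1, h2⟩
    exact mul_le_mul_of_nonneg_right ht (Nat.cast_nonneg _)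
  have hm2a : (m : ℝ) ≤ g1 * Fintype.card V :=
    hm2.trans (mul_le_mul_of_nonneg_right (min_le_left _ _) (Nat.cast_nonneg _))
  have hm2b : (m : ℝ) ≤ g2 * Fintype.card V :=
    hm2.trans (mul_le_mul_of_nonneg_right (min_le_right _ _) (Nat.cast_nonneg _))
  have hR' := tour_flip hR
  have hrob' := rob_flip hrob
  obtain ⟨σ, ⟨X, hX1, hX2, hX3, hX4⟩ | ⟨X, hX1, hX2, hX3, hX4⟩⟩ := htree m par s hm0 hRT
  · cases σ with
    | true =>
      exact hmono R s t1 (min_le_left _ _) (hI V R hn2 hR hrob (hcon V R hn1 hR hrob) m par s hm1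
        hm2a hRT X hX1 hX2 hX3 hX4)
    | false =>
      apply absb_flip
      exact hmono _ _ t1 (min_le_left _ _) (hI V _ hn2 hR' hrob' (hcon V _ hn1 hR' hrob') m par _
        hm1 hm2a hRT X hX1 hX2 (fun x hx => ⟨snk_flip (hX3 x hx).1, (hX3 x hx).2⟩) hX4)
  · cases σ with
    | true =>
      exact hmono R s t2 (min_le_right _ _) (hII V R hn3 hR hrob (hcon V R hn1 hR hrob) m par s
        hm1 hm2b hRT X hX1 hX2 hX3 hX4)
    | false =>
      apply absb_flip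
      exact hmono _ _ t2 (min_le_right _ _) (hII V _ hn3 hR' hrob' (hcon V _ hn1 hR' hrob') m par
        _ hm1 hm2b hRT X hX1 hX2 (fun x hx => ⟨vpath_flip (hX3 x hx).1, (hX3 x hx).2⟩) hX4)

end Pool.Agent.Lib.RobT
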