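import Pool.Agent.Lib.RobT.Bd

/-!
# Ba: an oriented forest is contained in an oriented tree on the same vertices (about 150 lines)

Work with simple graphs first: let `G` be an acyclic graph on the finite nonempty type `U` with all
degrees at most `D`, `2 ≤ D`.  Among the acyclic graphs `G' ≥ G` on `U` with all degrees at most `D`
take one with the maximal number of edges (finitely many graphs).  CLAIM: `G'` is connected.
Otherwise there are `a, b` with `¬ G'.Reachable a b`.  In the component of `a` there is a vertex
`x` with degree at most `1` (the component is a tree,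
`SimpleGraph.IsAcyclic.isTree_connectedComponent`; it is a single vertex or
`SimpleGraph.IsTree.exists_vert_degree_one_of_nontrivial` gives a vertex of degree `1` in it; all
neighbours of `x` in `G'` are in the component), and `y` in the component of `b`.
`G' ⊔ edge x y` is acyclic (`SimpleGraph.IsAcyclic.sup_edge_of_not_reachable`), the degrees of `x`
and `y` are now at most `2 ≤ D`, and there is one more edge: contradiction.
So `G'` is a tree.  ORIENTATION: `T' x y` if `T x y`, or `G'.Adj x y`, neither `T x y` nor `T y x`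
and `x < y` for some fixed linear order on `U` (e.g. pulled back from `Fin n`).  Then
`SimpleGraph.fromRel T' = G'` and `T'` is antisymmetric.
-/

namespace Pool.Agent.Lib.RobT

open Finset

private theorem Ba_leaf {U : Type} [Fintype U] {G : SimpleGraph U} (hG : G.IsAcyclic) (a : U) :
    ∃ x, G.Reachable a x ∧ {y | G.Adj x y}.Subsingleton := by
  classical
  let P : ℕ → Prop := fun n => ∃ (x : U) (p : G.Walk a x), p.IsPath ∧ p.length = n
  have h0 : P 0 := ⟨a, SimpleGraph.Walk.nil, SimpleGraph.Walk.IsPath.nil, rfl⟩
  have hb : ∀ n, P n → n ≤ Fintype.card U := by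
    rintro n ⟨x, p, hp, rfl⟩
    exact hp.length_lt.le
  have hf : P (Nat.findGreatest P (Fintype.card U)) :=
    Nat.findGreatest_spec (P := P) (Nat.zero_le (Fintype.card U)) h0
  obtain ⟨x, p, hp, hl⟩ := hf
  have key : ∀ y, G.Adj x y → y = p.penultimate := by
    intro y hy
    by_cases hs : y ∈ p.support
    · exact hG.eq_penultimate_of_adj_end hp hy hs
    · exfalso
      have hq : (p.concat hy).IsPath := hp.concat hs hy
      have h1 : P (p.length + 1) := ⟨y, p.concat hy, hq, by simp⟩
      have h2 := Nat.le_findGreatest (hb _ h1) h1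
      omega
  refine ⟨x, p.reachable, ?_⟩
  intro y hy z hz
  rw [key y hy, key z hz]

open Classical in
private theorem Ba_graph {U : Type} [Fintype U] [Nonempty U] (G : SimpleGraph U)
    (hG : G.IsAcyclic) (D : ℕ) (hD : 2 ≤ D)
    (hdeg : ∀ x, (univ.filter fun y => G.Adj x y).card ≤ D) :
    ∃ G' : SimpleGraph U, G ≤ G' ∧ G'.IsTree ∧
      ∀ x, (univ.filter fun y => G'.Adj x y).card ≤ D := by
  set S : Set (SimpleGraph U) := {H | G ≤ H ∧ H.IsAcyclic ∧
    ∀ x, (univ.filter fun y => H.Adj x y).card ≤ D} with hS
  have hfin : S.Finite := Set.toFinite S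
  have hGS : G ∈ S := ⟨le_refl _, hG, hdeg⟩
  obtain ⟨H, hGH, hmax⟩ := hfin.exists_le_maximal hGS
  have hHS : H ∈ S := hmax.prop
  refine ⟨H, hGH, ?_, hHS.2.2⟩
  refine ⟨?_, hHS.2.1⟩
  rw [SimpleGraph.connected_iff]
  refine ⟨?_, inferInstance⟩
  intro a b
  by_contra hab
  obtain ⟨x, hax, hx⟩ := Ba_leaf hHS.2.1 a
  obtain ⟨y, hby, hy⟩ := Ba_leaf hHS.2.1 b
  have hxy : ¬ H.Reachable x y := fun h => hab (hax.trans (h.trans hby.symm))
  have hne : x ≠ y := by
    rintro rfl
    exact hxy (SimpleGraph.Reachable.refl _)
  have cx : (univ.filter fun z => H.Adj x z).card ≤ 1 := by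
    rw [card_le_one]
    intro u hu v hv
    simp only [mem_filter, mem_univ, true_and] at hu hv
    exact hx hu hv
  have cy : (univ.filter fun z => H.Adj y z).card ≤ 1 := by
    rw [card_le_one]
    intro u hu v hv
    simp only [mem_filter, mem_univ, true_and] at hu hv
    exact hy hu hv
  have hnew : H ⊔ SimpleGraph.edge x y ∈ S := by
    refine ⟨hGH.trans le_sup_left, hHS.2.1.sup_edge_of_not_reachable hxy, ?_⟩
    intro z
    by_cases hzx : z = x
    · refine le_trans (card_le_card (t := insert y (univ.filter fun w => H.Adj x w)) ?_) ?_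
      · intro w hw
        simp only [mem_filter, SimpleGraph.sup_adj, SimpleGraph.edge_adj] at hw
        rw [hzx] at hw
        rw [mem_insert, mem_filter]
        rcases hw.2 with hw | hw
        · exact Or.inr ⟨mem_univ _, hw⟩
        · rcases hw.1 with h | h
          · exact Or.inl h.2
          · exact absurd h.1 hne
      · refine le_trans (card_insert_le _ _) ?_
        omega
    · by_cases hzy : z = y
      · refine le_trans (card_le_card (t := insert x (univ.filter fun w => H.Adj y w)) ?_) ?_
        · intro w hw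
          simp only [mem_filter, SimpleGraph.sup_adj, SimpleGraph.edge_adj] at hw
          rw [hzy] at hw
          rw [mem_insert, mem_filter]
          rcases hw.2 with hw | hw
          · exact Or.inr ⟨mem_univ _, hw⟩
          · rcases hw.1 with h | h
            · exact absurd h.1.symm hne
            · exact Or.inl h.2
        · refine le_trans (card_insert_le _ _) ?_
          omega
      · refine le_trans (card_le_card (t := univ.filter fun w => H.Adj z w) ?_) (hHS.2.2 z)
        intro w hw
        simp only [mem_filter, SimpleGraph.sup_adj, SimpleGraph.edge_adj] at hw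
        rw [mem_filter]
        rcases hw.2 with hw | hw
        · exact ⟨mem_univ _, hw⟩
        · rcases hw.1 with h | h
          · exact absurd h.1 hzx
          · exact absurd h.1 hzy
  have hle : H ⊔ SimpleGraph.edge x y ≤ H := hmax.le_of_ge hnew le_sup_left
  have hadj : H.Adj x y := by
    apply hle
    rw [SimpleGraph.sup_adj, SimpleGraph.edge_adj]
    exact Or.inr ⟨Or.inl ⟨rfl, rfl⟩, hne⟩
  exact hxy hadj.reachable

theorem forest_ext {U : Type} [Fintype U] [Nonempty U] {T : U → U → Prop} {Δ : ℕ}
    (h : IsOForest Δ T) :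
    ∃ T' : U → U → Prop, (∀ x y, T x y → T' x y) ∧ IsOTree (max Δ 2) T' := by
  classical
  have hne : ∀ x y, T x y → x ≠ y := by
    rintro x y hxy rfl
    exact h.asym x x hxy hxy
  have hadj : ∀ x y, (SimpleGraph.fromRel T).Adj x y ↔ (T x y ∨ T y x) := by
    intro x y
    rw [SimpleGraph.fromRel_adj]
    constructor
    · exact fun h => h.2
    · rintro (h' | h')
      · exact ⟨hne _ _ h', Or.inl h'⟩
      · exact ⟨(hne _ _ h').symm, Or.inr h'⟩
  obtain ⟨G', hle, htree, hdeg⟩ := Ba_graph (SimpleGraph.fromRel T) h.acyc (max Δ 2)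
    (le_max_right _ _) (by
      intro x
      refine le_trans (card_le_card ?_) ((h.deg x).trans (le_max_left _ _))
      intro y hy
      simp only [mem_filter, mem_univ, true_and] at hy ⊢
      exact (hadj x y).1 hy)
  have hTG : ∀ x y, T x y → G'.Adj x y := fun x y hxy => hle ((hadj x y).2 (Or.inl hxy))
  let e := Fintype.equivFin U
  refine ⟨fun a b => T a b ∨ (G'.Adj a b ∧ ¬ T a b ∧ ¬ T b a ∧ e a < e b),
    fun x y hxy => Or.inl hxy, ?_⟩
  have hback : ∀ x y, ((T x y ∨ (G'.Adj x y ∧ ¬ T x y ∧ ¬ T y x ∧ e x < e y)) ∨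
      (T y x ∨ (G'.Adj y x ∧ ¬ T y x ∧ ¬ T x y ∧ e y < e x))) ↔ G'.Adj x y := by
    intro x y
    constructor
    · rintro ((h1 | h1) | (h1 | h1))
      · exact hTG _ _ h1
      · exact h1.1
      · exact (hTG _ _ h1).symm
      · exact h1.1.symm
    · intro h1
      by_cases h2 : T x y
      · exact Or.inl (Or.inl h2)
      · by_cases h3 : T y x
        · exact Or.inr (Or.inl h3)
        · have h4 : e x ≠ e y := fun h5 => h1.ne (e.injective h5)
          rcases lt_or_gt_of_ne h4 with h5 | h5
          · exact Or.inl (Or.inr ⟨h1, h2, h3, h5⟩)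
          · exact Or.inr (Or.inr ⟨h1.symm, h3, h2, h5⟩)
  refine ⟨?_, ?_, ?_⟩
  · rintro x y (h1 | h1) (h2 | h2)
    · exact h.asym _ _ h1 h2
    · exact h2.2.2.1 h1
    · exact h1.2.2.1 h2
    · exact absurd h1.2.2.2 (not_lt.2 h2.2.2.2.le)
  · have hG : SimpleGraph.fromRel (fun a b => T a b ∨
        (G'.Adj a b ∧ ¬ T a b ∧ ¬ T b a ∧ e a < e b)) = G' := by
      ext x y
      rw [SimpleGraph.fromRel_adj, hback x y]
      exact ⟨fun h => h.2, fun h => ⟨h.ne, h⟩⟩
    rw [hG]
    exact htree
  · intro x
    refine le_trans (card_le_card ?_) (hdeg x)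
    intro y hy
    simp only [mem_filter, mem_univ, true_and] at hy ⊢
    exact (hback x y).1 hy

end Pool.Agent.Lib.RobT
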