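import Pool.Agent.Lib.RobT.Ba

/-!
# Bb: sources of forests and closed sets (about 150 lines)

`forest_of_tree` is clear (`IsTree.isAcyclic`).
`forest_sub`: the graph of the restricted relation is the induced graph
(`SimpleGraph.IsAcyclic.comap` for the embedding `Subtype.val`); the degrees do not increase.
`arcs_le`: apply `forest_ext` to the restriction to `W`: `T'` on `{x // x ∈ W}`.  The number of
pairs
`(x, y)` with `T' x y` equals the number of edges of `fromRel T'` (antisymmetry), i.e. `|W| - 1`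
(`SimpleGraph.IsTree.card_edgeFinset`); and `∑_{v ∈ W} ind T W v` is the number of pairs in `W` with
`T x y`, which is at most this.
`exc_lt`: `∑_{v ∈ W} (ind v - 1) = ∑_{v ∈ W} ind v - |W| + |Sr W|` (`v` contributes `ind v - 1` if
`ind v ≥ 1` and `0` if it is a source).
`inc_exists`: induction on `k`: `I` in-closed with `|I| = k < |W|`; `W \ I` is nonempty, so it has a
source `x` (`exc_lt` for `W \ I`); `insert x I` is in-closed in `W`.
-/

namespace Pool.Agent.Lib.RobT

open Finset

theorem forest_of_tree {U : Type} [Fintype U] {T : U → U → Prop} {Δ : ℕ} (h : IsOTree Δ T) :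
    IsOForest Δ T :=
  ⟨h.asym, h.tree.isAcyclic, h.deg⟩

theorem forest_sub {U : Type} [Fintype U] {T : U → U → Prop} {Δ : ℕ} (h : IsOForest Δ T)
    (W : Finset U) : IsOForest (U := {x : U // x ∈ W}) Δ fun a b => T a b := by
  classical
  refine ⟨fun x y hxy => h.asym _ _ hxy, ?_, fun x => ?_⟩
  · refine h.acyc.comap (⟨Subtype.val, ?_⟩ : SimpleGraph.fromRel
      (fun a b : {x : U // x ∈ W} => T a b) →g SimpleGraph.fromRel T) Subtype.val_injective
    intro a b hab
    rw [SimpleGraph.fromRel_adj] at hab ⊢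
    exact ⟨fun e => hab.1 (Subtype.ext e), hab.2⟩
  · refine le_trans ?_ (h.deg x)
    apply card_le_card_of_injOn Subtype.val
    · intro y hy
      simp only [coe_filter, mem_univ, true_and, Set.mem_ofPred_eq] at hy ⊢
      exact hy
    · exact Subtype.val_injective.injOn

theorem arcs_le {U : Type} [Fintype U] {T : U → U → Prop} {Δ : ℕ} (h : IsOForest Δ T)
    (W : Finset U) (hW : W.Nonempty) : ∑ v ∈ W, ind T W v + 1 ≤ W.card := by
  classical
  have : Nonempty {x : U // x ∈ W} := by
    obtain ⟨w, hw⟩ := hW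
    exact ⟨⟨w, hw⟩⟩
  obtain ⟨T', h1, h2⟩ := forest_ext (forest_sub h W)
  have e1 : (SimpleGraph.fromRel T').edgeFinset.card + 1 = Fintype.card {x : U // x ∈ W} :=
    h2.tree.card_edgeFinset
  rw [Fintype.card_coe] at e1
  rw [← e1]
  have e2 : ∑ v ∈ W, ind T W v = (W.sigma fun v => W.filter fun u => T u v).card := by
    rw [card_sigma]
    apply sum_congr rfl
    intro v _
    unfold ind
    congr 1
  rw [e2]
  apply Nat.add_le_add_right
  refine le_trans ?_ (card_image_le (s := (SimpleGraph.fromRel T').edgeFinset)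
    (f := Sym2.map Subtype.val))
  apply card_le_card_of_injOn (fun p => s(p.1, p.2))
  · rintro ⟨v, u⟩ hp
    simp only [coe_sigma, Set.mem_sigma_iff, mem_coe, mem_filter] at hp
    obtain ⟨hv, hu, huv⟩ := hp
    rw [mem_coe, mem_image]
    refine ⟨s(⟨v, hv⟩, ⟨u, hu⟩), ?_, rfl⟩
    rw [SimpleGraph.mem_edgeFinset, SimpleGraph.mem_edgeSet, SimpleGraph.fromRel_adj]
    have h3 := h1 ⟨u, hu⟩ ⟨v, hv⟩ huv
    refine ⟨?_, Or.inr h3⟩
    intro e
    rw [e] at h3
    exact h2.asym _ _ h3 h3
  · rintro ⟨v, u⟩ hp ⟨v', u'⟩ hq heq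
    simp only [coe_sigma, Set.mem_sigma_iff, mem_coe, mem_filter] at hp hq
    simp only [Sym2.eq_iff] at heq
    rcases heq with ⟨a, b⟩ | ⟨a, b⟩
    · subst a
      subst b
      rfl
    · subst a
      subst b
      exact absurd hq.2.2 (h.asym _ _ hp.2.2)

theorem exc_lt {U : Type} [Fintype U] {T : U → U → Prop} {Δ : ℕ} (h : IsOForest Δ T)
    (W : Finset U) (hW : W.Nonempty) : Exc T W + 1 ≤ (Sr T W).card := by
  classical
  have h1 := arcs_le h W hW
  have h2 : Exc T W + W.card = ∑ v ∈ W, ind T W v + (Sr T W).card := by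
    have e1 : (Sr T W).card = ∑ v ∈ W, if ind T W v = 0 then 1 else 0 := by
      unfold Sr
      rw [card_filter]
    rw [e1, ← sum_add_distrib, Exc, card_eq_sum_ones, ← sum_add_distrib]
    apply sum_congr rfl
    intro v _
    split_ifs with h0 <;> omega
  omega

theorem inc_exists {U : Type} [Fintype U] [DecidableEq U] {T : U → U → Prop} {Δ : ℕ}
    (h : IsOForest Δ T) (W : Finset U) (k : ℕ) (hk : k ≤ W.card) :
    ∃ I, Inc T W I ∧ I.card = k := by
  classical
  induction k with
  | zero => exact ⟨∅, ⟨empty_subset _, fun u _ v hv => absurd hv (notMem_empty v)⟩, rfl⟩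
  | succ k ih =>
    obtain ⟨I, hI, hc⟩ := ih (by omega)
    have hne : (W \ I).Nonempty := by
      rw [← card_pos, card_sdiff_of_subset hI.1]
      omega
    have h1 := exc_lt h (W \ I) hne
    have h2 : (Sr T (W \ I)).Nonempty := by
      rw [← card_pos]
      omega
    obtain ⟨x, hx⟩ := h2
    unfold Sr ind at hx
    rw [mem_filter, mem_sdiff, card_eq_zero] at hx
    refine ⟨insert x I, ⟨?_, ?_⟩, ?_⟩
    · rw [insert_subset_iff]
      exact ⟨hx.1.1, hI.1⟩
    · intro u hu v hv huv
      rw [mem_insert] at hv ⊢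
      rcases hv with rfl | hv
      · right
        by_contra hn
        have h4 := hx.2
        rw [filter_eq_empty_iff] at h4
        exact h4 (mem_sdiff.2 ⟨hu, hn⟩) huv
      · exact Or.inr (hI.2 u hu v hv huv)
    · rw [card_insert_of_notMem hx.1.2, hc]

end Pool.Agent.Lib.RobT
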