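import Pool.Agent.Lib.RobT.Bd

/-!
# Bc: monotonicity of the potential (about 130 lines)

`W' = W \ I`.  `ind T W' v ≤ ind T W v` (subset).
`exc_mono`: the sum over `W'` of the smaller terms.
`dn_mono`: suppose `Exc T W' = Exc T W`.  Then all terms agree: for `v ∈ W'`,
`ind T W' v - 1 = ind T W v - 1`, and for `v ∈ I`, `ind T W v - 1 = 0`.  Let `v ∈ Dn T W'`; show
`v ∈ Dn T W`: let `u ∈ W` be an ancestor of `v` in `W`.  If `u ∈ I` then `ind T W u ≤ 1`.  If `u ∈
W'`:
the path from `u` to `v` stays in `W'` (a vertex of `I` on it would force its predecessors in `I`,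
as
`I` is in-closed; so `u ∈ I`), hence `ind T W' u ≤ 1`, and `ind T W u - 1 = ind T W' u - 1 = 0`.
(`Relation.ReflTransGen.head_induction_on`: if `b ∈ W'`, `T a b`, `a ∈ W` is on the path and `a ∈
W'`...
formally prove: for every `u` with `ReflTransGen (in W) u v`, either `u ∈ I` or
`ReflTransGen (in W') u v`, by head induction: `u → u'`, if `u' ∈ I` then `u ∈ I`; otherwise `u ∈
I` or
`u, u' ∈ W'`.)
`wt_mono`: if `Exc T W' < Exc T W` the first part of `wt` decreases (or both are `≥ K` and it is the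
same); if equal use `dn_mono`; `|W'| ≤ |W|`.
`wt_drop`: `I = {x}`, `x` a source of `W`.  (i) `|W| < K`: the last summand decreases by `1`.
(ii) `Exc T W < K` and `|Dn T W| ≤ K₁`: `x ∈ Dn T W` (the only ancestor of a source is itself).  If
`Exc T W' < Exc T W` then the first part decreases by at least `1`; if equal,
`Dn T W' ⊆ Dn T W \ {x}` and `min` decreases by `1`.
`wt_le`: the first part is at most `K (K₁ + 1) + K₁`.
-/

namespace Pool.Agent.Lib.RobT

open Finset

variable {U : Type} [DecidableEq U] {T : U → U → Prop}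

private theorem ind_mono (W I : Finset U) (v : U) : ind T (W \ I) v ≤ ind T W v := by
  classical
  unfold ind
  exact card_le_card (filter_subset_filter _ sdiff_subset)

private theorem step_le {a b k : ℕ} (h : a < b) : a * (k + 1) + k + 1 ≤ b * (k + 1) := by
  have h1 : (a + 1) * (k + 1) ≤ b * (k + 1) := Nat.mul_le_mul_right _ h
  calc a * (k + 1) + k + 1 = (a + 1) * (k + 1) := by ring
    _ ≤ _ := h1

theorem inc_source {W : Finset U} {x : U} (hx : x ∈ Sr T W) : Inc T W {x} := by
  classical
  unfold Sr at hx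
  rw [mem_filter] at hx
  refine ⟨singleton_subset_iff.2 hx.1, fun u hu v hv huv => ?_⟩
  rw [mem_singleton] at hv
  subst hv
  have h1 := hx.2
  unfold ind at h1
  rw [card_eq_zero] at h1
  have h2 : u ∈ W.filter fun u => T u v := mem_filter.2 ⟨hu, huv⟩
  rw [h1] at h2
  exact absurd h2 (notMem_empty u)

theorem exc_mono {W I : Finset U} (h : Inc T W I) : Exc T (W \ I) ≤ Exc T W := by
  unfold Exc
  calc ∑ v ∈ W \ I, (ind T (W \ I) v - 1) ≤ ∑ v ∈ W \ I, (ind T W v - 1) :=
        sum_le_sum fun v _ => Nat.sub_le_sub_right (ind_mono W I v) 1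
    _ ≤ ∑ v ∈ W, (ind T W v - 1) := sum_le_sum_of_subset sdiff_subset

theorem dn_mono {W I : Finset U} (h : Inc T W I) (he : Exc T (W \ I) = Exc T W) :
    Dn T (W \ I) ⊆ Dn T W \ I := by
  classical
  have hsplit : ∑ v ∈ W \ I, (ind T W v - 1) + ∑ v ∈ I, (ind T W v - 1) = Exc T W := by
    unfold Exc
    exact sum_sdiff h.1
  have hle : ∑ v ∈ W \ I, (ind T (W \ I) v - 1) ≤ ∑ v ∈ W \ I, (ind T W v - 1) :=
    sum_le_sum fun v _ => Nat.sub_le_sub_right (ind_mono W I v) 1
  have he' : ∑ v ∈ W \ I, (ind T (W \ I) v - 1) = Exc T W := he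
  have hI0 : ∑ v ∈ I, (ind T W v - 1) = 0 := by omega
  have hWeq : ∑ v ∈ W \ I, (ind T (W \ I) v - 1) = ∑ v ∈ W \ I, (ind T W v - 1) := by omega
  have hI : ∀ v ∈ I, ind T W v - 1 = 0 := fun v hv => (sum_eq_zero_iff.1 hI0) v hv
  have hW : ∀ v ∈ W \ I, ind T (W \ I) v - 1 = ind T W v - 1 :=
    (sum_eq_sum_iff_of_le fun v _ => Nat.sub_le_sub_right (ind_mono W I v) 1).1 hWeq
  intro v hv
  unfold Dn at hv ⊢
  rw [mem_filter] at hv
  obtain ⟨hvW, hv2⟩ := hv
  rw [mem_sdiff] at hvW
  rw [mem_sdiff, mem_filter]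
  refine ⟨⟨hvW.1, fun u hu huv => ?_⟩, hvW.2⟩
  have key : ∀ u, Relation.ReflTransGen (fun a b => a ∈ W ∧ b ∈ W ∧ T a b) u v →
      u ∈ I ∨ Relation.ReflTransGen (fun a b => a ∈ W \ I ∧ b ∈ W \ I ∧ T a b) u v := by
    intro u hu
    induction hu using Relation.ReflTransGen.head_induction_on with
    | refl => exact Or.inr Relation.ReflTransGen.refl
    | head hac hrt ih =>
      rename_i a c
      by_cases hc : c ∈ I
      · exact Or.inl (h.2 a hac.1 c hc hac.2.2)
      · rcases ih with ih | ih
        · exact absurd ih hc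
        · by_cases ha : a ∈ I
          · exact Or.inl ha
          · exact Or.inr (Relation.ReflTransGen.head
              ⟨mem_sdiff.2 ⟨hac.1, ha⟩, mem_sdiff.2 ⟨hac.2.1, hc⟩, hac.2.2⟩ ih)
  by_cases huI : u ∈ I
  · have := hI u huI
    omega
  · rcases key u huv with h1 | h1
    · exact absurd h1 huI
    · have huW : u ∈ W \ I := mem_sdiff.2 ⟨hu, huI⟩
      have h2 := hv2 u huW h1
      have h3 := hW u huW
      omega

/-- the first part of the potential -/
private noncomputable def ph (T : U → U → Prop) (K K₁ : ℕ) (W : Finset U) : ℕ :=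
  if Exc T W < K then Exc T W * (K₁ + 1) + min (Dn T W).card K₁ else K * (K₁ + 1) + K₁

omit [DecidableEq U] in
private theorem wt_eq (K K₁ : ℕ) (W : Finset U) :
    wt T K K₁ W = K * (ph T K K₁ W + min W.card K) := rfl

omit [DecidableEq U] in
private theorem ph_le (K K₁ : ℕ) (W : Finset U) : ph T K K₁ W ≤ K * (K₁ + 1) + K₁ := by
  unfold ph
  split_ifs with h
  · have h1 := Nat.mul_le_mul_right (K₁ + 1) h.le
    have h2 := min_le_right (Dn T W).card K₁
    omega
  · exact le_rfl

private theorem ph_mono {W I : Finset U} (h : Inc T W I) (K K₁ : ℕ) :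
    ph T K K₁ (W \ I) ≤ ph T K K₁ W := by
  by_cases h1 : Exc T W < K
  · have h0 := exc_mono h
    have h2 : Exc T (W \ I) < K := lt_of_le_of_lt h0 h1
    unfold ph
    rw [if_pos h1, if_pos h2]
    rcases h0.lt_or_eq with h3 | h3
    · have h4 := step_le (k := K₁) h3
      have h5 := min_le_right (Dn T (W \ I)).card K₁
      omega
    · rw [h3]
      have h4 : (Dn T (W \ I)).card ≤ (Dn T W).card :=
        card_le_card ((dn_mono h h3).trans sdiff_subset)
      have h5 := min_le_min_right K₁ h4
      omega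
  · have h2 : ph T K K₁ W = K * (K₁ + 1) + K₁ := by
      unfold ph
      rw [if_neg h1]
    rw [h2]
    exact ph_le K K₁ _

theorem wt_mono {W I : Finset U} (h : Inc T W I) (K K₁ : ℕ) :
    wt T K K₁ (W \ I) ≤ wt T K K₁ W := by
  rw [wt_eq, wt_eq]
  refine Nat.mul_le_mul_left _ (Nat.add_le_add (ph_mono h K K₁) ?_)
  exact min_le_min_right K (card_le_card sdiff_subset)

private theorem source_dn {W : Finset U} {x : U} (hx : x ∈ Sr T W) : x ∈ Dn T W := by
  classical
  have hinc := inc_source hx
  unfold Sr at hx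
  rw [mem_filter] at hx
  unfold Dn
  rw [mem_filter]
  refine ⟨hx.1, fun u hu hux => ?_⟩
  have h1 : u = x := by
    rcases Relation.ReflTransGen.cases_tail hux with h2 | ⟨c, -, hc⟩
    · exact h2.symm
    · exfalso
      have h0 := hx.2
      unfold ind at h0
      rw [card_eq_zero] at h0
      have h2 : c ∈ W.filter fun u => T u x := mem_filter.2 ⟨hc.1, hc.2.2⟩
      rw [h0] at h2
      exact absurd h2 (notMem_empty c)
  rw [h1, hx.2]
  exact Nat.zero_le 1

theorem wt_drop {W : Finset U} {x : U} (hx : x ∈ Sr T W) (K K₁ : ℕ)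
    (h : W.card < K ∨ (Exc T W < K ∧ (Dn T W).card ≤ K₁)) :
    wt T K K₁ (W \ {x}) + K ≤ wt T K K₁ W := by
  classical
  have hinc := inc_source hx
  have hxW : x ∈ W := singleton_subset_iff.1 hinc.1
  have hcard : (W \ {x}).card + 1 = W.card := by
    rw [card_sdiff_of_subset hinc.1, card_singleton]
    have := card_pos.2 ⟨x, hxW⟩
    omega
  have hph := ph_mono hinc K K₁
  have hkey : ph T K K₁ (W \ {x}) + min (W \ {x}).card K + 1 ≤ ph T K K₁ W + min W.card K := by
    rcases h with h | ⟨h1, h2⟩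
    · have h3 : min W.card K = W.card := min_eq_left h.le
      have h4 := min_le_left (W \ {x}).card K
      omega
    · have h5 : min (W \ {x}).card K ≤ min W.card K :=
        min_le_min_right K (card_le_card sdiff_subset)
      have h6 : ph T K K₁ (W \ {x}) + 1 ≤ ph T K K₁ W := by
        have h0 := exc_mono hinc
        have h7 : Exc T (W \ {x}) < K := lt_of_le_of_lt h0 h1
        unfold ph
        rw [if_pos h1, if_pos h7]
        rcases h0.lt_or_eq with h3 | h3
        · have h4 := step_le (k := K₁) h3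
          have h8 := min_le_right (Dn T (W \ {x})).card K₁
          omega
        · rw [h3]
          have h4 : (Dn T (W \ {x})).card ≤ (Dn T W \ {x}).card := card_le_card (dn_mono hinc h3)
          have hxD := source_dn hx
          rw [card_sdiff_of_subset (singleton_subset_iff.2 hxD), card_singleton] at h4
          have h9 := card_pos.2 ⟨x, hxD⟩
          have h10 : min (Dn T W).card K₁ = (Dn T W).card := min_eq_left h2
          have h11 := min_le_left (Dn T (W \ {x})).card K₁
          omega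
      omega
  rw [wt_eq, wt_eq]
  calc K * (ph T K K₁ (W \ {x}) + min (W \ {x}).card K) + K
      = K * (ph T K K₁ (W \ {x}) + min (W \ {x}).card K + 1) := by ring
    _ ≤ _ := Nat.mul_le_mul_left _ hkey

theorem wt_le (W : Finset U) (K K₁ : ℕ) :
    wt T K K₁ W ≤ K * (K * (K₁ + 1) + K₁ + K) := by
  rw [wt_eq]
  exact Nat.mul_le_mul_left _ (Nat.add_le_add (ph_le K K₁ W) (min_le_right _ _))

end Pool.Agent.Lib.RobT
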