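import Pool.Agent.Lib.RobT.Fn

/-!
# Bd: forests, in-closed sets, definitions
-/

namespace Pool.Agent.Lib.RobT

open Finset

open Classical in
/-- An oriented forest with maximum degree at most `Δ`. -/
structure IsOForest {U : Type} [Fintype U] (Δ : ℕ) (T : U → U → Prop) : Prop where
  asym : ∀ x y, T x y → ¬ T y x
  acyc : (SimpleGraph.fromRel T).IsAcyclic
  deg : ∀ x, (univ.filter fun y => T x y ∨ T y x).card ≤ Δ

open Classical in
/-- The in-degree of `v` inside `W`. -/
noncomputable def ind {U : Type} (T : U → U → Prop) (W : Finset U) (v : U) : ℕ :=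
  (W.filter fun u => T u v).card

open Classical in
/-- The sources of `W`. -/
noncomputable def Sr {U : Type} (T : U → U → Prop) (W : Finset U) : Finset U :=
  W.filter fun v => ind T W v = 0

/-- The excess `∑ (ind v - 1)⁺` of `W`. -/
noncomputable def Exc {U : Type} (T : U → U → Prop) (W : Finset U) : ℕ :=
  ∑ v ∈ W, (ind T W v - 1)

open Classical in
/-- The vertices of `W` all of whose ancestors in `W` (themselves included) have in-degree at
most `1` inside `W`. -/
noncomputable def Dn {U : Type} (T : U → U → Prop) (W : Finset U) : Finset U :=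
  W.filter fun v => ∀ u ∈ W,
    Relation.ReflTransGen (fun a b => a ∈ W ∧ b ∈ W ∧ T a b) u v → ind T W u ≤ 1

/-- `I ⊆ W` is closed under in-neighbours in `W`. -/
def Inc {U : Type} (T : U → U → Prop) (W I : Finset U) : Prop :=
  I ⊆ W ∧ ∀ u ∈ W, ∀ v ∈ I, T u v → u ∈ I

/-- The potential. -/
noncomputable def wt {U : Type} (T : U → U → Prop) (K K₁ : ℕ) (W : Finset U) : ℕ :=
  K * ((if Exc T W < K then Exc T W * (K₁ + 1) + min (Dn T W).card K₁ else
    K * (K₁ + 1) + K₁) + min W.card K)

end Pool.Agent.Lib.RobT
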