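import Pool.Agent.Lib.RobT.Bb

/-!
# Be: a long directed path of vertices of in-degree one (about 180 lines)

Levels: `L 0 = Sr T W`, `L (t+1) = {v ∈ Dn T W | ∃ u ∈ L t, T u v}`.
(1) `L t ⊆ Dn T W`: a source is in `Dn` (it has no in-neighbour in `W`, so its only ancestor is
itself, with `ind = 0`).
(2) `|L (t+1)| ≤ Δ |L t|` (every vertex has at most `Δ` out-neighbours), so
`|L t| ≤ Δ^t |Sr T W| ≤ (Δ+1)^t K`.
(3) `Dn T W = ⋃_{t < |U| + 1} L t`, in fact every `v ∈ Dn` is in some `L t`: let `S` be the set of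
the `v ∈ Dn` in no `L t` and suppose it is nonempty.  `v ∈ S` is not a source, so it has an
in-neighbour `u ∈ W`, `u ∈ Dn` (an ancestor of `u` is an ancestor of `v`), `u ∉ L t` for all `t`
(otherwise `v ∈ L (t+1)`), so `u ∈ S`.  So `∑_{v ∈ S} ind T S v ≥ |S|`, contradiction to `arcs_le`.
(4) If `L t = ∅` then all later ones are empty.  If `L (s-1) = ∅` then
`|Dn T W| ≤ ∑_{t < s - 1} |L t| ≤ (s-1) (Δ+1)^s K ≤ K² (Δ+1)^K`, which is excluded.  So there is
`v ∈ L (s-1)`, and going back a path `p 0, …, p (s-1) = v` with `p t ∈ L t`, `T (p t) (p (t+1))`.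
(5) `p (t+1) ∈ Dn`, so `ind T W (p (t+1)) ≤ 1` and `p t` is its only in-neighbour in `W`.
`p` is injective: if `p i = p j`, `i < j`, going back with the unique in-neighbours `p 0 = p (j -
i)`,
but `p 0` is a source and `p (j-i)` is not.
-/

namespace Pool.Agent.Lib.RobT

open Finset

section

variable {U : Type}

open Classical in
private noncomputable def lev (T : U → U → Prop) (W : Finset U) : ℕ → Finset U
  | 0 => Sr T W
  | t + 1 => (Dn T W).filter fun v => ∃ u ∈ lev T W t, T u v

private theorem Sr_sub (T : U → U → Prop) (W : Finset U) : Sr T W ⊆ W := by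
  classical
  exact Finset.filter_subset _ _

private theorem Dn_sub (T : U → U → Prop) (W : Finset U) : Dn T W ⊆ W := by
  classical
  intro v hv
  unfold Dn at hv
  simp only [Finset.mem_filter] at hv
  exact hv.1

private theorem mem_Sr {T : U → U → Prop} {W : Finset U} {v : U} :
    v ∈ Sr T W ↔ v ∈ W ∧ ind T W v = 0 := by
  classical
  exact Finset.mem_filter

private theorem mem_Dn {T : U → U → Prop} {W : Finset U} {v : U} :
    v ∈ Dn T W ↔ v ∈ W ∧ ∀ u ∈ W,
      Relation.ReflTransGen (fun a b => a ∈ W ∧ b ∈ W ∧ T a b) u v → ind T W u ≤ 1 := by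
  unfold Dn
  simp only [Finset.mem_filter]

private theorem mem_lev_succ {T : U → U → Prop} {W : Finset U} {t : ℕ} {v : U} :
    v ∈ lev T W (t + 1) ↔ v ∈ Dn T W ∧ ∃ u ∈ lev T W t, T u v := by
  classical
  exact Finset.mem_filter

private theorem lev_sub (T : U → U → Prop) (W : Finset U) (t : ℕ) : lev T W t ⊆ W := by
  intro v hv
  cases t with
  | zero => exact Sr_sub T W hv
  | succ t => exact Dn_sub T W (mem_lev_succ.1 hv).1

private theorem ind_pos {T : U → U → Prop} {W : Finset U} {u v : U} (hu : u ∈ W) (h : T u v) :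
    1 ≤ ind T W v := by
  classical
  exact Finset.card_pos.2 ⟨u, Finset.mem_filter.2 ⟨hu, h⟩⟩

private theorem ind_one {T : U → U → Prop} {W : Finset U} {u u' v : U} (hv : ind T W v ≤ 1)
    (hu : u ∈ W) (h : T u v) (hu' : u' ∈ W) (h' : T u' v) : u = u' := by
  classical
  exact Finset.card_le_one.1 hv u (Finset.mem_filter.2 ⟨hu, h⟩) u' (Finset.mem_filter.2 ⟨hu', h'⟩)

private theorem ind_ex {T : U → U → Prop} {W : Finset U} {v : U} (hv : ind T W v ≠ 0) :
    ∃ u ∈ W, T u v := by
  classical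
  obtain ⟨u, hu⟩ := Finset.card_pos.1 (Nat.pos_of_ne_zero hv)
  exact ⟨u, (Finset.mem_filter.1 hu).1, (Finset.mem_filter.1 hu).2⟩

private theorem lev_card [Fintype U] {T : U → U → Prop} {Δ : ℕ} (h : IsOForest Δ T) (W : Finset U) (K : ℕ)
    (hK : (Sr T W).card ≤ K) (t : ℕ) : (lev T W t).card ≤ (Δ + 1) ^ t * K := by
  classical
  induction t with
  | zero =>
    rw [pow_zero, one_mul]
    exact hK
  | succ t ih =>
    have h1 : lev T W (t + 1) ⊆ (lev T W t).biUnion
        fun u => univ.filter fun y => T u y ∨ T y u := by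
      intro v hv
      obtain ⟨_, u, hu, huv⟩ := mem_lev_succ.1 hv
      exact Finset.mem_biUnion.2 ⟨u, hu, Finset.mem_filter.2 ⟨Finset.mem_univ _, Or.inl huv⟩⟩
    have h2 := Finset.card_biUnion_le_card_mul (lev T W t)
      (fun u => univ.filter fun y => T u y ∨ T y u) Δ (fun u _ => by
        have := h.deg u
        convert this)
    calc (lev T W (t + 1)).card ≤ _ := Finset.card_le_card h1
      _ ≤ (lev T W t).card * Δ := h2
      _ ≤ ((Δ + 1) ^ t * K) * (Δ + 1) := Nat.mul_le_mul ih (Nat.le_succ Δ)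
      _ = (Δ + 1) ^ (t + 1) * K := by ring

private theorem lev_cover [Fintype U] {T : U → U → Prop} {Δ : ℕ} (h : IsOForest Δ T) (W : Finset U) (v : U)
    (hv : v ∈ Dn T W) : ∃ t, v ∈ lev T W t := by
  classical
  by_contra hcon
  push Not at hcon
  set S : Finset U := (Dn T W).filter fun v => ∀ t, v ∉ lev T W t with hS
  have hSne : S.Nonempty := ⟨v, Finset.mem_filter.2 ⟨hv, hcon⟩⟩
  have h1 : ∀ v ∈ S, 1 ≤ ind T S v := by
    intro v hv
    obtain ⟨hvD, hvL⟩ := Finset.mem_filter.1 hv
    have hvW := Dn_sub T W hvD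
    have hne : ind T W v ≠ 0 := fun h0 => hvL 0 (mem_Sr.2 ⟨hvW, h0⟩)
    obtain ⟨u, hu, huv⟩ := ind_ex hne
    have huD : u ∈ Dn T W := by
      refine mem_Dn.2 ⟨hu, fun w hw hwu => (mem_Dn.1 hvD).2 w hw ?_⟩
      exact hwu.tail ⟨hu, hvW, huv⟩
    refine ind_pos (u := u) (Finset.mem_filter.2 ⟨huD, fun t ht => ?_⟩) huv
    exact hvL (t + 1) (mem_lev_succ.2 ⟨hvD, u, ht, huv⟩)
  have h2 := arcs_le h S hSne
  have h3 : S.card ≤ ∑ v ∈ S, ind T S v := by
    rw [Finset.card_eq_sum_ones]
    exact Finset.sum_le_sum h1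
  omega

private theorem lev_path {T : U → U → Prop} {W : Finset U} (t : ℕ) : ∀ v ∈ lev T W t,
    ∃ p : ℕ → U, (∀ i, i ≤ t → p i ∈ lev T W i) ∧ (∀ i, i < t → T (p i) (p (i + 1))) ∧
      p t = v := by
  classical
  induction t with
  | zero =>
    intro v hv
    refine ⟨fun _ => v, fun i hi => ?_, fun i hi => absurd hi (Nat.not_lt_zero i), rfl⟩
    rw [Nat.le_zero.1 hi]
    exact hv
  | succ t ih =>
    intro v hv
    obtain ⟨hvD, u, hu, huv⟩ := mem_lev_succ.1 hv
    obtain ⟨p, hp1, hp2, hp3⟩ := ih u hu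
    refine ⟨fun i => if i ≤ t then p i else v, ?_, ?_, ?_⟩
    · intro i hi
      dsimp only
      split_ifs with hc
      · exact hp1 i hc
      · have : i = t + 1 := by omega
        rw [this]
        exact hv
    · intro i hi
      dsimp only
      rw [if_pos (by omega)]
      split_ifs with hc
      · exact hp2 i (by omega)
      · have : i = t := by omega
        rw [this, hp3]
        exact huv
    · dsimp only
      rw [if_neg (by omega)]

theorem long_path {U : Type} [Fintype U] {T : U → U → Prop} {Δ : ℕ} (h : IsOForest Δ T)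
    (W : Finset U) (K s : ℕ) (hs : 1 ≤ s) (hsK : s ≤ K) (hSr : (Sr T W).card < K)
    (hDn : K ^ 2 * (Δ + 1) ^ K < (Dn T W).card) :
    ∃ p : Fin s → U, Function.Injective p ∧ (∀ i, p i ∈ W) ∧
      (∀ u ∈ W, ∀ i : Fin s, T u (p i) → ∃ j : Fin s, (j : ℕ) + 1 = i ∧ u = p j) := by
  classical
  have hne : (lev T W (s - 1)).Nonempty := by
    by_contra hcon
    rw [Finset.not_nonempty_iff_eq_empty] at hcon
    have hemp : ∀ k, lev T W (s - 1 + k) = ∅ := by
      intro k
      induction k with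
      | zero => exact hcon
      | succ k ih =>
        rw [Finset.eq_empty_iff_forall_notMem]
        intro v hv
        have hv' : v ∈ lev T W ((s - 1 + k) + 1) := hv
        obtain ⟨_, u, hu, _⟩ := mem_lev_succ.1 hv'
        rw [ih] at hu
        exact absurd hu (Finset.notMem_empty u)
    have h1 : Dn T W ⊆ (Finset.range (s - 1)).biUnion (lev T W) := by
      intro v hv
      obtain ⟨t, ht⟩ := lev_cover h W v hv
      refine Finset.mem_biUnion.2 ⟨t, Finset.mem_range.2 ?_, ht⟩
      by_contra hc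
      have := hemp (t - (s - 1))
      rw [show s - 1 + (t - (s - 1)) = t by omega] at this
      rw [this] at ht
      exact absurd ht (Finset.notMem_empty v)
    have h2 : (Dn T W).card ≤ ∑ t ∈ Finset.range (s - 1), (lev T W t).card :=
      (Finset.card_le_card h1).trans Finset.card_biUnion_le
    have h3 : ∑ t ∈ Finset.range (s - 1), (lev T W t).card ≤
        ∑ t ∈ Finset.range (s - 1), (Δ + 1) ^ K * K := by
      refine Finset.sum_le_sum fun t ht => (lev_card h W K hSr.le t).trans ?_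
      have := Finset.mem_range.1 ht
      exact Nat.mul_le_mul_right K (Nat.pow_le_pow_right (Nat.succ_pos Δ) (by omega))
    rw [Finset.sum_const, Finset.card_range, smul_eq_mul] at h3
    have h4 : (s - 1) * ((Δ + 1) ^ K * K) ≤ K ^ 2 * (Δ + 1) ^ K := by
      calc (s - 1) * ((Δ + 1) ^ K * K) ≤ K * ((Δ + 1) ^ K * K) :=
            Nat.mul_le_mul_right _ (by omega)
        _ = K ^ 2 * (Δ + 1) ^ K := by ring
    omega
  obtain ⟨v, hv⟩ := hne
  obtain ⟨p, hp1, hp2, _⟩ := lev_path (s - 1) v hv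
  have hW : ∀ i, i ≤ s - 1 → p i ∈ W := fun i hi => lev_sub T W i (hp1 i hi)
  have h0 : ind T W (p 0) = 0 := (mem_Sr.1 (hp1 0 (Nat.zero_le _))).2
  have h1 : ∀ i, i + 1 ≤ s - 1 → ind T W (p (i + 1)) ≤ 1 := by
    intro i hi
    exact (mem_Dn.1 (mem_lev_succ.1 (hp1 (i + 1) hi)).1).2 _ (hW _ hi) Relation.ReflTransGen.refl
  have hinj : ∀ i j, i < j → j ≤ s - 1 → p i ≠ p j := by
    intro i
    induction i with
    | zero =>
      intro j hj hjs he
      obtain ⟨j', rfl⟩ : ∃ j', j = j' + 1 := ⟨j - 1, by omega⟩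
      have := ind_pos (hW j' (by omega)) (hp2 j' (by omega))
      rw [← he] at this
      omega
    | succ i ih =>
      intro j hj hjs he
      obtain ⟨j', rfl⟩ : ∃ j', j = j' + 1 := ⟨j - 1, by omega⟩
      refine ih j' (by omega) (by omega) ?_
      have e1 := hp2 i (by omega)
      rw [he] at e1
      exact ind_one (h1 j' hjs) (hW i (by omega)) e1 (hW j' (by omega)) (hp2 j' (by omega))
  refine ⟨fun i => p i, ?_, fun i => hW i (by omega), ?_⟩
  · intro i j hij
    by_contra hne
    have hne' : (i : ℕ) ≠ j := fun h => hne (Fin.ext h)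
    rcases Nat.lt_or_gt_of_ne hne' with hlt | hlt
    · exact hinj i j hlt (by omega) hij
    · exact hinj j i hlt (by omega) hij.symm
  · rintro u hu ⟨i, hi⟩ hT
    cases i with
    | zero =>
      exfalso
      have := ind_pos hu hT
      dsimp only at this
      omega
    | succ i =>
      refine ⟨⟨i, by omega⟩, rfl, ?_⟩
      exact ind_one (h1 i (by omega)) hu hT (hW i (by omega)) (hp2 i (by omega))

end

end Pool.Agent.Lib.RobT
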