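import Pool.Agent.Lib.RobT.Bd

/-!
# Bf: Rédei's theorem (about 80 lines)

Every finite set of vertices of a tournament can be enumerated as a directed path.  Induction on
the size: let `q 0 → q 1 → … → q (k-1)` enumerate `B` and `v ∉ B`.  Insert `v` before the first `q
i`
with `R v (q i)` (then `R (q (i-1)) v` as `¬ R v (q (i-1))`), or at the end if there is none.
With lists: `List.IsChain R l`, `l.Nodup`, `l.toFinset = B`.
-/

namespace Pool.Agent.Lib.RobT

open Finset

open Classical in
private noncomputable def ins {V : Type} (R : V → V → Prop) (v : V) : List V → List V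
  | [] => [v]
  | a :: l => if R v a then v :: a :: l else a :: ins R v l

private theorem ins_perm {V : Type} (R : V → V → Prop) (v : V) (l : List V) :
    (ins R v l).Perm (v :: l) := by
  induction l with
  | nil => exact List.Perm.refl _
  | cons a l ih =>
    unfold ins
    by_cases h : R v a
    · rw [if_pos h]
    · rw [if_neg h]
      exact (ih.cons a).trans (List.Perm.swap v a l)

private theorem ins_chain {V : Type} {R : V → V → Prop} (hR : IsTour R) (v : V) (l : List V)
    (hl : l.IsChain R) (hv : ∀ a ∈ l, v ≠ a) : (ins R v l).IsChain R ∧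
      ∀ x ∈ (ins R v l).head?, x = v ∨ x ∈ l.head? := by
  induction l with
  | nil =>
    refine ⟨?_, ?_⟩
    · unfold ins
      exact List.IsChain.singleton v
    · intro x hx
      unfold ins at hx
      left
      simpa using hx.symm
  | cons a l ih =>
    rw [List.isChain_cons] at hl
    obtain ⟨h1, h2⟩ := ih hl.2 (fun b hb => hv b (List.mem_cons_of_mem a hb))
    unfold ins
    by_cases h : R v a
    · rw [if_pos h]
      refine ⟨?_, ?_⟩
      · rw [List.isChain_cons]
        refine ⟨?_, List.isChain_cons.2 hl⟩
        intro y hy
        have : a = y := by simpa using hy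
        rw [← this]
        exact h
      · intro x hx
        left
        simpa using hx.symm
    · rw [if_neg h]
      have hav : R a v := by
        rcases hR.tot a v (hv a List.mem_cons_self).symm with h3 | h3
        · exact h3
        · exact absurd h3 h
      refine ⟨?_, ?_⟩
      · rw [List.isChain_cons]
        refine ⟨?_, h1⟩
        intro y hy
        rcases h2 y hy with h3 | h3
        · rw [h3]
          exact hav
        · exact hl.1 y h3
      · intro x hx
        right
        simpa using hx

private theorem redei_list {V : Type} [DecidableEq V] {R : V → V → Prop} (hR : IsTour R)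
    (B : Finset V) : ∃ l : List V, l.Nodup ∧ l.toFinset = B ∧ l.IsChain R := by
  induction B using Finset.induction_on with
  | empty => exact ⟨[], List.nodup_nil, rfl, List.IsChain.nil⟩
  | insert v B hv ih =>
    obtain ⟨l, h1, h2, h3⟩ := ih
    have hvl : v ∉ l := by
      intro h
      apply hv
      rw [← h2]
      exact List.mem_toFinset.2 h
    have hp := ins_perm R v l
    refine ⟨ins R v l, ?_, ?_, ?_⟩
    · rw [hp.nodup_iff]
      exact List.nodup_cons.2 ⟨hvl, h1⟩
    · rw [List.toFinset_eq_of_perm _ _ hp, List.toFinset_cons, h2]
    · exact (ins_chain hR v l h3 (fun a ha hva => hvl (hva ▸ ha))).1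

theorem redei {V : Type} [DecidableEq V] {R : V → V → Prop} (hR : IsTour R) (B : Finset V)
    (s : ℕ) (hs : B.card = s) :
    ∃ q : Fin s → V, Function.Injective q ∧ univ.image q = B ∧
      ∀ i j : Fin s, (i : ℕ) + 1 = j → R (q i) (q j) := by
  obtain ⟨l, h1, h2, h3⟩ := redei_list hR B
  have hlen : l.length = s := by
    rw [← hs, ← h2, List.toFinset_card_of_nodup h1]
  subst hlen
  refine ⟨fun i => l[(i : ℕ)], ?_, ?_, ?_⟩
  · intro i j hij
    exact Fin.ext ((List.Nodup.getElem_inj_iff h1).1 hij)
  · ext x
    rw [Finset.mem_image, ← h2, List.mem_toFinset]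
    constructor
    · rintro ⟨i, -, rfl⟩
      exact List.getElem_mem _
    · intro hx
      obtain ⟨i, hi, rfl⟩ := List.getElem_of_mem hx
      exact ⟨⟨i, hi⟩, Finset.mem_univ _, rfl⟩
  · intro i j hij
    have h4 := List.isChain_iff_getElem.1 h3 (i : ℕ) (by omega)
    have h5 : (⟨(i : ℕ) + 1, by omega⟩ : Fin l.length) = j := Fin.ext hij
    rw [← h5]
    exact h4

end Pool.Agent.Lib.RobT
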