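import Pool.Agent.Lib.RobT.Bc
import Pool.Agent.Lib.RobT.Be
import Pool.Agent.Lib.RobT.Bf

/-!
# Bg: a small block (about 120 lines)

`s = |B|`, `K₁ = K² (Δ+1)^K`.
If `|W| < s`: then `|W| < K` and `s ≥ 2` (`|W| ≥ 1`); second alternative for any source `x`
(`exc_lt` gives one), `wt_drop`.
If `s ≤ |W|` and `|Sr T W| ≥ s`: `I` = a set of `s` sources, `φ` any bijection from `I` to `B`;
there
are no arcs inside `I` and no in-neighbours of `I` in `W`.
If `s ≤ |W|` and `|Sr T W| < s`: `s ≥ 2`, as there is a source; `Exc T W + 1 ≤ |Sr T W| < K`.  If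
`|Dn T W| ≤ K₁`: second alternative, `wt_drop`.  Otherwise `long_path` gives `p : Fin s → U`;
`I = p(Fin s)`; `redei` gives `q : Fin s → V`; `φ (p i) = q i`.  `I` is in-closed, and an arc inside
`I` is `p j → p i` with `j + 1 = i`.
-/

namespace Pool.Agent.Lib.RobT

open Finset

theorem small_step {U V : Type} [Fintype U] [DecidableEq U] [DecidableEq V] {T : U → U → Prop}
    {Δ : ℕ} (h : IsOForest Δ T) {R : V → V → Prop} (hR : IsTour R) (W : Finset U)
    (hW : W.Nonempty) (B : Finset V) (hB : B.Nonempty) (K : ℕ) (hBK : B.card ≤ K) :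
    (∃ (I : Finset U) (φ : U → V), Inc T W I ∧ I.card = B.card ∧ Set.InjOn φ I ∧
      (∀ x ∈ I, φ x ∈ B) ∧ ∀ x ∈ I, ∀ y ∈ I, T x y → R (φ x) (φ y)) ∨
    (2 ≤ B.card ∧ ∃ x ∈ Sr T W, wt T K (K ^ 2 * (Δ + 1) ^ K) (W \ {x}) + K ≤
      wt T K (K ^ 2 * (Δ + 1) ^ K) W) := by
  classical
  have hB1 : 1 ≤ B.card := hB.card_pos
  have hW1 : 1 ≤ W.card := hW.card_pos
  have hexc := exc_lt h W hW
  have hSr1 : 0 < (Sr T W).card := by omega
  obtain ⟨x, hx⟩ := Finset.card_pos.1 hSr1
  by_cases hc : W.card < B.card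
  · right
    exact ⟨by omega, x, hx, wt_drop hx K _ (Or.inl (by omega))⟩
  · by_cases hs : B.card ≤ (Sr T W).card
    · left
      obtain ⟨I, hI, hIc⟩ := Finset.exists_subset_card_eq hs
      have hno : ∀ u ∈ W, ∀ v ∈ I, ¬ T u v := by
        intro u hu v hv huv
        have h1 := hI hv
        unfold Sr at h1
        rw [Finset.mem_filter] at h1
        have h2 := h1.2
        unfold ind at h2
        rw [Finset.card_eq_zero] at h2
        have h3 : u ∈ W.filter fun u => T u v := Finset.mem_filter.2 ⟨hu, huv⟩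
        rw [h2] at h3
        exact absurd h3 (Finset.notMem_empty u)
      have hIW : I ⊆ W := fun y hy => by
        have h1 := hI hy
        unfold Sr at h1
        exact (Finset.mem_filter.1 h1).1
      obtain ⟨b, hb⟩ := hB
      let e : I ≃ B := Finset.equivOfCardEq hIc
      let φ : U → V := fun y => if hy : y ∈ I then (e ⟨y, hy⟩ : V) else b
      have hφ : ∀ y (hy : y ∈ I), φ y = (e ⟨y, hy⟩ : V) := by
        intro y hy
        exact dif_pos hy
      refine ⟨I, φ, ⟨hIW, fun u hu v hv huv => absurd huv (hno u hu v hv)⟩, hIc, ?_, ?_, ?_⟩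
      · intro y hy z hz hyz
        rw [hφ y (Finset.mem_coe.1 hy), hφ z (Finset.mem_coe.1 hz)] at hyz
        have h1 := e.injective (Subtype.ext hyz)
        exact congrArg Subtype.val h1
      · intro y hy
        rw [hφ y hy]
        exact (e ⟨y, hy⟩).2
      · intro y hy z hz hyz
        exact absurd hyz (hno y (hIW hy) z hz)
    · have h2B : 2 ≤ B.card := by omega
      by_cases hD : (Dn T W).card ≤ K ^ 2 * (Δ + 1) ^ K
      · right
        exact ⟨h2B, x, hx, wt_drop hx K _ (Or.inr ⟨by omega, hD⟩)⟩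
      · left
        obtain ⟨p, hp, hpW, hpT⟩ := long_path h W K B.card hB1 hBK (by omega) (by omega)
        obtain ⟨q, hq, hqB, hqR⟩ := redei hR B B.card rfl
        have : Nonempty (Fin B.card) := ⟨⟨0, by omega⟩⟩
        have hφ : ∀ i, q (Function.invFun p (p i)) = q i := by
          intro i
          rw [Function.leftInverse_invFun hp i]
        refine ⟨univ.image p, fun y => q (Function.invFun p y), ⟨?_, ?_⟩, ?_, ?_, ?_, ?_⟩
        · intro y hy
          obtain ⟨i, -, rfl⟩ := Finset.mem_image.1 hy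
          exact hpW i
        · intro u hu v hv huv
          obtain ⟨i, -, rfl⟩ := Finset.mem_image.1 hv
          obtain ⟨j, -, rfl⟩ := hpT u hu i huv
          exact Finset.mem_image_of_mem p (Finset.mem_univ j)
        · rw [Finset.card_image_of_injective _ hp, Finset.card_univ, Fintype.card_fin]
        · intro y hy z hz hyz
          obtain ⟨i, -, rfl⟩ := Finset.mem_image.1 (Finset.mem_coe.1 hy)
          obtain ⟨j, -, rfl⟩ := Finset.mem_image.1 (Finset.mem_coe.1 hz)
          simp only [hφ] at hyz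
          rw [hq hyz]
        · intro y hy
          obtain ⟨i, -, rfl⟩ := Finset.mem_image.1 hy
          show q (Function.invFun p (p i)) ∈ B
          rw [hφ]
          have h5 : q i ∈ univ.image q := Finset.mem_image_of_mem q (Finset.mem_univ i)
          rw [hqB] at h5
          exact h5
        · intro y hy z hz hyz
          obtain ⟨i, -, rfl⟩ := Finset.mem_image.1 hy
          obtain ⟨j, -, rfl⟩ := Finset.mem_image.1 hz
          obtain ⟨j', hj', hpj⟩ := hpT (p i) (hpW i) j hyz
          have h3 := hp hpj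
          subst h3
          show R (q (Function.invFun p (p i))) (q (Function.invFun p (p j)))
          rw [hφ, hφ]
          exact hqR i j hj'

end Pool.Agent.Lib.RobT
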