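import Pool.Agent.Lib.RobT.Fn

/-!
# Ex: trees with at most `|V|` vertices

A tree with fewer than `|V|` vertices is extended by pendant vertices.
-/

namespace Pool.Agent.Lib.RobT

open Finset

private def Tx {U : Type} (T : U → U → Prop) (x₀ : U) : Option U → Option U → Prop
  | some x, some y => T x y
  | some x, none => x = x₀
  | none, _ => False

private theorem tree_ext {U : Type} [Fintype U] {T : U → U → Prop}
    (hT : (SimpleGraph.fromRel T).IsTree) (x₀ : U) :
    (SimpleGraph.fromRel (Tx T x₀)).IsTree := by
  classical
  rw [SimpleGraph.isTree_iff_connected_and_card] at hT ⊢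
  obtain ⟨hc, hcard⟩ := hT
  have hss : ∀ x y, (SimpleGraph.fromRel (Tx T x₀)).Adj (some x) (some y) ↔
      (SimpleGraph.fromRel T).Adj x y := by
    intro x y
    simp [SimpleGraph.fromRel_adj, Tx]
  have hns : ∀ x, (SimpleGraph.fromRel (Tx T x₀)).Adj none (some x) ↔ x = x₀ := by
    intro x
    simp [SimpleGraph.fromRel_adj, Tx]
  constructor
  · have hreach : ∀ v : Option U,
        (SimpleGraph.fromRel (Tx T x₀)).Reachable v (some x₀) := by
      intro v
      cases v with
      | none => exact ((hns x₀).2 rfl).reachable
      | some x =>
        have h := hc.preconnected x x₀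
        exact h.map ⟨some, fun {a b} h => (hss a b).2 h⟩
    have : Nonempty (Option U) := ⟨none⟩
    exact SimpleGraph.Connected.mk fun u v => (hreach u).trans (hreach v).symm
  · have hE : (SimpleGraph.fromRel (Tx T x₀)).edgeSet =
        insert s(none, some x₀) (Sym2.map some '' (SimpleGraph.fromRel T).edgeSet) := by
      ext e
      induction e using Sym2.ind with
      | _ a b =>
      rw [SimpleGraph.mem_edgeSet, Set.mem_insert_iff, Set.mem_image]
      constructor
      · intro h
        cases a with
        | none =>
          cases b with
          | none => exact absurd h (SimpleGraph.irrefl _)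
          | some y =>
            left
            rw [(hns y).1 h]
        | some x =>
          cases b with
          | none =>
            left
            rw [(hns x).1 h.symm]
            exact Sym2.eq_swap
          | some y =>
            right
            exact ⟨s(x, y), (hss x y).1 h, rfl⟩
      · rintro (h | ⟨e, he, h⟩)
        · rcases Sym2.eq_iff.1 h with ⟨rfl, rfl⟩ | ⟨rfl, rfl⟩
          · exact (hns x₀).2 rfl
          · exact ((hns x₀).2 rfl).symm
        · induction e using Sym2.ind with
          | _ c d =>
          rw [Sym2.map_mk] at h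
          rw [SimpleGraph.mem_edgeSet] at he
          rcases Sym2.eq_iff.1 h with ⟨rfl, rfl⟩ | ⟨rfl, rfl⟩
          · exact (hss c d).2 he
          · exact ((hss c d).2 he).symm
    have hnot : s(none, some x₀) ∉ Sym2.map some '' (SimpleGraph.fromRel T).edgeSet := by
      rintro ⟨e, he, h⟩
      induction e using Sym2.ind with
      | _ c d =>
      rw [Sym2.map_mk] at h
      rcases Sym2.eq_iff.1 h with ⟨h1, h2⟩ | ⟨h1, h2⟩
      · exact absurd h1 (by simp)
      · exact absurd h2 (by simp)
    rw [hE, Nat.card_coe_set_eq, Set.ncard_insert_of_notMem hnot (Set.toFinite _),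
      Set.ncard_image_of_injective _ (Sym2.map.injective (Option.some_injective U)),
      ← Nat.card_coe_set_eq, hcard]
    simp

private theorem otree_ext {U : Type} [Fintype U] {T : U → U → Prop} {Δ : ℕ} (hΔ : 2 ≤ Δ)
    (hT : IsOTree Δ T) : ∃ x₀, IsOTree Δ (Tx T x₀) := by
  classical
  have hex : ∃ x₀, (univ.filter fun y => T x₀ y ∨ T y x₀).card ≤ 1 := by
    by_cases hn : Nontrivial U
    · obtain ⟨v, hv⟩ := hT.tree.exists_vert_degree_one_of_nontrivial
      refine ⟨v, ?_⟩
      rw [← hv, ← SimpleGraph.card_neighborFinset_eq_degree]
      apply card_le_card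
      intro y hy
      simp only [mem_filter, mem_univ, true_and] at hy
      rw [SimpleGraph.mem_neighborFinset, SimpleGraph.fromRel_adj]
      refine ⟨?_, hy⟩
      rintro rfl
      rcases hy with h | h <;> exact hT.asym _ _ h h
    · have hs : Subsingleton U := not_nontrivial_iff_subsingleton.1 hn
      obtain ⟨x⟩ := hT.tree.connected.nonempty
      refine ⟨x, (card_le_univ _).trans ?_⟩
      exact Fintype.card_le_one_iff_subsingleton.2 hs
  obtain ⟨x₀, hx₀⟩ := hex
  refine ⟨x₀, ⟨?_, tree_ext hT.tree x₀, ?_⟩⟩
  · intro x y h
    cases x with
    | none => exact absurd h (by simp [Tx])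
    | some x =>
      cases y with
      | none => simp [Tx]
      | some y => exact hT.asym x y h
  · intro x
    cases x with
    | none =>
      have hsub : (univ.filter fun y => Tx T x₀ none y ∨ Tx T x₀ y none) ⊆ {some x₀} := by
        intro y hy
        simp only [mem_filter, mem_univ, true_and] at hy
        rw [mem_singleton]
        rcases hy with h | h
        · exact absurd h (by simp [Tx])
        · cases y with
          | none => exact absurd h (by simp [Tx])
          | some y => rw [show y = x₀ from h]
      refine (card_le_card hsub).trans ?_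
      rw [card_singleton]
      omega
    | some x =>
      have hsub : (univ.filter fun y => Tx T x₀ (some x) y ∨ Tx T x₀ y (some x)) ⊆
          ((univ.filter fun y => T x y ∨ T y x).image some) ∪
          (if x = x₀ then {none} else ∅) := by
        intro y hy
        simp only [mem_filter, mem_univ, true_and] at hy
        rw [mem_union]
        cases y with
        | none =>
          right
          rcases hy with h | h
          · rw [if_pos (show x = x₀ from h)]
            simp
          · exact absurd h (by simp [Tx])
        | some y =>
          left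
          apply mem_image_of_mem
          simp only [mem_filter, mem_univ, true_and]
          exact hy
      refine (card_le_card hsub).trans ((card_union_le _ _).trans ?_)
      rw [card_image_of_injective _ (Option.some_injective U)]
      by_cases hx : x = x₀
      · subst hx
        rw [if_pos rfl, card_singleton]
        omega
      · rw [if_neg hx, card_empty]
        exact (hT.deg x)

private theorem otree_iso {U V : Type} [Fintype U] [Fintype V] (e : U ≃ V)
    {T : U → U → Prop} {Δ : ℕ} (hT : IsOTree Δ T) :
    IsOTree Δ fun x y => T (e.symm x) (e.symm y) := by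
  classical
  refine ⟨fun x y h => hT.asym _ _ h, ?_, ?_⟩
  · have hiso : SimpleGraph.fromRel T ≃g
        SimpleGraph.fromRel fun x y => T (e.symm x) (e.symm y) :=
      { toEquiv := e
        map_rel_iff' := by
          intro a b
          simp [SimpleGraph.fromRel_adj] }
    exact (SimpleGraph.Iso.isTree_iff hiso).1 hT.tree
  · intro x
    refine le_trans (le_of_eq ?_) (hT.deg (e.symm x))
    apply card_bij (fun y _ => e.symm y)
    · intro y hy
      simpa using hy
    · intro y _ y' _ h
      exact e.symm.injective h
    · intro y hy
      refine ⟨e y, ?_, by simp⟩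
      simpa using hy

/-- Trees with at most `|V|` vertices. -/
theorem main_le (ζ : ℝ) (Δ : ℕ) (hζ : 0 < ζ) :
    ∃ n₀ : ℕ, ∀ (V : Type) [Fintype V] [DecidableEq V] (R : V → V → Prop),
      n₀ ≤ Fintype.card V → IsTour R → Rob ζ R →
      ∀ (U : Type) [Fintype U] (T : U → U → Prop), Fintype.card U ≤ Fintype.card V →
      IsOTree Δ T → ∃ φ : U → V, Function.Injective φ ∧ ∀ x y, T x y → R (φ x) (φ y) := by
  obtain ⟨n₀, h⟩ := main ζ (max Δ 2) hζ
  refine ⟨n₀, ?_⟩
  intro V _ _ R hn hR hrob
  have key : ∀ (d : ℕ) (U : Type) [Fintype U] (T : U → U → Prop),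
      Fintype.card U + d = Fintype.card V → IsOTree (max Δ 2) T →
      ∃ φ : U → V, Function.Injective φ ∧ ∀ x y, T x y → R (φ x) (φ y) := by
    intro d
    induction d with
    | zero =>
      intro U _ T hc hT
      have e : U ≃ V := Fintype.equivOfCardEq (by simpa using hc)
      obtain ⟨φ, hφ⟩ := h V R hn hR hrob _ (otree_iso e hT)
      refine ⟨fun x => φ (e x), fun x y hxy => e.injective (φ.injective hxy), ?_⟩
      intro x y hxy
      apply hφ
      simpa using hxy
    | succ d ih =>
      intro U _ T hc hT
      obtain ⟨x₀, hx₀⟩ := otree_ext (le_max_right _ _) hT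
      obtain ⟨φ, h1, h2⟩ := ih (Option U) (Tx T x₀) (by
        rw [Fintype.card_option]
        omega) hx₀
      exact ⟨fun x => φ (some x), fun x y hxy => Option.some_injective U (h1 hxy),
        fun x y hxy => h2 _ _ hxy⟩
  intro U _ T hc hT
  refine key (Fintype.card V - Fintype.card U) U T (by omega) ⟨hT.asym, hT.tree, fun x => ?_⟩
  exact (hT.deg x).trans (le_max_left _ _)

end Pool.Agent.Lib.RobT
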