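import Pool.Agent.Lib.RobT.Bb
import Pool.Agent.Lib.RobT.Ex

/-!
# Bh: a large block without sparse cuts (about 60 lines)

If `I = ∅` take a constant map (`B` is nonempty).  Otherwise `forest_sub` and `forest_ext` give an
oriented tree `T'` on `{x // x ∈ I}` with maximum degree at most `max Δ 2` which contains the
restriction of `T`; apply `main_le` for `max Δ 2` to `{v // v ∈ B}` and `T'`, and extend the map
arbitrarily.  `n₀` = the maximum of the number of `main_le` and `1`.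
-/

namespace Pool.Agent.Lib.RobT

open Finset

theorem robust_step (ζ : ℝ) (Δ : ℕ) (hζ : 0 < ζ) :
    ∃ n₀ : ℕ, 1 ≤ n₀ ∧ ∀ (V : Type) [DecidableEq V] (R : V → V → Prop), IsTour R →
      ∀ B : Finset V, n₀ ≤ B.card → Rob (V := {v : V // v ∈ B}) ζ (fun a b => R a b) →
      ∀ (U : Type) [Fintype U] (T : U → U → Prop), IsOForest Δ T →
      ∀ I : Finset U, I.card ≤ B.card →
      ∃ φ : U → V, Set.InjOn φ I ∧ (∀ x ∈ I, φ x ∈ B) ∧
        ∀ x ∈ I, ∀ y ∈ I, T x y → R (φ x) (φ y) := by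
  classical
  obtain ⟨n₀, h⟩ := main_le ζ (max Δ 2) hζ
  refine ⟨max n₀ 1, le_max_right _ _, ?_⟩
  intro V _ R hR B hB hrob U _ T hT I hI
  have hBpos : 0 < B.card := lt_of_lt_of_le Nat.one_pos ((le_max_right _ _).trans hB)
  obtain ⟨b₀, hb₀⟩ := Finset.card_pos.mp hBpos
  rcases I.eq_empty_or_nonempty with hI0 | hI0
  · subst hI0
    refine ⟨fun _ => b₀, ?_, ?_, ?_⟩
    · intro x hx
      simp at hx
    · intro x hx
      simp at hx
    · intro x hx
      simp at hx
  · obtain ⟨i₀, hi₀⟩ := hI0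
    have hne : Nonempty {x : U // x ∈ I} := ⟨⟨i₀, hi₀⟩⟩
    obtain ⟨T', hTT', hT'⟩ := forest_ext (forest_sub hT I)
    have hRB : IsTour (V := {v : V // v ∈ B}) (fun a b => R a b) := by
      refine ⟨fun u => hR.irr _, fun u v huv => hR.asym _ _ huv, fun u v huv => hR.tot _ _ ?_⟩
      intro hc
      exact huv (Subtype.ext hc)
    obtain ⟨φ, hφ1, hφ2⟩ := h {v : V // v ∈ B} (fun a b => R a b)
      (by rw [Fintype.card_coe]; exact (le_max_left _ _).trans hB) hRB hrob
      {x : U // x ∈ I} T' (by rw [Fintype.card_coe, Fintype.card_coe]; exact hI) hT'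
    refine ⟨fun x => if hx : x ∈ I then (φ ⟨x, hx⟩ : V) else b₀, ?_, ?_, ?_⟩
    · intro x hx y hy hxy
      have hx' : x ∈ I := hx
      have hy' : y ∈ I := hy
      beta_reduce at hxy
      rw [dif_pos hx', dif_pos hy'] at hxy
      have h1 := hφ1 (Subtype.ext hxy)
      exact congrArg Subtype.val h1
    · intro x hx
      beta_reduce
      rw [dif_pos hx]
      exact (φ ⟨x, hx⟩).2
    · intro x hx y hy hxy
      beta_reduce
      rw [dif_pos hx, dif_pos hy]
      exact hφ2 _ _ (hTT' ⟨x, hx⟩ ⟨y, hy⟩ hxy)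

end Pool.Agent.Lib.RobT
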