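import Pool.Agent.Lib.RobT.Bg
import Pool.Agent.Lib.RobT.Bh

/-!
# Bi: compositions of tournaments (about 250 lines)

CONSTANTS.  `n₀` from `robust_step`, `K' = max K n₀`, `K₁ = K'² (Δ+1)^K'`,
`C = K' (K' (K₁ + 1) + K₁ + K')` (`wt_le`).
COMBINE.  Let `Inc T W I`, `φ₁` injective on `I` with values in the block `i₀` and preserving the
arcs
inside `I`, `φ₂` injective on `W \ I` with values in `{v | i₀ + 1 ≤ c v}` and preserving the arcs
inside `W \ I`.  Then `φ = φ₁` on `I`, `φ₂` elsewhere is injective on `W`, has values in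
`{v | i₀ ≤ c v}` and preserves the arcs inside `W`: an arc from `I` to `W \ I` goes to an arc as
`c (φ x) = i₀ < c (φ y)`, and there is no arc from `W \ I` to `I`.
CLAIM.  Let `ω W = 0` in the first case (blocks with at most one vertex or large without sparse
cuts)
and `ω W = wt T K' K₁ W` in the second one.  For every `i₀` and `W`: if
`|W| + ω W ≤ |{v | i₀ ≤ c v}|` then there is `φ : U → V`, injective on `W`, with values in
`{v | i₀ ≤ c v}`, which preserves the arcs inside `W`.  Induction on `k` with `i₀ + k = M`, where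
`c v < M` for all `v`; for `k = 0` the set is empty, so `W = ∅`.
Step, `B` = the block `i₀`.  `W = ∅` or `B = ∅`: clear (induction hypothesis for `i₀ + 1`).
If `B` has no sparse cut and `n₀ ≤ |B|`: if `|W| ≤ |B|` use `robust_step` for `I = W`; otherwise
`inc_exists` with `|I| = |B|`, `robust_step` for `I`, induction hypothesis for `W \ I`
(`|W \ I| + ω (W \ I) ≤ |W| - |B| + ω W`, `wt_mono`), combine.
Otherwise `1 ≤ |B| ≤ K'` (in the first case `|B| = 1`): `small_step` for `K'`.  First alternative: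
as
before.  Second alternative (only in the second case, as `2 ≤ |B|`): `I = {x}` (`inc_source`),
`φ₁` a
constant map to a vertex of `B`, and
`|W \ {x}| + ω (W \ {x}) ≤ |W| - 1 + ω W - K' ≤ |{v | i₀ ≤ c v}| - |B|`.
Apply the claim to `i₀ = 0`, `W = univ` (`forest_of_tree`; `V` is nonempty as `U` is).
-/

namespace Pool.Agent.Lib.RobT

open Finset

/-- The block `i`. -/
def bl {V : Type} [Fintype V] (c : V → ℕ) (i : ℕ) : Finset V := univ.filter fun v => c v = i

private theorem mem_bl {V : Type} [Fintype V] {c : V → ℕ} {i : ℕ} {v : V} :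
    v ∈ bl c i ↔ c v = i := by
  unfold bl
  rw [mem_filter]
  exact ⟨fun h => h.2, fun h => ⟨mem_univ v, h⟩⟩

private theorem combine {U V : Type} {T : U → U → Prop} {R : V → V → Prop}
    {c : V → ℕ} (hc : ∀ u v, c u < c v → R u v) {W I : Finset U} [DecidableEq U]
    (hI : Inc T W I) (i₀ : ℕ) (φ₁ φ₂ : U → V) (inj₁ : Set.InjOn φ₁ I)
    (val₁ : ∀ x ∈ I, c (φ₁ x) = i₀) (arc₁ : ∀ x ∈ I, ∀ y ∈ I, T x y → R (φ₁ x) (φ₁ y))
    (inj₂ : Set.InjOn φ₂ (W \ I : Finset U)) (val₂ : ∀ x ∈ W \ I, i₀ + 1 ≤ c (φ₂ x))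
    (arc₂ : ∀ x ∈ W \ I, ∀ y ∈ W \ I, T x y → R (φ₂ x) (φ₂ y)) :
    ∃ φ : U → V, Set.InjOn φ W ∧ (∀ x ∈ W, i₀ ≤ c (φ x)) ∧
      ∀ x ∈ W, ∀ y ∈ W, T x y → R (φ x) (φ y) := by
  refine ⟨fun x => if x ∈ I then φ₁ x else φ₂ x, ?_, ?_, ?_⟩
  · intro x hx y hy hxy
    have hx' : x ∈ W := hx
    have hy' : y ∈ W := hy
    dsimp only at hxy
    by_cases h1 : x ∈ I
    · by_cases h2 : y ∈ I
      · rw [if_pos h1, if_pos h2] at hxy
        exact inj₁ h1 h2 hxy
      · rw [if_pos h1, if_neg h2] at hxy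
        have h3 := val₁ x h1
        have h4 := val₂ y (mem_sdiff.2 ⟨hy', h2⟩)
        rw [hxy] at h3
        omega
    · by_cases h2 : y ∈ I
      · rw [if_neg h1, if_pos h2] at hxy
        have h3 := val₁ y h2
        have h4 := val₂ x (mem_sdiff.2 ⟨hx', h1⟩)
        rw [hxy] at h4
        omega
      · rw [if_neg h1, if_neg h2] at hxy
        exact inj₂ (mem_coe.2 (mem_sdiff.2 ⟨hx', h1⟩)) (mem_coe.2 (mem_sdiff.2 ⟨hy', h2⟩)) hxy
  · intro x hx
    dsimp only
    by_cases h1 : x ∈ I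
    · rw [if_pos h1, val₁ x h1]
    · rw [if_neg h1]
      have h4 := val₂ x (mem_sdiff.2 ⟨hx, h1⟩)
      omega
  · intro x hx y hy hT
    dsimp only
    by_cases h1 : x ∈ I
    · by_cases h2 : y ∈ I
      · rw [if_pos h1, if_pos h2]
        exact arc₁ x h1 y h2 hT
      · rw [if_pos h1, if_neg h2]
        apply hc
        have h3 := val₁ x h1
        have h4 := val₂ y (mem_sdiff.2 ⟨hy, h2⟩)
        omega
    · by_cases h2 : y ∈ I
      · exact absurd (hI.2 x hx y h2 hT) h1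
      · rw [if_neg h1, if_neg h2]
        exact arc₂ x (mem_sdiff.2 ⟨hx, h1⟩) y (mem_sdiff.2 ⟨hy, h2⟩) hT

private theorem card_ge {V : Type} [Fintype V] (c : V → ℕ) (i : ℕ) :
    (univ.filter fun v => i + 1 ≤ c v).card + (bl c i).card =
      (univ.filter fun v => i ≤ c v).card := by
  classical
  have h : (univ.filter fun v => i ≤ c v) = (univ.filter fun v => i + 1 ≤ c v) ∪ bl c i := by
    ext v
    rw [mem_union, mem_filter, mem_filter, mem_bl]
    simp only [mem_univ, true_and]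
    omega
  rw [h, card_union_of_disjoint]
  rw [disjoint_left]
  intro v hv hv2
  rw [mem_filter] at hv
  rw [mem_bl] at hv2
  omega

private theorem claim {U V : Type} [DecidableEq U] [Fintype V] [Nonempty V]
    {T : U → U → Prop} (hT : ∀ x, ¬ T x x) {R : V → V → Prop} {c : V → ℕ}
    (hc : ∀ u v, c u < c v → R u v) (ω : Finset U → ℕ)
    (hω : ∀ W I, Inc T W I → ω (W \ I) ≤ ω W)
    (hsrc : ∀ W x, x ∈ Sr T W → Inc T W {x})
    (hstep : ∀ i₀ (W : Finset U), W.Nonempty → (bl c i₀).Nonempty →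
      (∃ (I : Finset U) (φ : U → V), Inc T W I ∧ (I = W ∨ I.card = (bl c i₀).card) ∧
        Set.InjOn φ I ∧ (∀ x ∈ I, φ x ∈ bl c i₀) ∧ ∀ x ∈ I, ∀ y ∈ I, T x y → R (φ x) (φ y)) ∨
      (∃ x ∈ Sr T W, ω (W \ {x}) + (bl c i₀).card ≤ ω W))
    (M : ℕ) (hM : ∀ v, c v < M) :
    ∀ (k i₀ : ℕ) (W : Finset U), i₀ + k = M →
      W.card + ω W ≤ (univ.filter fun v => i₀ ≤ c v).card →
      ∃ φ : U → V, Set.InjOn φ W ∧ (∀ x ∈ W, i₀ ≤ c (φ x)) ∧
        ∀ x ∈ W, ∀ y ∈ W, T x y → R (φ x) (φ y) := by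
  have hempty : ∀ i₀ (W : Finset U), W = ∅ → ∃ φ : U → V, Set.InjOn φ W ∧
      (∀ x ∈ W, i₀ ≤ c (φ x)) ∧ ∀ x ∈ W, ∀ y ∈ W, T x y → R (φ x) (φ y) := by
    rintro i₀ W rfl
    refine ⟨fun _ => Classical.arbitrary V, ?_, ?_, ?_⟩
    · intro x hx
      exact absurd hx (by simp)
    · intro x hx
      exact absurd hx (by simp)
    · intro x hx
      exact absurd hx (by simp)
  intro k
  induction k with
  | zero =>
    intro i₀ W hi h
    apply hempty
    have h2 : (univ.filter fun v => i₀ ≤ c v) = ∅ := by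
      rw [filter_eq_empty_iff]
      intro v _
      have := hM v
      omega
    rw [h2, card_empty] at h
    exact card_eq_zero.1 (by omega)
  | succ k ih =>
    intro i₀ W hi h
    rcases W.eq_empty_or_nonempty with hW | hW
    · exact hempty i₀ W hW
    have hcard := card_ge c i₀
    rcases (bl c i₀).eq_empty_or_nonempty with hB | hB
    · rw [hB, card_empty, add_zero] at hcard
      obtain ⟨φ, h1, h2, h3⟩ := ih (i₀ + 1) W (by omega) (by rw [hcard]; exact h)
      exact ⟨φ, h1, fun x hx => by have := h2 x hx; omega, h3⟩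
    rcases hstep i₀ W hW hB with ⟨I, φ₁, hI, hIc, inj₁, val₁, arc₁⟩ | ⟨x, hx, hxω⟩
    · rcases hIc with rfl | hIc
      · exact ⟨φ₁, inj₁, fun x hx => (mem_bl.1 (val₁ x hx)).ge, arc₁⟩
      · have h5 : (W \ I).card + I.card = W.card := card_sdiff_add_card_eq_card hI.1
        have h6 := hω W I hI
        obtain ⟨φ₂, inj₂, val₂, arc₂⟩ := ih (i₀ + 1) (W \ I) (by omega) (by omega)
        exact combine hc hI i₀ φ₁ φ₂ inj₁ (fun x hx => mem_bl.1 (val₁ x hx)) arc₁ inj₂ val₂ arc₂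
    · have hI := hsrc W x hx
      have h5 : (W \ {x}).card + ({x} : Finset U).card = W.card :=
        card_sdiff_add_card_eq_card hI.1
      rw [card_singleton] at h5
      obtain ⟨φ₂, inj₂, val₂, arc₂⟩ := ih (i₀ + 1) (W \ {x}) (by omega) (by omega)
      obtain ⟨b, hb⟩ := hB
      refine combine hc hI i₀ (fun _ => b) φ₂ ?_ (fun _ _ => mem_bl.1 hb) ?_ inj₂ val₂ arc₂
      · rw [coe_singleton]
        exact Set.injOn_singleton _ _
      · intro y hy z hz hyz
        rw [mem_singleton] at hy hz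
        rw [hy, hz] at hyz
        exact absurd hyz (hT x)

theorem blocks (ζ : ℝ) (Δ K : ℕ) (hζ : 0 < ζ) :
    ∃ n₀ C : ℕ, ∀ (V : Type) [Fintype V] [DecidableEq V] (R : V → V → Prop) (c : V → ℕ),
      IsTour R → (∀ u v, c u < c v → R u v) →
      ∀ (U : Type) [Fintype U] (T : U → U → Prop), IsOTree Δ T →
      ((Fintype.card U ≤ Fintype.card V ∧ ∀ i, (bl c i).card ≤ 1 ∨
        (n₀ ≤ (bl c i).card ∧ Rob (V := {v : V // v ∈ bl c i}) ζ (fun a b => R a b))) ∨
      (Fintype.card U + C ≤ Fintype.card V ∧ ∀ i, (bl c i).card ≤ K ∨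
        Rob (V := {v : V // v ∈ bl c i}) ζ (fun a b => R a b))) →
      ∃ φ : U → V, Function.Injective φ ∧ ∀ x y, T x y → R (φ x) (φ y) := by
  obtain ⟨n₀, hn₀, hrob⟩ := robust_step ζ Δ hζ
  set K' := max K n₀ with hK'
  set K₁ := K' ^ 2 * (Δ + 1) ^ K' with hK₁
  refine ⟨n₀, K' * (K' * (K₁ + 1) + K₁ + K'), ?_⟩
  intro V _ _ R c hR hc U _ T hT hcases
  classical
  have hF : IsOForest Δ T := forest_of_tree hT
  have hTx : ∀ x, ¬ T x x := fun x h => hF.asym x x h h
  rcases isEmpty_or_nonempty U with hU | hU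
  · exact ⟨fun x => isEmptyElim x, fun x => isEmptyElim x, fun x => isEmptyElim x⟩
  have hVcard : Fintype.card U ≤ Fintype.card V := by
    rcases hcases with ⟨h, _⟩ | ⟨h, _⟩
    · exact h
    · omega
  have hV : Nonempty V := by
    rw [← Fintype.card_pos_iff]
    exact lt_of_lt_of_le Fintype.card_pos hVcard
  -- robust blocks
  have hrobust : ∀ i₀ (W : Finset U), n₀ ≤ (bl c i₀).card →
      Rob (V := {v : V // v ∈ bl c i₀}) ζ (fun a b => R a b) →
      ∃ (I : Finset U) (φ : U → V), Inc T W I ∧ (I = W ∨ I.card = (bl c i₀).card) ∧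
        Set.InjOn φ I ∧ (∀ x ∈ I, φ x ∈ bl c i₀) ∧ ∀ x ∈ I, ∀ y ∈ I, T x y → R (φ x) (φ y) := by
    intro i₀ W h1 h2
    by_cases h3 : W.card ≤ (bl c i₀).card
    · obtain ⟨φ, p1, p2, p3⟩ := hrob V R hR (bl c i₀) h1 h2 U T hF W h3
      exact ⟨W, φ, ⟨Subset.refl _, fun u hu _ _ _ => hu⟩, Or.inl rfl, p1, p2, p3⟩
    · obtain ⟨I, hI, hIc⟩ := inc_exists hF W (bl c i₀).card (by omega)
      obtain ⟨φ, p1, p2, p3⟩ := hrob V R hR (bl c i₀) h1 h2 U T hF I (by omega)
      exact ⟨I, φ, hI, Or.inr hIc, p1, p2, p3⟩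
  obtain ⟨M, hM⟩ : ∃ M, ∀ v, c v < M :=
    ⟨univ.sup c + 1, fun v => Nat.lt_succ_of_le (le_sup (f := c) (mem_univ v))⟩
  have hfin : ∀ ω : Finset U → ℕ, (∀ W I, Inc T W I → ω (W \ I) ≤ ω W) →
      (∀ i₀ (W : Finset U), W.Nonempty → (bl c i₀).Nonempty →
      (∃ (I : Finset U) (φ : U → V), Inc T W I ∧ (I = W ∨ I.card = (bl c i₀).card) ∧
        Set.InjOn φ I ∧ (∀ x ∈ I, φ x ∈ bl c i₀) ∧ ∀ x ∈ I, ∀ y ∈ I, T x y → R (φ x) (φ y)) ∨
      (∃ x ∈ Sr T W, ω (W \ {x}) + (bl c i₀).card ≤ ω W)) →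
      Fintype.card U + ω univ ≤ Fintype.card V →
      ∃ φ : U → V, Function.Injective φ ∧ ∀ x y, T x y → R (φ x) (φ y) := by
    intro ω h1 h2 h3
    have h4 : (univ.filter fun v => 0 ≤ c v) = univ := by
      rw [filter_eq_self]
      intro v _
      exact Nat.zero_le _
    obtain ⟨φ, p1, _, p3⟩ := claim hTx hc ω h1 (fun W x hx => inc_source hx) h2 M hM M 0 univ
      (by omega) (by rw [h4, card_univ, card_univ]; exact h3)
    refine ⟨φ, fun x y h => p1 (mem_coe.2 (mem_univ x)) (mem_coe.2 (mem_univ y)) h, fun x y h =>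
      p3 x (mem_univ x) y (mem_univ y) h⟩
  rcases hcases with ⟨h1, h2⟩ | ⟨h1, h2⟩
  · refine hfin (fun _ => 0) (fun _ _ _ => le_refl _) ?_ (by omega)
    intro i₀ W hW hB
    left
    rcases h2 i₀ with h3 | ⟨h3, h4⟩
    · rcases small_step hF hR W hW (bl c i₀) hB K' (by
        have : n₀ ≤ K' := le_max_right _ _
        omega) with ⟨I, φ, p1, p2, p3, p4, p5⟩ | ⟨p1, _⟩
      · exact ⟨I, φ, p1, Or.inr p2, p3, p4, p5⟩
      · omega
    · exact hrobust i₀ W h3 h4
  · refine hfin (fun W => wt T K' K₁ W) (fun W I hI => wt_mono hI K' K₁) ?_ ?_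
    · intro i₀ W hW hB
      have hsmall : (bl c i₀).card ≤ K' →
          ((∃ (I : Finset U) (φ : U → V), Inc T W I ∧ (I = W ∨ I.card = (bl c i₀).card) ∧
            Set.InjOn φ I ∧ (∀ x ∈ I, φ x ∈ bl c i₀) ∧
              ∀ x ∈ I, ∀ y ∈ I, T x y → R (φ x) (φ y)) ∨
          (∃ x ∈ Sr T W, wt T K' K₁ (W \ {x}) + (bl c i₀).card ≤ wt T K' K₁ W)) := by
        intro hle
        rcases small_step hF hR W hW (bl c i₀) hB K' hle with
          ⟨I, φ, p1, p2, p3, p4, p5⟩ | ⟨_, x, hx, hxw⟩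
        · exact Or.inl ⟨I, φ, p1, Or.inr p2, p3, p4, p5⟩
        · exact Or.inr ⟨x, hx, by
            have : wt T K' K₁ (W \ {x}) + K' ≤ wt T K' K₁ W := hxw
            omega⟩
      rcases h2 i₀ with h3 | h3
      · exact hsmall (le_trans h3 (le_max_left _ _))
      · by_cases h4 : n₀ ≤ (bl c i₀).card
        · exact Or.inl (hrobust i₀ W h4 h3)
        · exact hsmall (le_trans (by omega) (le_max_right K n₀))
    · have h5 := wt_le (T := T) univ K' K₁
      have h6 : wt T K' K₁ univ ≤ K' * (K' * (K₁ + 1) + K₁ + K') := h5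
      change Fintype.card U + wt T K' K₁ univ ≤ Fintype.card V
      omega

end Pool.Agent.Lib.RobT
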