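import Mathlib

/-!
# Spanning oriented trees in tournaments without sparse cuts: definitions

Overview: store file MP_b931a8_co_paper.md.
-/

namespace Pool.Agent.Lib.RobT

open Finset

/-- `R` is a tournament. -/
structure IsTour {V : Type} (R : V → V → Prop) : Prop where
  irr : ∀ u, ¬ R u u
  asym : ∀ u v, R u v → ¬ R v u
  tot : ∀ u v, u ≠ v → R u v ∨ R v u

/-- `Arc R true u v` is the arc from `u` to `v`, `Arc R false u v` the arc from `v` to `u`. -/
def Arc {V : Type} (R : V → V → Prop) (s : Bool) (u v : V) : Prop :=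
  (s = true ∧ R u v) ∨ (s = false ∧ R v u)

open Classical in
/-- The number of arcs from `X` to `Y`. -/
noncomputable def eN {V : Type} (R : V → V → Prop) (X Y : Finset V) : ℕ :=
  ((X ×ˢ Y).filter fun p => R p.1 p.2).card

/-- No sparse cuts. -/
def Rob {V : Type} [Fintype V] [DecidableEq V] (ζ : ℝ) (R : V → V → Prop) : Prop :=
  ∀ A : Finset V, ζ * A.card * (Aᶜ).card ≤ (eN R A Aᶜ : ℝ)

open Classical in
/-- The vertices `v` with `Arc R s u v`. -/
noncomputable def Nb {V : Type} [Fintype V] (R : V → V → Prop) (s : Bool) (u : V) : Finset V :=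
  univ.filter fun v => Arc R s u v

/-- A rooted tree on `0, …, N - 1` with root `0`; every vertex has at most `Δ` children. -/
structure RT (N Δ : ℕ) (par : ℕ → ℕ) : Prop where
  lt : ∀ i, 0 < i → i < N → par i < i
  deg : ∀ j, ((range N).filter fun i => 0 < i ∧ par i = j).card ≤ Δ

/-- A doubly stochastic kernel on the arcs, with entries of order `1 / |V|`. -/
structure Kern {V : Type} [Fintype V] (R : V → V → Prop) (c C : ℝ) (P : V → V → ℝ) : Prop where
  lo : ∀ u v, R u v → c / Fintype.card V ≤ P u v
  up : ∀ u v, P u v ≤ C / Fintype.card V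
  zero : ∀ u v, ¬ R u v → P u v = 0
  nn : ∀ u v, 0 ≤ P u v
  row : ∀ u, ∑ v, P u v = 1
  col : ∀ v, ∑ u, P u v = 1

/-- The weight of a step of direction `s` from `u` to `v`. -/
def PP {V : Type} (P : V → V → ℝ) (s : Bool) (u v : V) : ℝ := if s then P u v else P v u

/-- The mass of the steps of direction `s` from `u` into `A`. -/
noncomputable def ms {V : Type} (P : V → V → ℝ) (A : Finset V) (s : Bool) (u : V) : ℝ :=
  ∑ w ∈ A, PP P s u w

/-- The relative deviation of the mass from its average. -/
noncomputable def dev {V : Type} [Fintype V] (P : V → V → ℝ) (A : Finset V) (s : Bool) (u : V) :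
    ℝ :=
  (Fintype.card V : ℝ) * ms P A s u / A.card - 1

/-- `A` is quasirandom for the kernel. -/
def QR {V : Type} [Fintype V] (P : V → V → ℝ) (A : Finset V) (δ : ℝ) : Prop :=
  ∀ s u, |dev P A s u| ≤ δ

/-- The probability of a random step of direction `s` from `u` to `v ∈ A`. -/
noncomputable def qA {V : Type} [DecidableEq V] (P : V → V → ℝ) (A : Finset V) (s : Bool)
    (u v : V) : ℝ :=
  if v ∈ A then PP P s u v / ms P A s u else 0

/-- One random step applied to a distribution. -/
noncomputable def st {V : Type} [Fintype V] [DecidableEq V] (P : V → V → ℝ) (A : Finset V)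
    (s : Bool) (μ : V → ℝ) (v : V) : ℝ :=
  ∑ u, μ u * qA P A s u v

/-- The distribution after the steps of the word `w` (first letter first). -/
noncomputable def wk {V : Type} [Fintype V] [DecidableEq V] (P : V → V → ℝ) (A : Finset V) :
    List Bool → (V → ℝ) → V → ℝ
  | [], μ => μ
  | s :: w, μ => wk P A w (st P A s μ)

/-- The point mass. -/
noncomputable def pt {V : Type} [DecidableEq V] (u : V) : V → ℝ := fun v => if v = u then 1 else 0

/-- Extension of a finite sequence. -/
def ext {V : Type} (κ : ℕ) (u : V) (φ : Fin κ → V) (i : ℕ) : V :=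
  if h : i < κ then φ ⟨i, h⟩ else u

/-- The image of the parent of `x`; the root `0` is attached to the vertex `u`. -/
def prv {V : Type} (κ : ℕ) (par : ℕ → ℕ) (u : V) (φ : Fin κ → V) (x : Fin κ) : V :=
  if (x : ℕ) = 0 then u else ext κ u φ (par x)

/-- The probability of the map `φ` in the random embedding of a rooted tree with `κ` vertices. -/
noncomputable def Wt {V : Type} [DecidableEq V] (P : V → V → ℝ) (A : Finset V) (κ : ℕ)
    (par : ℕ → ℕ) (s : ℕ → Bool) (u : V) (φ : Fin κ → V) : ℝ :=
  ∏ x : Fin κ, qA P A (s x) (prv κ par u φ x) (φ x)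

/-- The potential. -/
noncomputable def Pot {V : Type} [Fintype V] (P : V → V → ℝ) (lam : ℝ) (A : Finset V) (δ : ℝ) :
    ℝ :=
  ∑ s : Bool, ∑ u : V, ∑ b : Bool,
    Real.exp (lam * ((if b then 1 else -1) * dev P A s u - δ))

end Pool.Agent.Lib.RobT
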