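import Pool.Agent.Lib.RobT.Defs

/-!
# Rs: deleting a small set (about 120 lines)

`n = |V|`, `n' = n - |W| ≥ (7/8) n` (`ζ ≤ 1`).  Let `A` be a set of vertices of the subtype, `A'`
its
image in `V`, `B'` the image of `Aᶜ`: `V = A' ∪ B' ∪ W` disjoint, `eN` of the restricted relation
between `A` and `Aᶜ` is `eN R A' B'`.
If `|A'| ≤ |B'|`: `eN R A' B' ≥ eN R A' A'ᶜ - |A'| |W| ≥ |A'| (ζ (n - |A'|) - |W|)
≥ |A'| (ζ |B'| - |W|)` and `|B'| ≥ n'/2 ≥ (7/16) n`, `|W| ≤ ζ n/8 ≤ (ζ/2) |B'|`.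
If `|A'| > |B'|`: `eN R A' B' ≥ eN R B'ᶜ B' - |W| |B'| ≥ |B'| (ζ |A'| - |W|)`, the same.
`tour_sub` is clear.
-/

namespace Pool.Agent.Lib.RobT

open Finset

theorem tour_sub {V : Type} {R : V → V → Prop} (hR : IsTour R) (W : Finset V) :
    IsTour (V := {v : V // v ∉ W}) fun a b => R a b :=
  ⟨fun u => hR.irr u, fun u v h => hR.asym u v h,
    fun u v h => hR.tot u v fun h1 => h (Subtype.ext h1)⟩

private theorem Rs_eN_right {V : Type} [DecidableEq V] (R : V → V → Prop) (X Y Z T : Finset V)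
    (h : Y ⊆ Z ∪ T) : eN R X Y ≤ eN R X Z + X.card * T.card := by
  classical
  unfold eN
  have h1 : ((X ×ˢ Y).filter fun p => R p.1 p.2) ⊆
      ((X ×ˢ Z).filter fun p => R p.1 p.2) ∪ (X ×ˢ T) := by
    intro p hp
    simp only [mem_filter, mem_product, mem_union] at hp ⊢
    rcases mem_union.1 (h hp.1.2) with h2 | h2
    · exact Or.inl ⟨⟨hp.1.1, h2⟩, hp.2⟩
    · exact Or.inr ⟨hp.1.1, h2⟩
  refine (card_le_card h1).trans ((card_union_le _ _).trans ?_)
  rw [card_product X T]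

private theorem Rs_eN_left {V : Type} [DecidableEq V] (R : V → V → Prop) (X Y Z T : Finset V)
    (h : Y ⊆ Z ∪ T) : eN R Y X ≤ eN R Z X + T.card * X.card := by
  classical
  unfold eN
  have h1 : ((Y ×ˢ X).filter fun p => R p.1 p.2) ⊆
      ((Z ×ˢ X).filter fun p => R p.1 p.2) ∪ (T ×ˢ X) := by
    intro p hp
    simp only [mem_filter, mem_product, mem_union] at hp ⊢
    rcases mem_union.1 (h hp.1.1) with h2 | h2
    · exact Or.inl ⟨⟨h2, hp.1.2⟩, hp.2⟩
    · exact Or.inr ⟨h2, hp.1.2⟩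
  refine (card_le_card h1).trans ((card_union_le _ _).trans ?_)
  rw [card_product T X]

private theorem Rs_eN_map {V : Type} [DecidableEq V] (R : V → V → Prop) (W : Finset V)
    (A B : Finset {v : V // v ∉ W}) :
    eN (V := {v : V // v ∉ W}) (fun a b => R a b) A B =
      eN R (A.map (Function.Embedding.subtype _)) (B.map (Function.Embedding.subtype _)) := by
  classical
  unfold eN
  refine card_bij (fun p _ => (p.1.1, p.2.1)) ?_ ?_ ?_
  · intro p hp
    simp only [mem_filter, mem_product] at hp ⊢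
    exact ⟨⟨mem_map_of_mem _ hp.1.1, mem_map_of_mem _ hp.1.2⟩, hp.2⟩
  · intro p _ q _ h
    simp only [Prod.mk.injEq] at h
    exact Prod.ext (Subtype.ext h.1) (Subtype.ext h.2)
  · intro q hq
    simp only [mem_filter, mem_product, mem_map] at hq
    obtain ⟨⟨⟨a, ha, ha2⟩, ⟨b, hb, hb2⟩⟩, hR⟩ := hq
    have ha3 : (a : V) = q.1 := ha2
    have hb3 : (b : V) = q.2 := hb2
    refine ⟨(a, b), ?_, Prod.ext ha3 hb3⟩
    simp only [mem_filter, mem_product]
    refine ⟨⟨ha, hb⟩, ?_⟩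
    rw [ha3, hb3]
    exact hR

private theorem Rs_num {ζ a b w n e f : ℝ} (hζ : 0 < ζ) (hζ1 : ζ ≤ 1) (ha : 0 ≤ a) (hb : 0 ≤ b)
    (hw : 0 ≤ w) (hn : n = a + b + w) (hW : w ≤ ζ / 8 * n) (hab : a ≤ b)
    (h1 : ζ * a * (b + w) ≤ f) (h2 : f ≤ e + a * w) : ζ / 2 * a * b ≤ e := by
  have h3 : w ≤ ζ / 2 * b := by
    subst hn
    have h4 : ζ / 8 * (a + b + w) ≤ ζ / 8 * (2 * b + w) :=
      mul_le_mul_of_nonneg_left (by linarith) (by linarith)
    have h5 : ζ * w ≤ 1 * w := mul_le_mul_of_nonneg_right hζ1 hw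
    have h6 : 0 ≤ ζ * b := mul_nonneg hζ.le hb
    nlinarith
  have h7 : a * w ≤ a * (ζ / 2 * b) := mul_le_mul_of_nonneg_left h3 ha
  have h8 : 0 ≤ ζ * a * w := mul_nonneg (mul_nonneg hζ.le ha) hw
  nlinarith

theorem rob_sub {V : Type} [Fintype V] [DecidableEq V] {R : V → V → Prop} {ζ : ℝ}
    (hζ : 0 < ζ) (hζ1 : ζ ≤ 1) (hrob : Rob ζ R) (W : Finset V)
    (hW : (W.card : ℝ) ≤ ζ / 8 * Fintype.card V) :
    Rob (V := {v : V // v ∉ W}) (ζ / 2) fun a b => R a b := by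
  intro A
  rw [Rs_eN_map]
  set A' : Finset V := A.map (Function.Embedding.subtype _) with hA'
  set B' : Finset V := Aᶜ.map (Function.Embedding.subtype _) with hB'
  have hAc : A.card = A'.card := (card_map _).symm
  have hBc : (Aᶜ).card = B'.card := (card_map _).symm
  rw [hAc, hBc]
  have hmemA : ∀ v : V, v ∈ A' ↔ ∃ h : v ∉ W, (⟨v, h⟩ : {v : V // v ∉ W}) ∈ A := by
    intro v
    simp [hA']
  have hmemB : ∀ v : V, v ∈ B' ↔ ∃ h : v ∉ W, (⟨v, h⟩ : {v : V // v ∉ W}) ∉ A := by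
    intro v
    simp [hB']
  have hcov : ∀ v : V, v ∈ A' ∨ v ∈ B' ∨ v ∈ W := by
    intro v
    by_cases h : v ∈ W
    · exact Or.inr (Or.inr h)
    · by_cases h2 : (⟨v, h⟩ : {v : V // v ∉ W}) ∈ A
      · exact Or.inl ((hmemA v).2 ⟨h, h2⟩)
      · exact Or.inr (Or.inl ((hmemB v).2 ⟨h, h2⟩))
  have hAB : ∀ v, v ∈ A' → v ∉ B' := by
    intro v h1 h2
    obtain ⟨h, h3⟩ := (hmemA v).1 h1
    obtain ⟨_, h4⟩ := (hmemB v).1 h2
    exact h4 h3
  have hAW : ∀ v, v ∈ A' → v ∉ W := fun v h1 => ((hmemA v).1 h1).1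
  have hBW : ∀ v, v ∈ B' → v ∉ W := fun v h1 => ((hmemB v).1 h1).1
  have hcA : A'ᶜ = B' ∪ W := by
    ext v
    simp only [mem_compl, mem_union]
    constructor
    · intro h
      rcases hcov v with h1 | h1 | h1
      · exact absurd h1 h
      · exact Or.inl h1
      · exact Or.inr h1
    · rintro (h | h) h2
      · exact hAB v h2 h
      · exact hAW v h2 h
  have hcB : B'ᶜ = A' ∪ W := by
    ext v
    simp only [mem_compl, mem_union]
    constructor
    · intro h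
      rcases hcov v with h1 | h1 | h1
      · exact Or.inl h1
      · exact absurd h1 h
      · exact Or.inr h1
    · rintro (h | h) h2
      · exact hAB v h h2
      · exact hBW v h2 h
  have hcAc : (A'ᶜ).card = B'.card + W.card := by
    rw [hcA, card_union_of_disjoint]
    exact disjoint_left.2 hBW
  have hcBc : (B'ᶜ).card = A'.card + W.card := by
    rw [hcB, card_union_of_disjoint]
    exact disjoint_left.2 hAW
  have hn : (Fintype.card V : ℝ) = (A'.card : ℝ) + B'.card + W.card := by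
    have h1 := card_add_card_compl A'
    rw [hcAc] at h1
    rw [← h1]
    push_cast
    ring
  rcases le_total (A'.card : ℝ) (B'.card : ℝ) with hab | hab
  · have h1 := hrob A'
    rw [hcAc] at h1
    have h2 : (eN R A' A'ᶜ : ℝ) ≤ eN R A' B' + (A'.card : ℝ) * W.card := by
      exact_mod_cast Rs_eN_right R A' A'ᶜ B' W hcA.subset
    push_cast at h1
    exact Rs_num hζ hζ1 (Nat.cast_nonneg _) (Nat.cast_nonneg _) (Nat.cast_nonneg _) hn hW hab h1 h2
  · have h1 := hrob B'ᶜ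
    rw [hcBc, compl_compl] at h1
    have h2 : (eN R B'ᶜ B' : ℝ) ≤ eN R A' B' + (W.card : ℝ) * B'.card := by
      exact_mod_cast Rs_eN_left R B' B'ᶜ A' W hcB.subset
    push_cast at h1
    have h3 := Rs_num hζ hζ1 (a := (B'.card : ℝ)) (b := (A'.card : ℝ)) (w := (W.card : ℝ))
      (n := (Fintype.card V : ℝ)) (e := (eN R A' B' : ℝ)) (f := (eN R B'ᶜ B' : ℝ))
      (Nat.cast_nonneg _) (Nat.cast_nonneg _) (Nat.cast_nonneg _) (by rw [hn]; ring) hW hab
      (by nlinarith) (by nlinarith)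
    nlinarith

end Pool.Agent.Lib.RobT
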