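import Pool.Agent.Lib.RobT.Defs

/-!
# Td: a subtree of prescribed size (about 120 lines)

`DS q` = the set of the `i < N` with `par^[j] i = q` for some `j` such that `par^[t] i ≠ 0` for
`t < j` (the descendants of `q`, including `q`).  `DS 0 = [0, N)` (`par` is decreasing).  For
`q < N`: `DS q = {q} ∪ ⋃_{y : 0 < y < N, par y = q} DS y`.  Let `q` be the largest index with
`|DS q| ≥ g` (`q = 0` has it, as `N ≥ g`).  Its children `y` are larger, so `|DS y| ≤ g - 1`, and
`|DS q| ≤ 1 + Δ (g - 1) ≤ (Δ+1) g < N`.  So `q ≠ 0`.  Take `S = DS q`: closed under children; every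
`i ∈ S`, `i ≠ q`, has `0 < i` and `par i ∈ S`; for `i ∉ S`, `0 < i`: `par i ∉ S`.
-/

namespace Pool.Agent.Lib.RobT

open Finset

/-- One step to the parent. -/
private def tdStep (par : ℕ → ℕ) (i j : ℕ) : Prop := 0 < i ∧ par i = j

private lemma td_zero {N Δ : ℕ} {par : ℕ → ℕ} (h : RT N Δ par) :
    ∀ i, i < N → Relation.ReflTransGen (tdStep par) i 0 := by
  intro i
  induction i using Nat.strong_induction_on with
  | _ i ih =>
    intro hi
    rcases Nat.eq_zero_or_pos i with h0 | h0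
    · rw [h0]
    · have h1 := h.lt i h0 hi
      exact Relation.ReflTransGen.head ⟨h0, rfl⟩ (ih (par i) h1 (h1.trans hi))

private lemma td_le {N Δ : ℕ} {par : ℕ → ℕ} (h : RT N Δ par) {q i : ℕ}
    (hr : Relation.ReflTransGen (tdStep par) i q) : i < N → q ≤ i := by
  induction hr using Relation.ReflTransGen.head_induction_on with
  | refl => intro _; exact le_rfl
  | head h1 _ ih =>
    intro hi
    obtain ⟨h0, h2⟩ := h1
    have h3 := h.lt _ h0 hi
    rw [h2] at h3
    exact (ih (h3.trans hi)).trans h3.le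

theorem subtree (N Δ g : ℕ) (par : ℕ → ℕ) (h : RT N Δ par) (hg : 1 ≤ g)
    (hN : (Δ + 1) * g < N) :
    ∃ (q : ℕ) (S : Finset ℕ), 0 < q ∧ q < N ∧ q ∈ S ∧ (∀ i ∈ S, i < N) ∧ 0 ∉ S ∧
      g ≤ S.card ∧ S.card ≤ (Δ + 1) * g ∧ (∀ i ∈ S, i ≠ q → par i ∈ S) ∧
      (∀ i, 0 < i → i < N → i ∉ S → par i ∉ S) ∧ par q ∉ S := by
  classical
  set D : ℕ → Finset ℕ := fun q =>
    (range N).filter fun i => Relation.ReflTransGen (tdStep par) i q with hD
  have hDm : ∀ q i, i ∈ D q ↔ i < N ∧ Relation.ReflTransGen (tdStep par) i q := by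
    intro q i
    simp [hD]
  have hD0 : D 0 = range N := by
    ext i
    rw [hDm, mem_range]
    exact ⟨fun h1 => h1.1, fun h1 => ⟨h1, td_zero h i h1⟩⟩
  have hgN : g ≤ N := by nlinarith
  have hNpos : 0 < N := by omega
  set Q : Finset ℕ := (range N).filter fun q => g ≤ (D q).card with hQ
  have hQ0 : 0 ∈ Q := by
    rw [hQ, mem_filter, mem_range, hD0, card_range]
    exact ⟨hNpos, hgN⟩
  set q := Q.max' ⟨0, hQ0⟩ with hq
  have hqQ : q ∈ Q := Q.max'_mem _
  have hqN : q < N := by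
    have := (mem_filter.1 hqQ).1
    exact mem_range.1 this
  have hqg : g ≤ (D q).card := (mem_filter.1 hqQ).2
  have hchild : ∀ y, 0 < y → y < N → par y = q → (D y).card ≤ g - 1 := by
    intro y hy0 hyN hyq
    by_contra hcon
    have h1 : g ≤ (D y).card := by omega
    have h2 : y ∈ Q := by
      rw [hQ, mem_filter, mem_range]
      exact ⟨hyN, h1⟩
    have h3 : y ≤ q := Q.le_max' y h2
    have h4 := h.lt y hy0 hyN
    omega
  have hsub : D q ⊆ insert q (((range N).filter fun i => 0 < i ∧ par i = q).biUnion D) := by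
    intro i hi
    obtain ⟨hiN, hir⟩ := (hDm q i).1 hi
    rw [mem_insert, mem_biUnion]
    rcases hir.cases_tail with h1 | ⟨y, h1, h2⟩
    · exact Or.inl h1.symm
    · refine Or.inr ⟨y, ?_, (hDm y i).2 ⟨hiN, h1⟩⟩
      rw [mem_filter, mem_range]
      exact ⟨(td_le h h1 hiN).trans_lt hiN, h2.1, h2.2⟩
  have hcard : (D q).card ≤ 1 + Δ * (g - 1) := by
    calc (D q).card ≤ _ := card_le_card hsub
      _ ≤ (((range N).filter fun i => 0 < i ∧ par i = q).biUnion D).card + 1 := card_insert_le _ _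
      _ ≤ ((range N).filter fun i => 0 < i ∧ par i = q).card * (g - 1) + 1 := by
          gcongr
          apply card_biUnion_le_card_mul
          intro y hy
          rw [mem_filter, mem_range] at hy
          exact hchild y hy.2.1 hy.1 hy.2.2
      _ ≤ Δ * (g - 1) + 1 := by
          gcongr
          exact h.deg q
      _ = 1 + Δ * (g - 1) := by ring
  have hle : 1 + Δ * (g - 1) ≤ (Δ + 1) * g := by
    obtain ⟨m, rfl⟩ : ∃ m, g = m + 1 := ⟨g - 1, by omega⟩
    rw [Nat.add_sub_cancel]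
    nlinarith
  have hq0 : 0 < q := by
    rcases Nat.eq_zero_or_pos q with h1 | h1
    · exfalso
      rw [h1, hD0, card_range] at hcard
      omega
    · exact h1
  refine ⟨q, D q, hq0, hqN, (hDm q q).2 ⟨hqN, Relation.ReflTransGen.refl⟩,
    fun i hi => ((hDm q i).1 hi).1, ?_, hqg, hcard.trans hle, ?_, ?_, ?_⟩
  · intro h0
    rcases ((hDm q 0).1 h0).2.cases_head with h1 | ⟨y, h1, _⟩
    · omega
    · exact absurd h1.1 (lt_irrefl 0)
  · intro i hi hne
    obtain ⟨hiN, hir⟩ := (hDm q i).1 hi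
    rcases hir.cases_head with h1 | ⟨y, h1, h2⟩
    · exact absurd h1 hne
    · have h3 := h.lt i h1.1 hiN
      rw [h1.2]
      rw [h1.2] at h3
      exact (hDm q y).2 ⟨h3.trans hiN, h2⟩
  · intro i hi0 hiN hnot hpar
    apply hnot
    exact (hDm q i).2 ⟨hiN, Relation.ReflTransGen.head ⟨hi0, rfl⟩ ((hDm q _).1 hpar).2⟩
  · intro hpar
    obtain ⟨h1, h2⟩ := (hDm q _).1 hpar
    have h3 := td_le h h2 h1
    have h4 := h.lt q hq0 hqN
    omega

end Pool.Agent.Lib.RobT
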