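import Pool.Agent.Lib.RobT.Tn
import Pool.Agent.Lib.RobT.Td

/-!
# Tp: splitting a tree at an edge (about 250 lines)

`enum_tree` for `G` and any root gives `e₀, p₀`; `RT n Δ p₀`: the children `i` of `j` are neighbours
`e₀ i` of `e₀ j`, at most `Δ`.  `subtree` gives `q, S`.  Let `A = e₀ '' S`, `B` its complement,
`x_A = e₀ q ∈ A`, `x_B = e₀ (p₀ q) ∈ B`, adjacent.  By the last property of `enum_tree`, an edge
between `A` and `B` is `e₀ i - e₀ (p₀ i)` with exactly one of `i, p₀ i` in `S`; by the properties of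
`S` this is `i = q`.  `G.induce A`, `G.induce B` are trees: acyclic (`SimpleGraph.IsAcyclic.comap`/
`induce`), connected: every `e₀ i`, `i ∈ S`, is joined inside `A` with `e₀ q` (strong induction:
`e₀ (p₀ i)`), every `e₀ i`, `i ∉ S`, with `e₀ 0` inside `B`.  Apply `enum_tree` to `G.induce A` with
root `x_A` and to `G.induce B` with root `x_B`; `m = |A| = |S|`, `|B| = n - m`.  `RT m Δ pA`,
`RT (n-m) Δ pB` as before.
-/

namespace Pool.Agent.Lib.RobT

open Finset

open Classical in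
/-- Degree condition for a rooted tree read off a graph. -/
private theorem rt_of_enum {V : Type} [Fintype V] (G : SimpleGraph V) (Δ N : ℕ)
    (hd : ∀ x, (univ.filter fun y => G.Adj x y).card ≤ Δ) (e : ℕ → V) (par : ℕ → ℕ)
    (hinj : Set.InjOn e (Set.Iio N))
    (hp : ∀ i, 0 < i → i < N → par i < i ∧ G.Adj (e i) (e (par i))) : RT N Δ par := by
  refine ⟨fun i h0 h1 => (hp i h0 h1).1, fun j => ?_⟩
  refine le_trans ?_ (hd (e j))
  apply card_le_card_of_injOn e
  · intro i hi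
    have hi' := mem_filter.1 (mem_coe.1 hi)
    rw [mem_range] at hi'
    obtain ⟨h1, h2, h3⟩ := hi'
    apply mem_coe.2
    rw [mem_filter]
    refine ⟨mem_univ _, ?_⟩
    have := (hp i h2 h1).2
    rw [h3] at this
    exact this.symm
  · intro i hi j' hj' h
    have hi' := mem_filter.1 (mem_coe.1 hi)
    have hj'' := mem_filter.1 (mem_coe.1 hj')
    rw [mem_range] at hi' hj''
    exact hinj (Set.mem_Iio.2 hi'.1) (Set.mem_Iio.2 hj''.1) h

open Classical in
/-- Enumeration of an induced subtree. -/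
private theorem enum_induce {V : Type} [Fintype V] (G : SimpleGraph V) (Δ m : ℕ)
    (hd : ∀ x, (univ.filter fun y => G.Adj x y).card ≤ Δ) (A : Set V)
    (hT : (G.induce A).IsTree) (r : V) (hr : r ∈ A) (hm : Nat.card A = m) :
    ∃ (e : ℕ → V) (par : ℕ → ℕ), e 0 = r ∧ Set.InjOn e (Set.Iio m) ∧
      (∀ i < m, e i ∈ A) ∧ (∀ v ∈ A, ∃ i < m, e i = v) ∧ RT m Δ par ∧
      (∀ i, 0 < i → i < m → G.Adj (e i) (e (par i))) ∧
      ∀ x ∈ A, ∀ y ∈ A, G.Adj x y → ∃ i, 0 < i ∧ i < m ∧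
        ((x = e i ∧ y = e (par i)) ∨ (y = e i ∧ x = e (par i))) := by
  obtain ⟨e, par, h0, hinj, hsurj, hpar, hedge⟩ := enum_tree (G.induce A) hT ⟨r, hr⟩
  have hm' : Fintype.card A = m := Nat.card_eq_fintype_card.symm.trans hm
  rw [hm'] at hinj hsurj hpar hedge
  have hinj' : Set.InjOn (fun i => (e i : V)) (Set.Iio m) := by
    intro i hi j hj h
    exact hinj hi hj (Subtype.ext h)
  have hpar' : ∀ i, 0 < i → i < m → par i < i ∧ G.Adj (e i : V) (e (par i) : V) := by
    intro i hi0 him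
    obtain ⟨h1, h2⟩ := hpar i hi0 him
    exact ⟨h1, h2⟩
  refine ⟨fun i => (e i : V), par, ?_, hinj', fun i _ => (e i).2, ?_,
    rt_of_enum G Δ m hd _ par hinj' hpar', fun i h1 h2 => (hpar' i h1 h2).2, ?_⟩
  · show (e 0 : V) = r
    rw [h0]
  · intro v hv
    obtain ⟨i, hi, hiv⟩ := hsurj ⟨v, hv⟩
    refine ⟨i, hi, ?_⟩
    show (e i : V) = v
    rw [hiv]
  · intro x hx y hy hxy
    obtain ⟨i, hi0, him, h⟩ := hedge ⟨x, hx⟩ ⟨y, hy⟩ hxy
    refine ⟨i, hi0, him, ?_⟩
    rcases h with ⟨h1, h2⟩ | ⟨h1, h2⟩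
    · exact Or.inl ⟨congrArg Subtype.val h1, congrArg Subtype.val h2⟩
    · exact Or.inr ⟨congrArg Subtype.val h1, congrArg Subtype.val h2⟩

open Classical in
theorem split_tree {V : Type} [Fintype V] (G : SimpleGraph V) (hG : G.IsTree) (Δ g : ℕ)
    (hd : ∀ x, (univ.filter fun y => G.Adj x y).card ≤ Δ) (hg : 1 ≤ g)
    (hn : (Δ + 1) * g < Fintype.card V) :
    ∃ (m : ℕ) (eA eB : ℕ → V) (pA pB : ℕ → ℕ), g ≤ m ∧ m ≤ (Δ + 1) * g ∧
      RT m Δ pA ∧ RT (Fintype.card V - m) Δ pB ∧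
      Set.InjOn eA (Set.Iio m) ∧ Set.InjOn eB (Set.Iio (Fintype.card V - m)) ∧
      (∀ i < m, ∀ j < Fintype.card V - m, eA i ≠ eB j) ∧
      (∀ v, (∃ i < m, eA i = v) ∨ ∃ i < Fintype.card V - m, eB i = v) ∧
      (∀ i, 0 < i → i < m → G.Adj (eA i) (eA (pA i))) ∧
      (∀ i, 0 < i → i < Fintype.card V - m → G.Adj (eB i) (eB (pB i))) ∧
      G.Adj (eA 0) (eB 0) ∧
      ∀ x y, G.Adj x y →
        (∃ i, 0 < i ∧ i < m ∧ ((x = eA i ∧ y = eA (pA i)) ∨ (y = eA i ∧ x = eA (pA i)))) ∨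
        (∃ i, 0 < i ∧ i < Fintype.card V - m ∧
          ((x = eB i ∧ y = eB (pB i)) ∨ (y = eB i ∧ x = eB (pB i)))) ∨
        (x = eA 0 ∧ y = eB 0) ∨ (y = eA 0 ∧ x = eB 0) := by
  obtain ⟨e, par, -, hinj, hsurj, hpar, hedge⟩ := enum_tree G hG (Classical.choice hG.1.nonempty)
  set n := Fintype.card V with hnV
  have hRT : RT n Δ par := rt_of_enum G Δ n hd e par hinj hpar
  obtain ⟨q, S, hq0, hqn, hqS, hSn, h0S, hgS, hSg, hSp, hSc, hpq⟩ := subtree n Δ g par hRT hg hn
  have hidx : ∀ i < n, ∀ j < n, e i = e j → i = j := fun i hi j hj h =>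
    hinj (Set.mem_Iio.2 hi) (Set.mem_Iio.2 hj) h
  let A : Set V := {v | ∃ i ∈ S, e i = v}
  have hmem : ∀ i < n, (e i ∈ A ↔ i ∈ S) := by
    intro i hi
    constructor
    · rintro ⟨j, hj, hji⟩
      have := hidx j (hSn j hj) i hi hji
      rwa [← this]
    · intro h
      exact ⟨i, h, rfl⟩
  have hpn : ∀ i, 0 < i → i < n → par i < n := fun i h1 h2 => (hpar i h1 h2).1.trans h2
  have hqA : e q ∈ A := (hmem q hqn).2 hqS
  have hpB : e (par q) ∈ Aᶜ := by
    rw [Set.mem_compl_iff, hmem _ (hpn q hq0 hqn)]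
    exact hpq
  have h0n : 0 < n := lt_trans hq0 hqn
  have h0B : e 0 ∈ Aᶜ := by
    rw [Set.mem_compl_iff, hmem 0 h0n]
    exact h0S
  -- connectedness
  have hconA : ∀ i, ∀ hi : i ∈ S, (G.induce A).Reachable
      ⟨e i, (hmem i (hSn i hi)).2 hi⟩ ⟨e q, hqA⟩ := by
    intro i
    induction i using Nat.strong_induction_on with
    | _ i ih =>
      intro hi
      by_cases hiq : i = q
      · subst hiq
        exact SimpleGraph.Reachable.refl _
      · have hi0 : 0 < i := by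
          rcases Nat.eq_zero_or_pos i with h1 | h1
          · rw [h1] at hi
            exact absurd hi h0S
          · exact h1
        have h1 := hSp i hi hiq
        have h2 := hpar i hi0 (hSn i hi)
        refine SimpleGraph.Reachable.trans (SimpleGraph.Adj.reachable ?_) (ih (par i) h2.1 h1)
        exact h2.2
  have hconB : ∀ i, ∀ hin : i < n, ∀ hi : i ∉ S, (G.induce Aᶜ).Reachable
      ⟨e i, by rw [Set.mem_compl_iff, hmem i hin]; exact hi⟩ ⟨e 0, h0B⟩ := by
    intro i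
    induction i using Nat.strong_induction_on with
    | _ i ih =>
      intro hin hi
      rcases Nat.eq_zero_or_pos i with h1 | h1
      · subst h1
        exact SimpleGraph.Reachable.refl _
      · have h2 := hSc i h1 hin hi
        have h3 := hpar i h1 hin
        refine SimpleGraph.Reachable.trans (SimpleGraph.Adj.reachable ?_)
          (ih (par i) h3.1 (hpn i h1 hin) h2)
        exact h3.2
  have hTA : (G.induce A).IsTree := by
    refine ⟨?_, hG.2.induce A⟩
    rw [SimpleGraph.connected_iff_exists_forall_reachable]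
    refine ⟨⟨e q, hqA⟩, ?_⟩
    rintro ⟨v, i, hi, rfl⟩
    exact (hconA i hi).symm
  have hTB : (G.induce Aᶜ).IsTree := by
    refine ⟨?_, hG.2.induce Aᶜ⟩
    rw [SimpleGraph.connected_iff_exists_forall_reachable]
    refine ⟨⟨e 0, h0B⟩, ?_⟩
    rintro ⟨v, hv⟩
    obtain ⟨i, hi, rfl⟩ := hsurj v
    have hiS : i ∉ S := by
      rw [Set.mem_compl_iff, hmem i hi] at hv
      exact hv
    exact (hconB i hi hiS).symm
  -- cardinalities
  have hcA : Fintype.card A = S.card := by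
    rw [← Set.toFinset_card]
    have : A.toFinset = S.image e := by
      ext v
      rw [Set.mem_toFinset, mem_image]
      rfl
    rw [this, card_image_of_injOn]
    intro i hi j hj h
    exact hidx i (hSn i (mem_coe.1 hi)) j (hSn j (mem_coe.1 hj)) h
  have hcB : Fintype.card (Aᶜ : Set V) = n - S.card := by
    rw [Fintype.card_compl_set, hcA]
  obtain ⟨eA, pA, hA0, hAinj, hAmem, hAsurj, hART, hAadj, hAedge⟩ :=
    enum_induce G Δ S.card hd A hTA (e q) hqA
      (Nat.card_eq_fintype_card.trans hcA)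
  obtain ⟨eB, pB, hB0, hBinj, hBmem, hBsurj, hBRT, hBadj, hBedge⟩ :=
    enum_induce G Δ (n - S.card) hd Aᶜ hTB (e (par q)) hpB
      (Nat.card_eq_fintype_card.trans hcB)
  refine ⟨S.card, eA, eB, pA, pB, hgS, hSg, hART, hBRT, hAinj, hBinj, ?_, ?_, hAadj, hBadj, ?_, ?_⟩
  · intro i hi j hj h
    have h1 := hAmem i hi
    rw [h] at h1
    exact hBmem j hj h1
  · intro v
    by_cases hv : v ∈ A
    · exact Or.inl (hAsurj v hv)
    · exact Or.inr (hBsurj v hv)
  · rw [hA0, hB0]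
    exact (hpar q hq0 hqn).2
  · have key : ∀ i, 0 < i → i < n → ∀ x y, x = e i → y = e (par i) → G.Adj x y →
        (∃ i, 0 < i ∧ i < S.card ∧ ((x = eA i ∧ y = eA (pA i)) ∨ (y = eA i ∧ x = eA (pA i)))) ∨
        (∃ i, 0 < i ∧ i < n - S.card ∧
          ((x = eB i ∧ y = eB (pB i)) ∨ (y = eB i ∧ x = eB (pB i)))) ∨
        (x = eA 0 ∧ y = eB 0) := by
      intro i hi0 hin x y hx hy hxy
      by_cases hiS : i ∈ S
      · by_cases hiq : i = q
        · subst hiq
          exact Or.inr (Or.inr ⟨by rw [hx, hA0], by rw [hy, hB0]⟩)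
        · left
          apply hAedge x _ y _ hxy
          · rw [hx]
            exact (hmem i hin).2 hiS
          · rw [hy]
            exact (hmem _ (hpn i hi0 hin)).2 (hSp i hiS hiq)
      · right
        left
        apply hBedge x _ y _ hxy
        · rw [hx, Set.mem_compl_iff, hmem i hin]
          exact hiS
        · rw [hy, Set.mem_compl_iff, hmem _ (hpn i hi0 hin)]
          exact hSc i hi0 hin hiS
    intro x y hxy
    obtain ⟨i, hi0, hin, h⟩ := hedge x y hxy
    rcases h with ⟨h1, h2⟩ | ⟨h1, h2⟩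
    · rcases key i hi0 hin x y h1 h2 hxy with h | h | h
      · exact Or.inl h
      · exact Or.inr (Or.inl h)
      · exact Or.inr (Or.inr (Or.inl h))
    · rcases key i hi0 hin y x h1 h2 hxy.symm with h | h | h
      · obtain ⟨j, hj0, hj1, hj2⟩ := h
        exact Or.inl ⟨j, hj0, hj1, hj2.symm⟩
      · obtain ⟨j, hj0, hj1, hj2⟩ := h
        exact Or.inr (Or.inl ⟨j, hj0, hj1, hj2.symm⟩)
      · exact Or.inr (Or.inr (Or.inr h))

end Pool.Agent.Lib.RobT
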