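import Pool.Agent.Lib.RobT.Sn
import Pool.Agent.Lib.RobT.Az
import Pool.Agent.Lib.RobT.Tp
import Pool.Agent.Lib.RobT.Rs

/-!
# Fn: spanning trees in tournaments without sparse cuts (about 300 lines)

We may assume `ζ ≤ 1`.  `γ₁` from `absorber`; `γ₂ = min γ₁ (min (ζ/16) (1/8))`, `γ = γ₂/(2 (Δ+1))`;
`θ, n₁` from `absorber` for `γ` (we may take `θ ≤ 1`); `ρ = θ/6`, `n₂` from `near_spanning` for
`ζ/2, ρ, Δ`.
`n = |V|` large, `g = ⌈γ n⌉`; `(Δ+1) g ≤ γ₂ n < n` for large `n`.  `split_tree` for the underlying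
graph
gives `m`, `γ n ≤ g ≤ m ≤ γ₂ n`, `eA, eB, pA, pB`.  Signs: `sA i = true` if `T (eA (pA i)) (eA i)`
(otherwise `T (eA i) (eA (pA i))`), `sB` the same, and `s₀ = true` if `T (eA 0) (eB 0)`.
`absorber` for `(m, pA, sA)`: `f, U, R₀, r` (`θ n ≤ f ≤ m`).  `W = U ∪ R₀`,
`|W| = m - f + (f+1)/2 ≤ m ≤ ζ n/16`.  `V' = {v // v ∉ W}`, `n' = |V'| = n - |W|`,
`N = n - m = n' - f/2` (floor: `f = (f+1)/2 + f/2`), `f/2 ≥ θ n/6 ≥ ρ n'` for large `n`, so
`N ≤ (1 - ρ) n'`.
`Nb R s₀ r` has at least `ζ (n-1) > |W|` elements (`deg_lo`), so there is `u₀ ∈ V'` with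
`Arc R s₀ r u₀`.  `near_spanning` for `V'`, `(N, pB, sB)`, `u₀` (`rob_sub`, `tour_sub`): `φB`.
`L = univ \ (U ∪ φB([0, N)))`: contains `R₀`, disjoint from `U`, `|L| = n - |U| - N = f`.
`absorber`: `φA` with `φA 0 = r` and image `U ∪ L`.
`φ (eA i) = φA i` (`i < m`), `φ (eB i) = φB i` (`i < N`): well defined (`InjOn`, disjoint images),
injective, so bijective.  Arcs: an arc `T x y` is an edge of the underlying graph, three cases of
`split_tree`; for `x = eA i, y = eA (pA i)`: `T (eA i) (eA (pA i))`, so `sA i = false` (asymmetry of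
`T`) and `Arc R false (φA (pA i)) (φA i)` is `R (φA i) (φA (pA i))`; etc.
-/

namespace Pool.Agent.Lib.RobT

open Finset

open Classical in
/-- An oriented tree on the vertex set `V` with maximum degree at most `Δ`. -/
structure IsOTree {V : Type} [Fintype V] (Δ : ℕ) (T : V → V → Prop) : Prop where
  asym : ∀ x y, T x y → ¬ T y x
  tree : (SimpleGraph.fromRel T).IsTree
  deg : ∀ x, (univ.filter fun y => T x y ∨ T y x).card ≤ Δ

private theorem rob_min {V : Type} [Fintype V] [DecidableEq V] {R : V → V → Prop} {ζ z : ℝ}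
    (h : z ≤ ζ) (hrob : Rob ζ R) : Rob z R := by
  intro A
  refine le_trans ?_ (hrob A)
  apply mul_le_mul_of_nonneg_right _ (Nat.cast_nonneg _)
  exact mul_le_mul_of_nonneg_right h (Nat.cast_nonneg _)

theorem main (ζ : ℝ) (Δ : ℕ) (hζ : 0 < ζ) :
    ∃ n₀ : ℕ, ∀ (V : Type) [Fintype V] [DecidableEq V] (R : V → V → Prop),
      n₀ ≤ Fintype.card V → IsTour R → Rob ζ R → ∀ T : V → V → Prop, IsOTree Δ T →
      ∃ φ : V ≃ V, ∀ x y, T x y → R (φ x) (φ y) := by
  classical
  set z := min ζ 1 with hz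
  have hz0 : 0 < z := lt_min hζ one_pos
  have hz1 : z ≤ 1 := min_le_right _ _
  obtain ⟨γ₁, hγ₁, habs⟩ := absorber z Δ hz0
  set γ₂ := min γ₁ (min (z / 16) (1 / 8)) with hγ₂
  have hg2 : 0 < γ₂ := lt_min hγ₁ (lt_min (by positivity) (by norm_num))
  have hg2a : γ₂ ≤ γ₁ := min_le_left _ _
  have hg2b : γ₂ ≤ z / 16 := (min_le_right _ _).trans (min_le_left _ _)
  have hg2c : γ₂ ≤ 1 / 8 := (min_le_right _ _).trans (min_le_right _ _)
  have hD0 : (0 : ℝ) < (Δ : ℝ) + 1 := by positivity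
  set γ := γ₂ / (2 * ((Δ : ℝ) + 1)) with hγ
  have hγ0 : 0 < γ := by positivity
  obtain ⟨θ, n₁, hθ, habs⟩ := habs γ hγ0
  obtain ⟨n₂, hnear⟩ := near_spanning (z / 2) (θ / 6) Δ (by positivity) (by positivity)
  obtain ⟨n₃, hn₃⟩ := exists_nat_ge (2 * ((Δ : ℝ) + 1) / γ₂)
  obtain ⟨n₄, hn₄⟩ := exists_nat_ge (2 / θ)
  refine ⟨max (max n₁ (2 * n₂)) (max (max n₃ n₄) 2), ?_⟩
  intro V _ _ R hn hR hrob0 T hT
  have hn1 : n₁ ≤ Fintype.card V := by omega
  have hn2 : 2 * n₂ ≤ Fintype.card V := by omega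
  have hn3 : n₃ ≤ Fintype.card V := by omega
  have hn4 : n₄ ≤ Fintype.card V := by omega
  have hn5 : 2 ≤ Fintype.card V := by omega
  have r2 : 2 * (n₂ : ℝ) ≤ Fintype.card V := by exact_mod_cast hn2
  have r3 : 2 * ((Δ : ℝ) + 1) / γ₂ ≤ Fintype.card V := by
    refine hn₃.trans ?_
    exact_mod_cast hn3
  have r4 : 2 / θ ≤ Fintype.card V := by
    refine hn₄.trans ?_
    exact_mod_cast hn4
  have r5 : (2 : ℝ) ≤ Fintype.card V := by exact_mod_cast hn5
  rw [div_le_iff₀ hg2] at r3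
  rw [div_le_iff₀ hθ] at r4
  have hrob : Rob z R := rob_min (min_le_left _ _) hrob0
  set n := Fintype.card V with hnn
  -- the size of the part
  set g := ⌈γ * n⌉₊ with hg
  have hg1 : 1 ≤ g := by
    apply Nat.one_le_iff_ne_zero.2
    intro h0
    rw [hg, Nat.ceil_eq_zero] at h0
    have : 0 < γ * (n : ℝ) := by positivity
    linarith
  have hga : γ * n ≤ g := Nat.le_ceil _
  have hgb : (g : ℝ) < γ * n + 1 := Nat.ceil_lt_add_one (by positivity)
  have hgc : ((Δ : ℝ) + 1) * g ≤ γ₂ * n := by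
    have e1 : ((Δ : ℝ) + 1) * (γ * n + 1) = γ₂ * n / 2 + (Δ + 1) := by
      rw [hγ]
      field_simp
    have e2 : ((Δ : ℝ) + 1) * g ≤ ((Δ : ℝ) + 1) * (γ * n + 1) :=
      mul_le_mul_of_nonneg_left hgb.le hD0.le
    linarith
  have hgd : (Δ + 1) * g < n := by
    have e1 : ((((Δ + 1) * g : ℕ)) : ℝ) < n := by
      push_cast
      have : γ₂ * (n : ℝ) ≤ 1 / 8 * n := by
        apply mul_le_mul_of_nonneg_right hg2c
        positivity
      linarith
    exact_mod_cast e1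
  -- splitting
  obtain ⟨m, eA, eB, pA, pB, m1, m2, hRA, hRB, iA, iB, dAB, cov, adjA, adjB, adj0, edges⟩ :=
    split_tree (SimpleGraph.fromRel T) hT.tree Δ g (fun x => by
      refine (card_le_card ?_).trans (hT.deg x)
      intro y hy
      simp only [mem_filter, mem_univ, true_and, SimpleGraph.fromRel_adj] at hy ⊢
      exact hy.2) hg1 hgd
  have hm1 : γ * n ≤ m := by
    refine hga.trans ?_
    exact_mod_cast m1
  have hm2 : (m : ℝ) ≤ γ₂ * n := by
    refine le_trans ?_ hgc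
    have : (m : ℝ) ≤ ((Δ + 1) * g : ℕ) := by exact_mod_cast m2
    push_cast at this
    exact this
  have hm3 : (m : ℝ) ≤ γ₁ * n :=
    hm2.trans (mul_le_mul_of_nonneg_right hg2a (Nat.cast_nonneg _))
  have hmn : m < n := by omega
  have hm0 : 0 < m := by omega
  set N := n - m with hN
  have hN0 : 0 < N := by omega
  obtain ⟨f, U, R₀, r, f1, f2, f3, f4, f5, f6⟩ := habs V R hn1 hR hrob m pA
    (fun i => decide (T (eA (pA i)) (eA i))) hm1 hm3 hRA
  -- the removed set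
  set W := U ∪ R₀ with hW
  have hWc : W.card = m - f + (f + 1) / 2 := by
    rw [hW, card_union_of_disjoint f4.symm, f3]
    omega
  have hWm : W.card ≤ m := by omega
  have hWr : (W.card : ℝ) ≤ z / 16 * n := by
    have : (W.card : ℝ) ≤ m := by exact_mod_cast hWm
    refine this.trans (hm2.trans ?_)
    exact mul_le_mul_of_nonneg_right hg2b (Nat.cast_nonneg _)
  have hW8 : (W.card : ℝ) ≤ z / 8 * n := by
    refine hWr.trans ?_
    apply mul_le_mul_of_nonneg_right _ (Nat.cast_nonneg _)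
    linarith
  have hcV' : Fintype.card {v : V // v ∉ W} = n - W.card := by
    rw [Fintype.card_subtype_compl, Fintype.card_coe]
  have hWn : W.card < n := by omega
  have hn2' : n₂ ≤ Fintype.card {v : V // v ∉ W} := by
    rw [hcV']
    have h1 : (W.card : ℝ) ≤ n / 2 := by
      have : z / 16 * (n : ℝ) ≤ 1 / 16 * n := by
        apply mul_le_mul_of_nonneg_right _ (Nat.cast_nonneg _)
        linarith
      have h0 : (0 : ℝ) ≤ n := Nat.cast_nonneg _
      linarith
    have h2 : 2 * W.card ≤ n := by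
      have : 2 * (W.card : ℝ) ≤ n := by linarith
      exact_mod_cast this
    omega
  have hNle : (N : ℝ) ≤ (1 - θ / 6) * Fintype.card {v : V // v ∉ W} := by
    rw [hcV']
    have e1 : N + f / 2 = n - W.card := by omega
    have e2 : ((N + f / 2 : ℕ) : ℝ) = ((n - W.card : ℕ) : ℝ) := by rw [e1]
    have e3 : ((n - W.card : ℕ) : ℝ) ≤ n := by
      exact_mod_cast Nat.sub_le _ _
    have e4 : (f : ℝ) ≤ 2 * ((f / 2 : ℕ) : ℝ) + 1 := by
      have : f ≤ 2 * (f / 2) + 1 := by omega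
      exact_mod_cast this
    push_cast at e2
    have e5 : θ / 6 * ((n - W.card : ℕ) : ℝ) ≤ θ / 6 * n := by
      apply mul_le_mul_of_nonneg_left e3
      positivity
    nlinarith
  -- the connecting vertex
  have hdeg := deg_lo hR hrob (decide (T (eA 0) (eB 0))) r
  have hex : ∃ u₀ ∈ Nb R (decide (T (eA 0) (eB 0))) r, u₀ ∉ W := by
    apply exists_mem_notMem_of_card_lt_card
    have : (W.card : ℝ) < (Nb R (decide (T (eA 0) (eB 0))) r).card := by
      refine lt_of_lt_of_le ?_ hdeg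
      nlinarith
    exact_mod_cast this
  obtain ⟨u₀, hu1, hu2⟩ := hex
  simp only [Nb, mem_filter, mem_univ, true_and] at hu1
  obtain ⟨φB, b1, b2, b3⟩ := hnear {v : V // v ∉ W} (fun a b => R a b) hn2' (tour_sub hR W)
    (rob_sub hz0 hz1 hrob W hW8) N pB (fun i => decide (T (eB (pB i)) (eB i))) hNle hRB
    ⟨u₀, hu2⟩
  set IB := (range N).image (fun i => (φB i : V)) with hIB
  have hIBc : IB.card = N := by
    rw [hIB, card_image_of_injOn, card_range]
    intro a ha b hb hab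
    simp only [coe_range, Set.mem_Iio] at ha hb
    exact b2 (Set.mem_Iio.2 ha) (Set.mem_Iio.2 hb) (Subtype.ext hab)
  have hIBW : ∀ v ∈ IB, v ∉ W := by
    intro v hv
    obtain ⟨i, -, rfl⟩ := mem_image.1 hv
    exact (φB i).2
  have hUIB : Disjoint U IB := by
    rw [Finset.disjoint_left]
    intro v hv hv'
    exact hIBW v hv' (mem_union_left _ hv)
  set L := (univ : Finset V) \ (U ∪ IB) with hL
  have hLc : L.card = f := by
    rw [hL, card_sdiff_of_subset (subset_univ _), card_union_of_disjoint hUIB, hIBc, card_univ,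
      ← hnn]
    omega
  have hRL : R₀ ⊆ L := by
    intro v hv
    rw [hL, mem_sdiff]
    refine ⟨mem_univ _, fun h => ?_⟩
    rcases mem_union.1 h with h | h
    · exact Finset.disjoint_left.1 f4 hv h
    · exact hIBW v h (mem_union_right _ hv)
  have hLU : Disjoint L U := by
    rw [Finset.disjoint_left]
    intro v hv hv'
    rw [hL, mem_sdiff] at hv
    exact hv.2 (mem_union_left _ hv')
  obtain ⟨φA, a1, a2, a3, a4⟩ := f6 L hRL hLU hLc
  -- the bijection
  have hsel : ∀ v, ∃ w, (∀ i < m, eA i = v → w = φA i) ∧ (∀ i < N, eB i = v → w = φB i) := by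
    intro v
    rcases cov v with ⟨i, hi, hiv⟩ | ⟨i, hi, hiv⟩
    · refine ⟨φA i, fun i' hi' h => ?_, fun i' hi' h => ?_⟩
      · rw [iA (Set.mem_Iio.2 hi) (Set.mem_Iio.2 hi') (hiv.trans h.symm)]
      · exact absurd (hiv.trans h.symm) (dAB i hi i' hi')
    · refine ⟨φB i, fun i' hi' h => ?_, fun i' hi' h => ?_⟩
      · exact absurd (h.trans hiv.symm) (dAB i' hi' i hi)
      · rw [iB (Set.mem_Iio.2 hi) (Set.mem_Iio.2 hi') (hiv.trans h.symm)]
  choose Φ hΦA hΦB using hsel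
  have hA : ∀ i < m, Φ (eA i) = φA i := fun i hi => hΦA _ i hi rfl
  have hB : ∀ i < N, Φ (eB i) = φB i := fun i hi => hΦB _ i hi rfl
  have hAm : ∀ i < m, φA i ∈ U ∪ L := by
    intro i hi
    rw [← a3]
    exact mem_image_of_mem _ (mem_range.2 hi)
  have hBm : ∀ i < N, (φB i : V) ∉ U ∪ L := by
    intro i hi h
    have h1 : (φB i : V) ∈ IB := mem_image.2 ⟨i, mem_range.2 hi, rfl⟩
    rcases mem_union.1 h with h | h
    · exact Finset.disjoint_left.1 hUIB h h1
    · rw [hL, mem_sdiff] at h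
      exact h.2 (mem_union_right _ h1)
  have hinj : Function.Injective Φ := by
    intro x y hxy
    rcases cov x with ⟨i, hi, rfl⟩ | ⟨i, hi, rfl⟩ <;> rcases cov y with ⟨j, hj, rfl⟩ | ⟨j, hj, rfl⟩
    · rw [hA i hi, hA j hj] at hxy
      rw [a2 (Set.mem_Iio.2 hi) (Set.mem_Iio.2 hj) hxy]
    · rw [hA i hi, hB j hj] at hxy
      exact absurd (hxy ▸ hAm i hi) (hBm j hj)
    · rw [hB i hi, hA j hj] at hxy
      exact absurd (hxy ▸ hAm j hj) (hBm i hi)
    · rw [hB i hi, hB j hj] at hxy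
      rw [b2 (Set.mem_Iio.2 hi) (Set.mem_Iio.2 hj) (Subtype.ext hxy)]
  refine ⟨Equiv.ofBijective Φ (Finite.injective_iff_bijective.1 hinj), ?_⟩
  intro x y hxy
  simp only [Equiv.ofBijective_apply]
  have hne : x ≠ y := by
    rintro rfl
    exact hT.asym x x hxy hxy
  have hadj : (SimpleGraph.fromRel T).Adj x y := (SimpleGraph.fromRel_adj T x y).2
    ⟨hne, Or.inl hxy⟩
  rcases edges x y hadj with ⟨i, i0, im, ⟨rfl, rfl⟩ | ⟨rfl, rfl⟩⟩ |
    ⟨i, i0, im, ⟨rfl, rfl⟩ | ⟨rfl, rfl⟩⟩ | ⟨rfl, rfl⟩ | ⟨rfl, rfl⟩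
  · have hp : pA i < m := (hRA.lt i i0 im).trans im
    rw [hA i im, hA _ hp]
    have h := a4 i i0 im
    simp only [decide_eq_false (hT.asym _ _ hxy)] at h
    simpa [Arc] using h
  · have hp : pA i < m := (hRA.lt i i0 im).trans im
    rw [hA i im, hA _ hp]
    have h := a4 i i0 im
    simp only [decide_eq_true hxy] at h
    simpa [Arc] using h
  · have hp : pB i < N := (hRB.lt i i0 im).trans im
    rw [hB i im, hB _ hp]
    have h := b3 i i0 im
    rw [decide_eq_false (hT.asym _ _ hxy)] at h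
    simpa [Arc] using h
  · have hp : pB i < N := (hRB.lt i i0 im).trans im
    rw [hB i im, hB _ hp]
    have h := b3 i i0 im
    rw [decide_eq_true hxy] at h
    simpa [Arc] using h
  · rw [hA 0 hm0, hB 0 hN0, a1, b1]
    rw [decide_eq_true hxy] at hu1
    simpa [Arc] using hu1
  · rw [hA 0 hm0, hB 0 hN0, a1, b1]
    rw [decide_eq_false (hT.asym _ _ hxy)] at hu1
    simpa [Arc] using hu1

end Pool.Agent.Lib.RobT
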