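import Pool.Agent.Lib.RobT.Defs

/-!
# Ga: degrees and expansion in a tournament without sparse cuts (about 180 lines)

`deg_lo`: `Rob` for `{u}` (`s = true`) or for `{u}ᶜ` (`s = false`).
`tour_deg`: in a nonempty set `X` of vertices of a tournament some vertex has at least `(|X|-1)/2`
neighbours of direction `s` inside `X` (the sum over `X` of these numbers is `|X|(|X|-1)/2`).
`expandH`: `β = ζ τ²/8`, `n = |V|`, `Q = {v | β n ≤ |{x ∈ X | Arc R s x v}|}`.
If `|X| > (1-τ) n`: every `v` has at least `ζ (n-1)` vertices `x` with `Arc R s x v` (`deg_lo` with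
`!s`), at most `τ n` of them outside `X`, and `ζ (n-1) - τ n ≥ (3/4) ζ n - ζ ≥ β n`; `Q = univ`.
If `τ n ≤ |X| ≤ (1-τ) n`: `X \ Q` has at most `2 β n + 1` elements (`tour_deg` for `X \ Q` with the
direction `!s`: some `v ∈ X \ Q` has at least `(|X \ Q| - 1)/2` vertices `x ∈ X \ Q` with
`Arc R s x v`).  Number of pairs `x ∈ X`, `v ∉ X`, `Arc R s x v`: at least `ζ |X| (n - |X|)`
(`Rob` for
`X` or `Xᶜ`), at most `|X| |Q \ X| + β n n`.  So `|Q \ X| ≥ ζ τ n - β n/τ`
and `|Q| ≥ |X| - 2 β n - 1 + ζ τ n - ζ τ n/8 ≥ |X| + β n` for large `n` (`β ≤ ζ τ/32`).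
-/

namespace Pool.Agent.Lib.RobT

open Finset

open Classical in
/-- The number of arcs as a double sum. -/
private lemma eN_sum {V : Type} (R : V → V → Prop) (X Y : Finset V) :
    (eN R X Y : ℝ) = ∑ x ∈ X, ∑ y ∈ Y, if R x y then (1 : ℝ) else 0 := by
  unfold eN
  rw [Finset.card_filter, Nat.cast_sum, Finset.sum_product]
  refine Finset.sum_congr rfl fun x _ => Finset.sum_congr rfl fun y _ => ?_
  split_ifs <;> simp

theorem deg_lo {V : Type} [Fintype V] [DecidableEq V] {R : V → V → Prop} {ζ : ℝ}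
    (hR : IsTour R) (hrob : Rob ζ R) (s : Bool) (u : V) :
    ζ * ((Fintype.card V : ℝ) - 1) ≤ (Nb R s u).card := by
  classical
  have hc : (({u} : Finset V)ᶜ.card : ℝ) = (Fintype.card V : ℝ) - 1 := by
    rw [Finset.card_compl, Finset.card_singleton, Nat.cast_sub]
    · simp
    · exact Fintype.card_pos_iff.2 ⟨u⟩
  cases s with
  | true =>
    have h := hrob {u}
    rw [hc, eN_sum, Finset.sum_singleton, Finset.card_singleton] at h
    have h2 : ∑ y ∈ ({u} : Finset V)ᶜ, (if R u y then (1 : ℝ) else 0) ≤ (Nb R true u).card := by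
      rw [Finset.sum_boole]
      norm_cast
      apply Finset.card_le_card
      intro v hv
      rw [Finset.mem_filter] at hv
      unfold Nb
      rw [Finset.mem_filter]
      exact ⟨Finset.mem_univ _, Or.inl ⟨rfl, hv.2⟩⟩
    push_cast at h
    linarith
  | false =>
    have h := hrob ({u} : Finset V)ᶜ
    rw [compl_compl, hc, eN_sum, Finset.card_singleton] at h
    have h2 : ∑ x ∈ ({u} : Finset V)ᶜ, ∑ y ∈ ({u} : Finset V), (if R x y then (1 : ℝ) else 0) ≤
        (Nb R false u).card := by
      simp only [Finset.sum_singleton]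
      rw [Finset.sum_boole]
      norm_cast
      apply Finset.card_le_card
      intro v hv
      rw [Finset.mem_filter] at hv
      unfold Nb
      rw [Finset.mem_filter]
      exact ⟨Finset.mem_univ _, Or.inr ⟨rfl, hv.2⟩⟩
    push_cast at h
    linarith

private lemma arc_not {V : Type} (R : V → V → Prop) (s : Bool) (u v : V) :
    Arc R (!s) u v ↔ Arc R s v u := by
  unfold Arc
  cases s <;> simp

private lemma arc_tot {V : Type} {R : V → V → Prop} (hR : IsTour R) (s : Bool) {u v : V}
    (h : u ≠ v) : Arc R s u v ∨ Arc R s v u := by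
  unfold Arc
  cases s
  · simpa using (hR.tot v u h.symm)
  · simpa using (hR.tot u v h)

open Classical in
/-- pairs across a cut -/
private lemma cut_pairs {V : Type} [Fintype V] [DecidableEq V] {R : V → V → Prop} {ζ : ℝ}
    (hrob : Rob ζ R) (s : Bool) (X : Finset V) :
    ζ * X.card * (Xᶜ).card ≤ ∑ v ∈ Xᶜ, ((X.filter fun x => Arc R s x v).card : ℝ) := by
  cases s with
  | true =>
    have h := hrob X
    rw [eN_sum, Finset.sum_comm] at h
    refine h.trans (le_of_eq (Finset.sum_congr rfl fun v _ => ?_))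
    rw [Finset.sum_boole]
    simp [Arc]
  | false =>
    have h := hrob Xᶜ
    rw [compl_compl, eN_sum] at h
    have h2 : ζ * X.card * (Xᶜ).card = ζ * (Xᶜ).card * X.card := by ring
    rw [h2]
    refine h.trans (le_of_eq (Finset.sum_congr rfl fun v _ => ?_))
    rw [Finset.sum_boole]
    simp [Arc]

open Classical in
theorem tour_deg {V : Type} {R : V → V → Prop} (hR : IsTour R) (s : Bool)
    (X : Finset V) (hX : X.Nonempty) :
    ∃ v ∈ X, ((X.card : ℝ) - 1) / 2 ≤ ((X.filter fun x => Arc R s v x).card : ℝ) := by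
  by_contra hcon
  push Not at hcon
  have h1 : ∑ v ∈ X, ((X.filter fun x => Arc R s v x).card : ℝ) <
      ∑ v ∈ X, ((X.card : ℝ) - 1) / 2 := Finset.sum_lt_sum_of_nonempty hX hcon
  rw [Finset.sum_const, nsmul_eq_mul] at h1
  have h2 : ∀ v, ((X.filter fun x => Arc R s v x).card : ℝ) =
      ∑ x ∈ X, if Arc R s v x then (1 : ℝ) else 0 := by
    intro v
    rw [Finset.sum_boole]
  have h3 : ∑ v ∈ X, ∑ x ∈ X, (if Arc R s v x then (1 : ℝ) else 0) =
      ∑ v ∈ X, ∑ x ∈ X, (if Arc R s x v then (1 : ℝ) else 0) := Finset.sum_comm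
  have h4 : ∑ v ∈ X, ((X.card : ℝ) - 1) ≤
      ∑ v ∈ X, ∑ x ∈ X, ((if Arc R s v x then (1 : ℝ) else 0) +
        (if Arc R s x v then (1 : ℝ) else 0)) := by
    apply Finset.sum_le_sum
    intro v hv
    have h5 : ((X.card : ℝ) - 1) = ∑ x ∈ X.erase v, (1 : ℝ) := by
      rw [Finset.sum_const, nsmul_eq_mul, mul_one, Finset.card_erase_of_mem hv, Nat.cast_sub]
      · simp
      · exact Finset.card_pos.2 ⟨v, hv⟩
    rw [h5]
    refine (Finset.sum_le_sum fun x hx => ?_).trans
      (Finset.sum_le_sum_of_subset_of_nonneg (Finset.erase_subset v X) fun x _ _ => ?_)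
    · have hne : v ≠ x := (Finset.ne_of_mem_erase hx).symm
      rcases arc_tot hR s hne with h | h
      · rw [if_pos h]
        split_ifs <;> norm_num
      · rw [if_pos h]
        split_ifs <;> norm_num
    · split_ifs <;> norm_num
  simp only [Finset.sum_add_distrib] at h4
  rw [← h3] at h4
  simp only [h2] at h1
  rw [Finset.sum_const, nsmul_eq_mul] at h4
  linarith

open Classical in
theorem expandH (ζ τ : ℝ) (hζ : 0 < ζ) (hζ1 : ζ ≤ 1) (hτ : 0 < τ) (hτζ : τ ≤ ζ / 4) :
    ∃ (β : ℝ) (n₀ : ℕ), 0 < β ∧ β ≤ τ ∧ ∀ (V : Type) [Fintype V] [DecidableEq V]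
      (R : V → V → Prop), n₀ ≤ Fintype.card V → IsTour R → Rob ζ R →
      ∀ (s : Bool) (X : Finset V), τ * Fintype.card V ≤ X.card →
      min ((X.card : ℝ) + β * Fintype.card V) (Fintype.card V) ≤
        ((univ.filter fun v => β * (Fintype.card V : ℝ) ≤
          ((X.filter fun x => Arc R s x v).card : ℝ)).card : ℝ) := by
  have hζτ : 0 < ζ * τ := mul_pos hζ hτ
  have hτ4 : τ ≤ 1 / 4 := by linarith
  refine ⟨ζ * τ ^ 2 / 8, ⌈2 / (ζ * τ)⌉₊ + 2, by positivity, ?_, ?_⟩
  · have : ζ * τ ^ 2 ≤ 1 * τ ^ 2 := mul_le_mul_of_nonneg_right hζ1 (by positivity)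
    nlinarith
  intro V _ _ R hn hR hrob s X hX
  set β : ℝ := ζ * τ ^ 2 / 8 with hβ
  set n : ℝ := (Fintype.card V : ℝ) with hnd
  have hβ0 : 0 < β := by positivity
  have hβζ : β ≤ ζ / 8 := by
    rw [hβ]
    have : τ ^ 2 ≤ 1 := by nlinarith
    nlinarith
  have hn2 : (2 : ℝ) ≤ n := by
    have : ((⌈2 / (ζ * τ)⌉₊ + 2 : ℕ) : ℝ) ≤ (Fintype.card V : ℝ) := by exact_mod_cast hn
    push_cast at this
    have h0 : (0 : ℝ) ≤ (⌈2 / (ζ * τ)⌉₊ : ℝ) := Nat.cast_nonneg _
    linarith
  have hn3 : 2 ≤ ζ * τ * n := by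
    have : ((⌈2 / (ζ * τ)⌉₊ + 2 : ℕ) : ℝ) ≤ (Fintype.card V : ℝ) := by exact_mod_cast hn
    push_cast at this
    have h0 := Nat.le_ceil (2 / (ζ * τ))
    have h1 : 2 / (ζ * τ) ≤ n := by linarith
    rw [div_le_iff₀ hζτ] at h1
    linarith
  set Q : Finset V := univ.filter fun v => β * n ≤ ((X.filter fun x => Arc R s x v).card : ℝ)
    with hQ
  have hXc : ((Xᶜ).card : ℝ) = n - X.card := by
    rw [Finset.card_compl, Nat.cast_sub (Finset.card_le_univ X)]
  by_cases hbig : (1 - τ) * n < X.card
  · have hQu : Q = univ := by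
      apply Finset.eq_univ_of_forall
      intro v
      rw [hQ, Finset.mem_filter]
      refine ⟨Finset.mem_univ _, ?_⟩
      have h1 := deg_lo hR hrob (!s) v
      have h2 : ((Nb R (!s) v).card : ℝ) ≤
          ((X.filter fun x => Arc R s x v).card : ℝ) + ((Xᶜ).card : ℝ) := by
        norm_cast
        have h3 : Nb R (!s) v ⊆ (X.filter fun x => Arc R s x v) ∪ Xᶜ := by
          intro x hx
          unfold Nb at hx
          rw [Finset.mem_filter, arc_not] at hx
          rw [Finset.mem_union, Finset.mem_filter, Finset.mem_compl]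
          by_cases hxX : x ∈ X
          · exact Or.inl ⟨hxX, hx.2⟩
          · exact Or.inr hxX
        exact (Finset.card_le_card h3).trans (Finset.card_union_le _ _)
      rw [hXc] at h2
      have h4 : β * n ≤ ζ / 8 * n := mul_le_mul_of_nonneg_right hβζ (by linarith)
      have h5 : τ * n ≤ ζ / 4 * n := mul_le_mul_of_nonneg_right hτζ (by linarith)
      have h6 : ζ * 2 ≤ ζ * n := mul_le_mul_of_nonneg_left hn2 hζ.le
      nlinarith
    rw [hQu, Finset.card_univ]
    exact min_le_right _ _
  · push Not at hbig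
    refine (min_le_left _ _).trans ?_
    have hM : ((X \ Q).card : ℝ) ≤ 2 * (β * n) + 1 := by
      rcases (X \ Q).eq_empty_or_nonempty with he | hne
      · rw [he, Finset.card_empty]
        have : 0 ≤ β * n := mul_nonneg hβ0.le (by linarith)
        push_cast
        linarith
      · obtain ⟨v, hv, hvd⟩ := tour_deg hR (!s) (X \ Q) hne
        have h1 : (((X \ Q).filter fun x => Arc R (!s) v x).card : ℝ) ≤
            ((X.filter fun x => Arc R s x v).card : ℝ) := by
          norm_cast
          apply Finset.card_le_card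
          intro x hx
          rw [Finset.mem_filter, arc_not, Finset.mem_sdiff] at hx
          rw [Finset.mem_filter]
          exact ⟨hx.1.1, hx.2⟩
        have h2 : v ∉ Q := (Finset.mem_sdiff.1 hv).2
        rw [hQ, Finset.mem_filter] at h2
        push Not at h2
        have h3 := h2 (Finset.mem_univ _)
        linarith
    have hcut := cut_pairs hrob s X
    have hup : ∑ v ∈ Xᶜ, ((X.filter fun x => Arc R s x v).card : ℝ) ≤
        ((Q \ X).card : ℝ) * X.card + n * (β * n) := by
      have h1 : ∀ v ∈ Xᶜ, ((X.filter fun x => Arc R s x v).card : ℝ) ≤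
          (if v ∈ Q then (X.card : ℝ) else 0) + β * n := by
        intro v _
        have h0 : 0 ≤ β * n := mul_nonneg hβ0.le (by linarith)
        by_cases hv : v ∈ Q
        · rw [if_pos hv]
          have : ((X.filter fun x => Arc R s x v).card : ℝ) ≤ X.card := by
            exact_mod_cast Finset.card_filter_le _ _
          linarith
        · rw [if_neg hv]
          rw [hQ, Finset.mem_filter] at hv
          push Not at hv
          have := hv (Finset.mem_univ _)
          linarith
      refine (Finset.sum_le_sum h1).trans ?_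
      rw [Finset.sum_add_distrib, Finset.sum_const, nsmul_eq_mul, ← Finset.sum_filter,
        Finset.sum_const, nsmul_eq_mul]
      have h2 : (Xᶜ.filter fun v => v ∈ Q) = Q \ X := by
        ext v
        simp only [Finset.mem_filter, Finset.mem_compl, Finset.mem_sdiff]
        tauto
      rw [h2]
      have h3 : ((Xᶜ).card : ℝ) ≤ n := by
        rw [hnd]
        exact_mod_cast Finset.card_le_univ _
      have h0 : 0 ≤ β * n := mul_nonneg hβ0.le (by linarith)
      have := mul_le_mul_of_nonneg_right h3 h0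
      linarith
    have hQX : ζ * τ * n - ζ * τ / 8 * n ≤ ((Q \ X).card : ℝ) := by
      have hXpos : 0 < (X.card : ℝ) := lt_of_lt_of_le (mul_pos hτ (by linarith)) hX
      rw [hXc] at hcut
      have h1 : ζ * X.card * (τ * n) ≤ ζ * X.card * (n - X.card) := by
        apply mul_le_mul_of_nonneg_left _ (by positivity)
        linarith
      have h2 : n * (β * n) ≤ ζ * τ / 8 * n * X.card := by
        have h3 : ζ * τ / 8 * n * (τ * n) ≤ ζ * τ / 8 * n * X.card :=
          mul_le_mul_of_nonneg_left hX (by positivity)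
        rw [hβ]
        nlinarith
      have h4 : (ζ * τ * n - ζ * τ / 8 * n) * X.card ≤ ((Q \ X).card : ℝ) * X.card := by
        nlinarith
      exact le_of_mul_le_mul_right h4 hXpos
    have hQc : (Q.card : ℝ) = ((Q \ X).card : ℝ) + (X.card : ℝ) - ((X \ Q).card : ℝ) := by
      have h1 := Finset.card_sdiff_add_card Q X
      have h2 := Finset.card_sdiff_add_card X Q
      rw [Finset.union_comm] at h2
      have h3 : ((Q \ X).card : ℝ) + X.card = ((X \ Q).card : ℝ) + Q.card := by
        exact_mod_cast (h1.trans h2.symm)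
      linarith
    rw [hQc]
    have h5 : 3 * (β * n) ≤ ζ * τ * n * (3 / 32) := by
      rw [hβ]
      have : ζ * τ * n * τ ≤ ζ * τ * n * (1 / 4) := mul_le_mul_of_nonneg_left hτ4 (by positivity)
      nlinarith
    nlinarith

end Pool.Agent.Lib.RobT
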