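import Pool.Agent.Lib.RobT.Ga

/-!
# Gc: connecting two vertices by a path with a given pattern (about 150 lines)

We may assume `ζ ≤ 1` (`Rob` is monotone in `ζ`).  `τ = ζ/4`, `β` from `expandH`.
`X₁ = Nb R (w 0) u` (`|X₁| ≥ ζ (n-1) ≥ τ n`), `X_{i+1} = {v | β n ≤ |{x ∈ X_i | Arc R (w i) x v}|}`.
`|X_i| ≥ min (τ n + (i-1) β n) n`, so `X_l = univ` for `l = ⌈1/β⌉ + 2`.  `ε = β/2`; `n₀` large.
Put `z l = v` and choose `z (l-1), …, z 1` in this order: `z (i+1) ∈ X_{i+1}` has at least `β n`
vertices `x ∈ X_i` with `Arc R (w i) x (z (i+1))`; `z i` is one of them outside `Z`, different from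
`u`, `v` and from the `z`'s chosen so far (`ε n + l + 2 < β n`).  `z 0 = u`; `z 1 ∈ X₁`.
-/

namespace Pool.Agent.Lib.RobT

open Finset

/-- Any two vertices can be connected by a path of length `l` with a given pattern, avoiding a
given set of at most `ε |V|` vertices. -/
def Con {V : Type} [Fintype V] (l : ℕ) (ε : ℝ) (R : V → V → Prop) : Prop :=
  ∀ (w : ℕ → Bool) (u v : V), u ≠ v → ∀ Z : Finset V, (Z.card : ℝ) ≤ ε * Fintype.card V →
    ∃ z : ℕ → V, z 0 = u ∧ z l = v ∧ (∀ i < l, Arc R (w i) (z i) (z (i + 1))) ∧
      (∀ i, 0 < i → i < l → z i ∉ Z ∧ z i ≠ u ∧ z i ≠ v) ∧ Set.InjOn z (Set.Iic l)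

open Classical in
/-- The sets of possible positions. -/
private noncomputable def XS {V : Type} [Fintype V] (R : V → V → Prop) (β : ℝ) (w : ℕ → Bool)
    (u : V) : ℕ → Finset V
  | 0 => Nb R (w 0) u
  | i + 1 => univ.filter fun v => β * (Fintype.card V : ℝ) ≤
      (((XS R β w u i).filter fun x => Arc R (w (i + 1)) x v).card : ℝ)

private lemma rob_mono {V : Type} [Fintype V] [DecidableEq V] {R : V → V → Prop} {a b : ℝ}
    (hab : a ≤ b) (h : Rob b R) : Rob a R := by
  intro A
  refine le_trans ?_ (h A)
  gcongr

private lemma chain {V : Type} [Fintype V] (R : V → V → Prop) (β : ℝ)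
    (w : ℕ → Bool) (u : V) :
    ∀ (j : ℕ) (t : V) (F : Finset V), t ∈ XS R β w u j → t ≠ u → u ∈ F → t ∈ F →
      (F.card : ℝ) + j < β * Fintype.card V →
      ∃ z : ℕ → V, z 0 = u ∧ z (j + 1) = t ∧
        (∀ i < j + 1, Arc R (w i) (z i) (z (i + 1))) ∧
        (∀ i, 0 < i → i < j + 1 → z i ∉ F) ∧ Set.InjOn z (Set.Iic (j + 1)) := by
  classical
  intro j
  induction j with
  | zero =>
    intro t F ht htu huF htF hc
    refine ⟨fun i => if i = 0 then u else t, by simp, by simp, ?_, ?_, ?_⟩
    · intro i hi
      have hi0 : i = 0 := by omega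
      subst hi0
      simpa [XS, Nb] using ht
    · intro i h0 h1
      omega
    · intro a ha b hb hab
      simp only [Set.mem_Iic] at ha hb
      simp only at hab
      by_cases h1 : a = 0
      · by_cases h2 : b = 0
        · omega
        · rw [if_pos h1, if_neg h2] at hab
          exact absurd hab.symm htu
      · by_cases h2 : b = 0
        · rw [if_neg h1, if_pos h2] at hab
          exact absurd hab htu
        · omega
  | succ j ih =>
    intro t F ht htu huF htF hc
    have h1 : β * (Fintype.card V : ℝ) ≤
        (((XS R β w u j).filter fun x => Arc R (w (j + 1)) x t).card : ℝ) := by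
      have := ht
      rw [XS, mem_filter] at this
      exact this.2
    push_cast at hc
    have hj0 : (0 : ℝ) ≤ j := Nat.cast_nonneg j
    have h2 : F.card < ((XS R β w u j).filter fun x => Arc R (w (j + 1)) x t).card := by
      have h3 : (F.card : ℝ) <
          (((XS R β w u j).filter fun x => Arc R (w (j + 1)) x t).card : ℝ) := by
        linarith
      exact_mod_cast h3
    obtain ⟨x, hx, hxF⟩ := Finset.exists_mem_notMem_of_card_lt_card h2
    rw [mem_filter] at hx
    have hxu : x ≠ u := fun h => hxF (h ▸ huF)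
    have hxt : x ≠ t := fun h => hxF (h ▸ htF)
    obtain ⟨z, z0, z1, z2, z3, z4⟩ := ih x (insert x F) hx.1 hxu (mem_insert_of_mem huF)
      (mem_insert_self x F) (by rw [card_insert_of_notMem hxF]; push_cast; linarith)
    have hz : ∀ i, i < j + 2 → Function.update z (j + 2) t i = z i := by
      intro i hi
      rw [Function.update_of_ne (by omega)]
    have hzl : Function.update z (j + 2) t (j + 2) = t := by
      rw [Function.update_self]
    have hmid : ∀ i, 0 < i → i < j + 2 → z i ∉ F := by
      intro i h0 h1
      rcases Nat.lt_or_ge i (j + 1) with h | h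
      · exact fun hF => z3 i h0 h (mem_insert_of_mem hF)
      · have : i = j + 1 := by omega
        subst this
        rw [z1]
        exact hxF
    have hnt : ∀ i, i < j + 2 → z i ≠ t := by
      intro i hi he
      rcases Nat.eq_zero_or_pos i with h0 | h0
      · rw [h0, z0] at he
        exact htu he.symm
      · exact hmid i h0 hi (he ▸ htF)
    refine ⟨Function.update z (j + 2) t, ?_, ?_, ?_, ?_, ?_⟩
    · rw [hz 0 (by omega), z0]
    · exact hzl
    · intro i hi
      rcases Nat.lt_or_ge i (j + 1) with h | h
      · rw [hz i (by omega), hz (i + 1) (by omega)]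
        exact z2 i h
      · have : i = j + 1 := by omega
        subst this
        rw [hz (j + 1) (by omega), z1]
        have e : j + 1 + 1 = j + 2 := rfl
        rw [e, hzl]
        exact hx.2
    · intro i h0 h1
      rw [hz i (by omega)]
      exact hmid i h0 (by omega)
    · intro a ha b hb hab
      simp only [Set.mem_Iic] at ha hb
      rcases Nat.lt_or_ge a (j + 2) with h | h
      · rcases Nat.lt_or_ge b (j + 2) with h' | h'
        · rw [hz a h, hz b h'] at hab
          exact z4 (by simp only [Set.mem_Iic]; omega) (by simp only [Set.mem_Iic]; omega) hab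
        · have hb' : b = j + 2 := by omega
          subst hb'
          rw [hz a h, hzl] at hab
          exact absurd hab (hnt a h)
      · have ha' : a = j + 2 := by omega
        rcases Nat.lt_or_ge b (j + 2) with h' | h'
        · subst ha'
          rw [hz b h', hzl] at hab
          exact absurd hab.symm (hnt b h')
        · omega

theorem connect (ζ : ℝ) (hζ : 0 < ζ) :
    ∃ (l : ℕ) (ε : ℝ) (n₀ : ℕ), 2 ≤ l ∧ 0 < ε ∧ ∀ (V : Type) [Fintype V] [DecidableEq V]
      (R : V → V → Prop), n₀ ≤ Fintype.card V → IsTour R → Rob ζ R → Con l ε R := by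
  have hz0 : 0 < min ζ 1 := lt_min hζ one_pos
  have hz1 : min ζ 1 ≤ 1 := min_le_right _ _
  have hzz : min ζ 1 ≤ ζ := min_le_left _ _
  generalize min ζ 1 = η at hz0 hz1 hzz
  obtain ⟨β, n₁, hβ, hβτ, hexp⟩ := expandH η (η / 4) hz0 hz1 (by positivity) le_rfl
  obtain ⟨m, hm⟩ := exists_nat_ge (1 / β)
  have hmβ : 1 ≤ m * β := by
    rw [div_le_iff₀ hβ] at hm
    exact hm
  have hm1 : 1 ≤ m := by
    rcases Nat.eq_zero_or_pos m with h | h
    · rw [h] at hmβ
      norm_num at hmβ
    · exact h
  obtain ⟨n₂, hn₂⟩ := exists_nat_gt ((2 * ((m : ℝ) + 2)) / β)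
  refine ⟨m + 1, β / 2, max 2 (max n₁ n₂), by omega, by positivity, ?_⟩
  intro V _ _ R hn hT hrob
  have hn2 : 2 ≤ Fintype.card V := le_trans (le_max_left _ _) hn
  have hn3 : n₁ ≤ Fintype.card V :=
    le_trans (le_trans (le_max_left _ _) (le_max_right _ _)) hn
  have hn4 : n₂ ≤ Fintype.card V :=
    le_trans (le_trans (le_max_right _ _) (le_max_right _ _)) hn
  have hrob' : Rob η R := rob_mono hzz hrob
  have hn2' : (2 : ℝ) ≤ Fintype.card V := by exact_mod_cast hn2
  have hn4' : (n₂ : ℝ) ≤ Fintype.card V := by exact_mod_cast hn4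
  have hbig : 2 * ((m : ℝ) + 2) < β * Fintype.card V := by
    have h1 : (2 * ((m : ℝ) + 2)) / β < Fintype.card V := lt_of_lt_of_le hn₂ hn4'
    rw [div_lt_iff₀ hβ] at h1
    linarith
  intro w u v huv Z hZ
  have hgrow : ∀ i : ℕ, min (η / 4 * Fintype.card V + i * (β * Fintype.card V))
      (Fintype.card V : ℝ) ≤ ((XS R β w u i).card : ℝ) := by
    intro i
    induction i with
    | zero =>
      have h1 := deg_lo hT hrob' (w 0) u
      refine le_trans (min_le_left _ _) ?_
      rw [XS]
      push_cast
      nlinarith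
    | succ i ih =>
      have hlo : η / 4 * Fintype.card V ≤ ((XS R β w u i).card : ℝ) := by
        refine le_trans (le_min ?_ ?_) ih
        · have : 0 ≤ (i : ℝ) * (β * Fintype.card V) := by positivity
          linarith
        · nlinarith
      have h2 := hexp V R hn3 hT hrob' (w (i + 1)) (XS R β w u i) hlo
      have h3 : min (((XS R β w u i).card : ℝ) + β * Fintype.card V) (Fintype.card V : ℝ) ≤
          ((XS R β w u (i + 1)).card : ℝ) := by
        rw [XS]
        exact h2
      refine le_trans ?_ h3
      push_cast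
      rcases min_le_iff.mp ih with h | h
      · apply le_min
        · refine le_trans (min_le_left _ _) ?_
          linarith
        · exact min_le_right _ _
      · apply le_min
        · refine le_trans (min_le_right _ _) ?_
          have : 0 ≤ β * (Fintype.card V : ℝ) := by positivity
          linarith
        · exact min_le_right _ _
  have huniv : XS R β w u m = univ := by
    rw [← card_eq_iff_eq_univ]
    apply le_antisymm (card_le_univ _)
    have h1 := hgrow m
    have h2 : (Fintype.card V : ℝ) ≤ min (η / 4 * Fintype.card V + m * (β * Fintype.card V))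
      (Fintype.card V : ℝ) := by
      apply le_min _ le_rfl
      have h3 : 0 ≤ η / 4 * (Fintype.card V : ℝ) := by positivity
      have h4 : (1 : ℝ) * Fintype.card V ≤ m * β * Fintype.card V := by gcongr
      nlinarith
    exact_mod_cast le_trans h2 h1
  obtain ⟨z, z0, z1, z2, z3, z4⟩ := chain R β w u m v (insert u (insert v Z))
    (by rw [huniv]; exact mem_univ _) huv.symm (mem_insert_self _ _)
    (mem_insert_of_mem (mem_insert_self _ _)) (by
      have h1 : ((insert u (insert v Z)).card : ℝ) ≤ Z.card + 2 := by
        have h2 := card_insert_le u (insert v Z)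
        have h3 := card_insert_le v Z
        have h4 : (insert u (insert v Z)).card ≤ Z.card + 2 := by omega
        exact_mod_cast h4
      linarith)
  refine ⟨z, z0, z1, z2, ?_, z4⟩
  intro i h0 hi
  have h1 := z3 i h0 hi
  rw [mem_insert, mem_insert, not_or, not_or] at h1
  exact ⟨h1.2.2, h1.1, h1.2.1⟩

end Pool.Agent.Lib.RobT
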