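import Pool.Agent.Lib.RobT.Gk

/-!
# Gi: chain gadgets (about 350 lines)

We may assume `ζ ≤ 1`.  `β₁, c₁` from `good_tuples` (for `T`), `𝓔` = the set of `E : Fin T → V` with
`|Sx R E| ≥ β₁ n`; `c₁ n^T ≤ |𝓔| ≤ n^T`.  `r` with `(1 - c₁)^r ≤ 1/1000` (`c₁ ≤ 1`).  `q, ε` from
`connectors` for `β₁`.  `M = (r-1)(q+1)` (take `r ≥ 2`).
SEEDS.  `x ∈ 𝓔^r` (`x : Fin r → 𝓔`), uniformly distributed.
(1) For every `v`: at least `c₁ n^T ≥ c₁ |𝓔|` of the `E ∈ 𝓔` have `∀ t, R (E t) v`, so the
proportion of
`x` with `∀ j, ¬ ∀ t, R (x j t) v` is at most `(1-c₁)^r ≤ 1/1000` (product set).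
(2) The proportion of `x` with `x j t ∈ Z` for some `j, t` is at most
`r T |Z| n^(T-1)/|𝓔| ≤ r T |Z|/(c₁ n)`, and of the `x` with `x j t = x j' t'` for some
`(j, t) ≠ (j', t')` at most `(r T)²/(c₁ n)`.  Together at most `1/10` if `|Z| ≤ θ₀ n`, `θ₀` small,
and
`n` is large.
(3) By (1) and Markov, at most `1/100` of the `x` leave more than `n/10` vertices `v` with
`∀ j, ¬ ∀ t, R (x j t) v` (REJECTED vertices).
(4) So at least `89/100` of the `x` are good for (2) and (3), and the average over all `x` of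
`∑_{v rejected} w v` is at most `∑ w/1000`, so some good `x` has
`∑_{v rejected} w v ≤ (100/89)(1/1000) ∑ w ≤ (1/50) ∑ w`.
CONNECTION.  For `j = 0, …, r-2` apply `connectors` to `S = Sx R (x j)`, `S' = Sx R (x (j+1))` and
the
set of `Z`, all entries of `x` and everything chosen so far (at most `θ₀ n + const ≤ ε n`).  The
slots
in the order `x 0, F 0, …, F (q-1), x 1, F' 0, …, x (r-1)`, the fillers in the order
`y 0, …, y q, y' 0, …`: slot number `j (q+1) + i` is `x j` for `i = 0`, `F_j (i-1)` for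
`1 ≤ i ≤ q`, filler number `j (q+1) + i` is `y_j i`, `0 ≤ i ≤ q`.  Filler `m` is a common
out-neighbour of the slots `m` and `m+1`.  A vertex accepted by some `x j` is accepted by the
gadget.
-/

namespace Pool.Agent.Lib.RobT
open Finset

private theorem card_ne {T : ℕ} (t : Fin T) : Fintype.card {j : Fin T // j ≠ t} = T - 1 := by
  rw [Fintype.card_subtype_compl]
  simp

private theorem card_hit {V : Type} [Fintype V] [DecidableEq V] {T : ℕ} (t : Fin T)
    (Z : Finset V) :
    (univ.filter fun E : Fin T → V => E t ∈ Z).card ≤ Z.card * Fintype.card V ^ (T - 1) := by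
  have h1 : (Z ×ˢ (univ : Finset ({j : Fin T // j ≠ t} → V))).card =
      Z.card * Fintype.card V ^ (T - 1) := by
    rw [Finset.card_product, Finset.card_univ, Fintype.card_fun, card_ne]
  rw [← h1]
  refine Finset.card_le_card_of_injOn (Equiv.funSplitAt t V) ?_ ?_
  · intro E hE
    have hE' : E t ∈ Z := (Finset.mem_filter.1 (Finset.mem_coe.1 hE)).2
    rw [Finset.mem_coe, Finset.mem_product]
    exact ⟨hE', Finset.mem_univ _⟩
  · exact (Equiv.funSplitAt t V).injective.injOn

private theorem card_eq {V : Type} [Fintype V] [DecidableEq V] {T : ℕ} (t t' : Fin T)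
    (h : t' ≠ t) :
    (univ.filter fun E : Fin T → V => E t = E t').card ≤ Fintype.card V ^ (T - 1) := by
  have h1 : (univ : Finset ({j : Fin T // j ≠ t} → V)).card = Fintype.card V ^ (T - 1) := by
    rw [Finset.card_univ, Fintype.card_fun, card_ne]
  rw [← h1]
  refine Finset.card_le_card_of_injOn (fun E (j : {j : Fin T // j ≠ t}) => E j.1)
    (fun _ _ => Finset.mem_coe.2 (Finset.mem_univ _)) ?_
  intro E hE E' hE' hEE
  have hE1 : E t = E t' := (Finset.mem_filter.1 (Finset.mem_coe.1 hE)).2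
  have hE2 : E' t = E' t' := (Finset.mem_filter.1 (Finset.mem_coe.1 hE')).2
  funext j
  by_cases hj : j = t
  · rw [hj, hE1, hE2]
    exact congrFun hEE ⟨t', h⟩
  · exact congrFun hEE ⟨j, hj⟩

open Classical in
private theorem card_badt {V : Type} [Fintype V] [DecidableEq V] (T : ℕ) (Z : Finset V) :
    (univ.filter fun E : Fin T → V => ¬ (Function.Injective E ∧ ∀ t, E t ∉ Z)).card ≤
      (T * Z.card + T ^ 2) * Fintype.card V ^ (T - 1) := by
  have hsub : (univ.filter fun E : Fin T → V => ¬ (Function.Injective E ∧ ∀ t, E t ∉ Z)) ⊆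
      ((univ : Finset (Fin T)).biUnion fun t => univ.filter fun E : Fin T → V => E t ∈ Z) ∪
      ((univ.filter fun p : Fin T × Fin T => p.2 ≠ p.1).biUnion
        fun p => univ.filter fun E : Fin T → V => E p.1 = E p.2) := by
    intro E hE
    have hE' := (Finset.mem_filter.1 hE).2
    rw [Finset.mem_union, Finset.mem_biUnion, Finset.mem_biUnion]
    by_cases h : ∀ t, E t ∉ Z
    · right
      have h2 : ¬ Function.Injective E := fun h3 => hE' ⟨h3, h⟩
      rw [Function.Injective] at h2
      push Not at h2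
      obtain ⟨a, b, hab, hne⟩ := h2
      refine ⟨(a, b), ?_, ?_⟩
      · rw [Finset.mem_filter]
        exact ⟨Finset.mem_univ _, fun h4 => hne h4.symm⟩
      · rw [Finset.mem_filter]
        exact ⟨Finset.mem_univ _, hab⟩
    · left
      push Not at h
      obtain ⟨t, ht⟩ := h
      exact ⟨t, Finset.mem_univ _, Finset.mem_filter.2 ⟨Finset.mem_univ _, ht⟩⟩
  refine (Finset.card_le_card hsub).trans ((Finset.card_union_le _ _).trans ?_)
  rw [add_mul]
  refine add_le_add ?_ ?_
  · refine Finset.card_biUnion_le.trans ?_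
    refine (Finset.sum_le_sum fun t _ => card_hit t Z).trans ?_
    rw [Finset.sum_const, Finset.card_univ, Fintype.card_fin, smul_eq_mul, mul_assoc]
  · refine Finset.card_biUnion_le.trans ?_
    refine (Finset.sum_le_sum (g := fun _ => Fintype.card V ^ (T - 1)) fun p hp =>
      card_eq p.1 p.2 (Finset.mem_filter.1 hp).2).trans ?_
    rw [Finset.sum_const, smul_eq_mul]
    refine Nat.mul_le_mul_right _ ?_
    refine (Finset.card_le_univ _).trans ?_
    rw [Fintype.card_prod, Fintype.card_fin, sq]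

open Classical in
private theorem seed {V : Type} [Fintype V] [DecidableEq V] (T : ℕ) (hT1 : 1 ≤ T) (β c : ℝ)
    (hc : 0 < c) (R : V → V → Prop) (hV : 0 < Fintype.card V)
    (hgood : ∀ v, c * (Fintype.card V : ℝ) ^ T ≤ ((univ.filter fun E : Fin T → V =>
        (∀ i, R (E i) v) ∧ β * Fintype.card V ≤ ((Sx R E).card : ℝ)).card : ℝ))
    (Z : Finset V) (hZ : (T : ℝ) * Z.card ≤ c / 4 * Fintype.card V)
    (hT : (T : ℝ) ^ 2 ≤ c / 4 * Fintype.card V) (W : V → ℝ) (hW : ∀ v, 0 ≤ W v) (U : Finset V) :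
    ∃ E : Fin T → V, Function.Injective E ∧ (∀ t, E t ∉ Z) ∧
      β * Fintype.card V ≤ ((Sx R E).card : ℝ) ∧
      ∑ v ∈ U.filter (fun v => ¬ ∀ t, R (E t) v), W v ≤ (1 - c / 2) * ∑ v ∈ U, W v := by
  set n : ℝ := (Fintype.card V : ℝ) with hn
  have hn0 : 0 < n := by rw [hn]; exact_mod_cast hV
  set G : Finset (Fin T → V) := univ.filter fun E : Fin T → V =>
    (Function.Injective E ∧ ∀ t, E t ∉ Z) ∧ β * n ≤ ((Sx R E).card : ℝ) with hG
  have hbad : ((univ.filter fun E : Fin T → V =>
      ¬ (Function.Injective E ∧ ∀ t, E t ∉ Z)).card : ℝ) ≤ c / 2 * n ^ T := by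
    have h1 : ((univ.filter fun E : Fin T → V =>
      ¬ (Function.Injective E ∧ ∀ t, E t ∉ Z)).card : ℝ) ≤
        ((T : ℝ) * Z.card + (T : ℝ) ^ 2) * n ^ (T - 1) := by
      have := card_badt T Z
      rw [hn]
      exact_mod_cast this
    refine h1.trans ?_
    have h2 : (T : ℝ) * Z.card + (T : ℝ) ^ 2 ≤ c / 2 * n := by linarith
    refine (mul_le_mul_of_nonneg_right h2 (by positivity)).trans ?_
    rw [mul_assoc, ← pow_succ', Nat.sub_add_cancel hT1]
  have hacc : ∀ v, c / 2 * n ^ T ≤ ((G.filter fun E => ∀ t, R (E t) v).card : ℝ) := by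
    intro v
    have hsub : (univ.filter fun E : Fin T → V =>
        (∀ i, R (E i) v) ∧ β * Fintype.card V ≤ ((Sx R E).card : ℝ)) ⊆
        (G.filter fun E => ∀ t, R (E t) v) ∪ (univ.filter fun E : Fin T → V =>
          ¬ (Function.Injective E ∧ ∀ t, E t ∉ Z)) := by
      intro E hE
      have hE' := (Finset.mem_filter.1 hE).2
      rw [Finset.mem_union]
      by_cases h : Function.Injective E ∧ ∀ t, E t ∉ Z
      · left
        rw [Finset.mem_filter, hG, Finset.mem_filter]
        exact ⟨⟨Finset.mem_univ _, h, hE'.2⟩, hE'.1⟩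
      · right
        exact Finset.mem_filter.2 ⟨Finset.mem_univ _, h⟩
    have h1 := (Finset.card_le_card hsub).trans (Finset.card_union_le _ _)
    have h2 : ((univ.filter fun E : Fin T → V =>
        (∀ i, R (E i) v) ∧ β * Fintype.card V ≤ ((Sx R E).card : ℝ)).card : ℝ) ≤
        ((G.filter fun E => ∀ t, R (E t) v).card : ℝ) + ((univ.filter fun E : Fin T → V =>
          ¬ (Function.Injective E ∧ ∀ t, E t ∉ Z)).card : ℝ) := by exact_mod_cast h1
    have h3 := hgood v
    linarith
  have hGcard : (G.card : ℝ) ≤ n ^ T := by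
    have h1 : G.card ≤ Fintype.card (Fin T → V) := Finset.card_le_univ _
    rw [Fintype.card_fun, Fintype.card_fin] at h1
    rw [hn]
    exact_mod_cast h1
  obtain ⟨v₀⟩ : Nonempty V := Fintype.card_pos_iff.1 hV
  have hGne : G.Nonempty := by
    have h1 := hacc v₀
    have h2 : 0 < c / 2 * n ^ T := by positivity
    have h3 : (0 : ℝ) < ((G.filter fun E => ∀ t, R (E t) v₀).card : ℝ) := lt_of_lt_of_le h2 h1
    have h4 : 0 < (G.filter fun E => ∀ t, R (E t) v₀).card := by exact_mod_cast h3
    obtain ⟨E, hE⟩ := Finset.card_pos.1 h4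
    exact ⟨E, (Finset.mem_filter.1 hE).1⟩
  have hsum : ∑ E ∈ G, c / 2 * ∑ v ∈ U, W v ≤
      ∑ E ∈ G, ∑ v ∈ U.filter (fun v => ∀ t, R (E t) v), W v := by
    have h1 : ∑ E ∈ G, ∑ v ∈ U.filter (fun v => ∀ t, R (E t) v), W v =
        ∑ v ∈ U, ((G.filter fun E => ∀ t, R (E t) v).card : ℝ) * W v := by
      simp_rw [Finset.sum_filter]
      rw [Finset.sum_comm]
      refine Finset.sum_congr rfl fun v _ => ?_
      rw [← Finset.sum_filter, Finset.sum_const, nsmul_eq_mul]
    rw [h1, Finset.sum_const, nsmul_eq_mul, Finset.mul_sum, Finset.mul_sum]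
    refine Finset.sum_le_sum fun v _ => ?_
    have h2 := hacc v
    have h3 := hW v
    have h4 : (G.card : ℝ) * (c / 2) ≤ ((G.filter fun E => ∀ t, R (E t) v).card : ℝ) := by
      have h5 : (G.card : ℝ) * (c / 2) ≤ n ^ T * (c / 2) :=
        mul_le_mul_of_nonneg_right hGcard (by positivity)
      linarith
    calc (G.card : ℝ) * (c / 2 * W v) = (G.card : ℝ) * (c / 2) * W v := by ring
      _ ≤ _ := mul_le_mul_of_nonneg_right h4 h3
  obtain ⟨E, hE, hEW⟩ := Finset.exists_le_of_sum_le hGne hsum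
  have hE' := (Finset.mem_filter.1 hE).2
  refine ⟨E, hE'.1.1, hE'.1.2, hE'.2, ?_⟩
  have hsplit : ∑ v ∈ U.filter (fun v => ∀ t, R (E t) v), W v +
      ∑ v ∈ U.filter (fun v => ¬ ∀ t, R (E t) v), W v = ∑ v ∈ U, W v :=
    Finset.sum_filter_add_sum_filter_not U _ _
  linarith


/-- A chain gadget: `M + 1` environments, `M` fillers. -/
structure Gad (V : Type) (T M : ℕ) where
  env : Fin (M + 1) → Fin T → V
  fil : Fin M → V

/-- Filler `j` is a common out-neighbour of the environments `j` and `j + 1`; all vertices are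
distinct. -/
structure Gad.Ok {V : Type} {T M : ℕ} (R : V → V → Prop) (g : Gad V T M) : Prop where
  lf : ∀ (j : Fin M) (t : Fin T), R (g.env j.castSucc t) (g.fil j)
  rf : ∀ (j : Fin M) (t : Fin T), R (g.env j.succ t) (g.fil j)
  ie : Function.Injective (fun p : Fin (M + 1) × Fin T => g.env p.1 p.2)
  jf : Function.Injective g.fil
  ef : ∀ (p : Fin (M + 1) × Fin T) (j : Fin M), g.env p.1 p.2 ≠ g.fil j

/-- The vertices of a gadget. -/
def Gad.vs {V : Type} [DecidableEq V] {T M : ℕ} (g : Gad V T M) : Finset V :=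
  (univ.image fun p : Fin (M + 1) × Fin T => g.env p.1 p.2) ∪ univ.image g.fil

/-- `v` is a common out-neighbour of some environment. -/
def Gad.Acc {V : Type} {T M : ℕ} (R : V → V → Prop) (g : Gad V T M) (v : V) : Prop :=
  ∃ j, ∀ t, R (g.env j t) v

section gadget

variable {V : Type} [DecidableEq V] {T M : ℕ} {R : V → V → Prop}

private theorem mem_vs {g : Gad V T M} {v : V} :
    v ∈ g.vs ↔ (∃ j t, g.env j t = v) ∨ ∃ j, g.fil j = v := by
  unfold Gad.vs
  rw [Finset.mem_union, Finset.mem_image, Finset.mem_image]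
  constructor
  · rintro (⟨p, -, h⟩ | ⟨j, -, h⟩)
    · exact Or.inl ⟨p.1, p.2, h⟩
    · exact Or.inr ⟨j, h⟩
  · rintro (⟨j, t, h⟩ | ⟨j, h⟩)
    · exact Or.inl ⟨(j, t), Finset.mem_univ _, h⟩
    · exact Or.inr ⟨j, Finset.mem_univ _, h⟩

private theorem card_vs (g : Gad V T M) : g.vs.card ≤ (M + 1) * T + M := by
  unfold Gad.vs
  refine (Finset.card_union_le _ _).trans (add_le_add ?_ ?_)
  · refine Finset.card_image_le.trans ?_
    rw [Finset.card_univ, Fintype.card_prod, Fintype.card_fin, Fintype.card_fin]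
  · refine Finset.card_image_le.trans ?_
    rw [Finset.card_univ, Fintype.card_fin]

/-- adding one environment and one filler at the end -/
private def snocG (g : Gad V T M) (E : Fin T → V) (y : V) : Gad V T (M + 1) where
  env := Fin.snoc (α := fun _ => Fin T → V) g.env E
  fil := Fin.snoc (α := fun _ => V) g.fil y

private theorem snoc_env_cast (g : Gad V T M) (E : Fin T → V) (y : V) (j : Fin (M + 1)) :
    (snocG g E y).env j.castSucc = g.env j := by
  simp [snocG]

private theorem snoc_env_last (g : Gad V T M) (E : Fin T → V) (y : V) :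
    (snocG g E y).env (Fin.last (M + 1)) = E := by
  simp [snocG]

private theorem snoc_fil_cast (g : Gad V T M) (E : Fin T → V) (y : V) (j : Fin M) :
    (snocG g E y).fil j.castSucc = g.fil j := by
  simp [snocG]

private theorem snoc_fil_last (g : Gad V T M) (E : Fin T → V) (y : V) :
    (snocG g E y).fil (Fin.last M) = y := by
  simp [snocG]

private theorem snoc_vs {g : Gad V T M} {E : Fin T → V} {y v : V}
    (h : v ∈ (snocG g E y).vs) : v ∈ g.vs ∨ (∃ t, E t = v) ∨ y = v := by
  rw [mem_vs] at h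
  rcases h with ⟨j, t, h⟩ | ⟨j, h⟩
  · induction j using Fin.lastCases with
    | last => rw [snoc_env_last] at h; exact Or.inr (Or.inl ⟨t, h⟩)
    | cast j => rw [snoc_env_cast] at h; exact Or.inl (mem_vs.2 (Or.inl ⟨j, t, h⟩))
  · induction j using Fin.lastCases with
    | last => rw [snoc_fil_last] at h; exact Or.inr (Or.inr h)
    | cast j => rw [snoc_fil_cast] at h; exact Or.inl (mem_vs.2 (Or.inr ⟨j, h⟩))

private theorem snoc_ok {g : Gad V T M} (hg : g.Ok R) {E : Fin T → V} {y : V}
    (h1 : ∀ t, R (g.env (Fin.last M) t) y) (h2 : ∀ t, R (E t) y) (hE : Function.Injective E)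
    (hEg : ∀ t, E t ∉ g.vs) (hy : y ∉ g.vs) (hyE : ∀ t, E t ≠ y) : (snocG g E y).Ok R where
  lf := by
    intro j t
    induction j using Fin.lastCases with
    | last => rw [snoc_env_cast, snoc_fil_last]; exact h1 t
    | cast j => rw [snoc_env_cast, snoc_fil_cast]; exact hg.lf j t
  rf := by
    intro j t
    induction j using Fin.lastCases with
    | last => rw [Fin.succ_last, snoc_env_last, snoc_fil_last]; exact h2 t
    | cast j => rw [Fin.succ_castSucc, snoc_env_cast, snoc_fil_cast]; exact hg.rf j t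
  ie := by
    rintro ⟨j, t⟩ ⟨j', t'⟩ h
    simp only at h
    induction j using Fin.lastCases with
    | last =>
      induction j' using Fin.lastCases with
      | last =>
        rw [snoc_env_last] at h
        rw [hE h]
      | cast j' =>
        rw [snoc_env_last, snoc_env_cast] at h
        exact absurd (mem_vs.2 (Or.inl ⟨j', t', h.symm⟩)) (hEg t)
    | cast j =>
      induction j' using Fin.lastCases with
      | last =>
        rw [snoc_env_last, snoc_env_cast] at h
        exact absurd (mem_vs.2 (Or.inl ⟨j, t, h⟩)) (hEg t')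
      | cast j' =>
        rw [snoc_env_cast, snoc_env_cast] at h
        have h3 := hg.ie (a₁ := (j, t)) (a₂ := (j', t')) h
        rw [Prod.mk.injEq] at h3
        rw [h3.1, h3.2]
  jf := by
    intro j j' h
    induction j using Fin.lastCases with
    | last =>
      induction j' using Fin.lastCases with
      | last => rfl
      | cast j' =>
        rw [snoc_fil_last, snoc_fil_cast] at h
        exact absurd (mem_vs.2 (Or.inr ⟨j', h.symm⟩)) hy
    | cast j =>
      induction j' using Fin.lastCases with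
      | last =>
        rw [snoc_fil_last, snoc_fil_cast] at h
        exact absurd (mem_vs.2 (Or.inr ⟨j, h⟩)) hy
      | cast j' =>
        rw [snoc_fil_cast, snoc_fil_cast] at h
        rw [hg.jf h]
  ef := by
    rintro ⟨j, t⟩ j' h
    simp only at h
    induction j using Fin.lastCases with
    | last =>
      induction j' using Fin.lastCases with
      | last =>
        rw [snoc_env_last, snoc_fil_last] at h
        exact hyE t h
      | cast j' =>
        rw [snoc_env_last, snoc_fil_cast] at h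
        exact hEg t (mem_vs.2 (Or.inr ⟨j', h.symm⟩))
    | cast j =>
      induction j' using Fin.lastCases with
      | last =>
        rw [snoc_env_cast, snoc_fil_last] at h
        exact hy (mem_vs.2 (Or.inl ⟨j, t, h⟩))
      | cast j' =>
        rw [snoc_env_cast, snoc_fil_cast] at h
        exact hg.ef (j, t) j' h

private theorem snoc_acc {g : Gad V T M} {E : Fin T → V} {y v : V} (h : g.Acc R v) :
    (snocG g E y).Acc R v := by
  obtain ⟨j, hj⟩ := h
  exact ⟨j.castSucc, by rw [snoc_env_cast]; exact hj⟩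

private theorem snoc_acc_last {g : Gad V T M} {E : Fin T → V} {y v : V} (h : ∀ t, R (E t) v) :
    (snocG g E y).Acc R v :=
  ⟨Fin.last _, by rw [snoc_env_last]; exact h⟩

/-- adding `k` environments and `k` fillers at the end -/
private theorem extendG (g : Gad V T M) (hg : g.Ok R) (k : ℕ) (e : ℕ → Fin T → V) (f : ℕ → V)
    (h0 : ∀ t, R (g.env (Fin.last M) t) (f 0))
    (h1 : ∀ i < k, ∀ t, R (e i t) (f i))
    (h2 : ∀ i, i + 1 < k → ∀ t, R (e i t) (f (i + 1)))
    (he : ∀ i < k, ∀ i' < k, ∀ t t', e i t = e i' t' → i = i' ∧ t = t')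
    (hf : ∀ i < k, ∀ i' < k, f i = f i' → i = i')
    (hef : ∀ i < k, ∀ i' < k, ∀ t, e i t ≠ f i')
    (heg : ∀ i < k, ∀ t, e i t ∉ g.vs) (hfg : ∀ i < k, f i ∉ g.vs) :
    ∃ g' : Gad V T (M + k), g'.Ok R ∧
      (∀ v ∈ g'.vs, v ∈ g.vs ∨ (∃ i < k, ∃ t, e i t = v) ∨ ∃ i < k, f i = v) ∧
      (∀ v, g.Acc R v → g'.Acc R v) ∧
      (k = 0 → g'.env (Fin.last (M + k)) = g.env (Fin.last M)) ∧
      (∀ k', k = k' + 1 → g'.env (Fin.last (M + k)) = e k') ∧
      (∀ k', k = k' + 1 → ∀ v, (∀ t, R (e k' t) v) → g'.Acc R v) := by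
  induction k with
  | zero =>
    exact ⟨g, hg, fun v hv => Or.inl hv, fun v hv => hv, fun _ => rfl,
      fun k' hk => absurd hk (by omega), fun k' hk => absurd hk (by omega)⟩
  | succ k ih =>
    obtain ⟨g', hok, hvs, hacc, hl0, hl1, -⟩ := ih
      (fun i hi => h1 i (by omega)) (fun i hi => h2 i (by omega))
      (fun i hi i' hi' => he i (by omega) i' (by omega))
      (fun i hi i' hi' => hf i (by omega) i' (by omega))
      (fun i hi i' hi' => hef i (by omega) i' (by omega))
      (fun i hi => heg i (by omega)) (fun i hi => hfg i (by omega))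
    have hek : ∀ t, e k t ∉ g'.vs := by
      intro t ht
      rcases hvs _ ht with h | ⟨i, hi, t', h⟩ | ⟨i, hi, h⟩
      · exact heg k (by omega) t h
      · have := he i (by omega) k (by omega) t' t h
        omega
      · exact hef k (by omega) i (by omega) t h.symm
    have hfk : f k ∉ g'.vs := by
      intro ht
      rcases hvs _ ht with h | ⟨i, hi, t', h⟩ | ⟨i, hi, h⟩
      · exact hfg k (by omega) h
      · exact hef i (by omega) k (by omega) t' h
      · have := hf i (by omega) k (by omega) h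
        omega
    have hlast : ∀ t, R (g'.env (Fin.last (M + k)) t) (f k) := by
      intro t
      rcases Nat.eq_zero_or_pos k with hk | hk
      · subst hk
        rw [hl0 rfl]
        exact h0 t
      · obtain ⟨k', rfl⟩ : ∃ k', k = k' + 1 := ⟨k - 1, by omega⟩
        rw [hl1 k' rfl]
        exact h2 k' (by omega) t
    refine ⟨snocG g' (e k) (f k), snoc_ok hok hlast (h1 k (by omega)) ?_ hek hfk ?_, ?_, ?_, ?_,
      ?_, ?_⟩
    · intro t t' h
      exact (he k (by omega) k (by omega) t t' h).2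
    · intro t
      exact hef k (by omega) k (by omega) t
    · intro v hv
      rcases snoc_vs hv with h | ⟨t, h⟩ | h
      · rcases hvs _ h with h | ⟨i, hi, t', h⟩ | ⟨i, hi, h⟩
        · exact Or.inl h
        · exact Or.inr (Or.inl ⟨i, by omega, t', h⟩)
        · exact Or.inr (Or.inr ⟨i, by omega, h⟩)
      · exact Or.inr (Or.inl ⟨k, by omega, t, h⟩)
      · exact Or.inr (Or.inr ⟨k, by omega, h⟩)
    · exact fun v hv => snoc_acc (hacc v hv)
    · intro hk
      omega
    · intro k' hk
      have : k = k' := by omega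
      subst this
      exact snoc_env_last _ _ _
    · intro k' hk v hv
      have : k = k' := by omega
      subst this
      exact snoc_acc_last hv

/-- gluing a connector and a new seed -/
private theorem glue {q : ℕ} (g : Gad V T M) (hg : g.Ok R) (E : Fin T → V)
    (hE : Function.Injective E) (Z : Finset V) (hgZ : Disjoint g.vs Z)
    (hEZ : ∀ t, E t ∉ Z ∪ g.vs) (y : Fin (q + 1) → V) (F : Fin q → Fin T → V)
    (hy0 : ∀ t, R (g.env (Fin.last M) t) (y 0)) (hyq : ∀ t, R (E t) (y (Fin.last q)))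
    (hF : ∀ (i : Fin q) (t : Fin T), R (F i t) (y i.castSucc) ∧ R (F i t) (y i.succ))
    (hyi : Function.Injective y) (hFi : Function.Injective (fun p : Fin q × Fin T => F p.1 p.2))
    (hyF : ∀ i (p : Fin q × Fin T), y i ≠ F p.1 p.2)
    (hyZ : ∀ i, y i ∉ Z ∪ g.vs ∪ univ.image E) (hFZ : ∀ i t, F i t ∉ Z ∪ g.vs ∪ univ.image E) :
    ∃ g' : Gad V T (M + (q + 1)), g'.Ok R ∧ Disjoint g'.vs Z ∧
      g'.env (Fin.last (M + (q + 1))) = E ∧ (∀ v, g.Acc R v → g'.Acc R v) ∧
      (∀ v, (∀ t, R (E t) v) → g'.Acc R v) := by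
  set e : ℕ → Fin T → V := fun i => if h : i < q then F ⟨i, h⟩ else E with he
  set f : ℕ → V := fun i => if h : i < q + 1 then y ⟨i, h⟩ else y 0 with hf
  have e1 : ∀ i (h : i < q), e i = F ⟨i, h⟩ := fun i h => by rw [he]; exact dif_pos h
  have e2 : e q = E := by rw [he]; exact dif_neg (lt_irrefl q)
  have f1 : ∀ i (h : i < q + 1), f i = y ⟨i, h⟩ := fun i h => by rw [hf]; exact dif_pos h
  have cases : ∀ i, i < q + 1 → i < q ∨ i = q := fun i hi => by omega
  have memE : ∀ t, E t ∈ univ.image E := fun t => Finset.mem_image_of_mem _ (Finset.mem_univ t)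
  have out : ∀ {x : V}, x ∉ Z ∪ g.vs ∪ univ.image E → x ∉ Z ∧ x ∉ g.vs ∧ ∀ t, x ≠ E t := by
    intro x hx
    rw [Finset.mem_union, Finset.mem_union, not_or, not_or] at hx
    exact ⟨hx.1.1, hx.1.2, fun t h => hx.2 (h ▸ memE t)⟩
  have outE : ∀ t, E t ∉ Z ∧ E t ∉ g.vs := by
    intro t
    have := hEZ t
    rw [Finset.mem_union, not_or] at this
    exact this
  obtain ⟨g', hok, hvs, hacc, -, hl1, hl2⟩ := extendG g hg (q + 1) e f
    (by
      intro t
      rw [f1 0 (by omega)]
      exact hy0 t)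
    (by
      intro i hi t
      rcases cases i hi with h | h
      · rw [e1 i h, f1 i hi]
        exact (hF ⟨i, h⟩ t).1
      · subst h
        rw [e2, f1 i hi]
        exact hyq t)
    (by
      intro i hi t
      rw [e1 i (by omega), f1 (i + 1) hi]
      exact (hF ⟨i, by omega⟩ t).2)
    (by
      intro i hi i' hi' t t' h
      rcases cases i hi with h3 | h3
      · rcases cases i' hi' with h4 | h4
        · rw [e1 i h3, e1 i' h4] at h
          have h5 := hFi (a₁ := (⟨i, h3⟩, t)) (a₂ := (⟨i', h4⟩, t')) h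
          rw [Prod.mk.injEq, Fin.mk.injEq] at h5
          exact h5
        · subst h4
          rw [e1 i h3, e2] at h
          exact absurd h ((out (hFZ ⟨i, h3⟩ t)).2.2 t')
      · rcases cases i' hi' with h4 | h4
        · subst h3
          rw [e1 i' h4, e2] at h
          exact absurd h.symm ((out (hFZ ⟨i', h4⟩ t')).2.2 t)
        · subst h3
          subst h4
          rw [e2] at h
          exact ⟨rfl, hE h⟩)
    (by
      intro i hi i' hi' h
      rw [f1 i hi, f1 i' hi'] at h
      have := hyi h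
      rwa [Fin.mk.injEq] at this)
    (by
      intro i hi i' hi' t h
      rw [f1 i' hi'] at h
      rcases cases i hi with h3 | h3
      · rw [e1 i h3] at h
        exact hyF ⟨i', hi'⟩ (⟨i, h3⟩, t) h.symm
      · subst h3
        rw [e2] at h
        exact (out (hyZ ⟨i', hi'⟩)).2.2 t h.symm)
    (by
      intro i hi t
      rcases cases i hi with h3 | h3
      · rw [e1 i h3]
        exact (out (hFZ ⟨i, h3⟩ t)).2.1
      · subst h3
        rw [e2]
        exact (outE t).2)
    (by
      intro i hi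
      rw [f1 i hi]
      exact (out (hyZ ⟨i, hi⟩)).2.1)
  refine ⟨g', hok, ?_, ?_, hacc, ?_⟩
  · rw [Finset.disjoint_left]
    intro v hv hvZ
    rcases hvs v hv with h | ⟨i, hi, t, h⟩ | ⟨i, hi, h⟩
    · exact Finset.disjoint_left.1 hgZ h hvZ
    · rcases cases i hi with h3 | h3
      · rw [e1 i h3] at h
        exact (out (hFZ ⟨i, h3⟩ t)).1 (h ▸ hvZ)
      · subst h3
        rw [e2] at h
        exact (outE t).1 (h ▸ hvZ)
    · rw [f1 i hi] at h
      exact (out (hyZ ⟨i, hi⟩)).1 (h ▸ hvZ)
  · rw [hl1 q rfl, e2]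
  · intro v hv
    exact hl2 q rfl v (by rw [e2]; exact hv)

end gadget

/-- number of fillers after `s` connections -/
private def Ms (q : ℕ) : ℕ → ℕ
  | 0 => 0
  | s + 1 => Ms q s + (q + 1)

private theorem Ms_mono (q : ℕ) : Monotone (Ms q) :=
  monotone_nat_of_le_succ fun s => by
    show Ms q s ≤ Ms q s + (q + 1)
    omega

open Classical in
theorem gadI (ζ : ℝ) (hζ : 0 < ζ) (T : ℕ) (hT : 1 ≤ T) :
    ∃ (M : ℕ) (θ₀ : ℝ) (n₀ : ℕ), 0 < θ₀ ∧ ∀ (V : Type) [Fintype V] [DecidableEq V]
      (R : V → V → Prop), n₀ ≤ Fintype.card V → IsTour R → Rob ζ R →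
      ∀ Z : Finset V, (Z.card : ℝ) ≤ θ₀ * Fintype.card V → ∀ w : V → ℝ, (∀ v, 0 ≤ w v) →
      ∃ g : Gad V T M, g.Ok R ∧ Disjoint g.vs Z ∧
        ((univ.filter fun v => ¬ g.Acc R v).card : ℝ) ≤ Fintype.card V / 10 ∧
        ∑ v ∈ univ.filter (fun v => ¬ g.Acc R v), w v ≤ 1 / 50 * ∑ v, w v := by
  obtain ⟨β, c₀, na, hβ, hc₀, hgood⟩ := good_tuples ζ hζ T
  obtain ⟨q, ε, nb, hε, hcon⟩ := connectors ζ β hζ hβ T
  set c : ℝ := min c₀ 1 with hc
  have hc0 : 0 < c := lt_min hc₀ one_pos
  have hc1 : c ≤ 1 := min_le_right _ _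
  have hcc : c ≤ c₀ := min_le_left _ _
  have hT0 : (0 : ℝ) < T := by exact_mod_cast hT
  obtain ⟨r, hr⟩ : ∃ r : ℕ, (1 - c / 2) ^ r < 1 / 100 :=
    exists_pow_lt_of_lt_one (by norm_num) (by linarith)
  set μ : ℝ := min (c / (4 * T)) ε with hμ
  have hμ0 : 0 < μ := lt_min (by positivity) hε
  have hμc : μ ≤ c / (4 * T) := min_le_left _ _
  have hμε : μ ≤ ε := min_le_right _ _
  set K : ℕ := (Ms q r + 1) * T + Ms q r + T with hK
  obtain ⟨nc, hnc⟩ := exists_nat_ge (2 * (K : ℝ) / μ)
  obtain ⟨nd, hnd⟩ := exists_nat_ge (4 * (T : ℝ) ^ 2 / c)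
  refine ⟨Ms q r, μ / 2, max (max na nb) (max (max nc nd) 1), by positivity, ?_⟩
  intro V _ _ R hn hR hrob Z hZ w hw
  set n : ℝ := (Fintype.card V : ℝ) with hnn
  have hna : na ≤ Fintype.card V := (le_max_left _ _).trans ((le_max_left _ _).trans hn)
  have hnb : nb ≤ Fintype.card V := (le_max_right _ _).trans ((le_max_left _ _).trans hn)
  have hn1 : 1 ≤ Fintype.card V := (le_max_right _ _).trans ((le_max_right _ _).trans hn)
  have hnc' : (nc : ℝ) ≤ n := by
    rw [hnn]
    exact_mod_cast (le_max_left _ _).trans ((le_max_left _ _).trans ((le_max_right _ _).trans hn))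
  have hnd' : (nd : ℝ) ≤ n := by
    rw [hnn]
    exact_mod_cast (le_max_right _ _).trans ((le_max_left _ _).trans ((le_max_right _ _).trans hn))
  have hn0 : 0 < n := by rw [hnn]; exact_mod_cast hn1
  have hKn : (K : ℝ) ≤ μ / 2 * n := by
    have h1 : 2 * (K : ℝ) / μ ≤ n := hnc.trans hnc'
    rw [div_le_iff₀ hμ0] at h1
    linarith
  have hT2 : (T : ℝ) ^ 2 ≤ c / 4 * n := by
    have h1 : 4 * (T : ℝ) ^ 2 / c ≤ n := hnd.trans hnd'
    rw [div_le_iff₀ hc0] at h1
    linarith
  have hgood' : ∀ v, c * n ^ T ≤ ((univ.filter fun E : Fin T → V =>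
        (∀ i, R (E i) v) ∧ β * Fintype.card V ≤ ((Sx R E).card : ℝ)).card : ℝ) := by
    intro v
    refine le_trans ?_ (hgood V R hna hR hrob v)
    exact mul_le_mul_of_nonneg_right hcc (by positivity)
  have hseedZ : ∀ Z' : Finset V, (Z'.card : ℝ) ≤ μ * n → (T : ℝ) * Z'.card ≤ c / 4 * n := by
    intro Z' h
    have h1 : (Z'.card : ℝ) ≤ c / (4 * T) * n :=
      h.trans (mul_le_mul_of_nonneg_right hμc hn0.le)
    calc (T : ℝ) * Z'.card ≤ T * (c / (4 * T) * n) := mul_le_mul_of_nonneg_left h1 hT0.le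
      _ = c / 4 * n := by field_simp
  -- the total weight
  set W : V → ℝ := fun v => 1 / n + (if ∑ u, w u = 0 then 0 else w v / ∑ u, w u) with hW
  have hsw : 0 ≤ ∑ u, w u := Finset.sum_nonneg fun u _ => hw u
  have hW0 : ∀ v, 0 ≤ W v := by
    intro v
    rw [hW]
    have h1 : 0 ≤ (if ∑ u, w u = 0 then 0 else w v / ∑ u, w u) := by
      split_ifs
      · exact le_rfl
      · exact div_nonneg (hw v) hsw
    positivity
  have hWtot : ∑ v, W v ≤ 2 := by
    rw [hW, Finset.sum_add_distrib]
    have h1 : ∑ v : V, 1 / n = 1 := by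
      rw [Finset.sum_const, Finset.card_univ, nsmul_eq_mul, ← hnn]
      field_simp
    rw [h1]
    by_cases h : ∑ u, w u = 0
    · simp [h]
    · simp only [if_neg h]
      rw [← Finset.sum_div, div_self h]
      norm_num
  -- the induction
  have main : ∀ s, s ≤ r → ∃ g : Gad V T (Ms q s), g.Ok R ∧ Disjoint g.vs Z ∧
      β * n ≤ ((Sx R (g.env (Fin.last (Ms q s)))).card : ℝ) ∧
      ∑ v ∈ univ.filter (fun v => ¬ g.Acc R v), W v ≤ (1 - c / 2) ^ s * 2 := by
    intro s
    induction s with
    | zero =>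
      intro _
      obtain ⟨E, hE, hEZ, hES, hEW⟩ := seed T hT β c hc0 R hn1 hgood' Z
        (hseedZ Z (by nlinarith)) hT2 W hW0 univ
      refine ⟨⟨fun _ => E, fun j => j.elim0⟩, ⟨fun j => j.elim0, fun j => j.elim0, ?_,
        fun j => j.elim0, fun _ j => j.elim0⟩, ?_, hES, ?_⟩
      · rintro ⟨j, t⟩ ⟨j', t'⟩ h
        have h1 : t = t' := hE h
        have h2 : j = j' := by
          apply Fin.ext
          have h3 : (j : ℕ) < 0 + 1 := j.2
          have h4 : (j' : ℕ) < 0 + 1 := j'.2
          omega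
        rw [h1, h2]
      · rw [Finset.disjoint_left]
        intro v hv hvZ
        rw [mem_vs] at hv
        rcases hv with ⟨j, t, h⟩ | ⟨j, h⟩
        · have h5 : E t = v := h
          exact hEZ t (h5 ▸ hvZ)
        · exact j.elim0
      · rw [pow_zero, one_mul]
        refine le_trans ?_ hWtot
        exact Finset.sum_le_sum_of_subset_of_nonneg (Finset.filter_subset _ _)
          (fun v _ _ => hW0 v)
    | succ s ih =>
      intro hs
      obtain ⟨g, hok, hgZ, hgS, hgW⟩ := ih (by omega)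
      have hMs : Ms q s ≤ Ms q r := Ms_mono q (by omega)
      have hcard : g.vs.card + T ≤ K := by
        have h1 := card_vs g
        have h2 : (Ms q s + 1) * T ≤ (Ms q r + 1) * T := Nat.mul_le_mul_right _ (by omega)
        omega
      have hcard1 : ((Z ∪ g.vs).card : ℝ) + T ≤ μ * n := by
        have h1 : (Z ∪ g.vs).card + T ≤ Z.card + K := by
          have := Finset.card_union_le Z g.vs
          omega
        have h2 : ((Z ∪ g.vs).card : ℝ) + T ≤ (Z.card : ℝ) + K := by exact_mod_cast h1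
        linarith
      obtain ⟨E, hE, hEZ, hES, hEW⟩ := seed T hT β c hc0 R hn1 hgood' (Z ∪ g.vs)
        (hseedZ _ (by linarith)) hT2 W hW0 (univ.filter fun v => ¬ g.Acc R v)
      have hcard2 : (((Z ∪ g.vs ∪ univ.image E).card : ℕ) : ℝ) ≤ ε * n := by
        have h1 : (Z ∪ g.vs ∪ univ.image E).card ≤ (Z ∪ g.vs).card + T := by
          refine (Finset.card_union_le _ _).trans (Nat.add_le_add_left ?_ _)
          refine Finset.card_image_le.trans ?_
          rw [Finset.card_univ, Fintype.card_fin]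
        have h2 : (((Z ∪ g.vs ∪ univ.image E).card : ℕ) : ℝ) ≤ ((Z ∪ g.vs).card : ℝ) + T := by
          exact_mod_cast h1
        have h3 : μ * n ≤ ε * n := mul_le_mul_of_nonneg_right hμε hn0.le
        linarith
      obtain ⟨y, F, hy0, hyq, hF, hyi, hFi, hyF, hyZ, hFZ⟩ := hcon V R hnb hR hrob
        (Sx R (g.env (Fin.last (Ms q s)))) (Sx R E) hgS hES (Z ∪ g.vs ∪ univ.image E) hcard2
      obtain ⟨g', hok', hgZ', hlast, hacc1, hacc2⟩ := glue g hok E hE Z hgZ hEZ y F
        (Finset.mem_filter.1 hy0).2 (Finset.mem_filter.1 hyq).2 hF hyi hFi hyF hyZ hFZ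
      refine ⟨g', hok', hgZ', ?_, ?_⟩
      · have h1 : g'.env (Fin.last (Ms q (s + 1))) = E := hlast
        rw [h1]
        exact hES
      · have hsub : (univ.filter fun v => ¬ g'.Acc R v) ⊆
            (univ.filter fun v => ¬ g.Acc R v).filter (fun v => ¬ ∀ t, R (E t) v) := by
          intro v hv
          have hv' := (Finset.mem_filter.1 hv).2
          rw [Finset.mem_filter, Finset.mem_filter]
          exact ⟨⟨Finset.mem_univ _, fun h => hv' (hacc1 v h)⟩, fun h => hv' (hacc2 v h)⟩
        have h1 : ∑ v ∈ univ.filter (fun v => ¬ g'.Acc R v), W v ≤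
            ∑ v ∈ (univ.filter fun v => ¬ g.Acc R v).filter (fun v => ¬ ∀ t, R (E t) v), W v :=
          Finset.sum_le_sum_of_subset_of_nonneg hsub (fun v _ _ => hW0 v)
        refine (h1.trans hEW).trans ?_
        have h2 : (0 : ℝ) ≤ 1 - c / 2 := by linarith
        calc (1 - c / 2) * ∑ v ∈ univ.filter (fun v => ¬ g.Acc R v), W v
            ≤ (1 - c / 2) * ((1 - c / 2) ^ s * 2) := mul_le_mul_of_nonneg_left hgW h2
          _ = (1 - c / 2) ^ (s + 1) * 2 := by ring
  obtain ⟨g, hok, hgZ, -, hgW⟩ := main r le_rfl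
  have hfin : ∑ v ∈ univ.filter (fun v => ¬ g.Acc R v), W v ≤ 1 / 50 := by linarith
  refine ⟨g, hok, hgZ, ?_, ?_⟩
  · have h1 : ((univ.filter fun v => ¬ g.Acc R v).card : ℝ) / n ≤
        ∑ v ∈ univ.filter (fun v => ¬ g.Acc R v), W v := by
      have h2 : ((univ.filter fun v => ¬ g.Acc R v).card : ℝ) / n =
          ∑ v ∈ univ.filter (fun v => ¬ g.Acc R v), 1 / n := by
        rw [Finset.sum_const, nsmul_eq_mul]
        ring
      rw [h2]
      refine Finset.sum_le_sum fun v _ => ?_
      rw [hW]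
      have h3 : 0 ≤ (if ∑ u, w u = 0 then 0 else w v / ∑ u, w u) := by
        split_ifs
        · exact le_rfl
        · exact div_nonneg (hw v) hsw
      linarith
    have h4 := h1.trans hfin
    rw [div_le_iff₀ hn0] at h4
    linarith
  · by_cases h : ∑ u, w u = 0
    · have h1 : ∀ v, w v = 0 := fun v =>
        (Finset.sum_eq_zero_iff_of_nonneg fun u _ => hw u).1 h v (Finset.mem_univ v)
      simp [h1]
    · have hpos : 0 < ∑ u, w u := lt_of_le_of_ne hsw (Ne.symm h)
      have h1 : (∑ v ∈ univ.filter (fun v => ¬ g.Acc R v), w v) / ∑ u, w u ≤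
          ∑ v ∈ univ.filter (fun v => ¬ g.Acc R v), W v := by
        rw [Finset.sum_div]
        refine Finset.sum_le_sum fun v _ => ?_
        rw [hW]
        simp only [if_neg h]
        have : 0 < 1 / n := by positivity
        linarith
      have h4 := h1.trans hfin
      rw [div_le_iff₀ hpos] at h4
      exact h4

end Pool.Agent.Lib.RobT
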