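import Pool.Agent.Lib.RobT.Gt

/-!
# Gk: connectors between two large sets (about 220 lines)

We may assume `ζ ≤ 1`.  `τ = min (ζ/4) β'`, `β` from `expandH`.  `Y_0 = S`,
`X_{i+1} = {a | β n ≤ |{y ∈ Y_i | R a y}|}` (direction `false`: `Arc R false y a ↔ R a y`),
`Y_{i+1} = {y | β n ≤ |{a ∈ X_{i+1} | R a y}|}` (direction `true`).
`|Y_{i+1}| ≥ min (|Y_i| + β n) n`, so `Y_q = univ` for `q = ⌈1/β⌉`.
For `y ∈ Y_{i+1}` let `A = {a ∈ X_{i+1} | R a y}`: `∑_{y' ∈ Y_i} |{a ∈ A | R a y'}|
= ∑_{a ∈ A} |{y' ∈ Y_i | R a y'}| ≥ β² n²`, so at least `(β²/2) n` vertices `y' ∈ Y_i` have at least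
`(β²/2) n` common in-neighbours with `y` (else the sum is less than `(β²/2) n · n + n · (β²/2) n`).
`ε = β'' /2` with `β'' = min (β²/2) β'`; `n₀` large.  Choose `y q ∈ S'` outside `Z` and then, for
`i = q-1, …, 0`, `y i ∈ Y_i` with at least `(β²/2) n` common in-neighbours with `y (i+1)`, outside
`Z`
and different from everything chosen so far, and `T` distinct common in-neighbours `F i t` of `y i`
and `y (i+1)` outside `Z` and different from everything chosen so far (at most
`(q+1)(T+1)` vertices are chosen).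
-/

namespace Pool.Agent.Lib.RobT

open Finset

open Classical in
private noncomputable def stp {V : Type} [Fintype V] (R : V → V → Prop) (b : ℝ) (s : Bool)
    (X : Finset V) : Finset V :=
  univ.filter fun v => b * (Fintype.card V : ℝ) ≤ ((X.filter fun x => Arc R s x v).card : ℝ)

private noncomputable def Ys {V : Type} [Fintype V] (R : V → V → Prop) (b : ℝ)
    (S : Finset V) : ℕ → Finset V
  | 0 => S
  | i + 1 => stp R b true (stp R b false (Ys R b S i))

private theorem arc_true {V : Type} {R : V → V → Prop} {x v : V} : Arc R true x v ↔ R x v := by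
  simp [Arc]

private theorem arc_false {V : Type} {R : V → V → Prop} {x v : V} : Arc R false x v ↔ R v x := by
  simp [Arc]

private theorem Ys_card {V : Type} [Fintype V] {R : V → V → Prop} {b τ : ℝ}
    {S : Finset V} (hb : 0 < b) (hτ0 : 0 < τ) (hτ : τ ≤ 1)
    (hexp : ∀ (s : Bool) (X : Finset V), τ * Fintype.card V ≤ X.card →
      min ((X.card : ℝ) + b * Fintype.card V) (Fintype.card V) ≤ ((stp R b s X).card : ℝ))
    (hS : τ * Fintype.card V ≤ S.card) (i : ℕ) :
    min (τ * Fintype.card V + i * (b * Fintype.card V)) (Fintype.card V) ≤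
      ((Ys R b S i).card : ℝ) := by
  have hn : (0 : ℝ) ≤ Fintype.card V := Nat.cast_nonneg _
  have hbn : 0 ≤ b * Fintype.card V := mul_nonneg hb.le hn
  have hτn : τ * Fintype.card V ≤ Fintype.card V := by nlinarith
  have hτn0 : 0 ≤ τ * Fintype.card V := mul_nonneg hτ0.le hn
  induction i with
  | zero =>
    simp only [Nat.cast_zero, zero_mul, add_zero, Ys]
    exact le_trans (min_le_left _ _) hS
  | succ i ih =>
    have hi : (0 : ℝ) ≤ i := Nat.cast_nonneg _
    have h1 : τ * Fintype.card V ≤ (Ys R b S i).card := by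
      refine le_trans (le_min ?_ hτn) ih
      have := mul_nonneg hi hbn
      linarith
    have h2 := hexp false _ h1
    have h3 : τ * Fintype.card V ≤ (stp R b false (Ys R b S i)).card :=
      le_trans (le_min (by linarith) hτn) h2
    have h4 := hexp true _ h3
    show _ ≤ ((stp R b true (stp R b false (Ys R b S i))).card : ℝ)
    refine le_trans (le_min ?_ (min_le_right _ _)) h4
    have h5 : min (τ * Fintype.card V + (i + 1 : ℕ) * (b * Fintype.card V)) (Fintype.card V : ℝ) ≤
        (stp R b false (Ys R b S i)).card := by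
      refine le_trans (le_min ?_ (min_le_right _ _)) h2
      rcases le_total (τ * Fintype.card V + i * (b * Fintype.card V)) (Fintype.card V : ℝ) with
        h6 | h6
      · rw [min_eq_left h6] at ih
        refine le_trans (min_le_left _ _) ?_
        push_cast
        linarith
      · rw [min_eq_right h6] at ih
        refine le_trans (min_le_right _ _) ?_
        linarith
    linarith

open Classical in
private theorem stp_common {V : Type} [Fintype V] {R : V → V → Prop} {b : ℝ} (hb : 0 < b)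
    {Y : Finset V} {y : V} (hy : y ∈ stp R b true (stp R b false Y)) :
    ∃ G ⊆ Y, b ^ 2 / 2 * Fintype.card V ≤ (G.card : ℝ) ∧ ∀ y' ∈ G,
      b ^ 2 / 2 * Fintype.card V ≤ ((univ.filter fun a => R a y' ∧ R a y).card : ℝ) := by
  set n : ℝ := (Fintype.card V : ℝ) with hn
  have hn0 : 0 < n := by
    rw [hn]
    exact_mod_cast Fintype.card_pos_iff.2 ⟨y⟩
  set A : Finset V := (stp R b false Y).filter fun a => R a y with hA
  have hAc : b * n ≤ (A.card : ℝ) := by
    have h1 := (Finset.mem_filter.1 hy).2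
    simp only [arc_true] at h1
    exact h1
  have hAa : ∀ a ∈ A, b * n ≤ ((Y.filter fun x => R a x).card : ℝ) := by
    intro a ha
    have h1 := (Finset.mem_filter.1 (Finset.mem_filter.1 ha).1).2
    simp only [arc_false] at h1
    exact h1
  refine ⟨Y.filter fun y' => b ^ 2 / 2 * n ≤ ((A.filter fun a => R a y').card : ℝ),
    Finset.filter_subset _ _, ?_, ?_⟩
  · set G : Finset V := Y.filter fun y' => b ^ 2 / 2 * n ≤ ((A.filter fun a => R a y').card : ℝ)
      with hG
    have hsum : ∑ y' ∈ Y, ((A.filter fun a => R a y').card : ℝ) =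
        ∑ a ∈ A, ((Y.filter fun x => R a x).card : ℝ) := by
      simp only [Finset.card_filter, Nat.cast_sum]
      exact Finset.sum_comm
    have hlow : (b * n) * (b * n) ≤ ∑ a ∈ A, ((Y.filter fun x => R a x).card : ℝ) := by
      have h2 : ∑ _a ∈ A, (b * n) ≤ ∑ a ∈ A, ((Y.filter fun x => R a x).card : ℝ) :=
        Finset.sum_le_sum hAa
      rw [Finset.sum_const, nsmul_eq_mul] at h2
      refine le_trans ?_ h2
      exact mul_le_mul_of_nonneg_right hAc (mul_nonneg hb.le hn0.le)
    have hup : ∑ y' ∈ Y, ((A.filter fun a => R a y').card : ℝ) ≤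
        G.card * n + n * (b ^ 2 / 2 * n) := by
      have h3 : ∑ y' ∈ Y, ((A.filter fun a => R a y').card : ℝ) ≤
          ∑ y' ∈ Y, ((if b ^ 2 / 2 * n ≤ ((A.filter fun a => R a y').card : ℝ) then n else 0) +
            b ^ 2 / 2 * n) := by
        apply Finset.sum_le_sum
        intro y' _
        have h5 : 0 ≤ b ^ 2 / 2 * n := by positivity
        split_ifs with h4
        · have h6 : ((A.filter fun a => R a y').card : ℝ) ≤ n := by
            rw [hn]
            exact_mod_cast Finset.card_le_univ _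
          linarith
        · push Not at h4
          linarith
      refine le_trans h3 ?_
      rw [Finset.sum_add_distrib, ← Finset.sum_filter, Finset.sum_const, Finset.sum_const,
        nsmul_eq_mul, nsmul_eq_mul, ← hG]
      have h7 : (Y.card : ℝ) ≤ n := by
        rw [hn]
        exact_mod_cast Finset.card_le_univ _
      have h8 : 0 ≤ b ^ 2 / 2 * n := by positivity
      have := mul_le_mul_of_nonneg_right h7 h8
      linarith
    rw [hsum] at hup
    have h9 : (b ^ 2 / 2 * n) * n ≤ G.card * n := by nlinarith [hlow, hup]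
    exact le_of_mul_le_mul_right h9 hn0
  · intro y' hy'
    refine le_trans (Finset.mem_filter.1 hy').2 ?_
    have hsub : (A.filter fun a => R a y') ⊆ univ.filter fun a => R a y' ∧ R a y := by
      intro a ha
      rw [Finset.mem_filter] at ha
      rw [Finset.mem_filter]
      exact ⟨Finset.mem_univ _, ha.2, (Finset.mem_filter.1 ha.1).2⟩
    exact_mod_cast Finset.card_le_card hsub

private theorem exists_inj {V : Type} {C : Finset V} {T : ℕ} (h : T ≤ C.card) :
    ∃ G : Fin T → V, Function.Injective G ∧ ∀ t, G t ∈ C := by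
  obtain ⟨t, ht, hc⟩ := Finset.exists_subset_card_eq h
  refine ⟨fun i => ((t.equivFinOfCardEq hc).symm i : V),
    Subtype.val_injective.comp (Equiv.injective _), fun i => ht ?_⟩
  exact ((t.equivFinOfCardEq hc).symm i).2

open Classical in
private theorem chain {V : Type} [Fintype V] {R : V → V → Prop} {b : ℝ} (hb : 0 < b) (T : ℕ)
    (S : Finset V) (j : ℕ) : ∀ (y : V) (W : Finset V), y ∈ Ys R b S j →
      (W.card : ℝ) + j * (T + 1) + 1 ≤ b ^ 2 / 2 * Fintype.card V →
      ∃ (f : ℕ → V) (F : ℕ → Fin T → V), f 0 ∈ S ∧ f j = y ∧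
        (∀ i < j, ∀ t, R (F i t) (f i) ∧ R (F i t) (f (i + 1))) ∧
        (∀ i ≤ j, ∀ i' ≤ j, f i = f i' → i = i') ∧
        (∀ i < j, ∀ t, ∀ i' < j, ∀ t', F i t = F i' t' → i = i' ∧ t = t') ∧
        (∀ i ≤ j, ∀ i' < j, ∀ t, f i ≠ F i' t) ∧
        (∀ i < j, f i ∉ W) ∧ (∀ i < j, ∀ t, F i t ∉ W) := by
  induction j with
  | zero =>
    intro y W hy _
    refine ⟨fun _ => y, fun _ _ => y, hy, rfl, ?_, ?_, ?_, ?_, ?_, ?_⟩
    · intro i hi; omega
    · intro i hi i' hi' _; omega
    · intro i hi; omega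
    · intro i _ i' hi'; omega
    · intro i hi; omega
    · intro i hi; omega
  | succ j ih =>
    intro y W hy hW
    obtain ⟨G, hGY, hGc, hG⟩ := stp_common hb (Y := Ys R b S j) hy
    push_cast at hW
    have hj : (0 : ℝ) ≤ j := Nat.cast_nonneg _
    have hT : (0 : ℝ) ≤ T := Nat.cast_nonneg _
    have hjT : (0 : ℝ) ≤ j * (T + 1) := by positivity
    -- the vertex y''
    have h1 : ∃ y'' ∈ G, y'' ∉ insert y W := by
      by_contra hcon
      push Not at hcon
      have h2 : G.card ≤ (insert y W).card := Finset.card_le_card hcon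
      have h3 : (insert y W).card ≤ W.card + 1 := Finset.card_insert_le _ _
      have h4 : (G.card : ℝ) ≤ W.card + 1 := by exact_mod_cast le_trans h2 h3
      nlinarith
    obtain ⟨y'', hy''G, hy''W⟩ := h1
    have hC := hG y'' hy''G
    set Cm : Finset V := univ.filter fun a => R a y'' ∧ R a y with hCm
    have h5 : T ≤ (Cm \ insert y'' (insert y W)).card := by
      have h6 : Cm.card ≤ (Cm \ insert y'' (insert y W)).card + (insert y'' (insert y W)).card := by
        have := Finset.card_le_card (show Cm ⊆ (Cm \ insert y'' (insert y W)) ∪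
          (insert y'' (insert y W)) from by
            intro a ha
            rw [Finset.mem_union, Finset.mem_sdiff]
            by_cases h : a ∈ insert y'' (insert y W)
            · exact Or.inr h
            · exact Or.inl ⟨ha, h⟩)
        exact le_trans this (Finset.card_union_le _ _)
      have h7 : (insert y'' (insert y W)).card ≤ W.card + 1 + 1 :=
        le_trans (Finset.card_insert_le _ _) (Nat.add_le_add_right (Finset.card_insert_le _ _) 1)
      have h8 : (Cm.card : ℝ) ≤ (Cm \ insert y'' (insert y W)).card + (W.card + 1 + 1) := by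
        exact_mod_cast le_trans h6 (Nat.add_le_add_left h7 _)
      have h9 : (T : ℝ) ≤ (Cm \ insert y'' (insert y W)).card := by nlinarith
      exact_mod_cast h9
    obtain ⟨g, hginj, hg⟩ := exists_inj h5
    have hgR : ∀ t, R (g t) y'' ∧ R (g t) y := by
      intro t
      exact (Finset.mem_filter.1 (Finset.mem_sdiff.1 (hg t)).1).2
    have hgn : ∀ t, g t ≠ y'' ∧ g t ≠ y ∧ g t ∉ W := by
      intro t
      have := (Finset.mem_sdiff.1 (hg t)).2
      rw [Finset.mem_insert, Finset.mem_insert] at this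
      push Not at this
      exact this
    set W' : Finset V := (insert y W) ∪ univ.image g with hW'
    have hW'c : (W'.card : ℝ) + j * (T + 1) + 1 ≤ b ^ 2 / 2 * Fintype.card V := by
      have h10 : W'.card ≤ W.card + 1 + T := by
        refine le_trans (Finset.card_union_le _ _) (Nat.add_le_add (Finset.card_insert_le _ _) ?_)
        refine le_trans Finset.card_image_le ?_
        rw [Finset.card_univ, Fintype.card_fin]
      have h11 : (W'.card : ℝ) ≤ W.card + 1 + T := by exact_mod_cast h10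
      linarith
    obtain ⟨f0, F0, hf0, hfj, hR0, hinj0, hFinj0, hne0, hfW0, hFW0⟩ := ih y'' W' (hGY hy''G) hW'c
    have hyW' : y ∈ W' := Finset.mem_union_left _ (Finset.mem_insert_self _ _)
    have hgW' : ∀ t, g t ∈ W' := fun t =>
      Finset.mem_union_right _ (Finset.mem_image_of_mem _ (Finset.mem_univ t))
    have hWW' : ∀ a ∈ W, a ∈ W' := fun a ha =>
      Finset.mem_union_left _ (Finset.mem_insert_of_mem ha)
    have hy''y : y'' ≠ y := fun h => hy''W (by rw [h]; exact Finset.mem_insert_self _ _)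
    have hy''nW : y'' ∉ W := fun h => hy''W (Finset.mem_insert_of_mem h)
    -- facts on f0
    have hf0y : ∀ i ≤ j, f0 i ≠ y := by
      intro i hi h
      rcases Nat.lt_or_eq_of_le hi with h' | h'
      · exact hfW0 i h' (h ▸ hyW')
      · rw [h', hfj] at h
        exact hy''y h
    have hf0g : ∀ i ≤ j, ∀ t, f0 i ≠ g t := by
      intro i hi t h
      rcases Nat.lt_or_eq_of_le hi with h' | h'
      · exact hfW0 i h' (h ▸ hgW' t)
      · rw [h', hfj] at h
        exact (hgn t).1 h.symm
    obtain ⟨f1, hf1a, hf1b⟩ : ∃ f1 : ℕ → V, (∀ i ≤ j, f1 i = f0 i) ∧ f1 (j + 1) = y :=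
      ⟨fun i => if i ≤ j then f0 i else y, fun i hi => if_pos hi, if_neg (by omega)⟩
    obtain ⟨F1, hF1a, hF1b⟩ : ∃ F1 : ℕ → Fin T → V, (∀ i < j, F1 i = F0 i) ∧ F1 j = g :=
      ⟨fun i => if i < j then F0 i else g, fun i hi => if_pos hi, if_neg (by omega)⟩
    refine ⟨f1, F1, ?_, hf1b, ?_, ?_, ?_, ?_, ?_, ?_⟩
    · rw [hf1a 0 (Nat.zero_le _)]
      exact hf0
    · intro i hi t
      rcases Nat.lt_or_eq_of_le (Nat.lt_succ_iff.1 hi) with h' | h'
      · rw [hF1a i h', hf1a i h'.le, hf1a (i + 1) (Nat.succ_le_of_lt h')]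
        exact hR0 i h' t
      · rw [h', hF1b, hf1b, hf1a j le_rfl, hfj]
        exact hgR t
    · intro i hi i' hi' h
      rcases Nat.lt_or_eq_of_le hi with h1 | h1 <;> rcases Nat.lt_or_eq_of_le hi' with h2 | h2
      · rw [hf1a i (Nat.lt_succ_iff.1 h1), hf1a i' (Nat.lt_succ_iff.1 h2)] at h
        exact hinj0 i (Nat.lt_succ_iff.1 h1) i' (Nat.lt_succ_iff.1 h2) h
      · rw [hf1a i (Nat.lt_succ_iff.1 h1), h2, hf1b] at h
        exact absurd h (hf0y i (Nat.lt_succ_iff.1 h1))
      · rw [hf1a i' (Nat.lt_succ_iff.1 h2), h1, hf1b] at h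
        exact absurd h.symm (hf0y i' (Nat.lt_succ_iff.1 h2))
      · omega
    · intro i hi t i' hi' t' h
      rcases Nat.lt_or_eq_of_le (Nat.lt_succ_iff.1 hi) with h1 | h1 <;>
        rcases Nat.lt_or_eq_of_le (Nat.lt_succ_iff.1 hi') with h2 | h2
      · rw [hF1a i h1, hF1a i' h2] at h
        exact hFinj0 i h1 t i' h2 t' h
      · rw [hF1a i h1, h2, hF1b] at h
        exact absurd (h ▸ hgW' t') (hFW0 i h1 t)
      · rw [hF1a i' h2, h1, hF1b] at h
        exact absurd (h ▸ hgW' t) (hFW0 i' h2 t')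
      · rw [h1, h2, hF1b] at h
        exact ⟨by omega, hginj h⟩
    · intro i hi i' hi' t h
      rcases Nat.lt_or_eq_of_le hi with h1 | h1 <;>
        rcases Nat.lt_or_eq_of_le (Nat.lt_succ_iff.1 hi') with h2 | h2
      · rw [hf1a i (Nat.lt_succ_iff.1 h1), hF1a i' h2] at h
        exact hne0 i (Nat.lt_succ_iff.1 h1) i' h2 t h
      · rw [hf1a i (Nat.lt_succ_iff.1 h1), h2, hF1b] at h
        exact hf0g i (Nat.lt_succ_iff.1 h1) t h
      · rw [h1, hf1b, hF1a i' h2] at h
        exact hFW0 i' h2 t (h ▸ hyW')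
      · rw [h1, hf1b, h2, hF1b] at h
        exact (hgn t).2.1 h.symm
    · intro i hi
      rcases Nat.lt_or_eq_of_le (Nat.lt_succ_iff.1 hi) with h1 | h1
      · rw [hf1a i h1.le]
        exact fun h => hfW0 i h1 (hWW' _ h)
      · rw [hf1a i h1.le, h1, hfj]
        exact hy''nW
    · intro i hi t
      rcases Nat.lt_or_eq_of_le (Nat.lt_succ_iff.1 hi) with h1 | h1
      · rw [hF1a i h1]
        exact fun h => hFW0 i h1 t (hWW' _ h)
      · rw [h1, hF1b]
        exact (hgn t).2.2

theorem connectors (ζ β' : ℝ) (hζ : 0 < ζ) (hβ' : 0 < β') (T : ℕ) :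
    ∃ (q : ℕ) (ε : ℝ) (n₀ : ℕ), 0 < ε ∧ ∀ (V : Type) [Fintype V] [DecidableEq V]
      (R : V → V → Prop), n₀ ≤ Fintype.card V → IsTour R → Rob ζ R →
      ∀ S S' : Finset V, β' * Fintype.card V ≤ S.card → β' * Fintype.card V ≤ S'.card →
      ∀ Z : Finset V, (Z.card : ℝ) ≤ ε * Fintype.card V →
      ∃ (y : Fin (q + 1) → V) (F : Fin q → Fin T → V), y 0 ∈ S ∧ y (Fin.last q) ∈ S' ∧
        (∀ (i : Fin q) (t : Fin T), R (F i t) (y i.castSucc) ∧ R (F i t) (y i.succ)) ∧
        Function.Injective y ∧ Function.Injective (fun p : Fin q × Fin T => F p.1 p.2) ∧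
        (∀ i (p : Fin q × Fin T), y i ≠ F p.1 p.2) ∧ (∀ i, y i ∉ Z) ∧ ∀ i t, F i t ∉ Z := by
  classical
  obtain ⟨β, n₁, hβ, hβτ, hexp⟩ := expandH (min ζ 1) (min (min ζ 1 / 4) β') (lt_min hζ one_pos)
    (min_le_right _ _) (lt_min (div_pos (lt_min hζ one_pos) (by norm_num)) hβ') (min_le_left _ _)
  set τ : ℝ := min (min ζ 1 / 4) β' with hτ
  have hτ0 : 0 < τ := lt_min (div_pos (lt_min hζ one_pos) (by norm_num)) hβ'
  have hτ1 : τ ≤ 1 := by
    refine le_trans (min_le_left _ _) ?_
    have : min ζ 1 ≤ 1 := min_le_right _ _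
    linarith
  have hτβ' : τ ≤ β' := min_le_right _ _
  set c : ℝ := β ^ 2 / 2 with hc
  have hc0 : 0 < c := by positivity
  set q : ℕ := ⌈1 / β⌉₊ with hq
  have hqβ : 1 ≤ q * β := by
    have h1 : 1 / β ≤ q := Nat.le_ceil _
    have h2 := mul_le_mul_of_nonneg_right h1 hβ.le
    rwa [one_div, inv_mul_cancel₀ hβ.ne'] at h2
  refine ⟨q, min c β' / 2, max n₁ (⌈2 * (q * (T + 1) + 1) / c⌉₊ + 1),
    by have := lt_min hc0 hβ'; positivity, ?_⟩
  intro V _ _ R hn hR hrob S S' hS hS' Z hZ
  have hn1 : n₁ ≤ Fintype.card V := le_trans (le_max_left _ _) hn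
  have hn2 : ⌈2 * (q * (T + 1) + 1) / c⌉₊ + 1 ≤ Fintype.card V := le_trans (le_max_right _ _) hn
  have hnpos : (0 : ℝ) < Fintype.card V := by
    have : 0 < Fintype.card V := by omega
    exact_mod_cast this
  have hn3 : 2 * ((q : ℝ) * (T + 1) + 1) ≤ c * Fintype.card V := by
    have h1 : 2 * ((q : ℝ) * (T + 1) + 1) / c ≤ ⌈2 * ((q : ℝ) * (T + 1) + 1) / c⌉₊ := Nat.le_ceil _
    have h2 : ((⌈2 * ((q : ℝ) * (T + 1) + 1) / c⌉₊ + 1 : ℕ) : ℝ) ≤ Fintype.card V := by
      exact_mod_cast hn2
    push_cast at h2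
    have h3 : 2 * ((q : ℝ) * (T + 1) + 1) / c ≤ Fintype.card V := by linarith
    rw [div_le_iff₀ hc0] at h3
    linarith
  have hrob' : Rob (min ζ 1) R := by
    intro A
    refine le_trans ?_ (hrob A)
    have h1 : (0 : ℝ) ≤ A.card := Nat.cast_nonneg _
    have h2 : (0 : ℝ) ≤ (Aᶜ).card := Nat.cast_nonneg _
    have h3 : min ζ 1 ≤ ζ := min_le_left _ _
    exact mul_le_mul_of_nonneg_right (mul_le_mul_of_nonneg_right h3 h1) h2
  have hexp' : ∀ (s : Bool) (X : Finset V), τ * Fintype.card V ≤ X.card →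
      min ((X.card : ℝ) + β * Fintype.card V) (Fintype.card V) ≤ ((stp R β s X).card : ℝ) := by
    intro s X hX
    have := hexp V R hn1 hR hrob' s X hX
    unfold stp
    convert this using 2
  have hSτ : τ * Fintype.card V ≤ S.card :=
    le_trans (mul_le_mul_of_nonneg_right hτβ' hnpos.le) hS
  have hYq := Ys_card hβ hτ0 hτ1 hexp' hSτ q
  have hYq' : Ys R β S q = univ := by
    rw [← Finset.card_eq_iff_eq_univ]
    apply le_antisymm (Finset.card_le_univ _)
    have h1 : (Fintype.card V : ℝ) ≤ (Ys R β S q).card := by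
      refine le_trans (le_min ?_ le_rfl) hYq
      have h2 : (Fintype.card V : ℝ) ≤ q * β * Fintype.card V := by nlinarith
      have h3 : 0 ≤ τ * Fintype.card V := by positivity
      linarith
    exact_mod_cast h1
  have hZc : (Z.card : ℝ) ≤ c / 2 * Fintype.card V := by
    refine le_trans hZ (mul_le_mul_of_nonneg_right ?_ hnpos.le)
    have : min c β' ≤ c := min_le_left _ _
    linarith
  have hZS' : ∃ y ∈ S', y ∉ Z := by
    by_contra hcon
    push Not at hcon
    have h1 : S'.card ≤ Z.card := Finset.card_le_card hcon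
    have h2 : (S'.card : ℝ) ≤ Z.card := by exact_mod_cast h1
    have h3 : min c β' ≤ β' := min_le_right _ _
    have h4 : min c β' / 2 * Fintype.card V ≤ β' / 2 * Fintype.card V :=
      mul_le_mul_of_nonneg_right (by linarith) hnpos.le
    have h5 : 0 < β' * Fintype.card V := by positivity
    linarith
  obtain ⟨y₀, hy₀S', hy₀Z⟩ := hZS'
  obtain ⟨f, F, hf0, hfq, hRF, hinj, hFinj, hne, hfZ, hFZ⟩ := chain hβ T S q y₀ Z
    (by rw [hYq']; exact Finset.mem_univ _) (by
      rw [← hc]
      linarith)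
  refine ⟨fun i => f i, fun i t => F i t, hf0, ?_, ?_, ?_, ?_, ?_, ?_, ?_⟩
  · show f (Fin.last q : ℕ) ∈ S'
    rw [Fin.val_last, hfq]
    exact hy₀S'
  · intro i t
    have := hRF i i.2 t
    simpa using this
  · intro i i' h
    exact Fin.ext (hinj i (Nat.lt_succ_iff.1 i.2) i' (Nat.lt_succ_iff.1 i'.2) h)
  · intro p p' h
    have := hFinj p.1 p.1.2 p.2 p'.1 p'.1.2 p'.2 h
    exact Prod.ext (Fin.ext this.1) this.2
  · intro i p
    exact hne i (Nat.lt_succ_iff.1 i.2) p.1 p.1.2 p.2
  · intro i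
    rcases Nat.lt_or_eq_of_le (Nat.lt_succ_iff.1 i.2) with h | h
    · exact hfZ i h
    · show f (i : ℕ) ∉ Z
      rw [h, hfq]
      exact hy₀Z
  · intro i t
    exact hFZ i i.2 t

end Pool.Agent.Lib.RobT
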