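import Pool.Agent.Lib.RobT.Gc

/-!
# Gp: path gadgets (about 250 lines)

We may assume `ζ ≤ 1`.  `l, ε` from `connect`.  Seeds are chosen greedily: `r` seeds `x i` such
that few (weighted) vertices `v` have no `R (x i) v`, and `r` seeds `y i` such that few vertices
have no `R v (y i)`; one step lowers the weight of the rejected vertices by the factor `1 - ζ/4`.
CONNECTION.  For `j = 0, …, 2r-2` connect seed `j` with seed `j+1` by a directed path of length `l`
(`Con`, `w = true`), avoiding `Z`, all seeds and everything chosen so far.  Together this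
is a directed path with `L = (2 r - 1) l + 1` vertices, seed `j` being vertex number `j l`.
-/

namespace Pool.Agent.Lib.RobT

open Finset

/-- A directed path with `L` vertices. -/
structure PG.Ok {V : Type} {L : ℕ} (R : V → V → Prop) (p : Fin L → V) : Prop where
  inj : Function.Injective p
  arc : ∀ i j : Fin L, (i : ℕ) + 1 = j → R (p i) (p j)

/-- `v` can be inserted. -/
def PG.Acc {V : Type} {L : ℕ} (R : V → V → Prop) (p : Fin L → V) (v : V) : Prop :=
  ∃ i j : Fin L, i < j ∧ R (p i) v ∧ R v (p j)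

open Classical in
private lemma gp_step {V : Type} [Fintype V] [DecidableEq V] {R : V → V → Prop} {ζ : ℝ}
    (hR : IsTour R) (hrob : Rob ζ R) (hζ : 0 < ζ) (hζ1 : ζ ≤ 1) (s : Bool)
    (hn : 2 ≤ Fintype.card V) (F : Finset V) (hF : (F.card : ℝ) ≤ ζ / 8 * Fintype.card V)
    (U : Finset V) (w : V → ℝ) (hw : ∀ v, 0 ≤ w v) :
    ∃ x, x ∉ F ∧ ∑ v ∈ U.filter (fun v => ¬ Arc R s v x), w v ≤ (1 - ζ / 4) * ∑ v ∈ U, w v := by
  by_contra hcon
  have hcon' : ∀ x, x ∉ F → (1 - ζ / 4) * ∑ v ∈ U, w v <
      ∑ v ∈ U.filter (fun v => ¬ Arc R s v x), w v := by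
    intro x hx
    by_contra h
    exact hcon ⟨x, hx, not_lt.mp h⟩
  have hn2 : (2 : ℝ) ≤ (Fintype.card V : ℝ) := by exact_mod_cast hn
  set n : ℝ := (Fintype.card V : ℝ) with hn'
  set W : ℝ := ∑ v ∈ U, w v with hW
  have hW0 : 0 ≤ W := Finset.sum_nonneg fun v _ => hw v
  have hcard : ((Fᶜ).card : ℝ) = n - F.card := by
    rw [Finset.card_compl, Nat.cast_sub (Finset.card_le_univ F)]
  have hFc : (1 - ζ / 8) * n ≤ ((Fᶜ).card : ℝ) := by rw [hcard]; linarith
  have hne : (Fᶜ).Nonempty := by
    rw [← Finset.card_pos]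
    have : (0 : ℝ) < ((Fᶜ).card : ℝ) := by
      have : 0 < (1 - ζ / 8) * n := by
        apply mul_pos <;> linarith
      linarith
    exact_mod_cast this
  have h1 : ∑ _x ∈ Fᶜ, (1 - ζ / 4) * W <
      ∑ x ∈ Fᶜ, ∑ v ∈ U.filter (fun v => ¬ Arc R s v x), w v :=
    Finset.sum_lt_sum_of_nonempty hne fun x hx => hcon' x (Finset.mem_compl.mp hx)
  have h2 : ∑ x ∈ Fᶜ, ∑ v ∈ U.filter (fun v => ¬ Arc R s v x), w v ≤ W * (n - ζ * (n - 1)) := by
    have e1 : ∑ x ∈ Fᶜ, ∑ v ∈ U.filter (fun v => ¬ Arc R s v x), w v =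
        ∑ v ∈ U, w v * (((Fᶜ).filter fun x => ¬ Arc R s v x).card : ℝ) := by
      calc ∑ x ∈ Fᶜ, ∑ v ∈ U.filter (fun v => ¬ Arc R s v x), w v
          = ∑ x ∈ Fᶜ, ∑ v ∈ U, if ¬ Arc R s v x then w v else 0 := by
            refine Finset.sum_congr rfl fun x _ => ?_
            rw [Finset.sum_filter]
        _ = ∑ v ∈ U, ∑ x ∈ Fᶜ, if ¬ Arc R s v x then w v else 0 := Finset.sum_comm
        _ = _ := by
            refine Finset.sum_congr rfl fun v _ => ?_
            rw [← Finset.sum_filter, Finset.sum_const, nsmul_eq_mul, mul_comm]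
    rw [e1, hW, Finset.sum_mul]
    refine Finset.sum_le_sum fun v _ => mul_le_mul_of_nonneg_left ?_ (hw v)
    have h3 : ((Fᶜ).filter fun x => ¬ Arc R s v x) ⊆ (Nb R s v)ᶜ := by
      intro x hx
      simp only [Finset.mem_filter, Finset.mem_compl, Nb, Finset.mem_univ, true_and] at hx ⊢
      exact hx.2
    have h4 : (((Fᶜ).filter fun x => ¬ Arc R s v x).card : ℝ) ≤ (((Nb R s v)ᶜ).card : ℝ) := by
      exact_mod_cast Finset.card_le_card h3
    have h5 : (((Nb R s v)ᶜ).card : ℝ) = n - (Nb R s v).card := by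
      rw [Finset.card_compl, Nat.cast_sub (Finset.card_le_univ _)]
    have h6 := deg_lo hR hrob s v
    rw [h5] at h4
    linarith
  rw [Finset.sum_const, nsmul_eq_mul] at h1
  have h7 : (1 - ζ / 8) * n * ((1 - ζ / 4) * W) ≤ ((Fᶜ).card : ℝ) * ((1 - ζ / 4) * W) :=
    mul_le_mul_of_nonneg_right hFc (mul_nonneg (by linarith) hW0)
  have h8 : W * (n - ζ * (n - 1)) ≤ (1 - ζ / 8) * n * ((1 - ζ / 4) * W) := by
    have h9 : n - ζ * (n - 1) ≤ (1 - ζ / 8) * n * (1 - ζ / 4) := by
      nlinarith [mul_pos hζ hζ, mul_nonneg hζ.le (by linarith : (0 : ℝ) ≤ n - 2),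
        mul_nonneg (mul_pos hζ hζ).le (by linarith : (0 : ℝ) ≤ n)]
    calc W * (n - ζ * (n - 1)) ≤ W * ((1 - ζ / 8) * n * (1 - ζ / 4)) :=
          mul_le_mul_of_nonneg_left h9 hW0
      _ = _ := by ring
  linarith

open Classical in
private lemma gp_seeds {V : Type} [Fintype V] [DecidableEq V] {R : V → V → Prop} {ζ : ℝ}
    (hR : IsTour R) (hrob : Rob ζ R) (hζ : 0 < ζ) (hζ1 : ζ ≤ 1) (s : Bool)
    (hn : 2 ≤ Fintype.card V) (w : V → ℝ) (hw : ∀ v, 0 ≤ w v) (r : ℕ) :
    ∀ F : Finset V, (F.card : ℝ) + r ≤ ζ / 8 * Fintype.card V →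
    ∃ x : ℕ → V, Set.InjOn x (Set.Iio r) ∧ (∀ i < r, x i ∉ F) ∧
      ∑ v ∈ univ.filter (fun v => ∀ i < r, ¬ Arc R s v (x i)), w v ≤
        (1 - ζ / 4) ^ r * ∑ v, w v := by
  induction r with
  | zero =>
    intro F _
    have : Nonempty V := Fintype.card_pos_iff.mp (by omega)
    refine ⟨fun _ => this.some, ?_, ?_, ?_⟩
    · intro a ha
      simp at ha
    · intro i hi
      omega
    · simp
  | succ r ih =>
    intro F hF
    push_cast at hF
    obtain ⟨x, hinj, hxF, hsum⟩ := ih F (by linarith)
    obtain ⟨y, hyF, hy⟩ := gp_step hR hrob hζ hζ1 s hn (F ∪ (range r).image x)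
      (by
        have h1 : ((F ∪ (range r).image x).card : ℝ) ≤ (F.card : ℝ) + r := by
          have := Finset.card_union_le F ((range r).image x)
          have h2 : ((range r).image x).card ≤ r := by
            simpa using Finset.card_image_le (s := range r) (f := x)
          have h3 : (F ∪ (range r).image x).card ≤ F.card + r := by omega
          exact_mod_cast h3
        linarith)
      (univ.filter (fun v => ∀ i < r, ¬ Arc R s v (x i))) w hw
    have hyF' : y ∉ F := fun h => hyF (Finset.mem_union_left _ h)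
    have hyx : ∀ i < r, x i ≠ y := fun i hi h =>
      hyF (Finset.mem_union_right _ (Finset.mem_image.mpr ⟨i, Finset.mem_range.mpr hi, h⟩))
    refine ⟨fun i => if i = r then y else x i, ?_, ?_, ?_⟩
    · intro a ha b hb hab
      simp only [Set.mem_Iio] at ha hb
      by_cases h1 : a = r
      · by_cases h2 : b = r
        · rw [h1, h2]
        · simp only [h1, h2, if_true, if_false] at hab
          exact absurd hab.symm (hyx b (by omega))
      · by_cases h2 : b = r
        · simp only [h1, h2, if_true, if_false] at hab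
          exact absurd hab (hyx a (by omega))
        · simp only [h1, h2, if_false] at hab
          exact hinj (by simp only [Set.mem_Iio]; omega) (by simp only [Set.mem_Iio]; omega) hab
    · intro i hi
      by_cases h1 : i = r
      · simp only [h1, if_true]; exact hyF'
      · simp only [h1, if_false]; exact hxF i (by omega)
    · have hset : univ.filter (fun v => ∀ i < r + 1, ¬ Arc R s v (if i = r then y else x i)) =
          (univ.filter (fun v => ∀ i < r, ¬ Arc R s v (x i))).filter
            (fun v => ¬ Arc R s v y) := by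
        ext v
        simp only [Finset.mem_filter, Finset.mem_univ, true_and]
        constructor
        · intro h
          refine ⟨fun i hi => ?_, ?_⟩
          · have := h i (by omega)
            rwa [if_neg (by omega)] at this
          · have := h r (by omega)
            rwa [if_pos rfl] at this
        · rintro ⟨h1, h2⟩ i hi
          by_cases h3 : i = r
          · rw [if_pos h3]; exact h2
          · rw [if_neg h3]; exact h1 i (by omega)
      rw [hset]
      calc _ ≤ (1 - ζ / 4) * ∑ v ∈ univ.filter (fun v => ∀ i < r, ¬ Arc R s v (x i)), w v := hy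
        _ ≤ (1 - ζ / 4) * ((1 - ζ / 4) ^ r * ∑ v, w v) :=
            mul_le_mul_of_nonneg_left hsum (by linarith)
        _ = _ := by rw [pow_succ]; ring

private lemma gp_conn {V : Type} [Fintype V] [DecidableEq V] {R : V → V → Prop} {l : ℕ} {ε : ℝ}
    (hl : 2 ≤ l) (hcon : Con l ε R) (Z : Finset V) (M : ℕ) (S : ℕ → V)
    (hS : Set.InjOn S (Set.Iio M)) (hSZ : ∀ i < M, S i ∉ Z)
    (hsize : (Z.card : ℝ) + M + M * l + 1 ≤ ε * Fintype.card V) (k : ℕ) (hk : k < M) :
    ∃ p : ℕ → V, (∀ j ≤ k, p (j * l) = S j) ∧ Set.InjOn p (Set.Iic (k * l)) ∧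
      (∀ i ≤ k * l, p i ∉ Z) ∧ (∀ i < k * l, R (p i) (p (i + 1))) ∧
      (∀ i ≤ k * l, ∀ j, k < j → j < M → p i ≠ S j) := by
  induction k with
  | zero =>
    refine ⟨fun _ => S 0, ?_, ?_, ?_, ?_, ?_⟩
    · intro j hj
      rw [Nat.le_zero.mp hj]
    · intro a ha b hb _
      simp only [Nat.zero_mul, Set.mem_Iic] at ha hb
      omega
    · intro i _
      exact hSZ 0 hk
    · intro i hi
      omega
    · intro i _ j hj hjM h
      have := hS (by simpa using hk) (by simpa using hjM) h
      omega
  | succ k ih =>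
    obtain ⟨p, hp1, hp2, hp3, hp4, hp5⟩ := ih (by omega)
    have huv : S k ≠ S (k + 1) := by
      intro h
      have := hS (by simp only [Set.mem_Iio]; omega) (by simpa using hk) h
      omega
    set Z' : Finset V := (Z ∪ (range M).image S) ∪ (range (k * l + 1)).image p with hZ'
    have hZc : (Z'.card : ℝ) ≤ ε * Fintype.card V := by
      have h1 : Z'.card ≤ Z.card + M + (k * l + 1) := by
        have a1 := Finset.card_union_le (Z ∪ (range M).image S) ((range (k * l + 1)).image p)
        have a2 := Finset.card_union_le Z ((range M).image S)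
        have a3 : ((range M).image S).card ≤ M := by
          simpa using Finset.card_image_le (s := range M) (f := S)
        have a4 : ((range (k * l + 1)).image p).card ≤ k * l + 1 := by
          simpa using Finset.card_image_le (s := range (k * l + 1)) (f := p)
        rw [hZ']
        omega
      have h2 : k * l ≤ M * l := Nat.mul_le_mul_right _ (by omega)
      have h3 : Z'.card ≤ Z.card + M + M * l + 1 := by omega
      have h4 : (Z'.card : ℝ) ≤ (Z.card : ℝ) + M + M * l + 1 := by exact_mod_cast h3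
      linarith
    obtain ⟨z, hz0, hzl, hza, hzi, hzinj⟩ := hcon (fun _ => true) (S k) (S (k + 1)) huv Z' hZc
    have hzZ : ∀ i, 0 < i → i < l → z i ∉ Z := fun i h1 h2 h3 =>
      (hzi i h1 h2).1 (Finset.mem_union_left _ (Finset.mem_union_left _ h3))
    have hzS : ∀ i, 0 < i → i < l → ∀ j < M, z i ≠ S j := fun i h1 h2 j hj h3 =>
      (hzi i h1 h2).1 (Finset.mem_union_left _ (Finset.mem_union_right _
        (Finset.mem_image.mpr ⟨j, Finset.mem_range.mpr hj, h3.symm⟩)))
    have hzp : ∀ i, 0 < i → i < l → ∀ j ≤ k * l, z i ≠ p j := fun i h1 h2 j hj h3 =>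
      (hzi i h1 h2).1 (Finset.mem_union_right _
        (Finset.mem_image.mpr ⟨j, Finset.mem_range.mpr (by omega), h3.symm⟩))
    have hzp' : ∀ i, 0 < i → i ≤ l → ∀ j ≤ k * l, z i ≠ p j := by
      intro i h1 h2 j hj h3
      rcases Nat.lt_or_ge i l with h4 | h4
      · exact hzp i h1 h4 j hj h3
      · have : i = l := le_antisymm h2 h4
        rw [this, hzl] at h3
        exact hp5 j hj (k + 1) (by omega) hk h3.symm
    have hkl : (k + 1) * l = k * l + l := by ring
    have hpk : p (k * l) = z 0 := by rw [hp1 k le_rfl, hz0]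
    refine ⟨fun i => if i ≤ k * l then p i else z (i - k * l), ?_, ?_, ?_, ?_, ?_⟩
    · intro j hj
      rcases Nat.lt_or_ge j (k + 1) with h1 | h1
      · have h2 : j * l ≤ k * l := Nat.mul_le_mul_right _ (by omega)
        simp only [h2, if_true]
        exact hp1 j (by omega)
      · have h2 : j = k + 1 := le_antisymm hj h1
        subst h2
        have h3 : ¬ ((k + 1) * l ≤ k * l) := by rw [hkl]; omega
        simp only [h3, if_false]
        have h4 : (k + 1) * l - k * l = l := by rw [hkl]; omega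
        rw [h4, hzl]
    · intro a ha b hb hab
      simp only [Set.mem_Iic, hkl] at ha hb
      by_cases h1 : a ≤ k * l
      · by_cases h2 : b ≤ k * l
        · simp only [h1, h2, if_true] at hab
          exact hp2 h1 h2 hab
        · simp only [h1, h2, if_true, if_false] at hab
          exact absurd hab.symm (hzp' _ (by omega) (by omega) a h1)
      · by_cases h2 : b ≤ k * l
        · simp only [h1, h2, if_true, if_false] at hab
          exact absurd hab (hzp' _ (by omega) (by omega) b h2)
        · simp only [h1, h2, if_false] at hab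
          have := hzinj (by simp only [Set.mem_Iic]; omega) (by simp only [Set.mem_Iic]; omega) hab
          omega
    · intro i hi
      rw [hkl] at hi
      by_cases h1 : i ≤ k * l
      · simp only [h1, if_true]; exact hp3 i h1
      · simp only [h1, if_false]
        rcases Nat.lt_or_ge (i - k * l) l with h2 | h2
        · exact hzZ _ (by omega) h2
        · have h3 : i - k * l = l := by omega
          rw [h3, hzl]
          exact hSZ _ hk
    · intro i hi
      rw [hkl] at hi
      have harc : ∀ j < l, R (z j) (z (j + 1)) := by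
        intro j hj
        rcases hza j hj with h | h
        · exact h.2
        · exact absurd h.1 (by simp)
      rcases Nat.lt_trichotomy i (k * l) with h1 | h1 | h1
      · have h2 : i ≤ k * l := h1.le
        have h3 : i + 1 ≤ k * l := h1
        simp only [h2, h3, if_true]
        exact hp4 i h1
      · have h2 : i ≤ k * l := h1.le
        have h3 : ¬ (i + 1 ≤ k * l) := by omega
        simp only [h2, h3, if_true, if_false]
        have h4 : i + 1 - k * l = 0 + 1 := by omega
        rw [h4, h1, hpk]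
        exact harc 0 (by omega)
      · have h2 : ¬ (i ≤ k * l) := by omega
        have h3 : ¬ (i + 1 ≤ k * l) := by omega
        simp only [h2, h3, if_false]
        have h4 : i + 1 - k * l = (i - k * l) + 1 := by omega
        rw [h4]
        exact harc _ (by omega)
    · intro i hi j hj hjM
      rw [hkl] at hi
      by_cases h1 : i ≤ k * l
      · simp only [h1, if_true]; exact hp5 i h1 j (by omega) hjM
      · simp only [h1, if_false]
        rcases Nat.lt_or_ge (i - k * l) l with h2 | h2
        · exact hzS _ (by omega) h2 j hjM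
        · have h3 : i - k * l = l := by omega
          rw [h3, hzl]
          intro h4
          have := hS (by simpa using hk) (by simpa using hjM) h4
          omega

open Classical in
theorem gadII (ζ : ℝ) (hζ : 0 < ζ) :
    ∃ (L : ℕ) (θ₀ : ℝ) (n₀ : ℕ), 3 ≤ L ∧ 0 < θ₀ ∧ ∀ (V : Type) [Fintype V] [DecidableEq V]
      (R : V → V → Prop), n₀ ≤ Fintype.card V → IsTour R → Rob ζ R →
      ∀ Z : Finset V, (Z.card : ℝ) ≤ θ₀ * Fintype.card V → ∀ w : V → ℝ, (∀ v, 0 ≤ w v) →
      ∃ p : Fin L → V, PG.Ok R p ∧ Disjoint (univ.image p) Z ∧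
        ((univ.filter fun v => ¬ PG.Acc R p v).card : ℝ) ≤ Fintype.card V / 10 ∧
        ∑ v ∈ univ.filter (fun v => ¬ PG.Acc R p v), w v ≤ 1 / 50 * ∑ v, w v := by
  set ζ' : ℝ := min ζ 1 with hζ'
  have hz0 : 0 < ζ' := lt_min hζ one_pos
  have hz1 : ζ' ≤ 1 := min_le_right _ _
  have hzz : ζ' ≤ ζ := min_le_left _ _
  obtain ⟨l, ε, n₁, hl, hε, hcon⟩ := connect ζ' hz0
  obtain ⟨r₀, hr₀⟩ := exists_pow_lt_of_lt_one (show (0 : ℝ) < 1 / 200 by norm_num)
    (show 1 - ζ' / 4 < 1 by linarith)
  set r : ℕ := r₀ + 1 with hr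
  have hpow : (1 - ζ' / 4) ^ r ≤ 1 / 200 := by
    rw [hr, pow_succ]
    have h1 : 0 ≤ (1 - ζ' / 4) ^ r₀ := pow_nonneg (by linarith) _
    have h2 : (1 - ζ' / 4) ^ r₀ * (1 - ζ' / 4) ≤ (1 - ζ' / 4) ^ r₀ * 1 :=
      mul_le_mul_of_nonneg_left (by linarith) h1
    linarith
  set L : ℕ := (2 * r - 1) * l + 1 with hL
  have hL3 : 3 ≤ L := by
    have h1 : 1 ≤ 2 * r - 1 := by omega
    have h2 : 1 * 2 ≤ (2 * r - 1) * l := Nat.mul_le_mul h1 hl
    omega
  set θ : ℝ := min (ζ' / 16) (ε / 2) with hθ
  have hθ0 : 0 < θ := lt_min (by linarith) (by linarith)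
  obtain ⟨n₂, hn₂⟩ := exists_nat_ge ((2 * (r : ℝ)) / (ζ' / 16))
  obtain ⟨n₃, hn₃⟩ := exists_nat_ge ((2 * (r : ℝ) + 2 * r * l + 1) / (ε / 2))
  refine ⟨L, θ, max (max n₁ n₂) (max n₃ 2), hL3, hθ0, ?_⟩
  intro V _ _ R hn hR hrob Z hZ w hw
  have hn1 : n₁ ≤ Fintype.card V := le_trans (le_trans (le_max_left _ _) (le_max_left _ _)) hn
  have hn2 : n₂ ≤ Fintype.card V := le_trans (le_trans (le_max_right _ _) (le_max_left _ _)) hn
  have hn3 : n₃ ≤ Fintype.card V := le_trans (le_trans (le_max_left _ _) (le_max_right _ _)) hn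
  have hn4 : 2 ≤ Fintype.card V := le_trans (le_trans (le_max_right _ _) (le_max_right _ _)) hn
  have hrob' : Rob ζ' R := by
    intro A
    refine le_trans ?_ (hrob A)
    have h1 : (0 : ℝ) ≤ A.card := Nat.cast_nonneg _
    have h2 : (0 : ℝ) ≤ (Aᶜ).card := Nat.cast_nonneg _
    exact mul_le_mul_of_nonneg_right (mul_le_mul_of_nonneg_right hzz h1) h2
  have hC : Con l ε R := hcon V R hn1 hR hrob'
  set n : ℝ := (Fintype.card V : ℝ) with hnn
  have hnpos : (2 : ℝ) ≤ n := by rw [hnn]; exact_mod_cast hn4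
  have hb1 : 2 * (r : ℝ) ≤ ζ' / 16 * n := by
    have h1 : (2 * (r : ℝ)) / (ζ' / 16) ≤ n := le_trans hn₂ (by rw [hnn]; exact_mod_cast hn2)
    have h2 := (div_le_iff₀ (by linarith : (0 : ℝ) < ζ' / 16)).mp h1
    linarith
  have hb2 : 2 * (r : ℝ) + 2 * r * l + 1 ≤ ε / 2 * n := by
    have h1 : (2 * (r : ℝ) + 2 * r * l + 1) / (ε / 2) ≤ n :=
      le_trans hn₃ (by rw [hnn]; exact_mod_cast hn3)
    have h2 := (div_le_iff₀ (by linarith : (0 : ℝ) < ε / 2)).mp h1
    linarith
  have hZ1 : (Z.card : ℝ) ≤ ζ' / 16 * n :=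
    le_trans hZ (mul_le_mul_of_nonneg_right (min_le_left _ _) (by linarith))
  have hZ2 : (Z.card : ℝ) ≤ ε / 2 * n :=
    le_trans hZ (mul_le_mul_of_nonneg_right (min_le_right _ _) (by linarith))
  -- the combined weight
  set W : ℝ := ∑ v, w v with hW
  have hW0 : 0 ≤ W := Finset.sum_nonneg fun v _ => hw v
  set w' : V → ℝ := fun v => w v / W + 1 / n with hw'
  have hw'0 : ∀ v, 0 ≤ w' v := fun v =>
    add_nonneg (div_nonneg (hw v) hW0) (by positivity)
  have hw'sum : ∑ v, w' v ≤ 2 := by
    rw [hw', Finset.sum_add_distrib, ← Finset.sum_div, Finset.sum_const, Finset.card_univ,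
      nsmul_eq_mul]
    have h1 : (∑ v, w v) / W ≤ 1 := div_self_le_one W
    have h2 : (Fintype.card V : ℝ) * (1 / n) = 1 := by
      rw [← hnn]; field_simp
    rw [h2]
    linarith
  -- the seeds
  obtain ⟨x, hxinj, hxZ, hxs⟩ := gp_seeds hR hrob' hz0 hz1 false hn4 w' hw'0 r Z
    (by rw [← hnn]; have : (0 : ℝ) ≤ r := Nat.cast_nonneg _; linarith)
  obtain ⟨y, hyinj, hyZ, hys⟩ := gp_seeds hR hrob' hz0 hz1 true hn4 w' hw'0 r
    (Z ∪ (range r).image x)
    (by
      rw [← hnn]
      have h1 : ((Z ∪ (range r).image x).card : ℝ) ≤ (Z.card : ℝ) + r := by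
        have := Finset.card_union_le Z ((range r).image x)
        have h2 : ((range r).image x).card ≤ r := by
          simpa using Finset.card_image_le (s := range r) (f := x)
        have h3 : (Z ∪ (range r).image x).card ≤ Z.card + r := by omega
        exact_mod_cast h3
      linarith)
  have hyZ' : ∀ i < r, y i ∉ Z := fun i hi h => hyZ i hi (Finset.mem_union_left _ h)
  have hxy : ∀ i < r, ∀ j < r, x i ≠ y j := fun i hi j hj h =>
    hyZ j hj (Finset.mem_union_right _
      (Finset.mem_image.mpr ⟨i, Finset.mem_range.mpr hi, h⟩))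
  set S : ℕ → V := fun i => if i < r then x i else y (i - r) with hS
  have hSinj : Set.InjOn S (Set.Iio (2 * r)) := by
    intro a ha b hb hab
    simp only [Set.mem_Iio] at ha hb
    simp only [hS] at hab
    by_cases h1 : a < r
    · by_cases h2 : b < r
      · simp only [h1, h2, if_true] at hab
        exact hxinj h1 h2 hab
      · simp only [h1, h2, if_true, if_false] at hab
        exact absurd hab (hxy a h1 _ (by omega))
    · by_cases h2 : b < r
      · simp only [h1, h2, if_true, if_false] at hab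
        exact absurd hab.symm (hxy b h2 _ (by omega))
      · simp only [h1, h2, if_false] at hab
        have := hyinj (by simp only [Set.mem_Iio]; omega) (by simp only [Set.mem_Iio]; omega) hab
        omega
  have hSZ : ∀ i < 2 * r, S i ∉ Z := by
    intro i hi
    simp only [hS]
    by_cases h1 : i < r
    · simp only [h1, if_true]; exact hxZ i h1
    · simp only [h1, if_false]; exact hyZ' _ (by omega)
  obtain ⟨p, hp1, hp2, hp3, hp4, -⟩ := gp_conn hl hC Z (2 * r) S hSinj hSZ
    (by
      rw [← hnn]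
      push_cast
      linarith) (2 * r - 1) (by omega)
  have hlt : ∀ j < 2 * r, j * l < L := by
    intro j hj
    have h1 : j * l ≤ (2 * r - 1) * l := Nat.mul_le_mul_right _ (by omega)
    omega
  -- not accepted implies rejected
  have hsub : (univ.filter fun v => ¬ PG.Acc R (fun i : Fin L => p i) v) ⊆
      (univ.filter (fun v => ∀ i < r, ¬ Arc R false v (x i))) ∪
        (univ.filter (fun v => ∀ i < r, ¬ Arc R true v (y i))) := by
    intro v hv
    simp only [Finset.mem_union, Finset.mem_filter, Finset.mem_univ, true_and] at hv ⊢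
    by_contra hcon2
    push Not at hcon2
    obtain ⟨⟨i, hi, hai⟩, ⟨j, hj, haj⟩⟩ := hcon2
    apply hv
    refine ⟨⟨i * l, hlt i (by omega)⟩, ⟨(r + j) * l, hlt (r + j) (by omega)⟩, ?_, ?_, ?_⟩
    · rw [Fin.mk_lt_mk]
      exact Nat.mul_lt_mul_of_pos_right (by omega) (by omega)
    · show R (p (i * l)) v
      rw [hp1 i (by omega)]
      simp only [hS, hi, if_true]
      rcases hai with h | h
      · exact absurd h.1 (by simp)
      · exact h.2
    · show R v (p ((r + j) * l))
      rw [hp1 (r + j) (by omega)]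
      have h1 : ¬ (r + j < r) := by omega
      simp only [hS, h1, if_false]
      rw [Nat.add_sub_cancel_left]
      rcases haj with h | h
      · exact h.2
      · exact absurd h.1 (by simp)
  have hrej : ∑ v ∈ univ.filter (fun v => ¬ PG.Acc R (fun i : Fin L => p i) v), w' v ≤ 1 / 50 := by
    calc _ ≤ ∑ v ∈ (univ.filter (fun v => ∀ i < r, ¬ Arc R false v (x i))) ∪
            (univ.filter (fun v => ∀ i < r, ¬ Arc R true v (y i))), w' v :=
          Finset.sum_le_sum_of_subset_of_nonneg hsub fun v _ _ => hw'0 v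
      _ ≤ ∑ v ∈ univ.filter (fun v => ∀ i < r, ¬ Arc R false v (x i)), w' v +
            ∑ v ∈ univ.filter (fun v => ∀ i < r, ¬ Arc R true v (y i)), w' v := by
          have h1 := Finset.sum_union_inter
            (s₁ := univ.filter (fun v => ∀ i < r, ¬ Arc R false v (x i)))
            (s₂ := univ.filter (fun v => ∀ i < r, ¬ Arc R true v (y i))) (f := w')
          have h2 : 0 ≤ ∑ v ∈ (univ.filter (fun v => ∀ i < r, ¬ Arc R false v (x i))) ∩
            (univ.filter (fun v => ∀ i < r, ¬ Arc R true v (y i))), w' v :=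
            Finset.sum_nonneg fun v _ => hw'0 v
          linarith
      _ ≤ (1 - ζ' / 4) ^ r * ∑ v, w' v + (1 - ζ' / 4) ^ r * ∑ v, w' v := add_le_add hxs hys
      _ ≤ 1 / 200 * 2 + 1 / 200 * 2 := by
          have h0 : 0 ≤ ∑ v, w' v := Finset.sum_nonneg fun v _ => hw'0 v
          have h1 : (1 - ζ' / 4) ^ r * ∑ v, w' v ≤ 1 / 200 * 2 :=
            mul_le_mul hpow hw'sum h0 (by norm_num)
          linarith
      _ = 1 / 50 := by norm_num
  refine ⟨fun i : Fin L => p i, ⟨?_, ?_⟩, ?_, ?_, ?_⟩
  · intro a b hab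
    have ha : (a : ℕ) ≤ (2 * r - 1) * l := by have := a.2; omega
    have hb : (b : ℕ) ≤ (2 * r - 1) * l := by have := b.2; omega
    exact Fin.ext (hp2 ha hb hab)
  · intro i j hij
    have hj : (j : ℕ) ≤ (2 * r - 1) * l := by have := j.2; omega
    show R (p i) (p j)
    rw [← hij]
    exact hp4 i (by omega)
  · rw [Finset.disjoint_left]
    intro v hv hvZ
    rw [Finset.mem_image] at hv
    obtain ⟨i, -, rfl⟩ := hv
    exact hp3 i (by have := i.2; omega) hvZ
  · have h1 : ((univ.filter fun v => ¬ PG.Acc R (fun i : Fin L => p i) v).card : ℝ) * (1 / n) ≤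
        ∑ v ∈ univ.filter (fun v => ¬ PG.Acc R (fun i : Fin L => p i) v), w' v := by
      rw [← nsmul_eq_mul, ← Finset.sum_const]
      refine Finset.sum_le_sum fun v _ => ?_
      simp only [hw']
      have := div_nonneg (hw v) hW0
      linarith
    have h2 : ((univ.filter fun v => ¬ PG.Acc R (fun i : Fin L => p i) v).card : ℝ) * (1 / n) ≤
        1 / 50 := le_trans h1 hrej
    have h3 : ((univ.filter fun v => ¬ PG.Acc R (fun i : Fin L => p i) v).card : ℝ) ≤ 1 / 50 * n := by
      have hn0 : (0 : ℝ) < n := by linarith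
      have h4 := mul_le_mul_of_nonneg_right h2 hn0.le
      have h5 : ((univ.filter fun v => ¬ PG.Acc R (fun i : Fin L => p i) v).card : ℝ) * (1 / n) * n =
          ((univ.filter fun v => ¬ PG.Acc R (fun i : Fin L => p i) v).card : ℝ) := by
        field_simp
      linarith
    linarith
  · rcases hW0.eq_or_lt with h0 | h0
    · have h1 : ∑ v ∈ univ.filter (fun v => ¬ PG.Acc R (fun i : Fin L => p i) v), w v ≤ W :=
        Finset.sum_le_sum_of_subset_of_nonneg (Finset.filter_subset _ _) fun v _ _ => hw v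
      linarith
    · have h1 : (∑ v ∈ univ.filter (fun v => ¬ PG.Acc R (fun i : Fin L => p i) v), w v) / W ≤
          ∑ v ∈ univ.filter (fun v => ¬ PG.Acc R (fun i : Fin L => p i) v), w' v := by
        rw [Finset.sum_div]
        refine Finset.sum_le_sum fun v _ => ?_
        simp only [hw']
        have : (0 : ℝ) ≤ 1 / n := by positivity
        linarith
      have h2 := le_trans h1 hrej
      rwa [div_le_iff₀ h0] at h2

end Pool.Agent.Lib.RobT
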