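import Pool.Agent.Lib.RobT.Defs

/-!
# Gs: sequential choice of disjoint objects with few bad ones for every index (about 90 lines)

Choose `g 0, g 1, …` one after the other.  Weights `w_i = exp (number of bad objects for i so far)`,
`Z` = union of the vertex sets so far (`|Z| ≤ f D`); the hypothesis gives the next object, and
`∑ w_i` is multiplied by at most `1 + (e - 1) p ≤ exp (2 p)` (`w_i` is multiplied by `e` if `i` is
bad).  At the end `exp (bad i) ≤ ∑ w ≤ |I| exp (2 p f)`.
Formally: by induction on `t ≤ f` there is `g : Fin t → G` with the first two properties and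
`∑_i exp (#{j | Bad (g j) i}) ≤ |I| exp (2 p t)`.
-/

namespace Pool.Agent.Lib.RobT

open Finset

open Classical in
private theorem gs_aux {G V I : Type} [Fintype I] [DecidableEq V] (vs : G → Finset V)
    (Ok : G → Prop) (Bad : G → I → Prop) (f D : ℕ) (p : ℝ) (hp : 0 ≤ p)
    (h : ∀ Z : Finset V, Z.card ≤ f * D → ∀ w : I → ℝ, (∀ i, 0 ≤ w i) →
      ∃ g, Ok g ∧ (vs g).card ≤ D ∧ Disjoint (vs g) Z ∧
        ∑ i ∈ univ.filter (Bad g), w i ≤ p * ∑ i, w i) :
    ∀ t : ℕ, t ≤ f → ∃ g : Fin t → G, (∀ j, Ok (g j)) ∧ (∀ j, (vs (g j)).card ≤ D) ∧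
      (∀ j j', j ≠ j' → Disjoint (vs (g j)) (vs (g j'))) ∧
      ∑ i : I, Real.exp (∑ j, if Bad (g j) i then (1 : ℝ) else 0) ≤
        Fintype.card I * Real.exp (2 * p * t) := by
  intro t
  induction t with
  | zero =>
    intro _
    refine ⟨fun j => j.elim0, fun j => j.elim0, fun j => j.elim0, fun j => j.elim0, ?_⟩
    simp
  | succ t ih =>
    intro ht
    obtain ⟨g, hg1, hg2, hg3, hg4⟩ := ih (by omega)
    obtain ⟨g', h1, h2, h3, h4⟩ := h (univ.biUnion fun j => vs (g j)) (by
      refine le_trans Finset.card_biUnion_le ?_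
      calc ∑ j, (vs (g j)).card ≤ ∑ _j : Fin t, D := Finset.sum_le_sum fun j _ => hg2 j
        _ = t * D := by simp
        _ ≤ f * D := Nat.mul_le_mul_right D (by omega))
      (fun i => Real.exp (∑ j, if Bad (g j) i then (1 : ℝ) else 0)) (fun i => (Real.exp_pos _).le)
    rw [Finset.disjoint_biUnion_right] at h3
    refine ⟨Fin.snoc g g', ?_, ?_, ?_, ?_⟩
    · intro j
      refine Fin.lastCases ?_ (fun j => ?_) j
      · rw [Fin.snoc_last]; exact h1
      · rw [Fin.snoc_castSucc]; exact hg1 j
    · intro j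
      refine Fin.lastCases ?_ (fun j => ?_) j
      · rw [Fin.snoc_last]; exact h2
      · rw [Fin.snoc_castSucc]; exact hg2 j
    · intro j
      refine Fin.lastCases ?_ (fun j => ?_) j
      · intro j'
        refine Fin.lastCases ?_ (fun j' => ?_) j'
        · intro hne; exact absurd rfl hne
        · intro _
          rw [Fin.snoc_last, Fin.snoc_castSucc]
          exact h3 j' (mem_univ _)
      · intro j'
        refine Fin.lastCases ?_ (fun j' => ?_) j'
        · intro _
          rw [Fin.snoc_last, Fin.snoc_castSucc]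
          exact (h3 j (mem_univ _)).symm
        · intro hne
          rw [Fin.snoc_castSucc, Fin.snoc_castSucc]
          exact hg3 j j' (fun hh => hne (by rw [hh]))
    · set w : I → ℝ := fun i => Real.exp (∑ j, if Bad (g j) i then (1 : ℝ) else 0) with hw
      have hw0 : ∀ i, 0 ≤ w i := fun i => (Real.exp_pos _).le
      have he : Real.exp 1 ≤ 3 := by
        have := Real.exp_one_lt_d9
        linarith
      have hstep : ∀ i, Real.exp (∑ j : Fin (t + 1),
          if Bad (Fin.snoc (α := fun _ => G) g g' j) i then (1 : ℝ) else 0) ≤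
          w i + 2 * (if Bad g' i then w i else 0) := by
        intro i
        rw [Fin.sum_univ_castSucc]
        simp only [Fin.snoc_castSucc, Fin.snoc_last]
        rw [Real.exp_add]
        split_ifs with hb
        · have : w i * Real.exp 1 ≤ w i * 3 := mul_le_mul_of_nonneg_left he (hw0 i)
          have h5 : Real.exp (∑ j, if Bad (g j) i then (1 : ℝ) else 0) = w i := rfl
          rw [h5]
          linarith
        · rw [Real.exp_zero, mul_one, mul_zero, add_zero]
      have hsum : ∑ i, (w i + 2 * (if Bad g' i then w i else 0)) ≤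
          (∑ i, w i) * Real.exp (2 * p) := by
        rw [Finset.sum_add_distrib, ← Finset.mul_sum, ← Finset.sum_filter]
        have h6 : (∑ i, w i) * (1 + 2 * p) ≤ (∑ i, w i) * Real.exp (2 * p) := by
          refine mul_le_mul_of_nonneg_left ?_ (Finset.sum_nonneg fun i _ => hw0 i)
          have := Real.add_one_le_exp (2 * p)
          linarith
        have h7 : ∑ i ∈ univ.filter (Bad g'), w i ≤ p * ∑ i, w i := h4
        nlinarith
      calc ∑ i, Real.exp (∑ j : Fin (t + 1),
            if Bad (Fin.snoc (α := fun _ => G) g g' j) i then (1 : ℝ) else 0)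
          ≤ ∑ i, (w i + 2 * (if Bad g' i then w i else 0)) :=
            Finset.sum_le_sum fun i _ => hstep i
        _ ≤ (∑ i, w i) * Real.exp (2 * p) := hsum
        _ ≤ (Fintype.card I * Real.exp (2 * p * t)) * Real.exp (2 * p) :=
            mul_le_mul_of_nonneg_right hg4 (Real.exp_pos _).le
        _ = Fintype.card I * Real.exp (2 * p * (t + 1 : ℕ)) := by
            rw [mul_assoc, ← Real.exp_add]
            congr 2
            push_cast
            ring

open Classical in
theorem select {G V I : Type} [Fintype I] [DecidableEq V] (vs : G → Finset V) (Ok : G → Prop)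
    (Bad : G → I → Prop) (f D : ℕ) (p : ℝ) (hp : 0 ≤ p)
    (h : ∀ Z : Finset V, Z.card ≤ f * D → ∀ w : I → ℝ, (∀ i, 0 ≤ w i) →
      ∃ g, Ok g ∧ (vs g).card ≤ D ∧ Disjoint (vs g) Z ∧
        ∑ i ∈ univ.filter (Bad g), w i ≤ p * ∑ i, w i) :
    ∃ g : Fin f → G, (∀ t, Ok (g t)) ∧ (∀ t t', t ≠ t' → Disjoint (vs (g t)) (vs (g t'))) ∧
      ∀ i, ((univ.filter fun t => Bad (g t) i).card : ℝ) ≤
        Real.log (Fintype.card I) + 2 * p * f := by
  obtain ⟨g, h1, _, h3, h4⟩ := gs_aux vs Ok Bad f D p hp h f le_rfl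
  refine ⟨g, h1, h3, fun i => ?_⟩
  have hc : ((univ.filter fun t => Bad (g t) i).card : ℝ) =
      ∑ j, if Bad (g j) i then (1 : ℝ) else 0 := by
    rw [Finset.card_filter]
    push_cast
    rfl
  rw [hc]
  have hI : (0 : ℝ) < Fintype.card I := by
    have : 0 < Fintype.card I := Fintype.card_pos_iff.2 ⟨i⟩
    exact_mod_cast this
  have h5 : Real.exp (∑ j, if Bad (g j) i then (1 : ℝ) else 0) ≤
      Fintype.card I * Real.exp (2 * p * f) :=
    le_trans (Finset.single_le_sum (f := fun i => Real.exp (∑ j, if Bad (g j) i then (1 : ℝ) else 0))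
      (fun i _ => (Real.exp_pos _).le) (mem_univ i)) h4
  have h6 := Real.log_le_log (Real.exp_pos _) h5
  rw [Real.log_exp, Real.log_mul hI.ne' (Real.exp_pos _).ne', Real.log_exp] at h6
  exact h6

end Pool.Agent.Lib.RobT
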