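import Pool.Agent.Lib.RobT.Ga

/-!
# Gt: tuples with many common out-neighbours (about 130 lines)

`A` = the set of `x` with `R x v`, `b = |A| ≥ ζ (n-1) ≥ ζ n/2` (`deg_lo`, direction `false`).
`∑_{E ∈ A^T} |Sx R E ∩ A| = ∑_{w ∈ A} d(w)^T`, `d(w) = |{x ∈ A | R x w}|`, `∑_{w ∈ A} d(w)
= b (b-1)/2`.  At least `b/3` vertices `w ∈ A` have `d(w) ≥ b/8`, because
otherwise `∑ d < (b/3) b + b · b/8 < b (b-1)/2` for `b ≥ 13`.  So the sum is at least
`(b/3) (b/8)^T`, and every `E` contributes at most `b`: the number of `E ∈ A^T` with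
`|Sx R E| ≥ (b/6) 8^(-T)` is at least `b^T 8^(-T)/6` (otherwise the sum would be less than
`b^T 8^(-T)/6 · b + b^T · (b/6) 8^(-T)`).  `β = (ζ/12) 8^(-T)`, `c = (ζ/2)^T 8^(-T)/6`.
-/

namespace Pool.Agent.Lib.RobT

open Finset

open Classical in
/-- The common out-neighbours of a tuple. -/
noncomputable def Sx {V : Type} [Fintype V] (R : V → V → Prop) {T : ℕ} (E : Fin T → V) :
    Finset V :=
  univ.filter fun v => ∀ i, R (E i) v

open Classical in
private lemma sum_deg {V : Type} {R : V → V → Prop} (hR : IsTour R) (A : Finset V) :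
    (A.card : ℝ) * ((A.card : ℝ) - 1) / 2 ≤ ∑ w ∈ A, ((A.filter fun x => R x w).card : ℝ) := by
  have h2 : ∀ w, ((A.filter fun x => R x w).card : ℝ) =
      ∑ x ∈ A, if R x w then (1 : ℝ) else 0 := by
    intro v
    rw [Finset.sum_boole]
  have h3 : ∑ v ∈ A, ∑ x ∈ A, (if R x v then (1 : ℝ) else 0) =
      ∑ v ∈ A, ∑ x ∈ A, (if R v x then (1 : ℝ) else 0) := Finset.sum_comm
  have h4 : ∑ v ∈ A, ((A.card : ℝ) - 1) ≤
      ∑ v ∈ A, ∑ x ∈ A, ((if R x v then (1 : ℝ) else 0) + (if R v x then (1 : ℝ) else 0)) := by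
    apply Finset.sum_le_sum
    intro v hv
    have h5 : ((A.card : ℝ) - 1) = ∑ x ∈ A.erase v, (1 : ℝ) := by
      rw [Finset.sum_const, nsmul_eq_mul, mul_one, Finset.card_erase_of_mem hv, Nat.cast_sub]
      · simp
      · exact Finset.card_pos.2 ⟨v, hv⟩
    rw [h5]
    refine (Finset.sum_le_sum fun x hx => ?_).trans
      (Finset.sum_le_sum_of_subset_of_nonneg (Finset.erase_subset v A) fun x _ _ => ?_)
    · rcases hR.tot x v (Finset.ne_of_mem_erase hx) with h | h
      · rw [if_pos h]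
        split_ifs <;> norm_num
      · rw [if_pos h]
        split_ifs <;> norm_num
    · split_ifs <;> norm_num
  simp only [Finset.sum_add_distrib] at h4
  rw [← h3] at h4
  simp only [h2]
  rw [Finset.sum_const, nsmul_eq_mul] at h4
  linarith

open Classical in
private lemma sum_tuples {V : Type} [Fintype V] {R : V → V → Prop} (A : Finset V) (T : ℕ) :
    ∑ E ∈ Fintype.piFinset (fun _ : Fin T => A),
      ((A.filter fun w => ∀ i, R (E i) w).card : ℝ) =
    ∑ w ∈ A, ((A.filter fun x => R x w).card : ℝ) ^ T := by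
  have h1 : ∀ E : Fin T → V, ((A.filter fun w => ∀ i, R (E i) w).card : ℝ) =
      ∑ w ∈ A, ∏ i : Fin T, (if R (E i) w then (1 : ℝ) else 0) := by
    intro E
    rw [← Finset.sum_boole]
    refine Finset.sum_congr rfl fun w _ => ?_
    rw [Finset.prod_boole]
    simp
  simp only [h1]
  rw [Finset.sum_comm]
  refine Finset.sum_congr rfl fun w _ => ?_
  rw [← Finset.prod_univ_sum (fun _ : Fin T => A) (fun _ x => if R x w then (1 : ℝ) else 0),
    Finset.prod_const, Finset.card_univ, Fintype.card_fin, Finset.sum_boole]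

open Classical in
theorem good_tuples (ζ : ℝ) (hζ : 0 < ζ) (T : ℕ) :
    ∃ (β c : ℝ) (n₀ : ℕ), 0 < β ∧ 0 < c ∧ ∀ (V : Type) [Fintype V] [DecidableEq V]
      (R : V → V → Prop), n₀ ≤ Fintype.card V → IsTour R → Rob ζ R → ∀ v : V,
      c * (Fintype.card V : ℝ) ^ T ≤ ((univ.filter fun E : Fin T → V =>
        (∀ i, R (E i) v) ∧ β * Fintype.card V ≤ ((Sx R E).card : ℝ)).card : ℝ) := by
  refine ⟨ζ / 12 * (1 / 8) ^ T, (ζ / 2) ^ T * (1 / 8) ^ T / 6, ⌈7 / ζ⌉₊ + 2, by positivity,
    by positivity, ?_⟩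
  intro V _ _ R hn hR hrob v
  set n : ℝ := (Fintype.card V : ℝ) with hnd
  set A : Finset V := univ.filter fun x => R x v with hA
  set b : ℝ := (A.card : ℝ) with hb
  have hn' : ((⌈7 / ζ⌉₊ + 2 : ℕ) : ℝ) ≤ (Fintype.card V : ℝ) := by exact_mod_cast hn
  push_cast at hn'
  have hn2 : (2 : ℝ) ≤ n := by
    have h0 : (0 : ℝ) ≤ (⌈7 / ζ⌉₊ : ℝ) := Nat.cast_nonneg _
    linarith
  have hn7 : 7 ≤ ζ * (n - 1) := by
    have h0 := Nat.le_ceil (7 / ζ)
    have h1 : 7 / ζ ≤ n - 1 := by linarith
    rw [div_le_iff₀ hζ] at h1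
    linarith
  have hbn : ζ * (n - 1) ≤ b := by
    have h1 := deg_lo hR hrob false v
    have h2 : (Nb R false v) = A := by
      unfold Nb
      rw [hA]
      ext x
      simp [Arc]
    rw [h2] at h1
    exact h1
  have hb7 : 7 ≤ b := hn7.trans hbn
  have hbn2 : ζ / 2 * n ≤ b := by nlinarith
  -- many vertices of large in-degree
  set H : Finset V := A.filter fun w => b / 8 ≤ ((A.filter fun x => R x w).card : ℝ) with hH
  have hHc : b / 3 ≤ (H.card : ℝ) := by
    have h1 := sum_deg hR A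
    have h2 : ∑ w ∈ A, ((A.filter fun x => R x w).card : ℝ) ≤
        ∑ w ∈ A, ((if w ∈ H then 7 / 8 * b else 0) + b / 8) := by
      apply Finset.sum_le_sum
      intro w hw
      by_cases hwH : w ∈ H
      · rw [if_pos hwH]
        have : ((A.filter fun x => R x w).card : ℝ) ≤ b := by
          rw [hb]
          exact_mod_cast Finset.card_filter_le _ _
        linarith
      · rw [if_neg hwH]
        rw [hH, Finset.mem_filter] at hwH
        push Not at hwH
        have := hwH hw
        linarith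
    rw [Finset.sum_add_distrib, Finset.sum_const, nsmul_eq_mul, ← Finset.sum_filter,
      Finset.sum_const, nsmul_eq_mul] at h2
    have h3 : (A.filter fun w => w ∈ H) = H := by
      rw [Finset.filter_mem_eq_inter, Finset.inter_eq_right]
      exact Finset.filter_subset _ _
    rw [h3] at h2
    rw [← hb] at h1 h2
    by_contra hcon
    push Not at hcon
    nlinarith
  have hlow : b / 3 * (b / 8) ^ T ≤ ∑ w ∈ A, ((A.filter fun x => R x w).card : ℝ) ^ T := by
    calc b / 3 * (b / 8) ^ T ≤ (H.card : ℝ) * (b / 8) ^ T :=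
          mul_le_mul_of_nonneg_right hHc (by positivity)
      _ = ∑ w ∈ H, (b / 8) ^ T := by rw [Finset.sum_const, nsmul_eq_mul]
      _ ≤ ∑ w ∈ H, ((A.filter fun x => R x w).card : ℝ) ^ T := by
          apply Finset.sum_le_sum
          intro w hw
          exact pow_le_pow_left₀ (by positivity) (Finset.mem_filter.1 hw).2 T
      _ ≤ ∑ w ∈ A, ((A.filter fun x => R x w).card : ℝ) ^ T :=
          Finset.sum_le_sum_of_subset_of_nonneg (Finset.filter_subset _ _)
            fun w _ _ => by positivity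
  set G : Finset (Fin T → V) := univ.filter fun E : Fin T → V =>
    (∀ i, R (E i) v) ∧ ζ / 12 * (1 / 8) ^ T * n ≤ ((Sx R E).card : ℝ) with hG
  have hup : ∑ E ∈ Fintype.piFinset (fun _ : Fin T => A),
      ((A.filter fun w => ∀ i, R (E i) w).card : ℝ) ≤
      (G.card : ℝ) * b + b ^ T * (ζ / 12 * (1 / 8) ^ T * n) := by
    have h1 : ∀ E ∈ Fintype.piFinset (fun _ : Fin T => A),
        ((A.filter fun w => ∀ i, R (E i) w).card : ℝ) ≤
        (if E ∈ G then b else 0) + ζ / 12 * (1 / 8) ^ T * n := by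
      intro E hE
      have h0 : 0 ≤ ζ / 12 * (1 / 8) ^ T * n := by positivity
      by_cases hEG : E ∈ G
      · rw [if_pos hEG]
        have : ((A.filter fun w => ∀ i, R (E i) w).card : ℝ) ≤ b := by
          rw [hb]
          exact_mod_cast Finset.card_filter_le _ _
        linarith
      · rw [if_neg hEG]
        rw [hG, Finset.mem_filter] at hEG
        push Not at hEG
        have h2 := hEG (Finset.mem_univ _) (fun i => by
          have := Fintype.mem_piFinset.1 hE i
          rw [hA, Finset.mem_filter] at this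
          exact this.2)
        have h3 : ((A.filter fun w => ∀ i, R (E i) w).card : ℝ) ≤ ((Sx R E).card : ℝ) := by
          norm_cast
          apply Finset.card_le_card
          unfold Sx
          intro w hw
          rw [Finset.mem_filter] at hw ⊢
          exact ⟨Finset.mem_univ _, hw.2⟩
        linarith
    refine (Finset.sum_le_sum h1).trans ?_
    rw [Finset.sum_add_distrib, Finset.sum_const, nsmul_eq_mul, ← Finset.sum_filter,
      Finset.sum_const, nsmul_eq_mul, Fintype.card_piFinset, Finset.prod_const, Finset.card_univ,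
      Fintype.card_fin]
    push_cast
    rw [← hb]
    gcongr
    intro E hE
    exact (Finset.mem_filter.1 hE).2
  rw [sum_tuples] at hup
  have h8 : (b / 8) ^ T = b ^ T * (1 / 8) ^ T := by rw [div_eq_mul_one_div, mul_pow]
  have h9 : b ^ T * (ζ / 12 * (1 / 8) ^ T * n) ≤ b / 6 * (b ^ T * (1 / 8) ^ T) := by
    have : ζ / 12 * n ≤ b / 6 := by linarith
    have h10 := mul_le_mul_of_nonneg_right this (show 0 ≤ b ^ T * (1 / 8 : ℝ) ^ T by positivity)
    calc b ^ T * (ζ / 12 * (1 / 8) ^ T * n) = ζ / 12 * n * (b ^ T * (1 / 8) ^ T) := by ring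
      _ ≤ _ := h10
  have h11 : b / 6 * (b ^ T * (1 / 8) ^ T) ≤ (G.card : ℝ) * b := by
    rw [h8] at hlow
    linarith
  have h12 : (b ^ T * (1 / 8) ^ T) / 6 ≤ (G.card : ℝ) := by
    have hbpos : 0 < b := by linarith
    have : (b ^ T * (1 / 8) ^ T) / 6 * b ≤ (G.card : ℝ) * b := by linarith
    exact le_of_mul_le_mul_right this hbpos
  refine le_trans ?_ h12
  have h13 : (ζ / 2) ^ T * n ^ T ≤ b ^ T := by
    rw [← mul_pow]
    exact pow_le_pow_left₀ (by positivity) hbn2 T
  have h14 := mul_le_mul_of_nonneg_right h13 (show (0 : ℝ) ≤ (1 / 8) ^ T / 6 by positivity)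
  calc (ζ / 2) ^ T * (1 / 8) ^ T / 6 * n ^ T = (ζ / 2) ^ T * n ^ T * ((1 / 8) ^ T / 6) := by ring
    _ ≤ b ^ T * ((1 / 8) ^ T / 6) := h14
    _ = _ := by ring

end Pool.Agent.Lib.RobT
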