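import Pool.Agent.Lib.RobT.Gi
import Pool.Agent.Lib.RobT.Gp

/-!
# Gz: absorbing one vertex

`absorb_chain`: let `v` be a common out-neighbour of the environment `j₀`.  `σ i = fil i` for `i <
j₀`,
`σ j₀ = v`, `σ i = fil (i-1)` for `i > j₀`.
`absorb_path`: let `i < j` with `R (p i) v`, `R v (p j)` and `j - i` minimal.  Then `j = i + 1`:
otherwise consider `p (i+1) ≠ v`: `R (p (i+1)) v` or `R v (p (i+1))` gives a smaller difference.
`p' = p 0, …, p i, v, p (i+1), …, p (L-1)`.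
-/

namespace Pool.Agent.Lib.RobT

open Finset

theorem insertNth_inj {V : Type} {M : ℕ} (q : Fin (M + 1)) (v : V) (f : Fin M → V)
    (hi : Function.Injective f) (hf : ∀ j, f j ≠ v) :
    Function.Injective (Fin.insertNth (α := fun _ => V) q v f) := by
  intro a b hab
  rcases Fin.eq_self_or_eq_succAbove q a with rfl | ⟨a', rfl⟩
  · rcases Fin.eq_self_or_eq_succAbove a b with rfl | ⟨b', rfl⟩
    · rfl
    · simp only [Fin.insertNth_apply_same, Fin.insertNth_apply_succAbove] at hab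
      exact absurd hab.symm (hf b')
  · rcases Fin.eq_self_or_eq_succAbove q b with rfl | ⟨b', rfl⟩
    · simp only [Fin.insertNth_apply_same, Fin.insertNth_apply_succAbove] at hab
      exact absurd hab (hf a')
    · simp only [Fin.insertNth_apply_succAbove] at hab
      rw [hi hab]

theorem insertNth_image {V : Type} [DecidableEq V] {M : ℕ} (q : Fin (M + 1)) (v : V)
    (f : Fin M → V) :
    univ.image (Fin.insertNth (α := fun _ => V) q v f) = insert v (univ.image f) := by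
  ext x
  simp only [mem_image, mem_univ, true_and, mem_insert]
  constructor
  · rintro ⟨a, rfl⟩
    rcases Fin.eq_self_or_eq_succAbove q a with rfl | ⟨a', rfl⟩
    · left
      simp
    · right
      exact ⟨a', by simp⟩
  · rintro (rfl | ⟨a, rfl⟩)
    · exact ⟨q, by simp⟩
    · exact ⟨q.succAbove a, by simp⟩

theorem absorb_chain {V : Type} [DecidableEq V] {T M : ℕ} {R : V → V → Prop} {g : Gad V T M}
    (hg : g.Ok R) (v : V) (hv : g.Acc R v) (hf : ∀ j, g.fil j ≠ v) :
    ∃ σ : Fin (M + 1) → V, Function.Injective σ ∧ univ.image σ = insert v (univ.image g.fil) ∧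
      ∀ j t, R (g.env j t) (σ j) := by
  obtain ⟨q, hq⟩ := hv
  refine ⟨Fin.insertNth (α := fun _ => V) q v g.fil, insertNth_inj q v g.fil hg.jf hf,
    insertNth_image q v g.fil, ?_⟩
  intro j t
  rcases Fin.eq_self_or_eq_succAbove q j with rfl | ⟨i, rfl⟩
  · simpa using hq t
  · rw [Fin.insertNth_apply_succAbove]
    by_cases h : i.castSucc < q
    · rw [Fin.succAbove_of_castSucc_lt q i h]
      exact hg.lf i t
    · rw [Fin.succAbove_of_le_castSucc q i (not_lt.mp h)]
      exact hg.rf i t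

theorem path_turn {V : Type} {L : ℕ} {R : V → V → Prop} (hR : IsTour R)
    {p : Fin L → V} (v : V) (hv : PG.Acc R p v) (hf : ∀ j, p j ≠ v) :
    ∃ (i : ℕ) (h : i + 1 < L), R (p ⟨i, by omega⟩) v ∧ R v (p ⟨i + 1, h⟩) := by
  classical
  obtain ⟨i, j, hij, hi, hj⟩ := hv
  have hex : ∃ k : ℕ, (i : ℕ) < k ∧ ∃ h : k < L, R v (p ⟨k, h⟩) :=
    ⟨j, hij, j.2, hj⟩
  obtain ⟨k, ⟨h1, h2, h3⟩, hkm⟩ : ∃ k : ℕ, ((i : ℕ) < k ∧ ∃ h : k < L, R v (p ⟨k, h⟩)) ∧
      ∀ m, m < k → ¬ ((i : ℕ) < m ∧ ∃ h : m < L, R v (p ⟨m, h⟩)) :=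
    ⟨Nat.find hex, Nat.find_spec hex, fun m hm => Nat.find_min hex hm⟩
  obtain ⟨m, rfl⟩ : ∃ m, k = m + 1 := ⟨k - 1, by omega⟩
  refine ⟨m, h2, ?_, h3⟩
  by_cases hm : m = i
  · have : (⟨m, by omega⟩ : Fin L) = i := Fin.ext hm
    rw [this]
    exact hi
  · have h4 := hkm m (by omega)
    have h5 : ¬ R v (p ⟨m, by omega⟩) := fun h => h4 ⟨by omega, by omega, h⟩
    rcases hR.tot _ _ (hf ⟨m, by omega⟩) with h | h
    · exact h
    · exact absurd h h5

theorem absorb_path {V : Type} [DecidableEq V] {L : ℕ} {R : V → V → Prop} (hR : IsTour R)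
    {p : Fin L → V} (hp : PG.Ok R p) (hL : 2 ≤ L) (v : V) (hv : PG.Acc R p v)
    (hf : ∀ j, p j ≠ v) :
    ∃ p' : Fin (L + 1) → V, PG.Ok R p' ∧ p' 0 = p ⟨0, by omega⟩ ∧
      p' (Fin.last L) = p ⟨L - 1, by omega⟩ ∧ univ.image p' = insert v (univ.image p) := by
  obtain ⟨i, hi, h1, h2⟩ := path_turn hR v hv hf
  have hq : i + 1 < L + 1 := by omega
  set q : Fin (L + 1) := ⟨i + 1, hq⟩ with hqd
  have lowv : ∀ (a : ℕ) (ha : a ≤ i),
      Fin.insertNth (α := fun _ => V) q v p ⟨a, by omega⟩ = p ⟨a, by omega⟩ := by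
    intro a ha
    have : (⟨a, by omega⟩ : Fin (L + 1)) = q.succAbove ⟨a, by omega⟩ := by
      rw [Fin.succAbove_of_castSucc_lt q ⟨a, by omega⟩ (by
        rw [Fin.lt_def]; simp [hqd]; omega)]
      rfl
    rw [this, Fin.insertNth_apply_succAbove]
  have hiv : ∀ (a : ℕ) (ha : i < a) (hL' : a < L),
      Fin.insertNth (α := fun _ => V) q v p ⟨a + 1, by omega⟩ = p ⟨a, hL'⟩ := by
    intro a ha hL'
    have : (⟨a + 1, by omega⟩ : Fin (L + 1)) = q.succAbove ⟨a, hL'⟩ := by
      rw [Fin.succAbove_of_le_castSucc q ⟨a, hL'⟩ (by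
        rw [Fin.le_def]; simp [hqd]; omega)]
      rfl
    rw [this, Fin.insertNth_apply_succAbove]
  refine ⟨Fin.insertNth (α := fun _ => V) q v p, ⟨insertNth_inj q v p hp.inj hf, ?_⟩, ?_, ?_,
    insertNth_image q v p⟩
  · rintro ⟨a, ha⟩ ⟨b, hb⟩ hab
    simp only at hab
    subst hab
    rcases lt_trichotomy a (i + 1) with h | h | h
    · rcases Nat.lt_or_ge (a + 1) (i + 1) with h' | h'
      · rw [lowv a (by omega), lowv (a + 1) (by omega)]
        exact hp.arc _ _ rfl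
      · have hai : a = i := by omega
        subst hai
        have e : (⟨a + 1, hb⟩ : Fin (L + 1)) = q := rfl
        rw [lowv a le_rfl, e, Fin.insertNth_apply_same]
        exact h1
    · subst h
      have e : (⟨i + 1, ha⟩ : Fin (L + 1)) = q := rfl
      rw [e, Fin.insertNth_apply_same, hiv (i + 1) (by omega) hi]
      exact h2
    · obtain ⟨c, rfl⟩ : ∃ c, a = c + 1 := ⟨a - 1, by omega⟩
      rw [hiv c (by omega) (by omega), hiv (c + 1) (by omega) (by omega)]
      exact hp.arc _ _ rfl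
  · have := lowv 0 (by omega)
    exact this
  · obtain ⟨c, rfl⟩ : ∃ c, L = c + 1 := ⟨L - 1, by omega⟩
    have := hiv c (by omega) (by omega)
    exact this

end Pool.Agent.Lib.RobT
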