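import Pool.Agent.Lib.RobT.Defs

/-!
# Kc: the cut inequality (about 200 lines)

`n = |V|`, `c = ζ/32`, `C = 512/ζ`, `η = ζ/64`.  Put `J = X ∩ Z`, `A1 = X \ Z`, `A2 = Z \ X`,
`O = (X ∪ Z)ᶜ` with sizes `j, a1, a2, o`, `j + a1 + a2 + o = n`.  Then
`|X| + |Z| - n = j - o` and `eN Xᶜ Zᶜ ≤ |Xᶜ| |Zᶜ| = (a2 + o)(a1 + o) = a1 a2 + o (a1 + a2 + o)
≤ a1 a2 + o n`.  So it suffices to show, for `S = eN X Z`,
   (*)  `(C/n) S ≥ j - (1 - c) o + (c/n) a1 a2`.
`S ≥ eN J J + eN A1 J + eN J A2 + eN A1 A2` (in fact equality) and `eN J J = j (j-1)/2`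
(tournament).
CASE 1: `j ≥ η n`.  As `η n ≥ 2`, `j - 1 ≥ η n / 2`, `(C/n) S ≥ C η j / 4 = 2 j`; and
`(c/n) a1 a2 ≤ c n / 4 = η n / 2 ≤ j / 2`.
CASE 2: `j < η n`, `o ≥ 2 η n`: the right side of (*) is at most
`η n - (31/16) η n + η n / 2 < 0`.
CASE 3: `j < η n`, `o < 2 η n`.
3a: `a1 ≤ (15/16) n` and `a2 ≤ (15/16) n`.  Then `a1 = n - a2 - j - o ≥ n/16 - 3 η n ≥ n/64` and
`a2 ≥ n/64`.  `Rob` for `A1`: `eN A1 J + eN A1 A2 + eN A1 O ≥ ζ a1 (n - a1)`, `eN A1 O ≤ a1 o`, so
`S ≥ a1 (ζ (n - a1) - 2 η n) ≥ (ζ/2) a1 (n - a1) ≥ (ζ/2) a1 a2` (`n - a1 ≥ n/16`,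
`2 η n = ζ n / 32`).  `(C/n) S ≥ 256 a1 a2 / n`, `a1 a2 / n ≥ n / 4096`, right side
`≤ η n + a1 a2 / n`.
3b: `a1 > (15/16) n`.  `Rob` for `Zᶜ = A1 ∪ O` (complement `Z = J ∪ A2`):
`eN A1 J + eN A1 A2 + eN O Z ≥ ζ (a1 + o) (j + a2)`, `eN O Z ≤ o (j + a2)`, so
`S ≥ (15 ζ/16 - ζ/32) n (j + a2) ≥ (ζ/2) n (j + a2)` and `(C/n) S ≥ 256 (j + a2)`; the right side is
at most `j + c a2`.
3c: `a2 > (15/16) n`: `Rob` for `X = J ∪ A1`: `S ≥ ζ (j + a1) (a2 + o) - o (j + a1)`, the same.
-/

namespace Pool.Agent.Lib.RobT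

open Finset

private theorem Kc_num (ζ j a1 a2 o n S E : ℝ) (hζ : 0 < ζ) (hζ1 : ζ ≤ 1) (hj : 0 ≤ j)
    (h1 : 0 ≤ a1) (h2 : 0 ≤ a2) (ho : 0 ≤ o) (hn : n = j + a1 + a2 + o) (hn2 : 128 / ζ ≤ n)
    (hS1 : j * (j - 1) / 2 ≤ S) (hS2 : ζ * a1 * (n - a1) ≤ S + a1 * o)
    (hS3 : ζ * (a1 + o) * (j + a2) ≤ S + o * (j + a2))
    (hS4 : ζ * (j + a1) * (a2 + o) ≤ S + (j + a1) * o) (hS0 : 0 ≤ S)
    (hE : E ≤ (a2 + o) * (a1 + o)) :
    j - o + ζ / 32 / n * E ≤ 512 / ζ / n * S := by
  have hζn : 128 ≤ n * ζ := by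
    rw [div_le_iff₀ hζ] at hn2
    exact hn2
  have hn0 : 0 < n := lt_of_lt_of_le (by positivity) hn2
  have key : ζ * (n * j - n * o * (1 - ζ / 32) + ζ / 32 * (a1 * a2)) ≤ 512 * S := by
    have hamgm : a1 * a2 ≤ n * n / 4 := by
      have : a1 + a2 ≤ n := by linarith
      nlinarith [sq_nonneg (a1 - a2), mul_self_le_mul_self (by linarith : 0 ≤ a1 + a2) this]
    have h12 : 0 ≤ a1 * a2 := mul_nonneg h1 h2
    rcases le_or_gt (ζ / 64 * n) j with hc | hc
    · -- case 1
      have hj2 : 2 ≤ j := by nlinarith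
      have e1 : j * (j / 2) ≤ j * (j - 1) := mul_le_mul_of_nonneg_left (by linarith) hj
      have e2 : ζ / 64 * n * j ≤ j * j := mul_le_mul_of_nonneg_right hc hj
      have e3 : 2 * (ζ * (n * j)) ≤ 512 * S := by nlinarith
      have e4 : ζ / 64 * n * n ≤ j * n := mul_le_mul_of_nonneg_right hc hn0.le
      have e5 : ζ / 32 * (a1 * a2) ≤ ζ / 32 * (n * n / 4) :=
        mul_le_mul_of_nonneg_left hamgm (by positivity)
      have e6 : 0 ≤ n * o * (1 - ζ / 32) := by
        apply mul_nonneg (by positivity)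
        linarith
      have e7 : n * j - n * o * (1 - ζ / 32) + ζ / 32 * (a1 * a2) ≤ 2 * (n * j) := by
        nlinarith
      have e8 := mul_le_mul_of_nonneg_left e7 hζ.le
      linarith
    · rcases le_or_gt (ζ / 32 * n) o with hc2 | hc2
      · -- case 2
        have e1 : n * j ≤ n * (ζ / 64 * n) := mul_le_mul_of_nonneg_left hc.le hn0.le
        have e5 : ζ / 32 * (a1 * a2) ≤ ζ / 32 * (n * n / 4) :=
          mul_le_mul_of_nonneg_left hamgm (by positivity)
        have e2 : n * (ζ / 32 * n) * (31 / 32) ≤ n * o * (1 - ζ / 32) := by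
          apply mul_le_mul
          · exact mul_le_mul_of_nonneg_left hc2 hn0.le
          · linarith
          · norm_num
          · positivity
        have e3 : n * j - n * o * (1 - ζ / 32) + ζ / 32 * (a1 * a2) ≤ 0 := by
          have : 0 ≤ ζ * (n * n) := by positivity
          nlinarith
        have e4 := mul_le_mul_of_nonneg_left e3 hζ.le
        linarith
      · -- case 3
        have e6 : 0 ≤ n * o * (1 - ζ / 32) := by
          apply mul_nonneg (by positivity)
          linarith
        have hζn1 : ζ * n ≤ n := by nlinarith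
        rcases le_or_gt a1 (15 / 16 * n) with hc3 | hc3
        · rcases le_or_gt a2 (15 / 16 * n) with hc4 | hc4
          · -- 3a
            have b1 : n / 64 ≤ a1 := by linarith
            have b2 : n / 64 ≤ a2 := by linarith
            have b3 : n / 64 * (n / 64) ≤ a1 * a2 :=
              mul_le_mul b1 b2 (by positivity) h1
            have b4 : a1 * o ≤ a1 * (ζ / 32 * n) := mul_le_mul_of_nonneg_left hc2.le h1
            have b5 : a1 * (ζ * (n / 16)) ≤ a1 * (ζ * (n - a1)) := by
              apply mul_le_mul_of_nonneg_left _ h1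
              apply mul_le_mul_of_nonneg_left _ hζ.le
              linarith
            have b6 : ζ * (a1 * a2) ≤ ζ * (a1 * (n - a1)) := by
              apply mul_le_mul_of_nonneg_left _ hζ.le
              apply mul_le_mul_of_nonneg_left _ h1
              linarith
            have b7 : ζ / 2 * (a1 * a2) ≤ S := by nlinarith
            have b8 : n * j ≤ n * (ζ / 64 * n) := mul_le_mul_of_nonneg_left hc.le hn0.le
            have b9 : n * (ζ / 64 * n) ≤ n * (n / 64) := by
              apply mul_le_mul_of_nonneg_left _ hn0.le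
              linarith
            have b10 : ζ / 32 * (a1 * a2) ≤ a1 * a2 := by nlinarith
            have b11 : n * j - n * o * (1 - ζ / 32) + ζ / 32 * (a1 * a2) ≤ 65 * (a1 * a2) := by
              nlinarith
            have b12 := mul_le_mul_of_nonneg_left b11 hζ.le
            have b13 : 0 ≤ ζ * (a1 * a2) := by positivity
            linarith
          · -- 3c
            have b1 : 0 ≤ j + a1 := by linarith
            have b2 : (j + a1) * o ≤ (j + a1) * (ζ / 32 * n) :=
              mul_le_mul_of_nonneg_left hc2.le b1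
            have b3 : (j + a1) * (ζ * (15 / 16 * n)) ≤ (j + a1) * (ζ * (a2 + o)) := by
              apply mul_le_mul_of_nonneg_left _ b1
              apply mul_le_mul_of_nonneg_left _ hζ.le
              linarith
            have b4 : 0 ≤ ζ * (n * (j + a1)) := by positivity
            have b5 : 256 * (ζ * (n * (j + a1))) ≤ 512 * S := by nlinarith
            have b6 : ζ / 32 * (a1 * a2) ≤ a1 * a2 := by nlinarith
            have b7 : a1 * a2 ≤ a1 * n := mul_le_mul_of_nonneg_left (by linarith) h1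
            have b8 : n * j - n * o * (1 - ζ / 32) + ζ / 32 * (a1 * a2) ≤ n * (j + a1) := by
              nlinarith
            have b9 := mul_le_mul_of_nonneg_left b8 hζ.le
            linarith
        · -- 3b
          have b1 : 0 ≤ j + a2 := by linarith
          have b2 : (j + a2) * o ≤ (j + a2) * (ζ / 32 * n) :=
            mul_le_mul_of_nonneg_left hc2.le b1
          have b3 : (j + a2) * (ζ * (15 / 16 * n)) ≤ (j + a2) * (ζ * (a1 + o)) := by
            apply mul_le_mul_of_nonneg_left _ b1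
            apply mul_le_mul_of_nonneg_left _ hζ.le
            linarith
          have b4 : 0 ≤ ζ * (n * (j + a2)) := by positivity
          have b5 : 256 * (ζ * (n * (j + a2))) ≤ 512 * S := by nlinarith
          have b6 : ζ / 32 * (a1 * a2) ≤ a1 * a2 := by nlinarith
          have b7 : a1 * a2 ≤ n * a2 := mul_le_mul_of_nonneg_right (by linarith) h2
          have b8 : n * j - n * o * (1 - ζ / 32) + ζ / 32 * (a1 * a2) ≤ n * (j + a2) := by
            nlinarith
          have b9 := mul_le_mul_of_nonneg_left b8 hζ.le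
          linarith
  have hE2 : ζ / 32 * E ≤ ζ / 32 * (a1 * a2 + o * n) := by
    apply mul_le_mul_of_nonneg_left _ (by positivity)
    have : 0 ≤ o * j := mul_nonneg ho hj
    rw [hn]
    nlinarith
  have h3 : ζ * (n * (j - o) + ζ / 32 * E) ≤ 512 * S := by
    have := mul_le_mul_of_nonneg_left hE2 hζ.le
    nlinarith
  have h4 : n * (j - o) + ζ / 32 * E ≤ 512 / ζ * S := by
    have e : 512 / ζ * S = 512 * S / ζ := by ring
    rw [e, le_div_iff₀ hζ]
    linarith
  have h5 : j - o + ζ / 32 / n * E = (n * (j - o) + ζ / 32 * E) / n := by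
    field_simp
  have h6 : 512 / ζ / n * S = (512 / ζ * S) / n := by
    field_simp
  rw [h5, h6]
  gcongr

section aux

variable {V : Type} (R : V → V → Prop)

private theorem Kc_le (X Y : Finset V) : eN R X Y ≤ X.card * Y.card := by
  classical
  unfold eN
  calc _ ≤ (X ×ˢ Y).card := card_filter_le _ _
    _ = _ := card_product _ _

private theorem Kc_mono {X X' Y Y' : Finset V} (h : X ⊆ X') (h' : Y ⊆ Y') :
    eN R X Y ≤ eN R X' Y' := by
  classical
  unfold eN
  apply card_le_card
  apply filter_subset_filter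
  exact product_subset_product h h'

private theorem Kc_split_right [DecidableEq V] (X Y Y' : Finset V) :
    eN R X (Y ∪ Y') ≤ eN R X Y + X.card * Y'.card := by
  classical
  refine le_trans ?_ (Nat.add_le_add_left (Kc_le R X Y') _)
  unfold eN
  rw [product_union, filter_union]
  exact card_union_le _ _

private theorem Kc_split_left [DecidableEq V] (X X' Y : Finset V) :
    eN R (X ∪ X') Y ≤ eN R X Y + X'.card * Y.card := by
  classical
  refine le_trans ?_ (Nat.add_le_add_left (Kc_le R X' Y) _)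
  unfold eN
  rw [union_product, filter_union]
  exact card_union_le _ _

private theorem Kc_self (hR : IsTour R) (J : Finset V) :
    J.card * (J.card - 1) ≤ 2 * eN R J J := by
  classical
  have h1 : J.offDiag.card = J.card * J.card - J.card := offDiag_card _
  have h2 : J.offDiag ⊆ ((J ×ˢ J).filter fun p => R p.1 p.2) ∪
      ((J ×ˢ J).filter fun p => R p.2 p.1) := by
    intro p hp
    rw [mem_offDiag] at hp
    rcases hR.tot p.1 p.2 hp.2.2 with h | h
    · simp [hp.1, hp.2.1, h]
    · simp [hp.1, hp.2.1, h]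
  have h3 : ((J ×ˢ J).filter fun p => R p.2 p.1).card = eN R J J := by
    unfold eN
    refine card_bij (fun p _ => (p.2, p.1)) ?_ ?_ ?_
    · intro p hp
      simp only [mem_filter, mem_product] at hp ⊢
      exact ⟨⟨hp.1.2, hp.1.1⟩, hp.2⟩
    · intro p _ q _ h
      simp only [Prod.mk.injEq] at h
      exact Prod.ext h.2 h.1
    · intro p hp
      simp only [mem_filter, mem_product] at hp
      exact ⟨(p.2, p.1), by simp [hp.1.1, hp.1.2, hp.2], rfl⟩
  have h4 := (card_le_card h2).trans (card_union_le _ _)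
  rw [h3, h1] at h4
  have h5 : ((J ×ˢ J).filter fun p => R p.1 p.2).card = eN R J J := by
    unfold eN
    congr!
  rw [h5] at h4
  rw [Nat.mul_sub_one]
  omega

end aux

theorem cut_ineq (ζ : ℝ) (hζ : 0 < ζ) (hζ1 : ζ ≤ 1) {V : Type} [Fintype V] [DecidableEq V]
    (R : V → V → Prop) (hR : IsTour R) (hrob : Rob ζ R) (hn : 128 / ζ ≤ Fintype.card V)
    (X Z : Finset V) :
    (X.card : ℝ) + Z.card - Fintype.card V + ζ / 32 / Fintype.card V * eN R Xᶜ Zᶜ ≤
      512 / ζ / Fintype.card V * eN R X Z := by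
  classical
  set J := X ∩ Z with hJ
  set A1 := X \ Z with hA1
  set A2 := Z \ X with hA2
  set O := (X ∪ Z)ᶜ with hO
  have hX : X = J ∪ A1 := by ext v; simp [hJ, hA1]; tauto
  have hZ : Z = J ∪ A2 := by ext v; simp [hJ, hA2]; tauto
  have hXc : Xᶜ = A2 ∪ O := by ext v; simp [hA2, hO]; tauto
  have hZc : Zᶜ = A1 ∪ O := by ext v; simp [hA1, hO]; tauto
  have hA1c : A1ᶜ = Z ∪ O := by ext v; simp [hA1, hO]; tauto
  have cX : X.card = J.card + A1.card := by
    rw [hJ, hA1, add_comm]
    exact (card_sdiff_add_card_inter X Z).symm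
  have cZ : Z.card = J.card + A2.card := by
    rw [hJ, hA2, add_comm, inter_comm]
    exact (card_sdiff_add_card_inter Z X).symm
  have dXc : Disjoint A2 O := by
    rw [Finset.disjoint_left]
    intro v h1 h2
    simp [hA2, hO] at h1 h2
    exact h2.2 h1.1
  have dZc : Disjoint A1 O := by
    rw [Finset.disjoint_left]
    intro v h1 h2
    simp [hA1, hO] at h1 h2
    exact h2.1 h1.1
  have cXc : Xᶜ.card = A2.card + O.card := by rw [hXc, card_union_of_disjoint dXc]
  have cZc : Zᶜ.card = A1.card + O.card := by rw [hZc, card_union_of_disjoint dZc]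
  have cn : Fintype.card V = J.card + A1.card + A2.card + O.card := by
    have := card_add_card_compl X
    omega
  have cA1c : A1ᶜ.card = Fintype.card V - A1.card := card_compl _
  have cA1n : A1.card ≤ Fintype.card V := by omega
  have r1 := hrob A1
  have r2 := hrob Zᶜ
  have r3 := hrob X
  have s1 : eN R A1 A1ᶜ ≤ eN R X Z + A1.card * O.card := by
    rw [hA1c]
    refine le_trans (Kc_split_right R A1 Z O) ?_
    apply Nat.add_le_add_right
    exact Kc_mono R (by rw [hX]; exact subset_union_right) (le_refl _)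
  have s2 : eN R Zᶜ Zᶜᶜ ≤ eN R X Z + O.card * Z.card := by
    rw [compl_compl]
    have : eN R Zᶜ Z ≤ eN R A1 Z + O.card * Z.card := by
      rw [hZc]
      exact Kc_split_left R A1 O Z
    refine le_trans this ?_
    apply Nat.add_le_add_right
    exact Kc_mono R (by rw [hX]; exact subset_union_right) (le_refl _)
  have s3 : eN R X Xᶜ ≤ eN R X Z + X.card * O.card := by
    rw [hXc]
    refine le_trans (Kc_split_right R X A2 O) ?_
    apply Nat.add_le_add_right
    exact Kc_mono R (le_refl _) (by rw [hZ]; exact subset_union_right)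
  have s4 : J.card * (J.card - 1) ≤ 2 * eN R X Z := by
    refine le_trans (Kc_self R hR J) ?_
    apply Nat.mul_le_mul_left
    exact Kc_mono R (by rw [hX]; exact subset_union_left) (by rw [hZ]; exact subset_union_left)
  have s5 : eN R Xᶜ Zᶜ ≤ (A2.card + O.card) * (A1.card + O.card) := by
    rw [← cXc, ← cZc]
    exact Kc_le R _ _
  have cn' : (Fintype.card V : ℝ) = J.card + A1.card + A2.card + O.card := by
    exact_mod_cast cn
  have cX' : (X.card : ℝ) = J.card + A1.card := by exact_mod_cast cX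
  have cZ' : (Z.card : ℝ) = J.card + A2.card := by exact_mod_cast cZ
  have cXc' : (Xᶜ.card : ℝ) = A2.card + O.card := by exact_mod_cast cXc
  have cZc' : (Zᶜ.card : ℝ) = A1.card + O.card := by exact_mod_cast cZc
  have cA1' : (A1ᶜ.card : ℝ) = Fintype.card V - A1.card := by
    rw [cA1c, Nat.cast_sub cA1n]
  have s1' : (eN R A1 A1ᶜ : ℝ) ≤ eN R X Z + A1.card * O.card := by exact_mod_cast s1
  have s2' : (eN R Zᶜ Zᶜᶜ : ℝ) ≤ eN R X Z + O.card * Z.card := by exact_mod_cast s2
  have s3' : (eN R X Xᶜ : ℝ) ≤ eN R X Z + X.card * O.card := by exact_mod_cast s3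
  have s4' : (J.card : ℝ) * (J.card - 1) / 2 ≤ eN R X Z := by
    rcases Nat.eq_zero_or_pos J.card with h | h
    · rw [h]
      simp
    · have : ((J.card * (J.card - 1) : ℕ) : ℝ) ≤ ((2 * eN R X Z : ℕ) : ℝ) := by
        exact_mod_cast s4
      rw [Nat.cast_mul, Nat.cast_sub h] at this
      push_cast at this
      linarith
  have s5' : (eN R Xᶜ Zᶜ : ℝ) ≤ (A2.card + O.card) * (A1.card + O.card) := by
    exact_mod_cast s5
  have fin := Kc_num ζ J.card A1.card A2.card O.card (Fintype.card V) (eN R X Z) (eN R Xᶜ Zᶜ)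
    hζ hζ1 (Nat.cast_nonneg _) (Nat.cast_nonneg _) (Nat.cast_nonneg _) (Nat.cast_nonneg _)
    cn' hn s4'
    (by rw [← cA1']; exact r1.trans s1')
    (by
      rw [compl_compl] at r2 s2'
      rw [cZc'] at r2
      rw [cZ'] at r2 s2'
      exact r2.trans s2')
    (by
      rw [cXc'] at r3
      rw [cX'] at r3 s3'
      exact r3.trans s3')
    (Nat.cast_nonneg _) s5'
  have : (X.card : ℝ) + Z.card - Fintype.card V = J.card - O.card := by
    rw [cX', cZ', cn']
    ring
  rw [this]
  exact fin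

end Pool.Agent.Lib.RobT
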