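import Pool.Agent.Lib.RobT.Defs

/-!
# Kk: doubly stochastic weights with bounds from the cut inequality

Minimise `∑ (row sum - 1)² + ∑ (column sum - 1)²` over the matrices with prescribed bounds.
-/

namespace Pool.Agent.Lib.RobT

open Finset

private noncomputable def Psi {V : Type} [Fintype V] (P : V → V → ℝ) : ℝ :=
  ∑ u, (∑ v, P u v - 1) ^ 2 + ∑ v, (∑ u, P u v - 1) ^ 2

private theorem sum_bump {V : Type} [Fintype V] [DecidableEq V] (f : V → ℝ) (u : V) (t : ℝ) :
    ∑ a, (f a + (if a = u then t else 0)) ^ 2 = ∑ a, f a ^ 2 + 2 * t * f u + t ^ 2 := by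
  have h : ∀ a, (f a + (if a = u then t else 0)) ^ 2
      = f a ^ 2 + (if a = u then (2 * t * f u + t ^ 2) else 0) := by
    intro a
    by_cases ha : a = u
    · subst ha; simp only [if_true]; ring
    · simp [ha]
  rw [Finset.sum_congr rfl fun a _ => h a, Finset.sum_add_distrib]
  simp only [Finset.sum_ite_eq', Finset.mem_univ, if_true]
  ring

private theorem Psi_bump {V : Type} [Fintype V] [DecidableEq V] (P : V → V → ℝ) (u v : V)
    (t : ℝ) : Psi (fun a b => P a b + if a = u ∧ b = v then t else 0) =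
      Psi P + 2 * (t * ((∑ b, P u b - 1) + (∑ a, P a v - 1)) + t ^ 2) := by
  unfold Psi
  have h1 : ∀ a, ∑ b, (P a b + if a = u ∧ b = v then t else 0) - 1
      = (∑ b, P a b - 1) + (if a = u then t else 0) := by
    intro a
    rw [Finset.sum_add_distrib]
    by_cases ha : a = u
    · subst ha; simp; ring
    · simp [ha]
  have h2 : ∀ b, ∑ a, (P a b + if a = u ∧ b = v then t else 0) - 1
      = (∑ a, P a b - 1) + (if b = v then t else 0) := by
    intro b
    rw [Finset.sum_add_distrib]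
    by_cases hb : b = v
    · subst hb; simp; ring
    · simp [hb]
  simp only [h1, h2]
  rw [sum_bump, sum_bump]
  ring

private theorem sum_eN {V : Type} (R : V → V → Prop) (P : V → V → ℝ)
    (X Y : Finset V) (c : ℝ) (h1 : ∀ u ∈ X, ∀ v ∈ Y, R u v → P u v = c)
    (h0 : ∀ u v, ¬ R u v → P u v = 0) : ∑ u ∈ X, ∑ v ∈ Y, P u v = c * eN R X Y := by
  classical
  have h : ∀ p ∈ X ×ˢ Y, P p.1 p.2 = if R p.1 p.2 then c else 0 := by
    intro p hp
    rw [Finset.mem_product] at hp
    split_ifs with hR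
    · exact h1 _ hp.1 _ hp.2 hR
    · exact h0 _ _ hR
  rw [← Finset.sum_product', Finset.sum_congr rfl h, ← Finset.sum_filter, Finset.sum_const,
    nsmul_eq_mul, mul_comm]
  unfold eN
  congr 3

theorem exists_weights {V : Type} [Fintype V] [DecidableEq V] (R : V → V → Prop) (l μ : ℝ)
    (h0 : 0 ≤ l) (hlμ : l ≤ μ)
    (h : ∀ X Z : Finset V, (X.card : ℝ) + Z.card - Fintype.card V + l * eN R Xᶜ Zᶜ ≤
      μ * eN R X Z) :
    ∃ P : V → V → ℝ, (∀ u v, R u v → l ≤ P u v ∧ P u v ≤ μ) ∧ (∀ u v, ¬ R u v → P u v = 0) ∧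
      (∀ u, ∑ v, P u v = 1) ∧ (∀ v, ∑ u, P u v = 1) := by
  classical
  set K : Set (V → V → ℝ) := Set.pi Set.univ fun u => Set.pi Set.univ fun v =>
    Set.Icc (if R u v then l else 0) (if R u v then μ else 0) with hK
  have hKc : IsCompact K := isCompact_univ_pi fun u => isCompact_univ_pi fun v => isCompact_Icc
  have hmem : ∀ P : V → V → ℝ, P ∈ K ↔ (∀ u v, R u v → l ≤ P u v ∧ P u v ≤ μ) ∧
      (∀ u v, ¬ R u v → P u v = 0) := by
    intro P
    simp only [hK, Set.mem_pi, Set.mem_univ, true_implies, Set.mem_Icc]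
    constructor
    · intro hP
      refine ⟨fun u v hR => ?_, fun u v hR => ?_⟩
      · have := hP u v
        rw [if_pos hR, if_pos hR] at this
        exact this
      · have := hP u v
        rw [if_neg hR, if_neg hR] at this
        exact le_antisymm this.2 this.1
    · rintro ⟨h1, h2⟩ u v
      by_cases hR : R u v
      · rw [if_pos hR, if_pos hR]; exact h1 u v hR
      · rw [if_neg hR, if_neg hR, h2 u v hR]; exact ⟨le_rfl, le_rfl⟩
  have hKn : K.Nonempty := by
    refine ⟨fun u v => if R u v then l else 0, (hmem _).2 ⟨fun u v hR => ?_, fun u v hR => ?_⟩⟩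
    · simp only [if_pos hR]; exact ⟨le_rfl, hlμ⟩
    · simp only [if_neg hR]
  have hcont : Continuous (Psi : (V → V → ℝ) → ℝ) := by
    unfold Psi
    fun_prop
  obtain ⟨P, hP, hmin⟩ := hKc.exists_isMinOn hKn hcont.continuousOn
  obtain ⟨hP1, hP2⟩ := (hmem P).1 hP
  set r : V → ℝ := fun u => ∑ v, P u v - 1 with hr
  set k : V → ℝ := fun v => ∑ u, P u v - 1 with hk
  -- variation
  have var : ∀ u v, R u v → ∀ t : ℝ, l ≤ P u v + t → P u v + t ≤ μ →
      0 ≤ t * (r u + k v) + t ^ 2 := by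
    intro u v hR t h1 h2
    have h3 : (fun a b => P a b + if a = u ∧ b = v then t else 0) ∈ K := by
      rw [hmem]
      refine ⟨fun a b hab => ?_, fun a b hab => ?_⟩
      · by_cases hc : a = u ∧ b = v
        · obtain ⟨rfl, rfl⟩ := hc
          simp only [and_self, if_true]
          exact ⟨h1, h2⟩
        · simp only [if_neg hc, add_zero]
          exact hP1 a b hab
      · by_cases hc : a = u ∧ b = v
        · obtain ⟨rfl, rfl⟩ := hc
          exact absurd hR hab
        · simp only [if_neg hc, add_zero]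
          exact hP2 a b hab
    have h4 := hmin h3
    simp only [Set.mem_ofPred_eq] at h4
    rw [Psi_bump] at h4
    simp only [hr, hk]
    linarith
  have up : ∀ u v, R u v → r u + k v < 0 → P u v = μ := by
    intro u v hR hneg
    by_contra hne
    have hlt : P u v < μ := lt_of_le_of_ne (hP1 u v hR).2 hne
    have hl := (hP1 u v hR).1
    have ht : 0 < min (μ - P u v) (-(r u + k v) / 2) := lt_min (by linarith) (by linarith)
    have h1 := min_le_left (μ - P u v) (-(r u + k v) / 2)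
    have h2 := min_le_right (μ - P u v) (-(r u + k v) / 2)
    have h3 := var u v hR _ (by linarith) (by linarith : P u v + min (μ - P u v) (-(r u + k v) / 2) ≤ μ)
    have h4 : 0 ≤ min (μ - P u v) (-(r u + k v) / 2) *
        (r u + k v + min (μ - P u v) (-(r u + k v) / 2)) := by
      have e : min (μ - P u v) (-(r u + k v) / 2) *
        (r u + k v + min (μ - P u v) (-(r u + k v) / 2)) = min (μ - P u v) (-(r u + k v) / 2)
          * (r u + k v) + min (μ - P u v) (-(r u + k v) / 2) ^ 2 := by ring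
      rw [e]; exact h3
    have h5 := (mul_nonneg_iff_of_pos_left ht).1 h4
    linarith
  have dn : ∀ u v, R u v → 0 < r u + k v → P u v = l := by
    intro u v hR hpos
    by_contra hne
    have hlt : l < P u v := lt_of_le_of_ne (hP1 u v hR).1 (Ne.symm hne)
    have hl := (hP1 u v hR).2
    have ht : 0 < min (P u v - l) ((r u + k v) / 2) := lt_min (by linarith) (by linarith)
    have h1 := min_le_left (P u v - l) ((r u + k v) / 2)
    have h2 := min_le_right (P u v - l) ((r u + k v) / 2)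
    have h3 := var u v hR (- min (P u v - l) ((r u + k v) / 2)) (by linarith) (by linarith)
    have h4 : 0 ≤ min (P u v - l) ((r u + k v) / 2) *
        (min (P u v - l) ((r u + k v) / 2) - (r u + k v)) := by
      have e : min (P u v - l) ((r u + k v) / 2) *
        (min (P u v - l) ((r u + k v) / 2) - (r u + k v)) = - min (P u v - l) ((r u + k v) / 2)
          * (r u + k v) + (- min (P u v - l) ((r u + k v) / 2)) ^ 2 := by ring
      rw [e]; exact h3
    have h5 := (mul_nonneg_iff_of_pos_left ht).1 h4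
    linarith
  set X : Finset V := univ.filter fun u => r u < 0 with hX
  set Z : Finset V := univ.filter fun v => k v ≤ 0 with hZ
  have memX : ∀ u, u ∈ X ↔ r u < 0 := fun u => by simp [hX]
  have memZ : ∀ v, v ∈ Z ↔ k v ≤ 0 := fun v => by simp [hZ]
  have s1 : ∑ u ∈ X, ∑ v ∈ Z, P u v = μ * eN R X Z :=
    sum_eN R P X Z μ (fun u hu v hv hR => up u v hR (by
      have := (memX u).1 hu; have := (memZ v).1 hv; linarith)) hP2
  have s2 : ∑ u ∈ Xᶜ, ∑ v ∈ Zᶜ, P u v = l * eN R Xᶜ Zᶜ :=
    sum_eN R P Xᶜ Zᶜ l (fun u hu v hv hR => dn u v hR (by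
      have h1 : ¬ r u < 0 := fun hh => (Finset.mem_compl.1 hu) ((memX u).2 hh)
      have h2 : ¬ k v ≤ 0 := fun hh => (Finset.mem_compl.1 hv) ((memZ v).2 hh)
      linarith)) hP2
  have s3 : ∑ u ∈ X, (r u + 1) = ∑ u ∈ X, ∑ v ∈ Z, P u v + ∑ u ∈ X, ∑ v ∈ Zᶜ, P u v := by
    rw [← Finset.sum_add_distrib]
    refine Finset.sum_congr rfl fun u _ => ?_
    rw [Finset.sum_add_sum_compl]
    simp only [hr]; ring
  have s4 : ∑ v ∈ Zᶜ, (k v + 1) = ∑ u ∈ X, ∑ v ∈ Zᶜ, P u v + ∑ u ∈ Xᶜ, ∑ v ∈ Zᶜ, P u v := by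
    rw [Finset.sum_add_sum_compl, Finset.sum_comm]
    refine Finset.sum_congr rfl fun v _ => ?_
    simp only [hk]; ring
  have hXZ := h X Z
  have cZ : (Z.card : ℝ) + (Zᶜ).card = Fintype.card V := by
    exact_mod_cast Finset.card_add_card_compl Z
  have s5 : ∑ u ∈ X, (r u + 1) = ∑ u ∈ X, r u + X.card := by
    rw [Finset.sum_add_distrib]; simp
  have s6 : ∑ v ∈ Zᶜ, (k v + 1) = ∑ v ∈ Zᶜ, k v + (Zᶜ).card := by
    rw [Finset.sum_add_distrib]; simp
  have s7 : ∑ v ∈ Zᶜ, k v ≤ ∑ u ∈ X, r u := by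
    rw [s1] at s3
    rw [s2] at s4
    linarith
  have s8 : ∑ u ∈ X, r u ≤ 0 := Finset.sum_nonpos fun u hu => ((memX u).1 hu).le
  have pk : ∀ v ∈ Zᶜ, 0 < k v := fun v hv => not_le.1 fun hh =>
    (Finset.mem_compl.1 hv) ((memZ v).2 hh)
  have s9 : 0 ≤ ∑ v ∈ Zᶜ, k v := Finset.sum_nonneg fun v hv => (pk v hv).le
  have hXe : ∀ u, 0 ≤ r u := by
    intro u
    by_contra hu
    have hu' : u ∈ X := (memX u).2 (not_le.1 hu)
    have : ∑ u ∈ X, r u < 0 := Finset.sum_neg (fun u hu => (memX u).1 hu) ⟨u, hu'⟩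
    linarith
  have hZe : ∀ v, k v ≤ 0 := by
    intro v
    by_contra hv
    have hv' : v ∈ Zᶜ := Finset.mem_compl.2 fun hh => hv ((memZ v).1 hh)
    have : 0 < ∑ v ∈ Zᶜ, k v := Finset.sum_pos pk ⟨v, hv'⟩
    linarith
  have tot : ∑ u, r u = ∑ v, k v := by
    simp only [hr, hk]
    rw [Finset.sum_sub_distrib, Finset.sum_sub_distrib, Finset.sum_comm]
  have t1 : 0 ≤ ∑ u, r u := Finset.sum_nonneg fun u _ => hXe u
  have t2 : ∑ v, k v ≤ 0 := Finset.sum_nonpos fun v _ => hZe v
  have t3 : ∑ u, r u = 0 := le_antisymm (by rw [tot]; exact t2) t1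
  have t4 : ∑ v, k v = 0 := by rw [← tot]; exact t3
  refine ⟨P, hP1, hP2, fun u => ?_, fun v => ?_⟩
  · have := (Finset.sum_eq_zero_iff_of_nonneg fun u _ => hXe u).1 t3 u (Finset.mem_univ u)
    simp only [hr] at this
    linarith
  · have := (Finset.sum_eq_zero_iff_of_nonpos fun v _ => hZe v).1 t4 v (Finset.mem_univ v)
    simp only [hk] at this
    linarith

end Pool.Agent.Lib.RobT
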