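import Pool.Agent.Lib.RobT.Kc
import Pool.Agent.Lib.RobT.Kk

/-!
# Ker: the kernel
-/

namespace Pool.Agent.Lib.RobT

open Finset

theorem exists_kern (ζ : ℝ) (hζ : 0 < ζ) (hζ1 : ζ ≤ 1) {V : Type} [Fintype V] [DecidableEq V]
    (R : V → V → Prop) (hR : IsTour R) (hrob : Rob ζ R) (hn : 128 / ζ ≤ Fintype.card V) :
    ∃ P : V → V → ℝ, Kern R (ζ / 32) (512 / ζ) P := by
  have hn0 : (0 : ℝ) < Fintype.card V := lt_of_lt_of_le (by positivity) hn
  have hl : 0 ≤ ζ / 32 / (Fintype.card V : ℝ) := by positivity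
  have hle : ζ / 32 / (Fintype.card V : ℝ) ≤ 512 / ζ / (Fintype.card V : ℝ) := by
    apply div_le_div_of_nonneg_right _ hn0.le
    rw [div_le_div_iff₀ (by norm_num) hζ]
    nlinarith
  obtain ⟨P, h1, h2, h3, h4⟩ := exists_weights R (ζ / 32 / (Fintype.card V : ℝ))
    (512 / ζ / (Fintype.card V : ℝ)) hl hle (fun X Z => cut_ineq ζ hζ hζ1 R hR hrob hn X Z)
  refine ⟨P, ⟨fun u v h => (h1 u v h).1, fun u v => ?_, h2, fun u v => ?_, h3, h4⟩⟩
  · by_cases h : R u v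
    · exact (h1 u v h).2
    · rw [h2 u v h]
      positivity
  · by_cases h : R u v
    · exact hl.trans (h1 u v h).1
    · rw [h2 u v h]

end Pool.Agent.Lib.RobT
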