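import Pool.Agent.Lib.RobT.Defs

/-!
# Mb: basic facts on the random steps (about 200 lines)

`n = |V|`, `a = |A|`.  All facts are immediate from the definitions:
`ms = (a/n)(1 + dev)` (`dev = n ms / a - 1`); `QR` gives `|dev| ≤ δ ≤ 1/2`.
`qA_le`: `PP ≤ C/n` (`Kern.up`), `ms ≥ a/(2n)`.
`qA_sum`: `∑_v qA = (∑_{v ∈ A} PP)/ms = 1`.
`wk_sum`, `wk_nn`, `wk_append`, `wk_lin`, `wk_out`, `wk_le`: induction on the word; for `wk_out` and
`wk_le` write the word as `w' ++ [s]`: `wk (w' ++ [s]) μ = st s (wk w' μ)`, and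
`st s μ' v = ∑ μ' u qA s u v ≤ (∑ μ') max qA`.
`wk_lin`: `wk w μ v` is linear in `μ` and `μ = ∑_u μ u • pt u`.
`wk_l1`: `∑_v |st s σ v| ≤ ∑_u |σ u| ∑_v qA s u v = ∑_u |σ u|`, induction.
-/

namespace Pool.Agent.Lib.RobT

open Finset

variable {V : Type} [Fintype V] [DecidableEq V]

private theorem card_pos_of {A : Finset V} (hA : A.Nonempty) :
    0 < (A.card : ℝ) ∧ 0 < (Fintype.card V : ℝ) := by
  constructor
  · exact_mod_cast hA.card_pos
  · obtain ⟨x, _⟩ := hA
    exact_mod_cast Fintype.card_pos_iff.mpr ⟨x⟩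

theorem ms_eq (P : V → V → ℝ) (A : Finset V) (hA : A.Nonempty) (s : Bool) (u : V) :
    ms P A s u = (A.card : ℝ) / Fintype.card V * (1 + dev P A s u) := by
  obtain ⟨ha, hn⟩ := card_pos_of hA
  unfold dev
  field_simp
  ring

theorem ms_lo {P : V → V → ℝ} {A : Finset V} {δ : ℝ} (hA : A.Nonempty) (h : QR P A δ) (s : Bool)
    (u : V) : (A.card : ℝ) / Fintype.card V * (1 - δ) ≤ ms P A s u := by
  obtain ⟨ha, hn⟩ := card_pos_of hA
  rw [ms_eq P A hA s u]
  have := (abs_le.mp (h s u)).1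
  exact mul_le_mul_of_nonneg_left (by linarith) (by positivity)

theorem ms_up {P : V → V → ℝ} {A : Finset V} {δ : ℝ} (hA : A.Nonempty) (h : QR P A δ) (s : Bool)
    (u : V) : ms P A s u ≤ (A.card : ℝ) / Fintype.card V * (1 + δ) := by
  obtain ⟨ha, hn⟩ := card_pos_of hA
  rw [ms_eq P A hA s u]
  have := (abs_le.mp (h s u)).2
  exact mul_le_mul_of_nonneg_left (by linarith) (by positivity)

theorem ms_pos {P : V → V → ℝ} {A : Finset V} {δ : ℝ} (hA : A.Nonempty) (hδ : δ ≤ 1 / 2)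
    (h : QR P A δ) (s : Bool) (u : V) : 0 < ms P A s u := by
  obtain ⟨ha, hn⟩ := card_pos_of hA
  refine lt_of_lt_of_le ?_ (ms_lo hA h s u)
  have : 0 < 1 - δ := by linarith
  positivity

theorem PP_nn {R : V → V → Prop} {c C : ℝ} {P : V → V → ℝ} (hP : Kern R c C P) (s : Bool)
    (u v : V) : 0 ≤ PP P s u v := by
  cases s
  · simpa [PP] using hP.nn v u
  · simpa [PP] using hP.nn u v

theorem PP_up {R : V → V → Prop} {c C : ℝ} {P : V → V → ℝ} (hP : Kern R c C P) (s : Bool)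
    (u v : V) : PP P s u v ≤ C / Fintype.card V := by
  cases s
  · simpa [PP] using hP.up v u
  · simpa [PP] using hP.up u v

theorem PP_lo {R : V → V → Prop} {c C : ℝ} {P : V → V → ℝ} (hP : Kern R c C P) (s : Bool)
    (u v : V) (h : Arc R s u v) : c / Fintype.card V ≤ PP P s u v := by
  cases s
  · rcases h with h | h
    · simp at h
    · simpa [PP] using hP.lo v u h.2
  · rcases h with h | h
    · simpa [PP] using hP.lo u v h.2
    · simp at h

theorem PP_arc {R : V → V → Prop} {c C : ℝ} {P : V → V → ℝ} (hP : Kern R c C P) (s : Bool)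
    (u v : V) (h : 0 < PP P s u v) : Arc R s u v := by
  cases s
  · right
    refine ⟨rfl, ?_⟩
    by_contra hR
    have h0 := hP.zero v u hR
    simp [PP, h0] at h
  · left
    refine ⟨rfl, ?_⟩
    by_contra hR
    have h0 := hP.zero u v hR
    simp [PP, h0] at h

theorem PP_swap (P : V → V → ℝ) (s : Bool) (u v : V) : PP P s u v = PP P (!s) v u := by
  cases s <;> simp [PP]

theorem qA_nn {R : V → V → Prop} {c C : ℝ} {P : V → V → ℝ} (hP : Kern R c C P) (A : Finset V)
    (s : Bool) (u v : V) : 0 ≤ qA P A s u v := by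
  unfold qA
  split_ifs
  · exact div_nonneg (PP_nn hP s u v) (Finset.sum_nonneg fun w _ => PP_nn hP s u w)
  · exact le_rfl

theorem qA_le {R : V → V → Prop} {c C : ℝ} {P : V → V → ℝ} (hP : Kern R c C P) {A : Finset V}
    {δ : ℝ} (hC : 0 ≤ C) (hA : A.Nonempty) (hδ : δ ≤ 1 / 2) (h : QR P A δ) (s : Bool) (u v : V) :
    qA P A s u v ≤ 2 * C / A.card := by
  obtain ⟨ha, hn⟩ := card_pos_of hA
  unfold qA
  split_ifs
  · have hm : (A.card : ℝ) / Fintype.card V * (1 / 2) ≤ ms P A s u := by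
      refine le_trans ?_ (ms_lo hA h s u)
      exact mul_le_mul_of_nonneg_left (by linarith) (by positivity)
    have hm0 : 0 < (A.card : ℝ) / Fintype.card V * (1 / 2) := by positivity
    rw [div_le_iff₀ (lt_of_lt_of_le hm0 hm)]
    refine le_trans (PP_up hP s u v) ?_
    calc C / Fintype.card V = 2 * C / A.card * ((A.card : ℝ) / Fintype.card V * (1 / 2)) := by
          field_simp
      _ ≤ 2 * C / A.card * ms P A s u := mul_le_mul_of_nonneg_left hm (by positivity)
  · positivity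

theorem qA_sum {P : V → V → ℝ} {A : Finset V} {δ : ℝ} (hA : A.Nonempty) (hδ : δ ≤ 1 / 2)
    (h : QR P A δ) (s : Bool) (u : V) : ∑ v, qA P A s u v = 1 := by
  have hm := ms_pos hA hδ h s u
  unfold qA
  rw [Finset.sum_ite_mem, Finset.univ_inter, ← Finset.sum_div]
  exact div_self hm.ne'

private theorem st_nn {R : V → V → Prop} {c C : ℝ} {P : V → V → ℝ} (hP : Kern R c C P)
    (A : Finset V) (s : Bool) (μ : V → ℝ) (hμ : ∀ v, 0 ≤ μ v) (v : V) : 0 ≤ st P A s μ v :=
  Finset.sum_nonneg fun u _ => mul_nonneg (hμ u) (qA_nn hP A s u v)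

private theorem st_sum {P : V → V → ℝ} {A : Finset V} {δ : ℝ} (hA : A.Nonempty) (hδ : δ ≤ 1 / 2)
    (h : QR P A δ) (s : Bool) (μ : V → ℝ) : ∑ v, st P A s μ v = ∑ v, μ v := by
  unfold st
  rw [Finset.sum_comm]
  refine Finset.sum_congr rfl fun u _ => ?_
  rw [← Finset.mul_sum, qA_sum hA hδ h s u, mul_one]

theorem wk_nn {R : V → V → Prop} {c C : ℝ} {P : V → V → ℝ} (hP : Kern R c C P) (A : Finset V)
    (w : List Bool) (μ : V → ℝ) (hμ : ∀ v, 0 ≤ μ v) (v : V) : 0 ≤ wk P A w μ v := by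
  induction w generalizing μ with
  | nil => exact hμ v
  | cons s w ih => exact ih _ (st_nn hP A s μ hμ)

theorem wk_sum {P : V → V → ℝ} {A : Finset V} {δ : ℝ} (hA : A.Nonempty) (hδ : δ ≤ 1 / 2)
    (h : QR P A δ) (w : List Bool) (μ : V → ℝ) : ∑ v, wk P A w μ v = ∑ v, μ v := by
  induction w generalizing μ with
  | nil => rfl
  | cons s w ih =>
    show ∑ v, wk P A w (st P A s μ) v = _
    rw [ih, st_sum hA hδ h s μ]

theorem wk_append (P : V → V → ℝ) (A : Finset V) (w w' : List Bool) (μ : V → ℝ) :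
    wk P A (w ++ w') μ = wk P A w' (wk P A w μ) := by
  induction w generalizing μ with
  | nil => rfl
  | cons s w ih => exact ih _

/-- Linearity of one step. -/
private theorem st_lin (P : V → V → ℝ) (A : Finset V) (s : Bool) {ι : Type} (T : Finset ι)
    (c : ι → ℝ) (f : ι → V → ℝ) :
    st P A s (fun v => ∑ i ∈ T, c i * f i v) = fun v => ∑ i ∈ T, c i * st P A s (f i) v := by
  funext v
  unfold st
  simp only [Finset.sum_mul, Finset.mul_sum]
  rw [Finset.sum_comm]
  refine Finset.sum_congr rfl fun i _ => Finset.sum_congr rfl fun u _ => ?_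
  ring

private theorem wk_lin' (P : V → V → ℝ) (A : Finset V) (w : List Bool) {ι : Type} (T : Finset ι)
    (c : ι → ℝ) (f : ι → V → ℝ) :
    wk P A w (fun v => ∑ i ∈ T, c i * f i v) = fun v => ∑ i ∈ T, c i * wk P A w (f i) v := by
  induction w generalizing f with
  | nil => rfl
  | cons s w ih =>
    show wk P A w (st P A s _) = _
    rw [st_lin, ih]
    rfl

theorem wk_lin (P : V → V → ℝ) (A : Finset V) (w : List Bool) (μ : V → ℝ) (v : V) :
    wk P A w μ v = ∑ u, μ u * wk P A w (pt u) v := by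
  have h1 : μ = fun v => ∑ u ∈ (Finset.univ : Finset V), μ u * pt u v := by
    funext x
    simp [pt]
  conv_lhs => rw [h1]
  rw [wk_lin' P A w Finset.univ μ pt]

theorem wk_sub (P : V → V → ℝ) (A : Finset V) (w : List Bool) (μ μ' : V → ℝ) (v : V) :
    wk P A w (fun x => μ x - μ' x) v = wk P A w μ v - wk P A w μ' v := by
  rw [wk_lin P A w (fun x => μ x - μ' x) v, wk_lin P A w μ v, wk_lin P A w μ' v,
    ← Finset.sum_sub_distrib]
  refine Finset.sum_congr rfl fun u _ => ?_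
  ring

theorem wk_out (P : V → V → ℝ) (A : Finset V) (w : List Bool) (hw : w ≠ []) (μ : V → ℝ) (v : V)
    (hv : v ∉ A) : wk P A w μ v = 0 := by
  obtain ⟨w', s, rfl⟩ := List.eq_nil_or_concat' w |>.resolve_left hw
  rw [wk_append]
  show st P A s _ v = 0
  unfold st qA
  simp [hv]

theorem wk_le {R : V → V → Prop} {c C : ℝ} {P : V → V → ℝ} (hP : Kern R c C P) {A : Finset V}
    {δ : ℝ} (hC : 0 ≤ C) (hA : A.Nonempty) (hδ : δ ≤ 1 / 2) (h : QR P A δ) (w : List Bool)
    (hw : w ≠ []) (μ : V → ℝ) (hμ : ∀ v, 0 ≤ μ v) (hμ1 : ∑ v, μ v = 1) (v : V) :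
    wk P A w μ v ≤ 2 * C / A.card := by
  obtain ⟨w', s, rfl⟩ := List.eq_nil_or_concat' w |>.resolve_left hw
  rw [wk_append]
  show st P A s (wk P A w' μ) v ≤ _
  unfold st
  calc ∑ u, wk P A w' μ u * qA P A s u v ≤ ∑ u, wk P A w' μ u * (2 * C / A.card) :=
        Finset.sum_le_sum fun u _ =>
          mul_le_mul_of_nonneg_left (qA_le hP hC hA hδ h s u v) (wk_nn hP A w' μ hμ u)
    _ = 2 * C / A.card := by
        rw [← Finset.sum_mul, wk_sum hA hδ h w' μ, hμ1, one_mul]

theorem wk_l1 {R : V → V → Prop} {c C : ℝ} {P : V → V → ℝ} (hP : Kern R c C P) {A : Finset V}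
    {δ : ℝ} (hA : A.Nonempty) (hδ : δ ≤ 1 / 2) (h : QR P A δ) (w : List Bool) (σ : V → ℝ) :
    ∑ v, |wk P A w σ v| ≤ ∑ v, |σ v| := by
  induction w generalizing σ with
  | nil => exact le_rfl
  | cons s w ih =>
    show ∑ v, |wk P A w (st P A s σ) v| ≤ _
    refine le_trans (ih _) ?_
    have h1 : ∀ v, |st P A s σ v| ≤ st P A s (fun u => |σ u|) v := by
      intro v
      unfold st
      refine le_trans (Finset.abs_sum_le_sum_abs _ _) (le_of_eq ?_)
      refine Finset.sum_congr rfl fun u _ => ?_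
      rw [abs_mul, abs_of_nonneg (qA_nn hP A s u v)]
    exact le_trans (Finset.sum_le_sum fun v _ => h1 v) (le_of_eq (st_sum hA hδ h s _))

end Pool.Agent.Lib.RobT
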