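import Pool.Agent.Lib.RobT.Mx

/-!
# Md: all words of a fixed length have positive transition probabilities (about 180 lines)

`a = |A|`, `τ = 1/(4C)`, `ν = nuC c C ≤ 1/2048`.
CLAIM.  For every word `w` with `1 ≤ |w| = j` and every `u : V` there is `X ⊆ A` with
`wk P A w (pt u) v ≥ (c/2) (ν/2)^(j-1) / a` for `v ∈ X` and
`|X| ≥ min (τ a + (j-1) ν a) ((1-τ) a)`; moreover, `X = A` if `j ≥ 1/ν + 2`.
Induction on `j`, the word being `w = w' ++ [s]` (`wk_append`: `wk w μ = st s (wk w' μ)`).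
`j = 1`: `X = {v ∈ A | Arc R s u v}`: `wk [s] (pt u) v = qA s u v = PP s u v / ms ≥ (c/n)/(2 a/n)
= c/(2a)` (`PP_lo`, `ms_up`), and `a/(2n) ≤ ms P A s u ≤ |X| C/n` (`PP_up`, and `PP = 0` off the
arcs), so `|X| ≥ a/(2C) ≥ τ a`.
Step: `X' = Rc P A X s ν`: for `v ∈ X'`, `wk (w' ++ [s]) (pt u) v ≥ ∑_{x ∈ X} (γ/a) PP s x v / ms
≥ (γ/a) (ν a/n) / (2 a/n) = (γ ν/2)/a` (`ms ≤ 2 a/n`).  If `|X| ≤ (1-τ) a` then
`|X'| ≥ |X| + ν a`, otherwise `X' = A` (`expand`).
If `j - 1 ≥ 1/ν + 1`: the set at length `j - 1` has size `≥ (1-τ) a`, so the next one is `A`.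
Take `l = ⌈1/ν⌉ + 3` and `c₁ = (c/2)(ν/2)^(l-1)`.
-/

/-!
# Md: all words of a fixed length have positive transition probabilities (about 180 lines)

`a = |A|`, `τ = 1/(4C)`, `ν = nuC c C ≤ 1/2048`.
CLAIM.  For every word `w` with `1 ≤ |w| = j` and every `u : V` there is `X ⊆ A` with
`wk P A w (pt u) v ≥ (c/2) (ν/2)^(j-1) / a` for `v ∈ X` and
`|X| ≥ min (τ a + (j-1) ν a) ((1-τ) a)`; moreover, `X = A` if `j ≥ 1/ν + 2`.
Induction on `j`, the word being `w = w' ++ [s]` (`wk_append`: `wk w μ = st s (wk w' μ)`).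
`j = 1`: `X = {v ∈ A | Arc R s u v}`: `wk [s] (pt u) v = qA s u v = PP s u v / ms ≥ (c/n)/(2 a/n)
= c/(2a)` (`PP_lo`, `ms_up`), and `a/(2n) ≤ ms P A s u ≤ |X| C/n` (`PP_up`, and `PP = 0` off the
arcs), so `|X| ≥ a/(2C) ≥ τ a`.
Step: `X' = Rc P A X s ν`: for `v ∈ X'`, `wk (w' ++ [s]) (pt u) v ≥ ∑_{x ∈ X} (γ/a) PP s x v / ms
≥ (γ/a) (ν a/n) / (2 a/n) = (γ ν/2)/a` (`ms ≤ 2 a/n`).  If `|X| ≤ (1-τ) a` then
`|X'| ≥ |X| + ν a`, otherwise `X' = A` (`expand`).
If `j - 1 ≥ 1/ν + 1`: the set at length `j - 1` has size `≥ (1-τ) a`, so the next one is `A`.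
Take `l = ⌈1/ν⌉ + 3` and `c₁ = (c/2)(ν/2)^(l-1)`.
-/

namespace Pool.Agent.Lib.RobT

open Finset

private theorem md_st {V : Type} [Fintype V] [DecidableEq V] {R : V → V → Prop} {c C : ℝ}
    {P : V → V → ℝ} (hP : Kern R c C P) {A X : Finset V} {δ : ℝ} (hA : A.Nonempty)
    (hδ : δ ≤ 1 / 2) (hq : QR P A δ) (hXA : X ⊆ A) (s : Bool) {ν γ : ℝ} (hν : 0 ≤ ν)
    (hγ : 0 ≤ γ) (μ : V → ℝ) (hμ : ∀ v, 0 ≤ μ v) (hX : ∀ v ∈ X, γ / A.card ≤ μ v)
    (v : V) (hv : v ∈ Rc P A X s ν) : γ * (ν / 2) / A.card ≤ st P A s μ v := by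
  have ha : 0 < (A.card : ℝ) := by exact_mod_cast hA.card_pos
  have hn : 0 < (Fintype.card V : ℝ) := by
    obtain ⟨x, _⟩ := hA
    exact_mod_cast Fintype.card_pos_iff.mpr ⟨x⟩
  unfold Rc at hv
  rw [Finset.mem_filter] at hv
  obtain ⟨hvA, hvm⟩ := hv
  have hm : ∀ u, ms P A s u ≤ 2 * (A.card / Fintype.card V) := by
    intro u
    refine le_trans (ms_up hA hq s u) ?_
    rw [mul_comm (2 : ℝ)]
    exact mul_le_mul_of_nonneg_left (by linarith) (by positivity)
  unfold st
  have h1 : ∑ u ∈ X, μ u * qA P A s u v ≤ ∑ u, μ u * qA P A s u v :=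
    Finset.sum_le_sum_of_subset_of_nonneg (Finset.subset_univ X) fun u _ _ =>
      mul_nonneg (hμ u) (qA_nn hP A s u v)
  refine le_trans ?_ h1
  have h2 : ∀ u ∈ X, γ / A.card * (PP P s u v / (2 * (A.card / Fintype.card V))) ≤
      μ u * qA P A s u v := by
    intro u hu
    have h3 : PP P s u v / (2 * (A.card / Fintype.card V)) ≤ qA P A s u v := by
      unfold qA
      rw [if_pos hvA]
      exact div_le_div_of_nonneg_left (PP_nn hP s u v) (ms_pos hA hδ hq s u) (hm u)
    exact mul_le_mul (hX u hu) h3 (div_nonneg (PP_nn hP s u v) (by positivity)) (hμ u)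
  refine le_trans ?_ (Finset.sum_le_sum h2)
  rw [← Finset.mul_sum, ← Finset.sum_div]
  calc γ * (ν / 2) / A.card
      = γ / A.card * (ν * (A.card / Fintype.card V) / (2 * (A.card / Fintype.card V))) := by
        field_simp
    _ ≤ _ := by
        apply mul_le_mul_of_nonneg_left _ (by positivity)
        exact div_le_div_of_nonneg_right hvm (by positivity)

private theorem md_base {V : Type} [Fintype V] [DecidableEq V] {R : V → V → Prop} {c C : ℝ}
    {P : V → V → ℝ} (hP : Kern R c C P) (hc : 0 < c) (hC : 1 ≤ C) {A : Finset V} {δ : ℝ}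
    (hA : A.Nonempty) (hδ : δ ≤ 1 / 2) (hq : QR P A δ) (s : Bool) (u : V) :
    ∃ X ⊆ A, (∀ v ∈ X, c / 2 / A.card ≤ st P A s (pt u) v) ∧
      (A.card : ℝ) / (4 * C) ≤ X.card := by
  classical
  have ha : 0 < (A.card : ℝ) := by exact_mod_cast hA.card_pos
  have hn : 0 < (Fintype.card V : ℝ) := by
    obtain ⟨x, _⟩ := hA
    exact_mod_cast Fintype.card_pos_iff.mpr ⟨x⟩
  have hst : ∀ v, st P A s (pt u) v = qA P A s u v := by
    intro v
    unfold st pt
    simp
  refine ⟨A.filter fun v => Arc R s u v, Finset.filter_subset _ _, ?_, ?_⟩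
  · intro v hv
    rw [Finset.mem_filter] at hv
    rw [hst]
    unfold qA
    rw [if_pos hv.1]
    have hm : ms P A s u ≤ 2 * (A.card / Fintype.card V) := by
      refine le_trans (ms_up hA hq s u) ?_
      rw [mul_comm (2 : ℝ)]
      exact mul_le_mul_of_nonneg_left (by linarith) (by positivity)
    calc c / 2 / A.card = c / Fintype.card V / (2 * (A.card / Fintype.card V)) := by
          field_simp
      _ ≤ PP P s u v / (2 * (A.card / Fintype.card V)) :=
          div_le_div_of_nonneg_right (PP_lo hP s u v hv.2) (by positivity)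
      _ ≤ PP P s u v / ms P A s u :=
          div_le_div_of_nonneg_left (PP_nn hP s u v) (ms_pos hA hδ hq s u) hm
  · have h1 : (A.card : ℝ) / Fintype.card V * (1 / 2) ≤ ms P A s u := by
      refine le_trans ?_ (ms_lo hA hq s u)
      exact mul_le_mul_of_nonneg_left (by linarith) (by positivity)
    have h2 : ms P A s u ≤ ((A.filter fun v => Arc R s u v).card : ℝ) * (C / Fintype.card V) := by
      unfold ms
      have h3 : ∑ w ∈ A, PP P s u w = ∑ w ∈ A.filter (fun v => Arc R s u v), PP P s u w := by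
        symm
        apply Finset.sum_subset (Finset.filter_subset _ _)
        intro x hx hx2
        by_contra hne
        apply hx2
        rw [Finset.mem_filter]
        exact ⟨hx, PP_arc hP s u x (lt_of_le_of_ne (PP_nn hP s u x) (Ne.symm hne))⟩
      rw [h3]
      calc ∑ w ∈ A.filter (fun v => Arc R s u v), PP P s u w
          ≤ ∑ w ∈ A.filter (fun v => Arc R s u v), C / Fintype.card V :=
            Finset.sum_le_sum fun w _ => PP_up hP s u w
        _ = _ := by rw [Finset.sum_const, nsmul_eq_mul]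
    have h4 := le_trans h1 h2
    have hC0 : 0 < C := by linarith
    rw [div_le_iff₀ (by positivity)]
    have h5 : (A.card : ℝ) * (1 / 2) ≤ ((A.filter fun v => Arc R s u v).card : ℝ) * C := by
      have h6 := mul_le_mul_of_nonneg_right h4 hn.le
      have e1 : (A.card : ℝ) / Fintype.card V * (1 / 2) * Fintype.card V = A.card * (1 / 2) := by
        field_simp
      have e2 : ((A.filter fun v => Arc R s u v).card : ℝ) * (C / Fintype.card V) *
          Fintype.card V = ((A.filter fun v => Arc R s u v).card : ℝ) * C := by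
        field_simp
      rw [e1, e2] at h6
      exact h6
    nlinarith

private theorem md_claim {V : Type} [Fintype V] [DecidableEq V] {R : V → V → Prop} {c C : ℝ}
    {P : V → V → ℝ} (hP : Kern R c C P) (hR : IsTour R) (hc : 0 < c) (hc1 : c ≤ 1) (hC : 1 ≤ C)
    {A : Finset V} {δ : ℝ} (ha : 16 * C ≤ A.card) (hδ0 : 0 ≤ δ) (hδν : δ ≤ nuC c C)
    (hδ : δ ≤ 1 / 2) (hq : QR P A δ) (u : V) (j : ℕ) :
    ∀ w : List Bool, w.length = j + 1 → ∃ X ⊆ A,
      (∀ v ∈ X, c / 2 * (nuC c C / 2) ^ j / A.card ≤ wk P A w (pt u) v) ∧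
      min ((A.card : ℝ) / (4 * C) + j * nuC c C * A.card) ((1 - 1 / (4 * C)) * A.card) ≤
        X.card := by
  have hC0 : 0 < C := by linarith
  have ha0 : 0 < (A.card : ℝ) := by linarith
  have hA : A.Nonempty := Finset.card_pos.mp (by exact_mod_cast ha0)
  have hν0 : 0 < nuC c C := by unfold nuC; positivity
  induction j with
  | zero =>
    intro w hw
    obtain ⟨s, rfl⟩ := List.length_eq_one_iff.mp hw
    obtain ⟨X, hXA, hX1, hX2⟩ := md_base hP hc hC hA hδ hq s u
    refine ⟨X, hXA, ?_, ?_⟩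
    · intro v hv
      rw [pow_zero, mul_one]
      exact hX1 v hv
    · refine le_trans (min_le_left _ _) ?_
      rw [Nat.cast_zero, zero_mul, zero_mul, add_zero]
      exact hX2
  | succ j ih =>
    intro w hw
    obtain ⟨w', s, rfl⟩ := List.eq_nil_or_concat' w |>.resolve_left (by
      intro h0
      rw [h0] at hw
      simp at hw)
    have hw' : w'.length = j + 1 := by
      rw [List.length_append] at hw
      simpa using hw
    obtain ⟨X, hXA, hX1, hX2⟩ := ih w' hw'
    have hex := expand hP hR hc hc1 hC A X hXA hδ0 hδν hq ha s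
    refine ⟨Rc P A X s (nuC c C), ?_, ?_, ?_⟩
    · unfold Rc
      exact Finset.filter_subset _ _
    · intro v hv
      rw [wk_append]
      have h1 := md_st hP hA hδ hq hXA s hν0.le (γ := c / 2 * (nuC c C / 2) ^ j) (by positivity)
        (wk P A w' (pt u)) (wk_nn hP A w' (pt u) (fun v => by unfold pt; split_ifs <;> norm_num))
        hX1 v hv
      rw [pow_succ, ← mul_assoc]
      exact h1
    · by_cases hbig : (1 - 1 / (4 * C)) * A.card ≤ (X.card : ℝ)
      · rw [hex.2 hbig]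
        refine le_trans (min_le_right _ _) ?_
        have : 0 ≤ 1 / (4 * C) := by positivity
        nlinarith
      · push Not at hbig
        have h1 : (A.card : ℝ) / (4 * C) + j * nuC c C * A.card ≤ X.card := by
          rcases min_le_iff.mp hX2 with h | h
          · exact h
          · linarith
        have h0 : (A.card : ℝ) / (4 * C) ≤ X.card := by
          have : 0 ≤ j * nuC c C * A.card := by positivity
          linarith
        have h2 := hex.1 h0 hbig.le
        refine le_trans (min_le_left _ _) ?_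
        push_cast
        nlinarith

theorem doeblin (c C : ℝ) (hc : 0 < c) (hc1 : c ≤ 1) (hC : 1 ≤ C) :
    ∃ (l : ℕ) (c₁ : ℝ), 0 < c₁ ∧ c₁ ≤ 1 ∧ 1 ≤ l ∧
      ∀ (V : Type) [Fintype V] [DecidableEq V] (R : V → V → Prop) (P : V → V → ℝ), IsTour R →
      Kern R c C P → ∀ (A : Finset V) (δ : ℝ), 16 * C ≤ A.card → 0 ≤ δ → δ ≤ nuC c C →
      QR P A δ → ∀ w : List Bool, w.length = l → ∀ u : V, ∀ v ∈ A,
      c₁ / A.card ≤ wk P A w (pt u) v := by
  have hC0 : 0 < C := by linarith
  have hν0 : 0 < nuC c C := by unfold nuC; positivity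
  have hν1 : nuC c C ≤ 1 / 2 := by
    unfold nuC
    rw [div_le_iff₀ (by positivity)]
    nlinarith
  set J : ℕ := ⌈1 / nuC c C⌉₊ with hJ
  refine ⟨J + 2, c / 2 * (nuC c C / 2) ^ (J + 1), by positivity, ?_, by omega, ?_⟩
  · have h1 : (nuC c C / 2) ^ (J + 1) ≤ 1 := pow_le_one₀ (by positivity) (by linarith)
    nlinarith [pow_pos (half_pos hν0) (J + 1)]
  intro V _ _ R P hR hP A δ ha hδ0 hδν hq w hw u v hv
  have ha0 : 0 < (A.card : ℝ) := by linarith
  have hA : A.Nonempty := Finset.card_pos.mp (by exact_mod_cast ha0)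
  have hδ : δ ≤ 1 / 2 := by linarith
  obtain ⟨w', s, rfl⟩ := List.eq_nil_or_concat' w |>.resolve_left (by
    intro h0
    rw [h0] at hw
    simp at hw)
  have hw' : w'.length = J + 1 := by
    rw [List.length_append] at hw
    simpa using hw
  obtain ⟨X, hXA, hX1, hX2⟩ := md_claim hP hR hc hc1 hC ha hδ0 hδν hδ hq u J w' hw'
  have hJ1 : 1 ≤ J * nuC c C := by
    have := Nat.le_ceil (1 / nuC c C)
    rw [← hJ, div_le_iff₀ hν0] at this
    exact this
  have hbig : (1 - 1 / (4 * C)) * A.card ≤ (X.card : ℝ) := by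
    rcases min_le_iff.mp hX2 with h | h
    · have h1 : 0 ≤ (A.card : ℝ) / (4 * C) := by positivity
      have h2 : 0 ≤ 1 / (4 * C) := by positivity
      nlinarith
    · exact h
  have hex := (expand hP hR hc hc1 hC A X hXA hδ0 hδν hq ha s).2 hbig
  rw [wk_append]
  have h1 := md_st hP hA hδ hq hXA s hν0.le (γ := c / 2 * (nuC c C / 2) ^ J) (by positivity)
    (wk P A w' (pt u)) (wk_nn hP A w' (pt u) (fun v => by unfold pt; split_ifs <;> norm_num))
    hX1 v (by rw [hex]; exact hv)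
  rw [pow_succ, ← mul_assoc]
  exact h1

end Pool.Agent.Lib.RobT
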