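import Pool.Agent.Lib.RobT.Md

/-!
# Mm: mixing (about 220 lines)

`a = |A|`, `l₁, c₁` from `doeblin`, `U v = 1/a` on `A`, `0` outside.
(1) One letter: for `v ∈ A`, `st s U v = (1/a) ∑_{u ∈ A} PP s u v / ms s u`, where
`ms s u ∈ (a/n)[1-δ, 1+δ]` and `∑_{u ∈ A} PP s u v = ms (!s) v ∈ (a/n)[1-δ, 1+δ]`; so
`|st s U v - 1/a| ≤ 4 δ/a` (as `δ ≤ 1/4`), and `st s U v = 0 = U v` outside `A`:
`∑_v |st s U v - U v| ≤ 4 δ`.
(2) For a word `w`: `∑_v |wk w U v - U v| ≤ 4 δ |w|` (induction, `wk_l1`).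
(3) Contraction: `|w| = l₁`, `∑ σ = 0`: `wk w σ v = ∑_u σ u wk w (pt u) v
= ∑_u σ u (wk w (pt u) v - c₁ U v)`, the bracket is `≥ 0` and has sum `1 - c₁` over `v`, so
`∑_v |wk w σ v| ≤ (1 - c₁) ∑_u |σ u|`.
(4) For a probability distribution `μ` (`μ ≥ 0`, `∑ μ = 1`) and `|w| = l₁`:
`‖wk w μ - U‖₁ ≤ ‖wk w (μ - U)‖₁ + ‖wk w U - U‖₁ ≤ (1-c₁) ‖μ - U‖₁ + 4 δ l₁`.  So for
`|w| = t l₁`: `‖wk w μ - U‖₁ ≤ 2 (1-c₁)^t + 4 δ l₁/c₁`.
(5) `|w| ≥ t l₁ + 1`, `w = w₀ ++ w₁ ++ [s]`, `|w₁| = t l₁`, `μ = wk w₀ (pt u)` is a probability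
distribution, `μ' = wk w₁ μ`: for `v ∈ A`, `|st s μ' v - st s U v| ≤ ‖μ' - U‖₁ (2C/a)` (`qA_le`), so
`|wk w (pt u) v - 1/a| ≤ (1/a) (2C (2 (1-c₁)^t + 4 δ l₁/c₁) + 4 δ)`.
`Cm = 8 C l₁/c₁ + 4`, `t` with `4 C (1-c₁)^t ≤ ε₀`, `l = t l₁ + 1`.
-/

namespace Pool.Agent.Lib.RobT

open Finset

section aux

variable {V : Type} [Fintype V] [DecidableEq V]

/-- the uniform distribution on `A` -/
private noncomputable def uni (A : Finset V) : V → ℝ :=
  fun v => if v ∈ A then 1 / (A.card : ℝ) else 0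

private theorem uni_nn (A : Finset V) (v : V) : 0 ≤ uni A v := by
  unfold uni
  split_ifs <;> positivity

private theorem uni_sum {A : Finset V} (hA : A.Nonempty) : ∑ v, uni A v = 1 := by
  unfold uni
  rw [Finset.sum_ite_mem, Finset.univ_inter, Finset.sum_const, nsmul_eq_mul]
  have : (A.card : ℝ) ≠ 0 := by exact_mod_cast hA.card_pos.ne'
  field_simp

private theorem st_uni {R : V → V → Prop} {c C : ℝ} {P : V → V → ℝ} (hP : Kern R c C P)
    {A : Finset V} {δ : ℝ} (hA : A.Nonempty) (hδ0 : 0 ≤ δ) (hδ : δ ≤ 1 / 2) (h : QR P A δ)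
    (s : Bool) (v : V) (hv : v ∈ A) :
    |st P A s (uni A) v - 1 / A.card| ≤ 4 * δ / A.card := by
  have ha : (0 : ℝ) < A.card := by exact_mod_cast hA.card_pos
  have hn : (0 : ℝ) < Fintype.card V := by
    have : Nonempty V := ⟨v⟩
    exact_mod_cast Fintype.card_pos
  have hα0 : 0 < (A.card : ℝ) / Fintype.card V := div_pos ha hn
  have e1 : st P A s (uni A) v
      = ∑ u ∈ A, (1 / (A.card : ℝ)) * (PP P s u v / ms P A s u) := by
    unfold st uni qA
    simp only [if_pos hv, ite_mul, zero_mul]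
    rw [Finset.sum_ite_mem, Finset.univ_inter]
  have e2 : ∑ u ∈ A, PP P s u v = ms P A (!s) v := by
    unfold ms
    exact Finset.sum_congr rfl (fun u _ => PP_swap P s u v)
  have l2 := ms_lo hA h (!s) v
  have u2 := ms_up hA h (!s) v
  have msl := fun u => ms_lo hA h s u
  have msu := fun u => ms_up hA h s u
  generalize (A.card : ℝ) / Fintype.card V = α at *
  have hpos1 : 0 < α * (1 + δ) := mul_pos hα0 (by linarith)
  have hpos2 : 0 < α * (1 - δ) := mul_pos hα0 (by linarith)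
  have lo : (1 / (A.card : ℝ)) * (ms P A (!s) v / (α * (1 + δ))) ≤ st P A s (uni A) v := by
    rw [e1, ← e2, Finset.sum_div, Finset.mul_sum]
    refine Finset.sum_le_sum (fun u _ => ?_)
    refine mul_le_mul_of_nonneg_left ?_ (by positivity)
    exact div_le_div_of_nonneg_left (PP_nn hP s u v) (ms_pos hA hδ h s u) (msu u)
  have up : st P A s (uni A) v ≤ (1 / (A.card : ℝ)) * (ms P A (!s) v / (α * (1 - δ))) := by
    rw [e1, ← e2, Finset.sum_div, Finset.mul_sum]
    refine Finset.sum_le_sum (fun u _ => ?_)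
    refine mul_le_mul_of_nonneg_left ?_ (by positivity)
    exact div_le_div_of_nonneg_left (PP_nn hP s u v) hpos2 (msl u)
  have h1 : 1 - 4 * δ ≤ ms P A (!s) v / (α * (1 + δ)) := by
    rw [le_div_iff₀ hpos1]
    refine le_trans ?_ l2
    have : 0 ≤ α * (2 * δ + 4 * δ ^ 2) := by positivity
    nlinarith
  have h2 : ms P A (!s) v / (α * (1 - δ)) ≤ 1 + 4 * δ := by
    rw [div_le_iff₀ hpos2]
    refine u2.trans ?_
    have : 0 ≤ α * (2 * δ * (1 - 2 * δ)) :=
      mul_nonneg hα0.le (mul_nonneg (by linarith) (by linarith))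
    nlinarith
  have hi : 0 ≤ 1 / (A.card : ℝ) := by positivity
  have h3 := mul_le_mul_of_nonneg_left h1 hi
  have h4 := mul_le_mul_of_nonneg_left h2 hi
  have e3 : 4 * δ / (A.card : ℝ) = 1 / (A.card : ℝ) * (4 * δ) := by ring
  rw [abs_le, e3]
  constructor <;> nlinarith

private theorem st_uni_l1 {R : V → V → Prop} {c C : ℝ} {P : V → V → ℝ} (hP : Kern R c C P)
    {A : Finset V} {δ : ℝ} (hA : A.Nonempty) (hδ0 : 0 ≤ δ) (hδ : δ ≤ 1 / 2) (h : QR P A δ)
    (s : Bool) : ∑ v, |st P A s (uni A) v - uni A v| ≤ 4 * δ := by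
  have ha : (0 : ℝ) < A.card := by exact_mod_cast hA.card_pos
  have hle : ∀ v, |st P A s (uni A) v - uni A v| ≤ if v ∈ A then 4 * δ / (A.card : ℝ) else 0 := by
    intro v
    by_cases hv : v ∈ A
    · have := st_uni hP hA hδ0 hδ h s v hv
      have hu : uni A v = 1 / (A.card : ℝ) := by simp [uni, hv]
      rw [hu, if_pos hv]
      exact this
    · have hu : uni A v = 0 := by simp [uni, hv]
      have hs : st P A s (uni A) v = 0 := by simp [st, qA, hv]
      rw [hu, hs, if_neg hv]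
      simp
  refine (Finset.sum_le_sum (fun v _ => hle v)).trans ?_
  rw [Finset.sum_ite_mem, Finset.univ_inter, Finset.sum_const, nsmul_eq_mul]
  apply le_of_eq
  field_simp

private theorem wk_uni {R : V → V → Prop} {c C : ℝ} {P : V → V → ℝ} (hP : Kern R c C P)
    {A : Finset V} {δ : ℝ} (hA : A.Nonempty) (hδ0 : 0 ≤ δ) (hδ : δ ≤ 1 / 2) (h : QR P A δ)
    (w : List Bool) : ∑ v, |wk P A w (uni A) v - uni A v| ≤ 4 * δ * w.length := by
  induction w with
  | nil => simp [wk]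
  | cons s w ih =>
    have e : ∀ v, wk P A (s :: w) (uni A) v - uni A v =
        wk P A w (fun x => st P A s (uni A) x - uni A x) v + (wk P A w (uni A) v - uni A v) := by
      intro v
      rw [wk_sub]
      show wk P A w (st P A s (uni A)) v - _ = _
      ring
    calc ∑ v, |wk P A (s :: w) (uni A) v - uni A v|
        ≤ ∑ v, (|wk P A w (fun x => st P A s (uni A) x - uni A x) v| +
            |wk P A w (uni A) v - uni A v|) :=
          Finset.sum_le_sum (fun v _ => by rw [e]; exact abs_add_le _ _)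
      _ = ∑ v, |wk P A w (fun x => st P A s (uni A) x - uni A x) v| +
            ∑ v, |wk P A w (uni A) v - uni A v| := Finset.sum_add_distrib
      _ ≤ 4 * δ + 4 * δ * w.length :=
          add_le_add ((wk_l1 hP hA hδ h w _).trans (st_uni_l1 hP hA hδ0 hδ h s)) ih
      _ = 4 * δ * (s :: w).length := by
          rw [List.length_cons]
          push_cast
          ring

private theorem pt_nn (u v : V) : 0 ≤ pt u v := by
  unfold pt
  split_ifs <;> norm_num

private theorem pt_sum (u : V) : ∑ v, pt u v = 1 := by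
  simp [pt]

private theorem contract {R : V → V → Prop} {c C : ℝ} {P : V → V → ℝ} (hP : Kern R c C P)
    {A : Finset V} {δ : ℝ} (hA : A.Nonempty) (hδ : δ ≤ 1 / 2) (h : QR P A δ) {c₁ : ℝ}
    (w : List Bool) (hw : ∀ u, ∀ v ∈ A, c₁ / A.card ≤ wk P A w (pt u) v) (σ : V → ℝ)
    (hσ : ∑ v, σ v = 0) : ∑ v, |wk P A w σ v| ≤ (1 - c₁) * ∑ v, |σ v| := by
  have e : ∀ v, wk P A w σ v = ∑ u, σ u * (wk P A w (pt u) v - c₁ * uni A v) := by
    intro v
    rw [wk_lin]
    simp only [mul_sub, Finset.sum_sub_distrib]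
    rw [← Finset.sum_mul, hσ]
    ring
  have nn : ∀ u v, 0 ≤ wk P A w (pt u) v - c₁ * uni A v := by
    intro u v
    by_cases hv : v ∈ A
    · have h1 := hw u v hv
      have hu : uni A v = 1 / (A.card : ℝ) := by simp [uni, hv]
      rw [hu, mul_one_div]
      linarith
    · have hu : uni A v = 0 := by simp [uni, hv]
      have h1 := wk_nn hP A w (pt u) (pt_nn u) v
      rw [hu]
      linarith
  calc ∑ v, |wk P A w σ v|
      ≤ ∑ v, ∑ u, |σ u| * (wk P A w (pt u) v - c₁ * uni A v) := by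
        refine Finset.sum_le_sum (fun v _ => ?_)
        rw [e]
        refine (Finset.abs_sum_le_sum_abs _ _).trans (le_of_eq ?_)
        refine Finset.sum_congr rfl (fun u _ => ?_)
        rw [abs_mul, abs_of_nonneg (nn u v)]
    _ = ∑ u, |σ u| * ∑ v, (wk P A w (pt u) v - c₁ * uni A v) := by
        rw [Finset.sum_comm]
        exact Finset.sum_congr rfl (fun u _ => by rw [Finset.mul_sum])
    _ = ∑ u, |σ u| * (1 - c₁) := by
        refine Finset.sum_congr rfl (fun u _ => ?_)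
        rw [Finset.sum_sub_distrib, ← Finset.mul_sum, uni_sum hA, wk_sum hA hδ h w (pt u),
          pt_sum, mul_one]
    _ = (1 - c₁) * ∑ v, |σ v| := by
        rw [← Finset.sum_mul]
        ring

private theorem iter {R : V → V → Prop} {c C : ℝ} {P : V → V → ℝ} (hP : Kern R c C P)
    {A : Finset V} {δ : ℝ} (hA : A.Nonempty) (hδ0 : 0 ≤ δ) (hδ : δ ≤ 1 / 2) (h : QR P A δ)
    {c₁ : ℝ} (hc0 : 0 < c₁) (hc1 : c₁ ≤ 1) (l₁ : ℕ)
    (hd : ∀ w : List Bool, w.length = l₁ → ∀ u, ∀ v ∈ A, c₁ / A.card ≤ wk P A w (pt u) v)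
    (t : ℕ) : ∀ w : List Bool, w.length = t * l₁ → ∀ μ : V → ℝ, ∑ v, μ v = 1 →
      ∑ v, |wk P A w μ v - uni A v| ≤
        (1 - c₁) ^ t * ∑ v, |μ v - uni A v| + 4 * δ * l₁ / c₁ := by
  induction t with
  | zero =>
    intro w hw μ hμ
    have hw0 : w = [] := List.length_eq_zero_iff.1 (by simpa using hw)
    subst hw0
    have : 0 ≤ 4 * δ * (l₁ : ℝ) / c₁ := by positivity
    simp only [wk, pow_zero, one_mul]
    linarith
  | succ t ih =>
    intro w hw μ hμ
    have hlen : t * l₁ ≤ w.length := by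
      rw [hw]
      exact Nat.mul_le_mul_right _ (Nat.le_succ t)
    have hsplit := List.take_append_drop (t * l₁) w
    have h1 : (w.take (t * l₁)).length = t * l₁ := by
      rw [List.length_take]
      exact min_eq_left hlen
    have h2 : (w.drop (t * l₁)).length = l₁ := by
      rw [List.length_drop, hw, Nat.succ_mul]
      omega
    have ih1 := ih _ h1 μ hμ
    generalize w.take (t * l₁) = w₁ at *
    generalize w.drop (t * l₁) = w₂ at *
    rw [← hsplit, wk_append]
    have hμ' : ∑ v, wk P A w₁ μ v = 1 := (wk_sum hA hδ h w₁ μ).trans hμ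
    generalize wk P A w₁ μ = μ' at *
    have hsum : ∑ v, (fun x => μ' x - uni A x) v = 0 := by
      simp only [Finset.sum_sub_distrib]
      rw [hμ', uni_sum hA]
      ring
    have hcon := contract hP hA hδ h w₂ (hd w₂ h2) (fun x => μ' x - uni A x) hsum
    have hun := wk_uni hP hA hδ0 hδ h w₂
    rw [h2] at hun
    have hstep : ∑ v, |wk P A w₂ μ' v - uni A v| ≤
        (1 - c₁) * ∑ v, |μ' v - uni A v| + 4 * δ * l₁ := by
      calc ∑ v, |wk P A w₂ μ' v - uni A v|
          ≤ ∑ v, (|wk P A w₂ (fun x => μ' x - uni A x) v| +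
              |wk P A w₂ (uni A) v - uni A v|) := by
            refine Finset.sum_le_sum (fun v _ => ?_)
            have : wk P A w₂ μ' v - uni A v =
                wk P A w₂ (fun x => μ' x - uni A x) v + (wk P A w₂ (uni A) v - uni A v) := by
              rw [wk_sub]
              ring
            rw [this]
            exact abs_add_le _ _
        _ = ∑ v, |wk P A w₂ (fun x => μ' x - uni A x) v| +
              ∑ v, |wk P A w₂ (uni A) v - uni A v| := Finset.sum_add_distrib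
        _ ≤ _ := add_le_add hcon hun
    have hmul : (1 - c₁) * ∑ v, |μ' v - uni A v| ≤
        (1 - c₁) * ((1 - c₁) ^ t * ∑ v, |μ v - uni A v| + 4 * δ * l₁ / c₁) :=
      mul_le_mul_of_nonneg_left ih1 (by linarith)
    refine hstep.trans ((add_le_add_left hmul _).trans (le_of_eq ?_))
    field_simp
    ring

end aux

theorem mixing (c C : ℝ) (hc : 0 < c) (hc1 : c ≤ 1) (hC : 1 ≤ C) :
    ∃ Cm : ℝ, 0 < Cm ∧ ∀ ε₀ : ℝ, 0 < ε₀ → ∃ l : ℕ, 1 ≤ l ∧
      ∀ (V : Type) [Fintype V] [DecidableEq V] (R : V → V → Prop) (P : V → V → ℝ), IsTour R →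
      Kern R c C P → ∀ (A : Finset V) (δ : ℝ), 16 * C ≤ A.card → 0 ≤ δ → δ ≤ nuC c C →
      QR P A δ → ∀ w : List Bool, l ≤ w.length → ∀ u : V, ∀ v ∈ A,
      |wk P A w (pt u) v - 1 / A.card| ≤ (ε₀ + Cm * δ) / A.card := by
  obtain ⟨l₁, c₁, hc0, hc₁, hl1, hdo⟩ := doeblin c C hc hc1 hC
  have hC0 : 0 < C := by linarith
  refine ⟨8 * C * l₁ / c₁ + 4, by positivity, fun ε₀ hε => ?_⟩
  obtain ⟨t, ht⟩ := exists_pow_lt_of_lt_one (show 0 < ε₀ / (4 * C) by positivity)
    (show 1 - c₁ < 1 by linarith)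
  refine ⟨t * l₁ + 1, by omega, ?_⟩
  intro V _ _ R P hR hP A δ hA16 hδ0 hδ h w hw u v hv
  have hA : A.Nonempty := ⟨v, hv⟩
  have ha : (0 : ℝ) < A.card := by exact_mod_cast hA.card_pos
  have hδ2 : δ ≤ 1 / 2 := by
    refine hδ.trans ?_
    unfold nuC
    rw [div_le_iff₀ (by positivity)]
    nlinarith
  have hdo' := fun w hw => hdo V R P hR hP A δ hA16 hδ0 hδ h w hw
  -- split the word
  rcases List.eq_nil_or_concat w with hnil | ⟨w', s, hws⟩
  · subst hnil
    simp at hw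
  rw [List.concat_eq_append] at hws
  have hlen : t * l₁ ≤ w'.length := by
    rw [hws, List.length_append, List.length_singleton] at hw
    omega
  have hsplit := List.take_append_drop (w'.length - t * l₁) w'
  have h2 : (w'.drop (w'.length - t * l₁)).length = t * l₁ := by
    rw [List.length_drop]
    omega
  generalize w'.take (w'.length - t * l₁) = w₀ at *
  generalize w'.drop (w'.length - t * l₁) = w₁ at *
  have hwk : wk P A w (pt u) v = st P A s (wk P A w₁ (wk P A w₀ (pt u))) v := by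
    rw [hws, wk_append, ← hsplit, wk_append]
    rfl
  have hμ1 : ∑ v, wk P A w₀ (pt u) v = 1 := (wk_sum hA hδ2 h w₀ (pt u)).trans (pt_sum u)
  have hμ0 : ∀ v, 0 ≤ wk P A w₀ (pt u) v := fun v => wk_nn hP A w₀ (pt u) (pt_nn u) v
  rw [hwk]
  generalize wk P A w₀ (pt u) = μ at *
  have hit := iter hP hA hδ0 hδ2 h hc0 hc₁ l₁ hdo' t w₁ h2 μ hμ1
  have hdist : ∑ v, |μ v - uni A v| ≤ 2 := by
    calc ∑ v, |μ v - uni A v| ≤ ∑ v, (μ v + uni A v) := by
          refine Finset.sum_le_sum (fun v _ => ?_)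
          rw [abs_le]
          have h1 := hμ0 v
          have h2 := uni_nn A v
          constructor <;> linarith
      _ = 2 := by
          rw [Finset.sum_add_distrib, hμ1, uni_sum hA]
          norm_num
  generalize wk P A w₁ μ = μ' at *
  have hpow : 0 ≤ (1 - c₁) ^ t := pow_nonneg (by linarith) t
  have hit2 : ∑ v, |μ' v - uni A v| ≤ 2 * (1 - c₁) ^ t + 4 * δ * l₁ / c₁ := by
    nlinarith
  have hst : |st P A s μ' v - st P A s (uni A) v| ≤
      (∑ x, |μ' x - uni A x|) * (2 * C / A.card) := by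
    have e : st P A s μ' v - st P A s (uni A) v = ∑ x, (μ' x - uni A x) * qA P A s x v := by
      unfold st
      rw [← Finset.sum_sub_distrib]
      exact Finset.sum_congr rfl (fun x _ => by ring)
    rw [e, Finset.sum_mul]
    refine (Finset.abs_sum_le_sum_abs _ _).trans (Finset.sum_le_sum (fun x _ => ?_))
    rw [abs_mul, abs_of_nonneg (qA_nn hP A s x v)]
    exact mul_le_mul_of_nonneg_left (qA_le hP hC0.le hA hδ2 h s x v) (abs_nonneg _)
  have hun := st_uni hP hA hδ0 hδ2 h s v hv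
  have htri : |st P A s μ' v - 1 / A.card| ≤
      |st P A s μ' v - st P A s (uni A) v| + |st P A s (uni A) v - 1 / A.card| :=
    abs_sub_le _ _ _
  have hfac : (∑ x, |μ' x - uni A x|) * (2 * C / A.card) ≤
      (2 * (1 - c₁) ^ t + 4 * δ * l₁ / c₁) * (2 * C / A.card) :=
    mul_le_mul_of_nonneg_right hit2 (by positivity)
  refine htri.trans ((add_le_add (hst.trans hfac) hun).trans ?_)
  have ht4 : 4 * C * (1 - c₁) ^ t ≤ ε₀ := by
    have := (lt_div_iff₀ (show 0 < 4 * C by positivity)).1 ht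
    linarith
  have e1 : (2 * (1 - c₁) ^ t + 4 * δ * l₁ / c₁) * (2 * C / A.card) + 4 * δ / A.card
      = (4 * C * (1 - c₁) ^ t + (8 * C * l₁ / c₁ + 4) * δ) / A.card := by
    field_simp
    ring
  rw [e1]
  gcongr

end Pool.Agent.Lib.RobT
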