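import Pool.Agent.Lib.RobT.Mb

/-!
# Mx: expansion inside a quasirandom set (about 220 lines)

`n = |V|`, `a = |A|`, `α = a/n`, `q u v = PP P s u v`, `q(S, T)` = the sum over `S × T`,
`τ = 1/(4C)`, `ν = nuC c C = c τ² / 128`.  Row masses: `α (1-δ) ≤ q(u, A) ≤ α (1+δ)` for all `u`
(`ms_lo`, `ms_up`); column masses: `q(A, v) = ms P A (!s) v` (`PP_swap`), the same bounds.
Let `Q = Rc P A X s ν`, `Q' = A \ Q`, `Y = A \ X`.

FIRST PART, `τ a ≤ |X| ≤ (1-τ) a`.  `q(X, A) ≥ α (1-δ) |X|`, `q(X, Q') ≤ ν α |Q'| ≤ ν α a`, so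
`q(X, Q) ≥ α (1-δ) |X| - ν α a`; `q(A, Q) ≤ α (1+δ) |Q|`; so
`q(Y, Q) = q(A, Q) - q(X, Q) ≤ α ((1+δ) |Q| - (1-δ) |X| + ν a)`, i.e.
`|Q| - |X| ≥ q(Y, Q)/α - 2 δ a - ν a`.  As `δ ≤ ν` it suffices to show `q(Y, Q) ≥ 4 ν α a`.
Assume `q(Y, Q) < 4 ν α a = 4 ν a²/n`.
(1) `t = |X ∩ Q'|`: for two vertices of `X ∩ Q'` one of `Arc R s u v`, `Arc R s v u` holds and this
pair contributes at least `c/n` to `q(X, Q') ≤ ν a²/n`: `c t (t-1)/2 ≤ ν a²`, so
`(t-1)² ≤ t(t-1) ≤ 2 ν a²/c = τ² a²/64`, `t ≤ 1 + τ a/8 ≤ τ a/2` (`τ a ≥ 4` as `a ≥ 16 C`).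
(2) `t' = |Y ∩ Q|`: the same with `q(Y, Q) < 4 ν a²/n`: `(t'-1)² ≤ 8 ν a²/c = τ² a²/16`,
`t' ≤ 1 + τ a/4 ≤ τ a/2`.
(3) So `|X ∩ Q| ≥ τ a/2`, `|Y ∩ Q'| ≥ τ a/2`.  For `u ∈ X ∩ Q`, `w ∈ Y ∩ Q'`: either `Arc R s u
w`, a
contribution `≥ c/n` to `q(X, Q')`, or `Arc R s w u`, a contribution `≥ c/n` to `q(Y, Q)`.  So
`(c/n) τ² a²/4 ≤ q(X, Q') + q(Y, Q) < 5 ν a²/n = 5 c τ² a²/(128 n)`, a contradiction.

SECOND PART, `|X| ≥ (1-τ) a`.  For `v ∈ A`: `q(X, v) = q(A, v) - q(A \ X, v)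
≥ α (1-δ) - τ a C/n = α (3/4 - δ) ≥ ν α`.
-/

namespace Pool.Agent.Lib.RobT

open Finset

/-- The expansion constant. -/
noncomputable def nuC (c C : ℝ) : ℝ := c / (2048 * C ^ 2)

open Classical in
/-- The vertices of `A` that receive mass at least `ν |A| / |V|` from `X`. -/
noncomputable def Rc {V : Type} [Fintype V] (P : V → V → ℝ) (A X : Finset V) (s : Bool) (ν : ℝ) :
    Finset V :=
  A.filter fun v => ν * (A.card / Fintype.card V) ≤ ∑ u ∈ X, PP P s u v

variable {V : Type} [Fintype V] [DecidableEq V]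

private theorem pair_mass {R : V → V → Prop} {c C : ℝ} {P : V → V → ℝ} (hP : Kern R c C P)
    (hR : IsTour R) (s : Bool) (u v : V) (huv : u ≠ v) :
    c / Fintype.card V ≤ PP P s u v + PP P s v u := by
  have h1 := PP_nn hP s u v
  have h2 := PP_nn hP s v u
  have h3 : Arc R s u v ∨ Arc R s v u := by
    unfold Arc
    cases s
    · rcases hR.tot u v huv with h | h
      · right; right; exact ⟨rfl, h⟩
      · left; right; exact ⟨rfl, h⟩
    · rcases hR.tot u v huv with h | h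
      · left; left; exact ⟨rfl, h⟩
      · right; left; exact ⟨rfl, h⟩
  rcases h3 with h | h
  · linarith [PP_lo hP s u v h]
  · linarith [PP_lo hP s v u h]

/-- A set of `t` vertices carries mass at least `c t (t - 1) / (2 n)`. -/
private theorem inner_mass {R : V → V → Prop} {c C : ℝ} {P : V → V → ℝ} (hP : Kern R c C P)
    (hR : IsTour R) (s : Bool) (T : Finset V) :
    c / Fintype.card V * ((T.card : ℝ) * ((T.card : ℝ) - 1)) ≤
      2 * ∑ u ∈ T, ∑ v ∈ T, PP P s u v := by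
  have h1 : 2 * ∑ u ∈ T, ∑ v ∈ T, PP P s u v =
      ∑ u ∈ T, ∑ v ∈ T, (PP P s u v + PP P s v u) := by
    have : ∑ u ∈ T, ∑ v ∈ T, PP P s v u = ∑ u ∈ T, ∑ v ∈ T, PP P s u v :=
      Finset.sum_comm
    simp only [Finset.sum_add_distrib, this]
    ring
  rw [h1]
  have h2 : ∀ u ∈ T, c / Fintype.card V * ((T.card : ℝ) - 1) ≤
      ∑ v ∈ T, (PP P s u v + PP P s v u) := by
    intro u hu
    have h3 : ∑ v ∈ T.erase u, (c / Fintype.card V) ≤
        ∑ v ∈ T.erase u, (PP P s u v + PP P s v u) :=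
      Finset.sum_le_sum fun v hv => pair_mass hP hR s u v (Finset.ne_of_mem_erase hv).symm
    rw [Finset.sum_const, Finset.card_erase_of_mem hu, nsmul_eq_mul] at h3
    have h4 : ∑ v ∈ T.erase u, (PP P s u v + PP P s v u) ≤
        ∑ v ∈ T, (PP P s u v + PP P s v u) :=
      Finset.sum_le_sum_of_subset_of_nonneg (Finset.erase_subset u T) fun v _ _ =>
        add_nonneg (PP_nn hP s u v) (PP_nn hP s v u)
    have h5 : ((T.card - 1 : ℕ) : ℝ) = (T.card : ℝ) - 1 := by
      have : 1 ≤ T.card := Finset.card_pos.mpr ⟨u, hu⟩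
      push_cast [Nat.cast_sub this]
      ring
    rw [h5] at h3
    linarith
  calc c / Fintype.card V * ((T.card : ℝ) * ((T.card : ℝ) - 1))
      = ∑ u ∈ T, c / Fintype.card V * ((T.card : ℝ) - 1) := by
        rw [Finset.sum_const, nsmul_eq_mul]; ring
    _ ≤ _ := Finset.sum_le_sum h2

/-- Two disjoint sets. -/
private theorem cross_mass {R : V → V → Prop} {c C : ℝ} {P : V → V → ℝ} (hP : Kern R c C P)
    (hR : IsTour R) (s : Bool) (T T' : Finset V) (hd : Disjoint T T') :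
    c / Fintype.card V * ((T.card : ℝ) * (T'.card : ℝ)) ≤
      ∑ u ∈ T, ∑ v ∈ T', PP P s u v + ∑ u ∈ T', ∑ v ∈ T, PP P s u v := by
  have h1 : ∑ u ∈ T', ∑ v ∈ T, PP P s u v = ∑ u ∈ T, ∑ v ∈ T', PP P s v u := Finset.sum_comm
  rw [h1, ← Finset.sum_add_distrib]
  calc c / Fintype.card V * ((T.card : ℝ) * (T'.card : ℝ))
      = ∑ u ∈ T, ∑ v ∈ T', c / Fintype.card V := by
        simp only [Finset.sum_const, nsmul_eq_mul]; ring
    _ ≤ ∑ u ∈ T, (∑ v ∈ T', PP P s u v + ∑ v ∈ T', PP P s v u) := by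
        refine Finset.sum_le_sum fun u hu => ?_
        rw [← Finset.sum_add_distrib]
        refine Finset.sum_le_sum fun v hv => ?_
        exact pair_mass hP hR s u v fun h => (Finset.disjoint_left.mp hd hu) (h ▸ hv)

private theorem mono_mass {R : V → V → Prop} {c C : ℝ} {P : V → V → ℝ} (hP : Kern R c C P)
    (s : Bool) {S S' T T' : Finset V} (h : S ⊆ S') (h' : T ⊆ T') :
    ∑ u ∈ S, ∑ v ∈ T, PP P s u v ≤ ∑ u ∈ S', ∑ v ∈ T', PP P s u v := by
  calc ∑ u ∈ S, ∑ v ∈ T, PP P s u v ≤ ∑ u ∈ S, ∑ v ∈ T', PP P s u v :=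
        Finset.sum_le_sum fun u _ => Finset.sum_le_sum_of_subset_of_nonneg h' fun v _ _ =>
          PP_nn hP s u v
    _ ≤ _ := Finset.sum_le_sum_of_subset_of_nonneg h fun u _ _ =>
        Finset.sum_nonneg fun v _ => PP_nn hP s u v

private theorem quad_aux {t x : ℝ} (hx : 0 ≤ x) (ht : t * (t - 1) ≤ x ^ 2) : t ≤ 1 + x := by
  by_contra h
  push Not at h
  nlinarith

theorem expand {R : V → V → Prop} {c C : ℝ} {P : V → V → ℝ} (hP : Kern R c C P) (hR : IsTour R)
    (hc : 0 < c) (hc1 : c ≤ 1) (hC : 1 ≤ C) (A X : Finset V) (hXA : X ⊆ A) {δ : ℝ} (hδ0 : 0 ≤ δ)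
    (hδ : δ ≤ nuC c C) (hq : QR P A δ) (ha : 16 * C ≤ A.card) (s : Bool) :
    ((A.card : ℝ) / (4 * C) ≤ X.card → (X.card : ℝ) ≤ (1 - 1 / (4 * C)) * A.card →
      (X.card : ℝ) + nuC c C * A.card ≤ (Rc P A X s (nuC c C)).card) ∧
    ((1 - 1 / (4 * C)) * A.card ≤ (X.card : ℝ) → Rc P A X s (nuC c C) = A) := by
  have hC0 : 0 < C := by linarith
  have ha0 : 0 < (A.card : ℝ) := by linarith
  have hA : A.Nonempty := by
    rw [← Finset.card_pos]
    exact_mod_cast ha0
  have hn0 : 0 < (Fintype.card V : ℝ) := by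
    obtain ⟨x, _⟩ := hA
    exact_mod_cast Fintype.card_pos_iff.mpr ⟨x⟩
  have hν0 : 0 < nuC c C := by unfold nuC; positivity
  have hC2 : 1 ≤ C ^ 2 := one_le_pow₀ hC
  have hν1 : nuC c C ≤ 1 / 2048 := by
    unfold nuC
    rw [div_le_div_iff₀ (by positivity) (by norm_num)]
    nlinarith
  have hcol : ∀ v, ∑ u ∈ A, PP P s u v = ms P A (!s) v := by
    intro v
    unfold ms
    exact Finset.sum_congr rfl fun u _ => PP_swap P s u v
  set n : ℝ := (Fintype.card V : ℝ) with hn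
  set a : ℝ := (A.card : ℝ) with haa
  have hαpos : 0 < a / n := div_pos ha0 hn0
  have hXc : (X.card : ℝ) ≤ a := by
    rw [haa]
    exact_mod_cast Finset.card_le_card hXA
  constructor
  · intro hX1 hX2
    by_contra hcon
    push Not at hcon
    set ν : ℝ := nuC c C with hνdef
    set Q : Finset V := Rc P A X s ν with hQ
    have hQA : Q ⊆ A := by
      rw [hQ]; unfold Rc; exact Finset.filter_subset _ _
    have hQc : (Q.card : ℝ) ≤ a := by
      rw [haa]
      exact_mod_cast Finset.card_le_card hQA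
    -- mass of X into the complement of Q
    have hQ' : ∑ u ∈ X, ∑ v ∈ A \ Q, PP P s u v ≤ ν * a ^ 2 / n := by
      rw [Finset.sum_comm]
      calc ∑ v ∈ A \ Q, ∑ u ∈ X, PP P s u v ≤ ∑ v ∈ A \ Q, ν * (a / n) := by
            refine Finset.sum_le_sum fun v hv => ?_
            rw [Finset.mem_sdiff] at hv
            have h1 : ¬ (ν * (a / n) ≤ ∑ u ∈ X, PP P s u v) := by
              intro h
              apply hv.2
              rw [hQ]
              unfold Rc
              rw [Finset.mem_filter]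
              exact ⟨hv.1, h⟩
            exact le_of_lt (not_le.mp h1)
        _ = ((A \ Q).card : ℝ) * (ν * (a / n)) := by rw [Finset.sum_const, nsmul_eq_mul]
        _ ≤ a * (ν * (a / n)) := by
            refine mul_le_mul_of_nonneg_right ?_ (by positivity)
            rw [haa]
            exact_mod_cast Finset.card_le_card Finset.sdiff_subset
        _ = ν * a ^ 2 / n := by ring
    have hXAm : a / n * (1 - δ) * X.card ≤ ∑ u ∈ X, ∑ v ∈ A, PP P s u v := by
      calc a / n * (1 - δ) * X.card = ∑ u ∈ X, a / n * (1 - δ) := by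
            rw [Finset.sum_const, nsmul_eq_mul]; ring
        _ ≤ _ := Finset.sum_le_sum fun u _ => ms_lo hA hq s u
    have hXsplit : ∑ u ∈ X, ∑ v ∈ A, PP P s u v =
        ∑ u ∈ X, ∑ v ∈ A \ Q, PP P s u v + ∑ u ∈ X, ∑ v ∈ Q, PP P s u v := by
      rw [← Finset.sum_add_distrib]
      exact Finset.sum_congr rfl fun u _ => (Finset.sum_sdiff hQA).symm
    have hAQ : ∑ u ∈ A, ∑ v ∈ Q, PP P s u v ≤ a / n * (1 + δ) * Q.card := by
      rw [Finset.sum_comm]
      calc ∑ v ∈ Q, ∑ u ∈ A, PP P s u v ≤ ∑ v ∈ Q, a / n * (1 + δ) := by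
            refine Finset.sum_le_sum fun v _ => ?_
            rw [hcol v]
            exact ms_up hA hq (!s) v
        _ = _ := by rw [Finset.sum_const, nsmul_eq_mul]; ring
    have hAsplit : ∑ u ∈ A, ∑ v ∈ Q, PP P s u v =
        ∑ u ∈ A \ X, ∑ v ∈ Q, PP P s u v + ∑ u ∈ X, ∑ v ∈ Q, PP P s u v :=
      (Finset.sum_sdiff hXA).symm
    have hYQ : ∑ u ∈ A \ X, ∑ v ∈ Q, PP P s u v < 4 * ν * a ^ 2 / n := by
      have h1 : ∑ u ∈ A \ X, ∑ v ∈ Q, PP P s u v ≤
          a / n * ((1 + δ) * Q.card - (1 - δ) * X.card + ν * a) := by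
        have : ν * a ^ 2 / n = a / n * (ν * a) := by ring
        nlinarith
      have h2 : (1 + δ) * Q.card - (1 - δ) * X.card + ν * a < 4 * ν * a := by
        have e1 : δ * Q.card ≤ ν * a := mul_le_mul hδ hQc (by positivity) hν0.le
        have e2 : δ * X.card ≤ ν * a := mul_le_mul hδ hXc (by positivity) hν0.le
        nlinarith
      calc _ ≤ _ := h1
        _ < a / n * (4 * ν * a) := mul_lt_mul_of_pos_left h2 hαpos
        _ = _ := by ring
    -- tau
    have hτ : ν * 2048 * C ^ 2 = c := by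
      rw [hνdef]; unfold nuC; field_simp
    have hτa : 4 ≤ a / (4 * C) := by
      rw [le_div_iff₀ (by positivity)]; linarith
    set y : ℝ := a / (4 * C) with hy
    have hya : y ^ 2 * c = 128 * (ν * a ^ 2) := by
      rw [← hτ, hy]
      field_simp
      ring
    have hy0 : 0 < y := by linarith
    -- (1)
    have ht1 : ((X ∩ (A \ Q)).card : ℝ) ≤ 1 + y / 8 := by
      apply quad_aux (by positivity)
      have h1 := inner_mass hP hR s (X ∩ (A \ Q))
      have h2 := mono_mass hP s (Finset.inter_subset_left : X ∩ (A \ Q) ⊆ X)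
        (Finset.inter_subset_right : X ∩ (A \ Q) ⊆ A \ Q)
      set t : ℝ := ((X ∩ (A \ Q)).card : ℝ) with ht
      have h3 : c / n * (t * (t - 1)) ≤ 2 * (ν * a ^ 2 / n) := by linarith
      have h4 : c * (t * (t - 1)) ≤ 2 * (ν * a ^ 2) := by
        have e1 : c / n * (t * (t - 1)) = (c * (t * (t - 1))) / n := by ring
        have e2 : 2 * (ν * a ^ 2 / n) = (2 * (ν * a ^ 2)) / n := by ring
        rw [e1, e2] at h3
        exact (div_le_div_iff_of_pos_right hn0).mp h3
      have h5 : c * (t * (t - 1)) ≤ c * (y / 8) ^ 2 := by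
        have : c * (y / 8) ^ 2 = (y ^ 2 * c) / 64 := by ring
        rw [this, hya]
        linarith
      exact le_of_mul_le_mul_left h5 hc
    have ht2 : (((A \ X) ∩ Q).card : ℝ) ≤ 1 + y / 4 := by
      apply quad_aux (by positivity)
      have h1 := inner_mass hP hR s ((A \ X) ∩ Q)
      have h2 := mono_mass hP s (Finset.inter_subset_left : (A \ X) ∩ Q ⊆ A \ X)
        (Finset.inter_subset_right : (A \ X) ∩ Q ⊆ Q)
      set t : ℝ := (((A \ X) ∩ Q).card : ℝ) with ht
      have h3 : c / n * (t * (t - 1)) ≤ 2 * (4 * ν * a ^ 2 / n) := by linarith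
      have h4 : c * (t * (t - 1)) ≤ 2 * (4 * ν * a ^ 2) := by
        have e1 : c / n * (t * (t - 1)) = (c * (t * (t - 1))) / n := by ring
        have e2 : 2 * (4 * ν * a ^ 2 / n) = (2 * (4 * ν * a ^ 2)) / n := by ring
        rw [e1, e2] at h3
        exact (div_le_div_iff_of_pos_right hn0).mp h3
      have h5 : c * (t * (t - 1)) ≤ c * (y / 4) ^ 2 := by
        have : c * (y / 4) ^ 2 = (y ^ 2 * c) / 16 := by ring
        rw [this, hya]
        linarith
      exact le_of_mul_le_mul_left h5 hc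
    -- cardinalities
    have hX3 : (X.card : ℝ) = ((X ∩ Q).card : ℝ) + ((X ∩ (A \ Q)).card : ℝ) := by
      have h1 : X ∩ (A \ Q) = X \ Q := by
        ext v
        simp only [Finset.mem_inter, Finset.mem_sdiff]
        constructor
        · rintro ⟨h, _, h'⟩; exact ⟨h, h'⟩
        · rintro ⟨h, h'⟩; exact ⟨h, hXA h, h'⟩
      rw [h1]
      have := Finset.card_inter_add_card_sdiff X Q
      exact_mod_cast this.symm
    have hY3 : (((A \ X) ∩ (A \ Q)).card : ℝ) + (((A \ X) ∩ Q).card : ℝ) = a - X.card := by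
      have h1 : (A \ X) ∩ (A \ Q) = (A \ X) \ Q := by
        ext v
        simp only [Finset.mem_inter, Finset.mem_sdiff]
        tauto
      rw [h1]
      have h2 := Finset.card_inter_add_card_sdiff (A \ X) Q
      have h3 := Finset.card_sdiff_add_card_eq_card hXA
      have h2' : ((((A \ X) ∩ Q).card : ℕ) : ℝ) + (((A \ X) \ Q).card : ℝ) =
          ((A \ X).card : ℝ) := by exact_mod_cast h2
      have h3' : ((A \ X).card : ℝ) + (X.card : ℝ) = a := by rw [haa]; exact_mod_cast h3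
      linarith
    have hXQ : y / 2 ≤ ((X ∩ Q).card : ℝ) := by linarith
    have hYQ' : y / 2 ≤ (((A \ X) ∩ (A \ Q)).card : ℝ) := by
      have : (1 - 1 / (4 * C)) * a = a - y := by rw [hy]; ring
      linarith
    have hd : Disjoint (X ∩ Q) ((A \ X) ∩ (A \ Q)) := by
      rw [Finset.disjoint_left]
      intro v hv hv'
      simp only [Finset.mem_inter, Finset.mem_sdiff] at hv hv'
      exact hv'.1.2 hv.1
    have h1 := cross_mass hP hR s (X ∩ Q) ((A \ X) ∩ (A \ Q)) hd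
    have h2 := mono_mass hP s (Finset.inter_subset_left : X ∩ Q ⊆ X)
      (Finset.inter_subset_right : (A \ X) ∩ (A \ Q) ⊆ A \ Q)
    have h3 := mono_mass hP s (Finset.inter_subset_left : (A \ X) ∩ (A \ Q) ⊆ A \ X)
      (Finset.inter_subset_right : X ∩ Q ⊆ Q)
    have h4 : (y / 2) * (y / 2) ≤ ((X ∩ Q).card : ℝ) * (((A \ X) ∩ (A \ Q)).card : ℝ) :=
      mul_le_mul hXQ hYQ' (by positivity) (by positivity)
    have h5 : c / n * ((y / 2) * (y / 2)) ≤
        c / n * (((X ∩ Q).card : ℝ) * (((A \ X) ∩ (A \ Q)).card : ℝ)) :=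
      mul_le_mul_of_nonneg_left h4 (by positivity)
    have h6 : c / n * ((y / 2) * (y / 2)) < 5 * (ν * a ^ 2 / n) := by
      have : 4 * ν * a ^ 2 / n = 4 * (ν * a ^ 2 / n) := by ring
      linarith
    have h7 : c / n * ((y / 2) * (y / 2)) = 32 * (ν * a ^ 2 / n) := by
      have : c / n * ((y / 2) * (y / 2)) = (y ^ 2 * c) / (4 * n) := by ring
      rw [this, hya]
      ring
    have h8 : 0 < ν * a ^ 2 / n := by positivity
    linarith
  · intro hX
    unfold Rc
    rw [Finset.filter_true_of_mem]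
    intro v hv
    have h1 : ∑ u ∈ X, PP P s u v = ms P A (!s) v - ∑ u ∈ A \ X, PP P s u v := by
      rw [← hcol v, ← Finset.sum_sdiff hXA]
      ring
    have h2 : ∑ u ∈ A \ X, PP P s u v ≤ ((A \ X).card : ℝ) * (C / n) := by
      calc ∑ u ∈ A \ X, PP P s u v ≤ ∑ u ∈ A \ X, C / n :=
            Finset.sum_le_sum fun u _ => PP_up hP s u v
        _ = _ := by rw [Finset.sum_const, nsmul_eq_mul]
    have h3 : ((A \ X).card : ℝ) + (X.card : ℝ) = a := by
      rw [haa]
      exact_mod_cast Finset.card_sdiff_add_card_eq_card hXA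
    have h4 : ((A \ X).card : ℝ) ≤ 1 / (4 * C) * a := by linarith
    have h5 : ((A \ X).card : ℝ) * (C / n) ≤ 1 / 4 * (a / n) := by
      calc ((A \ X).card : ℝ) * (C / n) ≤ 1 / (4 * C) * a * (C / n) :=
            mul_le_mul_of_nonneg_right h4 (by positivity)
        _ = 1 / 4 * (a / n) := by field_simp
    have h6 := ms_lo hA hq (!s) v
    rw [h1]
    have h7 : nuC c C * (a / n) ≤ a / n * (1 - δ) - 1 / 4 * (a / n) := by
      have : a / n * (1 - δ) - 1 / 4 * (a / n) = (3 / 4 - δ) * (a / n) := by ring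
      rw [this]
      exact mul_le_mul_of_nonneg_right (by linarith) hαpos.le
    linarith

end Pool.Agent.Lib.RobT
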