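import Pool.Agent.Lib.RobT.Ga

/-!
# Sd: tournaments with minimum semidegree above a quarter (about 70 lines)

`n = |V|`, `A` a set.  If `|A| ≤ n/2`: `eN R A Aᶜ = ∑_{u ∈ A} d⁺(u) - |A|(|A|-1)/2
≥ |A| (1/4 + ε) n - |A|²/2 ≥ ε n |A| ≥ ε |A| |Aᶜ|`.  If `|A| > n/2`: the same with the in-degrees of
`Aᶜ`: `eN R A Aᶜ = ∑_{v ∈ Aᶜ} d⁻(v) - |Aᶜ|(|Aᶜ|-1)/2 ≥ ε n |Aᶜ|`.
-/

namespace Pool.Agent.Lib.RobT

open Finset

open Classical in
private theorem sd_eN_sum {V : Type} (R : V → V → Prop) (X Y : Finset V) :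
    (eN R X Y : ℝ) = ∑ x ∈ X, ∑ y ∈ Y, if R x y then (1 : ℝ) else 0 := by
  unfold eN
  rw [Finset.card_filter]
  push_cast
  rw [Finset.sum_product]

open Classical in
private theorem sd_out {V : Type} [Fintype V] (R : V → V → Prop) (u : V) :
    ((Nb R true u).card : ℝ) = ∑ v, if R u v then (1 : ℝ) else 0 := by
  unfold Nb
  rw [Finset.card_filter]
  push_cast
  refine Finset.sum_congr rfl fun v _ => ?_
  have h : Arc R true u v ↔ R u v := by
    simp [Arc]
  by_cases h1 : R u v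
  · rw [if_pos (h.2 h1), if_pos h1]
  · rw [if_neg (fun h2 => h1 (h.1 h2)), if_neg h1]

open Classical in
private theorem sd_in {V : Type} [Fintype V] (R : V → V → Prop) (v : V) :
    ((Nb R false v).card : ℝ) = ∑ u, if R u v then (1 : ℝ) else 0 := by
  unfold Nb
  rw [Finset.card_filter]
  push_cast
  refine Finset.sum_congr rfl fun u _ => ?_
  have h : Arc R false v u ↔ R u v := by
    simp [Arc]
  by_cases h1 : R u v
  · rw [if_pos (h.2 h1), if_pos h1]
  · rw [if_neg (fun h2 => h1 (h.1 h2)), if_neg h1]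

open Classical in
private theorem sd_self {V : Type} {R : V → V → Prop} (hR : IsTour R) (B : Finset V) :
    2 * (eN R B B : ℝ) ≤ (B.card : ℝ) ^ 2 := by
  have h1 : (eN R B B : ℝ) = ∑ x ∈ B, ∑ y ∈ B, if R y x then (1 : ℝ) else 0 := by
    rw [sd_eN_sum, Finset.sum_comm]
  have h2 : 2 * (eN R B B : ℝ) = ∑ x ∈ B, ∑ y ∈ B,
      ((if R x y then (1 : ℝ) else 0) + (if R y x then (1 : ℝ) else 0)) := by
    simp only [Finset.sum_add_distrib]
    rw [← h1, ← sd_eN_sum]
    ring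
  rw [h2]
  have h3 : ∑ x ∈ B, ∑ y ∈ B,
      ((if R x y then (1 : ℝ) else 0) + (if R y x then (1 : ℝ) else 0)) ≤
      ∑ _x ∈ B, ∑ _y ∈ B, (1 : ℝ) := by
    refine Finset.sum_le_sum fun x _ => Finset.sum_le_sum fun y _ => ?_
    by_cases hxy : R x y
    · rw [if_pos hxy, if_neg (hR.asym x y hxy)]
      norm_num
    · rw [if_neg hxy]
      split_ifs <;> norm_num
  refine h3.trans (le_of_eq ?_)
  simp only [Finset.sum_const, nsmul_eq_mul, mul_one]
  ring

/-- The numerical conclusion. -/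
private theorem sd_num {ε n b c e1 e2 s : ℝ} (hε : 0 < ε) (hb0 : 0 ≤ b) (_hc0 : 0 ≤ c)
    (hn : b + c = n) (hbn : 2 * b ≤ n) (hs : b * ((1 / 4 + ε) * n) ≤ s) (hs2 : s = e1 + e2)
    (he1 : 2 * e1 ≤ b ^ 2) : ε * b * c ≤ e2 := by
  have h1 : 0 ≤ b * (n - 2 * b) := mul_nonneg hb0 (by linarith)
  have h2 : 0 ≤ ε * b * b := mul_nonneg (mul_nonneg hε.le hb0) hb0
  have h3 : ε * b * c = ε * b * n - ε * b * b := by rw [← hn]; ring
  nlinarith

theorem rob_of_semideg {V : Type} [Fintype V] [DecidableEq V] {R : V → V → Prop} {ε : ℝ}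
    (hε : 0 < ε) (hR : IsTour R)
    (h : ∀ (s : Bool) (v : V), (1 / 4 + ε) * Fintype.card V ≤ ((Nb R s v).card : ℝ)) :
    Rob ε R := by
  classical
  intro A
  have hcard : (A.card : ℝ) + ((Aᶜ).card : ℝ) = (Fintype.card V : ℝ) := by
    have := Finset.card_add_card_compl A
    exact_mod_cast this
  by_cases hA : 2 * (A.card : ℝ) ≤ Fintype.card V
  · refine sd_num (n := Fintype.card V) (e1 := (eN R A A : ℝ))
      (s := ∑ u ∈ A, ((Nb R true u).card : ℝ)) hε (Nat.cast_nonneg _) (Nat.cast_nonneg _)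
      hcard hA ?_ ?_ (sd_self hR A)
    · have := Finset.card_nsmul_le_sum A (fun u => ((Nb R true u).card : ℝ)) _
        (fun u _ => h true u)
      rw [nsmul_eq_mul] at this
      exact this
    · rw [sd_eN_sum, sd_eN_sum, ← Finset.sum_add_distrib]
      refine Finset.sum_congr rfl fun u _ => ?_
      rw [sd_out, Finset.sum_add_sum_compl]
  · have hB : 2 * ((Aᶜ).card : ℝ) ≤ Fintype.card V := by
      have := not_le.1 hA
      linarith
    have hcard' : ((Aᶜ).card : ℝ) + (A.card : ℝ) = (Fintype.card V : ℝ) := by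
      linarith
    have := sd_num (n := Fintype.card V) (e1 := (eN R Aᶜ Aᶜ : ℝ)) (e2 := (eN R A Aᶜ : ℝ))
      (s := ∑ v ∈ Aᶜ, ((Nb R false v).card : ℝ)) hε (Nat.cast_nonneg _) (Nat.cast_nonneg _)
      hcard' hB ?_ ?_ (sd_self hR Aᶜ)
    · calc ε * (A.card : ℝ) * ((Aᶜ).card : ℝ) = ε * ((Aᶜ).card : ℝ) * (A.card : ℝ) := by ring
        _ ≤ _ := this
    · have := Finset.card_nsmul_le_sum Aᶜ (fun u => ((Nb R false u).card : ℝ)) _
        (fun u _ => h false u)
      rw [nsmul_eq_mul] at this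
      exact this
    · rw [sd_eN_sum, sd_eN_sum, Finset.sum_comm, Finset.sum_comm (s := A),
        ← Finset.sum_add_distrib]
      refine Finset.sum_congr rfl fun v _ => ?_
      rw [sd_in, add_comm, Finset.sum_add_sum_compl]

end Pool.Agent.Lib.RobT
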