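import Pool.Agent.Lib.RobT.Sw

/-!
# Se: the exponential moment of one test function (about 250 lines)

`n = |V|`, `a = |A|`, `D = dev P A s' u'`, `q v = PP P s' u' v`, `ε = ε₀ + Cm δ`, `z` = number of
`x < κ` with `ld x < l`.  `n ∑_{v ∈ A} q v = a (1 + D)`.
For `φ : Fin κ → V` put `D'(φ) = ndev = (a D + κ - n ∑_x q (φ x)) / (a - κ)`, so
`D' - D = (κ (1 + D) - n ∑_x q (φ x)) / (a - κ)`, where `a - κ ≥ a/2 ≥ ρ n/2`.
(1) `|D' - D| ≤ 2 C κ / (a - κ) ≤ 4 C K/(ρ n)` if `∀ x, φ x ∈ A` (in fact for all `φ`), as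
`0 ≤ n ∑ q (φ x) ≤ κ C` and `0 ≤ κ (1 + D) ≤ 2 κ ≤ 2 C κ`.
(2) Expectation (`E F = ∑ Wt φ F φ`, `Wt_sum`): for `x` with `ld x ≥ l` (`Wt_marg`, `w` of length
`ld x`): `E n q (φ x) = n ∑_{v ∈ A} wk w (pt u) v q v` (`wk_out`), which differs from
`(n/a) ∑_{v ∈ A} q v = 1 + D` by at most `(ε/a) n ∑_{v ∈ A} q v = ε (1 + D) ≤ 2 ε`.  For `x` with
`ld x < l`: `0 ≤ E n q (φ x) ≤ (2C/a) n ∑_{v ∈ A} q v = 2 C (1 + D) ≤ 4 C` (`wk_le`).  So
`|E (κ (1 + D) - n ∑ q (φ x))| ≤ (2 + 4 C) z + 2 κ ε ≤ 6 C z + 2 κ ε` and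
`|E D' - D| ≤ e := 4/(ρ n) (3 C z + κ ε)`.
(3) `lam = √n`, `|lam (D' - D)| ≤ 1` as `4 C K/(ρ √n) ≤ 1`.  `exp t ≤ 1 + t + t²` for `|t| ≤ 1`
(`Real.abs_exp_sub_one_sub_id_le`).  So for `g = ±1`:
`E exp (lam g D') = exp (lam g D) E exp (lam g (D' - D))
≤ exp (lam g D) (1 + lam e + lam² (4 C K/(ρ n))²) ≤ exp (lam (g D + e) + 16 C² K²/(ρ² n))`.
-/

namespace Pool.Agent.Lib.RobT

open Finset

variable {V : Type} [Fintype V] [DecidableEq V]

/-- The deviation after removing the image of `φ`. -/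
noncomputable def ndev (P : V → V → ℝ) (A : Finset V) (κ : ℕ) (φ : Fin κ → V) (s : Bool)
    (u : V) : ℝ :=
  (A.card * dev P A s u + κ - Fintype.card V * ∑ x, PP P s u (φ x)) / (A.card - κ)

private theorem q_sum (P : V → V → ℝ) (A : Finset V) (ha : (0 : ℝ) < A.card) (s : Bool) (u : V) :
    (Fintype.card V : ℝ) * ∑ v ∈ A, PP P s u v = A.card * (1 + dev P A s u) := by
  have h : (Fintype.card V : ℝ) * ms P A s u = A.card * (1 + dev P A s u) := by
    unfold dev
    field_simp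
    ring
  exact h

private theorem ndev_sub (P : V → V → ℝ) (A : Finset V) (κ : ℕ) (φ : Fin κ → V) (s : Bool) (u : V)
    (h : (0 : ℝ) < A.card - κ) :
    ndev P A κ φ s u - dev P A s u = (κ * (1 + dev P A s u) -
      Fintype.card V * ∑ x, PP P s u (φ x)) / (A.card - κ) := by
  unfold ndev
  field_simp
  ring

private theorem ld_pos (κ : ℕ) (par ld : ℕ → ℕ) (hpar : ∀ x, 0 < x → x < κ → par x < x)
    (h0 : ld 0 = 1) (hld : ∀ x, 0 < x → x < κ → ld x = ld (par x) + 1) (x : ℕ) (hx : x < κ) :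
    1 ≤ ld x := by
  rcases Nat.eq_zero_or_pos x with h | h
  · rw [h, h0]
  · rw [hld x h hx]
    omega

private theorem marg_out (P : V → V → ℝ) (A : Finset V) (w : List Bool) (hw : w ≠ []) (u : V)
    (q : V → ℝ) : ∑ v, wk P A w (pt u) v * q v = ∑ v ∈ A, wk P A w (pt u) v * q v := by
  symm
  refine Finset.sum_subset (Finset.subset_univ A) fun v _ hv => ?_
  rw [wk_out P A w hw (pt u) v hv, zero_mul]

private theorem marg_mix {R : V → V → Prop} {c C : ℝ} {P : V → V → ℝ} (hP : Kern R c C P)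
    (A : Finset V) (ha : (0 : ℝ) < A.card) (w : List Bool) (hw : w ≠ []) (u : V) (s' : Bool)
    (u' : V) (ε : ℝ) (hD : dev P A s' u' ≤ 1 / 4) (hD' : -(1 / 4) ≤ dev P A s' u') (hε : 0 ≤ ε)
    (hm : ∀ v ∈ A, |wk P A w (pt u) v - 1 / A.card| ≤ ε / A.card) :
    |(1 + dev P A s' u') - Fintype.card V * ∑ v, wk P A w (pt u) v * PP P s' u' v| ≤ 2 * ε := by
  rw [marg_out P A w hw]
  have h1 := q_sum P A ha s' u'
  have h2 : (1 + dev P A s' u') - Fintype.card V * ∑ v ∈ A, wk P A w (pt u) v * PP P s' u' v =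
      Fintype.card V * ∑ v ∈ A, (1 / A.card - wk P A w (pt u) v) * PP P s' u' v := by
    have h3 : ∑ v ∈ A, (1 / (A.card : ℝ) - wk P A w (pt u) v) * PP P s' u' v =
        1 / A.card * ∑ v ∈ A, PP P s' u' v - ∑ v ∈ A, wk P A w (pt u) v * PP P s' u' v := by
      rw [Finset.mul_sum, ← Finset.sum_sub_distrib]
      exact Finset.sum_congr rfl fun v _ => by ring
    rw [h3, mul_sub, ← mul_assoc, mul_comm (Fintype.card V : ℝ) (1 / A.card), mul_assoc, h1]
    field_simp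
  rw [h2]
  have hn : (0 : ℝ) ≤ Fintype.card V := Nat.cast_nonneg _
  have h4 : |∑ v ∈ A, (1 / (A.card : ℝ) - wk P A w (pt u) v) * PP P s' u' v| ≤
      ε / A.card * ∑ v ∈ A, PP P s' u' v := by
    refine (Finset.abs_sum_le_sum_abs _ _).trans ?_
    rw [Finset.mul_sum]
    refine Finset.sum_le_sum fun v hv => ?_
    rw [abs_mul, abs_of_nonneg (PP_nn hP s' u' v), abs_sub_comm]
    exact mul_le_mul_of_nonneg_right (hm v hv) (PP_nn hP s' u' v)
  rw [abs_mul, abs_of_nonneg hn]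
  calc (Fintype.card V : ℝ) * |∑ v ∈ A, (1 / (A.card : ℝ) - wk P A w (pt u) v) * PP P s' u' v|
      ≤ Fintype.card V * (ε / A.card * ∑ v ∈ A, PP P s' u' v) := mul_le_mul_of_nonneg_left h4 hn
    _ = ε / A.card * (Fintype.card V * ∑ v ∈ A, PP P s' u' v) := by ring
    _ = ε * (1 + dev P A s' u') := by
      rw [h1]
      field_simp
    _ ≤ 2 * ε := by nlinarith

private theorem marg_low {R : V → V → Prop} {c C : ℝ} {P : V → V → ℝ} (hP : Kern R c C P)
    (hC : 1 ≤ C) (A : Finset V) (hA : A.Nonempty) (ha : (0 : ℝ) < A.card) {δ : ℝ}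
    (hδ : δ ≤ 1 / 2) (hq : QR P A δ) (w : List Bool) (hw : w ≠ []) (u : V) (s' : Bool)
    (u' : V) (hD : dev P A s' u' ≤ 1 / 4) (hD' : -(1 / 4) ≤ dev P A s' u') :
    |(1 + dev P A s' u') - Fintype.card V * ∑ v, wk P A w (pt u) v * PP P s' u' v| ≤ 6 * C := by
  rw [marg_out P A w hw]
  have h1 := q_sum P A ha s' u'
  have hn : (0 : ℝ) ≤ Fintype.card V := Nat.cast_nonneg _
  have hpt : ∀ v, 0 ≤ pt u v := by
    intro v
    unfold pt
    split_ifs <;> norm_num
  have hpt1 : ∑ v, pt u v = 1 := by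
    unfold pt
    simp
  have h2 : ∑ v ∈ A, wk P A w (pt u) v * PP P s' u' v ≤
      2 * C / A.card * ∑ v ∈ A, PP P s' u' v := by
    rw [Finset.mul_sum]
    refine Finset.sum_le_sum fun v _ => ?_
    exact mul_le_mul_of_nonneg_right (wk_le hP (by linarith) hA hδ hq w hw (pt u) hpt hpt1 v)
      (PP_nn hP s' u' v)
  have h3 : 0 ≤ ∑ v ∈ A, wk P A w (pt u) v * PP P s' u' v :=
    Finset.sum_nonneg fun v _ => mul_nonneg (wk_nn hP A w (pt u) hpt v) (PP_nn hP s' u' v)
  have h4 : (Fintype.card V : ℝ) * ∑ v ∈ A, wk P A w (pt u) v * PP P s' u' v ≤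
      2 * C * (1 + dev P A s' u') := by
    calc (Fintype.card V : ℝ) * ∑ v ∈ A, wk P A w (pt u) v * PP P s' u' v
        ≤ Fintype.card V * (2 * C / A.card * ∑ v ∈ A, PP P s' u' v) :=
          mul_le_mul_of_nonneg_left h2 hn
      _ = 2 * C / A.card * (Fintype.card V * ∑ v ∈ A, PP P s' u' v) := by ring
      _ = 2 * C * (1 + dev P A s' u') := by
        rw [h1]
        field_simp
  have h5 : 0 ≤ (Fintype.card V : ℝ) * ∑ v ∈ A, wk P A w (pt u) v * PP P s' u' v :=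
    mul_nonneg hn h3
  rw [abs_le]
  constructor <;> nlinarith

theorem exp_moment {R : V → V → Prop} {c C : ℝ} {P : V → V → ℝ} (hP : Kern R c C P)
    (hC : 1 ≤ C) (ρ : ℝ) (hρ : 0 < ρ) (K l : ℕ) (ε₀ Cm : ℝ) (hε₀ : 0 ≤ ε₀) (hCm : 0 ≤ Cm)
    (A : Finset V) (δ : ℝ) (hA : ρ * Fintype.card V ≤ A.card) (hδ0 : 0 ≤ δ) (hδ : δ ≤ 1 / 4)
    (hq : QR P A δ) (hn1 : 2 * (K : ℝ) + 2 ≤ ρ * Fintype.card V)
    (hn2 : 4 * C * K / ρ ≤ √(Fintype.card V))
    (hmix : ∀ w : List Bool, l ≤ w.length → ∀ u : V, ∀ v ∈ A,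
      |wk P A w (pt u) v - 1 / A.card| ≤ (ε₀ + Cm * δ) / A.card)
    (κ : ℕ) (par : ℕ → ℕ) (s : ℕ → Bool) (ld : ℕ → ℕ) (hκ : 0 < κ) (hκK : κ ≤ K)
    (hpar : ∀ x, 0 < x → x < κ → par x < x) (h0 : ld 0 = 1)
    (hld : ∀ x, 0 < x → x < κ → ld x = ld (par x) + 1) (u : V) (s' : Bool) (u' : V) (g : ℝ)
    (hg : g = 1 ∨ g = -1) :
    ∑ φ : Fin κ → V, Wt P A κ par s u φ *
        Real.exp (√(Fintype.card V) * (g * ndev P A κ φ s' u')) ≤
      Real.exp (√(Fintype.card V) * (g * dev P A s' u' +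
        4 / (ρ * Fintype.card V) * (3 * C * ((range κ).filter fun x => ld x < l).card +
          κ * (ε₀ + Cm * δ))) + 16 * C ^ 2 * K ^ 2 / (ρ ^ 2 * Fintype.card V)) := by
  have hn : (0 : ℝ) < Fintype.card V := by
    have : 0 < Fintype.card V := Fintype.card_pos_iff.2 ⟨u⟩
    exact_mod_cast this
  have ha : (0 : ℝ) < A.card := lt_of_lt_of_le (mul_pos hρ hn) hA
  have hAne : A.Nonempty := by
    rw [← Finset.card_pos]
    exact_mod_cast ha
  have hD1 := hq s' u'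
  have hD : dev P A s' u' ≤ 1 / 4 := le_trans (le_abs_self _) (hD1.trans hδ)
  have hD' : -(1 / 4) ≤ dev P A s' u' := by
    have := neg_abs_le (dev P A s' u')
    linarith
  have hκK' : (κ : ℝ) ≤ K := by exact_mod_cast hκK
  have hκ0 : (0 : ℝ) ≤ κ := Nat.cast_nonneg _
  have haκ : ρ * Fintype.card V / 2 ≤ A.card - κ := by linarith
  have haκ0 : (0 : ℝ) < A.card - κ := lt_of_lt_of_le (by positivity) haκ
  have hε : 0 ≤ ε₀ + Cm * δ := by positivity
  have hδ2 : δ ≤ 1 / 2 := by linarith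
  have hWnn := Wt_nn hP A κ par s u
  have hWsum := Wt_sum hAne hδ2 hq κ par s hpar u
  set n : ℝ := (Fintype.card V : ℝ) with hndef
  set a : ℝ := (A.card : ℝ) with hadef
  set D : ℝ := dev P A s' u' with hDdef
  set ε : ℝ := ε₀ + Cm * δ with hεdef
  set z : ℝ := (((range κ).filter fun x => ld x < l).card : ℝ) with hzdef
  -- the difference
  have hsub : ∀ φ : Fin κ → V, ndev P A κ φ s' u' - D =
      (κ * (1 + D) - n * ∑ x, PP P s' u' (φ x)) / (a - κ) :=
    fun φ => ndev_sub P A κ φ s' u' haκ0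
  have hbd : ∀ φ : Fin κ → V, |ndev P A κ φ s' u' - D| ≤ 4 * C * K / (ρ * n) := by
    intro φ
    rw [hsub φ, abs_div, abs_of_pos haκ0]
    have h1 : 0 ≤ n * ∑ x, PP P s' u' (φ x) :=
      mul_nonneg hn.le (Finset.sum_nonneg fun x _ => PP_nn hP s' u' _)
    have h2 : n * ∑ x, PP P s' u' (φ x) ≤ κ * C := by
      have h3 : ∑ x, PP P s' u' (φ x) ≤ ∑ _x : Fin κ, C / n :=
        Finset.sum_le_sum fun x _ => PP_up hP s' u' _
      rw [Finset.sum_const, Finset.card_univ, Fintype.card_fin, nsmul_eq_mul] at h3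
      calc n * ∑ x, PP P s' u' (φ x) ≤ n * (κ * (C / n)) := mul_le_mul_of_nonneg_left h3 hn.le
        _ = κ * C := by field_simp
    have h4 : |κ * (1 + D) - n * ∑ x, PP P s' u' (φ x)| ≤ 2 * C * κ := by
      rw [abs_le]
      constructor <;> nlinarith
    calc |κ * (1 + D) - n * ∑ x, PP P s' u' (φ x)| / (a - κ) ≤ 2 * C * K / (ρ * n / 2) := by
          refine div_le_div₀ (by positivity) (h4.trans ?_) (by positivity) haκ
          exact mul_le_mul_of_nonneg_left hκK' (by positivity)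
      _ = 4 * C * K / (ρ * n) := by
        field_simp
        ring
  -- the expectation
  have hE1 : |∑ φ : Fin κ → V, Wt P A κ par s u φ *
      (κ * (1 + D) - n * ∑ x, PP P s' u' (φ x))| ≤ 6 * C * z + 2 * κ * ε := by
    have h1 : ∑ φ : Fin κ → V, Wt P A κ par s u φ *
        (κ * (1 + D) - n * ∑ x, PP P s' u' (φ x)) =
        ∑ x : Fin κ, ((1 + D) - n * ∑ φ : Fin κ → V, Wt P A κ par s u φ * PP P s' u' (φ x)) := by
      rw [Finset.sum_sub_distrib, Finset.sum_const, Finset.card_univ, Fintype.card_fin,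
        nsmul_eq_mul, ← Finset.mul_sum, Finset.sum_comm]
      have h2 : ∀ φ : Fin κ → V, Wt P A κ par s u φ *
          (κ * (1 + D) - n * ∑ x, PP P s' u' (φ x)) =
          (κ * (1 + D)) * Wt P A κ par s u φ - n * ∑ x, Wt P A κ par s u φ * PP P s' u' (φ x) := by
        intro φ
        rw [← Finset.mul_sum]
        ring
      rw [Finset.sum_congr rfl fun φ _ => h2 φ, Finset.sum_sub_distrib, ← Finset.mul_sum,
        ← Finset.mul_sum, hWsum, mul_one]
    rw [h1]
    refine (Finset.abs_sum_le_sum_abs _ _).trans ?_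
    have h3 : ∀ x : Fin κ, |(1 + D) - n * ∑ φ : Fin κ → V, Wt P A κ par s u φ *
        PP P s' u' (φ x)| ≤ (if ld (x : ℕ) < l then 6 * C else 0) + 2 * ε := by
      intro x
      obtain ⟨w, hw, hw'⟩ := Wt_marg hAne hδ2 hq κ par s hpar ld h0 hld u x
      rw [hw' (fun v => PP P s' u' v)]
      have hw0 : w ≠ [] := by
        intro h
        rw [h] at hw
        have := ld_pos κ par ld hpar h0 hld x x.2
        rw [← hw] at this
        simp at this
      split_ifs with hl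
      · have := marg_low hP hC A hAne ha hδ2 hq w hw0 u s' u' hD hD'
        linarith
      · rw [zero_add]
        exact marg_mix hP A ha w hw0 u s' u' ε hD hD' hε
          (hmix w (by rw [hw]; omega) u)
    refine (Finset.sum_le_sum fun x _ => h3 x).trans ?_
    rw [Finset.sum_add_distrib, Finset.sum_const, Finset.card_univ, Fintype.card_fin,
      nsmul_eq_mul]
    have h4 : ∑ x : Fin κ, (if ld (x : ℕ) < l then 6 * C else 0) = 6 * C * z := by
      rw [Fin.sum_univ_eq_sum_range (fun x => if ld x < l then 6 * C else 0) κ,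
        ← Finset.sum_filter, Finset.sum_const, nsmul_eq_mul, hzdef]
      ring
    rw [h4]
    linarith
  have hE2 : |∑ φ : Fin κ → V, Wt P A κ par s u φ * (ndev P A κ φ s' u' - D)| ≤
      4 / (ρ * n) * (3 * C * z + κ * ε) := by
    have h1 : ∑ φ : Fin κ → V, Wt P A κ par s u φ * (ndev P A κ φ s' u' - D) =
        (∑ φ : Fin κ → V, Wt P A κ par s u φ *
          (κ * (1 + D) - n * ∑ x, PP P s' u' (φ x))) / (a - κ) := by
      rw [Finset.sum_div]
      refine Finset.sum_congr rfl fun φ _ => ?_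
      rw [hsub φ]
      ring
    rw [h1, abs_div, abs_of_pos haκ0]
    have hz0 : 0 ≤ z := Nat.cast_nonneg _
    calc |∑ φ : Fin κ → V, Wt P A κ par s u φ *
          (κ * (1 + D) - n * ∑ x, PP P s' u' (φ x))| / (a - κ)
        ≤ (6 * C * z + 2 * κ * ε) / (ρ * n / 2) :=
          div_le_div₀ (by positivity) hE1 (by positivity) haκ
      _ = 4 / (ρ * n) * (3 * C * z + κ * ε) := by
        field_simp
        ring
  -- the exponential
  have hlam : 0 ≤ √n := Real.sqrt_nonneg _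
  have hlam2 : √n * √n = n := Real.mul_self_sqrt hn.le
  have hlam0 : 0 < √n := Real.sqrt_pos.2 hn
  have hg1 : |g| = 1 := by
    rcases hg with h | h <;> rw [h] <;> norm_num
  have hb1 : √n * (4 * C * K / (ρ * n)) ≤ 1 := by
    have h1 : √n * (4 * C * K / (ρ * n)) = 4 * C * K / ρ / √n := by
      rw [eq_div_iff hlam0.ne']
      calc √n * (4 * C * K / (ρ * n)) * √n = (√n * √n) * (4 * C * K / (ρ * n)) := by ring
        _ = 4 * C * K / ρ := by
          rw [hlam2]
          field_simp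
    rw [h1, div_le_one hlam0]
    exact hn2
  have hX : ∀ φ : Fin κ → V, |√n * (g * (ndev P A κ φ s' u' - D))| ≤
      √n * (4 * C * K / (ρ * n)) := by
    intro φ
    rw [abs_mul, abs_mul, hg1, one_mul, abs_of_nonneg hlam]
    exact mul_le_mul_of_nonneg_left (hbd φ) hlam
  have hexp : ∀ φ : Fin κ → V, Real.exp (√n * (g * ndev P A κ φ s' u')) ≤
      Real.exp (√n * (g * D)) * (1 + √n * g * (ndev P A κ φ s' u' - D) +
        (√n * (4 * C * K / (ρ * n))) ^ 2) := by
    intro φ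
    have h1 : √n * (g * ndev P A κ φ s' u') = √n * (g * D) +
        √n * (g * (ndev P A κ φ s' u' - D)) := by ring
    rw [h1, Real.exp_add]
    refine mul_le_mul_of_nonneg_left ?_ (Real.exp_pos _).le
    set X := √n * (g * (ndev P A κ φ s' u' - D)) with hXdef
    have h2 : |X| ≤ 1 := (hX φ).trans hb1
    have h3 := Real.abs_exp_sub_one_sub_id_le h2
    have h4 := (abs_le.1 h3).2
    have h5 : X ^ 2 ≤ (√n * (4 * C * K / (ρ * n))) ^ 2 := by
      rw [← sq_abs X]
      exact pow_le_pow_left₀ (abs_nonneg _) (hX φ) 2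
    have h6 : √n * g * (ndev P A κ φ s' u' - D) = X := by
      rw [hXdef]
      ring
    rw [h6]
    linarith
  have hb2 : (√n * (4 * C * K / (ρ * n))) ^ 2 = 16 * C ^ 2 * K ^ 2 / (ρ ^ 2 * n) := by
    rw [mul_pow, Real.sq_sqrt hn.le]
    field_simp
    ring
  calc ∑ φ : Fin κ → V, Wt P A κ par s u φ * Real.exp (√n * (g * ndev P A κ φ s' u'))
      ≤ ∑ φ : Fin κ → V, Wt P A κ par s u φ * (Real.exp (√n * (g * D)) *
          (1 + √n * g * (ndev P A κ φ s' u' - D) + (√n * (4 * C * K / (ρ * n))) ^ 2)) :=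
        Finset.sum_le_sum fun φ _ => mul_le_mul_of_nonneg_left (hexp φ) (hWnn φ)
    _ = Real.exp (√n * (g * D)) * (1 + √n * g *
          (∑ φ : Fin κ → V, Wt P A κ par s u φ * (ndev P A κ φ s' u' - D)) +
          (√n * (4 * C * K / (ρ * n))) ^ 2) := by
      have h1 : ∀ φ : Fin κ → V, Wt P A κ par s u φ * (Real.exp (√n * (g * D)) *
          (1 + √n * g * (ndev P A κ φ s' u' - D) + (√n * (4 * C * K / (ρ * n))) ^ 2)) =
          (Real.exp (√n * (g * D)) * (1 + (√n * (4 * C * K / (ρ * n))) ^ 2)) *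
            Wt P A κ par s u φ + (Real.exp (√n * (g * D)) * (√n * g)) *
            (Wt P A κ par s u φ * (ndev P A κ φ s' u' - D)) := by
        intro φ
        ring
      rw [Finset.sum_congr rfl fun φ _ => h1 φ, Finset.sum_add_distrib, ← Finset.mul_sum,
        ← Finset.mul_sum, hWsum]
      ring
    _ ≤ Real.exp (√n * (g * D)) * Real.exp (√n * (4 / (ρ * n) * (3 * C * z + κ * ε)) +
          16 * C ^ 2 * K ^ 2 / (ρ ^ 2 * n)) := by
      refine mul_le_mul_of_nonneg_left ?_ (Real.exp_pos _).le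
      have h1 : √n * g * (∑ φ : Fin κ → V, Wt P A κ par s u φ * (ndev P A κ φ s' u' - D)) ≤
          √n * (4 / (ρ * n) * (3 * C * z + κ * ε)) := by
        rw [mul_assoc]
        refine mul_le_mul_of_nonneg_left ?_ hlam
        refine (le_abs_self _).trans ?_
        rw [abs_mul, hg1, one_mul]
        exact hE2
      have h2 := Real.add_one_le_exp (√n * (4 / (ρ * n) * (3 * C * z + κ * ε)) +
          16 * C ^ 2 * K ^ 2 / (ρ ^ 2 * n))
      rw [hb2]
      linarith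
    _ = Real.exp (√n * (g * D + 4 / (ρ * n) * (3 * C * z + κ * ε)) +
          16 * C ^ 2 * K ^ 2 / (ρ ^ 2 * n)) := by
      rw [← Real.exp_add]
      congr 1
      ring

end Pool.Agent.Lib.RobT
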