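import Pool.Agent.Lib.RobT.Defs

/-!
# Sl: local numbering of a piece (about 120 lines)

`S` is the set of the `i` with `0 < i < N`, `rt i = j` (`rt j = j`, `0 < j < N`), `κ = |S|`.  Let
`e : ℕ → ℕ` enumerate `S` increasingly (`Finset.orderEmbOfFin`, extended by `0`): `e` is strictly
increasing on `[0, κ)` with image `S`; `e 0 = j`, as `j = min S` (`rt i ≤ i`).  `e' i` = the index
of
`i ∈ S`.  `p x = e' (par (e x))` for `0 < x < κ`: `e x ≠ j`, so `rt (e x) ≠ e x`,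
`par (e x) > 0`, `rt (par (e x)) = rt (e x) = j` and `par (e x) < e x < N`, so `par (e x) ∈ S` and
`p x < x` as `e` is increasing.
-/

namespace Pool.Agent.Lib.RobT

open Finset

theorem local_number (N : ℕ) (par rt : ℕ → ℕ) (hpar : ∀ i, 0 < i → i < N → par i < i)
    (h1 : ∀ i, 0 < i → i < N → 0 < rt i ∧ rt i ≤ i ∧ rt (rt i) = rt i)
    (h2 : ∀ i, 0 < i → i < N → rt i ≠ i → 0 < par i ∧ rt (par i) = rt i) (j : ℕ) (hj : 0 < j)
    (hjN : j < N) (hjr : rt j = j) :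
    ∃ (κ : ℕ) (e e' p : ℕ → ℕ), 0 < κ ∧
      κ = ((range N).filter fun i => 0 < i ∧ rt i = j).card ∧ e 0 = j ∧
      (∀ x < κ, 0 < e x ∧ e x < N ∧ rt (e x) = j ∧ e' (e x) = x) ∧
      (∀ i, 0 < i → i < N → rt i = j → e' i < κ ∧ e (e' i) = i) ∧
      (∀ x, 0 < x → x < κ → p x < x ∧ e (p x) = par (e x) ∧ rt (e x) ≠ e x) := by
  obtain ⟨S, hS⟩ : ∃ S, S = (range N).filter fun i => 0 < i ∧ rt i = j := ⟨_, rfl⟩
  have hmem : ∀ i, i ∈ S ↔ i < N ∧ 0 < i ∧ rt i = j := by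
    intro i
    rw [hS, mem_filter, mem_range]
  obtain ⟨e, he⟩ : ∃ e : ℕ → ℕ, e = fun x =>
      if h : x < S.card then S.orderEmbOfFin rfl ⟨x, h⟩ else 0 := ⟨_, rfl⟩
  obtain ⟨e', he'⟩ : ∃ e' : ℕ → ℕ, e' = fun i =>
      if h : i ∈ S then (((S.orderIsoOfFin rfl).symm ⟨i, h⟩ : Fin S.card) : ℕ) else 0 := ⟨_, rfl⟩
  have he1 : ∀ x (h : x < S.card), e x = S.orderEmbOfFin rfl ⟨x, h⟩ := by
    intro x h
    rw [he]
    exact dif_pos h
  have he2 : ∀ i (h : i ∈ S), e' i = (((S.orderIsoOfFin rfl).symm ⟨i, h⟩ : Fin S.card) : ℕ) := by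
    intro i h
    rw [he']
    exact dif_pos h
  have heS : ∀ x < S.card, e x ∈ S := by
    intro x hx
    rw [he1 x hx]
    exact orderEmbOfFin_mem S rfl _
  have hlt : ∀ x y, x < y → y < S.card → e x < e y := by
    intro x y hxy hy
    rw [he1 x (hxy.trans hy), he1 y hy]
    exact (S.orderEmbOfFin rfl).strictMono hxy
  have he'lt : ∀ i ∈ S, e' i < S.card := by
    intro i hi
    rw [he2 i hi]
    exact Fin.is_lt _
  have hee' : ∀ i ∈ S, e (e' i) = i := by
    intro i hi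
    rw [he1 _ (he'lt i hi)]
    have h3 : (⟨e' i, he'lt i hi⟩ : Fin S.card) = (S.orderIsoOfFin rfl).symm ⟨i, hi⟩ :=
      Fin.ext (he2 i hi)
    rw [h3, ← coe_orderIsoOfFin_apply, OrderIso.apply_symm_apply]
  have he'e : ∀ x < S.card, e' (e x) = x := by
    intro x hx
    have h3 := hee' (e x) (heS x hx)
    rcases lt_trichotomy (e' (e x)) x with h | h | h
    · have := hlt _ _ h hx
      omega
    · exact h
    · have := hlt _ _ h (he'lt _ (heS x hx))
      omega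
  have hjS : j ∈ S := (hmem j).2 ⟨hjN, hj, hjr⟩
  have hpos : 0 < S.card := card_pos.2 ⟨j, hjS⟩
  have he0 : e 0 = j := by
    have h3 := (hmem _).1 (heS 0 hpos)
    have h4 := (h1 (e 0) h3.2.1 h3.1).2.1
    rw [h3.2.2] at h4
    have h5 : e 0 ≤ j := by
      rcases Nat.eq_zero_or_pos (e' j) with h | h
      · rw [← h, hee' j hjS]
      · have := hlt 0 (e' j) h (he'lt j hjS)
        rw [hee' j hjS] at this
        exact this.le
    omega
  refine ⟨S.card, e, e', fun x => e' (par (e x)), hpos, by rw [hS], he0, ?_, ?_, ?_⟩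
  · intro x hx
    have h3 := (hmem _).1 (heS x hx)
    exact ⟨h3.2.1, h3.1, h3.2.2, he'e x hx⟩
  · intro i hi hiN hir
    have hiS := (hmem i).2 ⟨hiN, hi, hir⟩
    exact ⟨he'lt i hiS, hee' i hiS⟩
  · intro x hx0 hx
    have h3 := (hmem _).1 (heS x hx)
    have h4 : rt (e x) ≠ e x := by
      have := hlt 0 x hx0 hx
      rw [h3.2.2]
      omega
    obtain ⟨h5, h6⟩ := h2 (e x) h3.2.1 h3.1 h4
    have h7 := hpar (e x) h3.2.1 h3.1
    have h8 : par (e x) ∈ S := (hmem _).2 ⟨by omega, h5, by rw [h6, h3.2.2]⟩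
    refine ⟨?_, hee' _ h8, h4⟩
    by_contra hcon
    have h9 : x ≤ e' (par (e x)) := by simpa using hcon
    rcases Nat.lt_or_ge x (e' (par (e x))) with h | h
    · have := hlt _ _ h (he'lt _ h8)
      rw [hee' _ h8] at this
      omega
    · have h10 : x = e' (par (e x)) := le_antisymm h9 h
      have h11 := hee' _ h8
      rw [← h10] at h11
      omega

end Pool.Agent.Lib.RobT
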