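import Pool.Agent.Lib.RobT.Defs

/-!
# Sp: cutting the tree into pieces (about 220 lines)

Depth: `dp 0 = 0`, `dp i = dp (par i) + 1` for `0 < i < N` (strong recursion; define it by the
number of steps to reach `0`, or by `Nat.strongRec`).  Choose `a < k` such that
`k #{0 < i < N | dp i % k = a} ≤ N` (the `k` classes are disjoint).  Call `0 < i < N` a CUT if
`par i = 0` or `dp i % k = a`.  `rt i = i` and `ld i = 1` if `i` is a cut, otherwise
`rt i = rt (par i)`, `ld i = ld (par i) + 1` (then `par i ≠ 0`; strong recursion, values outside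
`0 < i < N` arbitrary, say `rt i = i`, `ld i = 1`).
First three properties: induction.
Number of cuts: those with `par i = 0` are at most `Δ` (`RT.deg`), the others at most `N/k`.
Sizes: let `m t` be the number of `i` with `0 < i < N`, `rt i = j`, `ld i = t + 1`.  `m 0 ≤ 1`
(such an `i` is `j`), `m (t+1) ≤ Δ m t` (the parent is in level `t`).  So `m t ≤ Δ^t`.
Levels: `ld i ≤ k`: `dp i = dp (rt i) + ld i - 1`, and if `ld i > k` then among the `k` vertices
`i, par i, …, par^[k-1] i`, which are in the piece and are not its root, one has `dp % k = a`, a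
cut.
So the piece has at most `∑_{t < k} Δ^t ≤ (Δ+1)^k` vertices, and at most
`∑_{t < l - 1} Δ^t ≤ (Δ+1)^l` with `ld i < l`.
-/

/-!
# Sp: cutting the tree into pieces (about 220 lines)

Depth: `dp 0 = 0`, `dp i = dp (par i) + 1` for `0 < i < N` (strong recursion; define it by the
number of steps to reach `0`, or by `Nat.strongRec`).  Choose `a < k` such that
`k #{0 < i < N | dp i % k = a} ≤ N` (the `k` classes are disjoint).  Call `0 < i < N` a CUT if
`par i = 0` or `dp i % k = a`.  `rt i = i` and `ld i = 1` if `i` is a cut, otherwise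
`rt i = rt (par i)`, `ld i = ld (par i) + 1` (then `par i ≠ 0`; strong recursion, values outside
`0 < i < N` arbitrary, say `rt i = i`, `ld i = 1`).
First three properties: induction.
Number of cuts: those with `par i = 0` are at most `Δ` (`RT.deg`), the others at most `N/k`.
Sizes: let `m t` be the number of `i` with `0 < i < N`, `rt i = j`, `ld i = t + 1`.  `m 0 ≤ 1`
(such an `i` is `j`), `m (t+1) ≤ Δ m t` (the parent is in level `t`).  So `m t ≤ Δ^t`.
Levels: `ld i ≤ k`: `dp i = dp (rt i) + ld i - 1`, and if `ld i > k` then among the `k` vertices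
`i, par i, …, par^[k-1] i`, which are in the piece and are not its root, one has `dp % k = a`, a
cut.
So the piece has at most `∑_{t < k} Δ^t ≤ (Δ+1)^k` vertices, and at most
`∑_{t < l - 1} Δ^t ≤ (Δ+1)^l` with `ld i < l`.
-/

namespace Pool.Agent.Lib.RobT

open Finset

/-- the depth -/
private def spD (par : ℕ → ℕ) (i : ℕ) : ℕ :=
  if h : 0 < i ∧ par i < i then spD par (par i) + 1 else 0
termination_by i
decreasing_by exact h.2

/-- the root of the piece and the level in the piece -/
private def spR (par : ℕ → ℕ) (cut : ℕ → Bool) (i : ℕ) : ℕ × ℕ :=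
  if h : (0 < i ∧ par i < i) ∧ cut i = false then
    ((spR par cut (par i)).1, (spR par cut (par i)).2 + 1)
  else (i, 1)
termination_by i
decreasing_by all_goals exact h.1.2

private theorem spD_eq {par : ℕ → ℕ} {i : ℕ} (h : 0 < i) (h2 : par i < i) :
    spD par i = spD par (par i) + 1 := by
  rw [spD, dif_pos ⟨h, h2⟩]

private theorem spR_cut {par : ℕ → ℕ} {cut : ℕ → Bool} {i : ℕ} (h : cut i = true) :
    spR par cut i = (i, 1) := by
  rw [spR, dif_neg]
  rintro ⟨-, h2⟩
  rw [h] at h2
  cases h2

private theorem spR_not {par : ℕ → ℕ} {cut : ℕ → Bool} {i : ℕ} (h : 0 < i) (h2 : par i < i)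
    (h3 : cut i = false) :
    spR par cut i = ((spR par cut (par i)).1, (spR par cut (par i)).2 + 1) := by
  rw [spR, dif_pos ⟨⟨h, h2⟩, h3⟩]

private theorem spR_pos (par : ℕ → ℕ) (cut : ℕ → Bool) (i : ℕ) : 1 ≤ (spR par cut i).2 := by
  rw [spR]
  split_ifs
  · show 1 ≤ (spR par cut (par i)).2 + 1
    omega
  · exact le_rfl

private theorem sp_geom (Δ l : ℕ) : ∑ t ∈ range l, Δ ^ t ≤ (Δ + 1) ^ l := by
  rw [add_pow]
  have h1 : ∑ t ∈ range l, Δ ^ t ≤ ∑ t ∈ range (l + 1), Δ ^ t :=
    Finset.sum_le_sum_of_subset (Finset.range_mono (by omega))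
  refine le_trans h1 (Finset.sum_le_sum fun t ht => ?_)
  rw [one_pow, mul_one]
  have : 0 < l.choose t := Nat.choose_pos (by rw [Finset.mem_range] at ht; omega)
  exact Nat.le_mul_of_pos_right _ this

private theorem sp_res {n k a : ℕ} (hn : k ≤ n) (ha : a < k) : ∃ s < k, (n - s) % k = a := by
  refine ⟨(n - a) % k, Nat.mod_lt _ (by omega), ?_⟩
  have h1 := Nat.div_add_mod (n - a) k
  have h2 : n - (n - a) % k = a + k * ((n - a) / k) := by omega
  rw [h2, Nat.add_mul_mod_self_left, Nat.mod_eq_of_lt ha]

private theorem sp_pigeon (k N : ℕ) (hk : 1 ≤ k) (f : ℕ → ℕ) :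
    ∃ a < k, k * ((range N).filter fun i => 0 < i ∧ f i % k = a).card ≤ N := by
  by_contra hcon
  push Not at hcon
  have h1 : ∑ a ∈ range k, ((range N).filter fun i => 0 < i ∧ f i % k = a).card ≤ N := by
    rw [← Finset.card_biUnion]
    · refine le_trans (Finset.card_le_card (t := range N) ?_) (by rw [Finset.card_range])
      intro i hi
      rw [Finset.mem_biUnion] at hi
      obtain ⟨a, _, hi⟩ := hi
      exact (Finset.mem_filter.1 hi).1
    · intro a _ b _ hab
      rw [Function.onFun, Finset.disjoint_left]
      intro i hi hi2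
      rw [Finset.mem_filter] at hi hi2
      exact hab (hi.2.2.symm.trans hi2.2.2)
  have h2 : ∑ a ∈ range k, (N + 1) ≤
      ∑ a ∈ range k, k * ((range N).filter fun i => 0 < i ∧ f i % k = a).card :=
    Finset.sum_le_sum fun a ha => hcon a (Finset.mem_range.1 ha)
  rw [← Finset.mul_sum, Finset.sum_const, Finset.card_range, smul_eq_mul] at h2
  have h3 := Nat.mul_le_mul_left k h1
  have h4 : k * (N + 1) ≤ k * N := le_trans h2 h3
  have h5 := Nat.le_of_mul_le_mul_left h4 (by omega)
  omega

theorem pieces (Δ k N : ℕ) (par : ℕ → ℕ) (h : RT N Δ par) (hk : 1 ≤ k) :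
    ∃ rt ld : ℕ → ℕ,
      (∀ i, 0 < i → i < N → 0 < rt i ∧ rt i ≤ i ∧ rt (rt i) = rt i) ∧
      (∀ i, 0 < i → i < N → rt i = i → ld i = 1) ∧
      (∀ i, 0 < i → i < N → rt i ≠ i →
        0 < par i ∧ rt (par i) = rt i ∧ ld i = ld (par i) + 1) ∧
      (∀ j, ((range N).filter fun i => 0 < i ∧ rt i = j).card ≤ (Δ + 1) ^ k) ∧
      (∀ j l, ((range N).filter fun i => 0 < i ∧ rt i = j ∧ ld i < l).card ≤ (Δ + 1) ^ l) ∧
      k * ((range N).filter fun i => 0 < i ∧ rt i = i).card ≤ N + k * Δ := by
  obtain ⟨a, hak, hcard⟩ := sp_pigeon k N hk (spD par)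
  set cut : ℕ → Bool := fun i => decide (par i = 0 ∨ spD par i % k = a) with hcut
  have hct : ∀ i, cut i = true ↔ (par i = 0 ∨ spD par i % k = a) := fun i => by
    rw [hcut]
    exact decide_eq_true_iff
  have hcf : ∀ i, cut i = false ↔ ¬ (par i = 0 ∨ spD par i % k = a) := fun i => by
    rw [hcut]
    exact decide_eq_false_iff_not
  have hrt : ∀ i, 0 < i → i < N → 0 < (spR par cut i).1 ∧ (spR par cut i).1 ≤ i ∧
      (spR par cut (spR par cut i).1).1 = (spR par cut i).1 := by
    intro i
    induction i using Nat.strong_induction_on with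
    | _ i ih =>
      intro hi hN
      have hp := h.lt i hi hN
      by_cases hc : cut i = true
      · rw [spR_cut hc]
        refine ⟨hi, le_rfl, ?_⟩
        rw [spR_cut hc]
      · have hc' : cut i = false := by simpa using hc
        have hp0 : 0 < par i := by
          have := (hcf i).1 hc'
          push Not at this
          exact Nat.pos_of_ne_zero this.1
        obtain ⟨h1, h2, h3⟩ := ih (par i) hp hp0 (by omega)
        rw [spR_not hi hp hc']
        exact ⟨h1, by show (spR par cut (par i)).1 ≤ i; omega, h3⟩
  have hroot : ∀ i, 0 < i → i < N → (spR par cut i).1 = i → cut i = true := by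
    intro i hi hN hr
    by_contra hc
    have hc' : cut i = false := by simpa using hc
    have hp := h.lt i hi hN
    have hp0 : 0 < par i := by
      have := (hcf i).1 hc'
      push Not at this
      exact Nat.pos_of_ne_zero this.1
    rw [spR_not hi hp hc'] at hr
    have h2 := (hrt (par i) hp0 (by omega)).2.1
    have hr' : (spR par cut (par i)).1 = i := hr
    omega
  have hnot : ∀ i, 0 < i → i < N → cut i = false →
      0 < par i ∧ (spR par cut (par i)).1 = (spR par cut i).1 ∧
        (spR par cut i).2 = (spR par cut (par i)).2 + 1 := by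
    intro i hi hN hc
    have hp := h.lt i hi hN
    have hp0 : 0 < par i := by
      have := (hcf i).1 hc
      push Not at this
      exact Nat.pos_of_ne_zero this.1
    rw [spR_not hi hp hc]
    exact ⟨hp0, rfl, rfl⟩
  have hdl : ∀ i, 0 < i → i < N → (spR par cut i).2 ≤ spD par i := by
    intro i
    induction i using Nat.strong_induction_on with
    | _ i ih =>
      intro hi hN
      have hp := h.lt i hi hN
      rw [spD_eq hi hp]
      by_cases hc : cut i = true
      · rw [spR_cut hc]
        show 1 ≤ spD par (par i) + 1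
        omega
      · have hc' : cut i = false := by simpa using hc
        obtain ⟨h1, _, h3⟩ := hnot i hi hN hc'
        rw [h3]
        have := ih (par i) hp h1 (by omega)
        omega
  have hres : ∀ i, 0 < i → i < N → ∀ s, s + 1 < (spR par cut i).2 →
      (spD par i - s) % k ≠ a := by
    intro i
    induction i using Nat.strong_induction_on with
    | _ i ih =>
      intro hi hN s hs
      have hp := h.lt i hi hN
      have hc' : cut i = false := by
        by_contra hc
        have hc2 : cut i = true := by simpa using hc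
        rw [spR_cut hc2] at hs
        have hs' : s + 1 < 1 := hs
        omega
      obtain ⟨h1, _, h3⟩ := hnot i hi hN hc'
      rcases s with _ | s
      · have := (hcf i).1 hc'
        push Not at this
        exact this.2
      · rw [spD_eq hi hp]
        have e1 : spD par (par i) + 1 - (s + 1) = spD par (par i) - s := by omega
        rw [e1]
        exact ih (par i) hp h1 (by omega) s (by omega)
  have hldk : ∀ i, 0 < i → i < N → (spR par cut i).2 ≤ k := by
    intro i hi hN
    by_contra hlt
    push Not at hlt
    have h1 := hdl i hi hN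
    obtain ⟨s, hs, hs2⟩ := sp_res (n := spD par i) (k := k) (a := a) (by omega) hak
    exact hres i hi hN s (by omega) hs2
  have hlev : ∀ (j t : ℕ), ((range N).filter fun i => 0 < i ∧ (spR par cut i).1 = j ∧
      (spR par cut i).2 = t + 1).card ≤ Δ ^ t := by
    intro j t
    induction t with
    | zero =>
      rw [pow_zero, Finset.card_le_one]
      have key : ∀ i, i ∈ (range N).filter (fun i => 0 < i ∧ (spR par cut i).1 = j ∧
          (spR par cut i).2 = 0 + 1) → i = j := by
        intro i hi
        rw [Finset.mem_filter, Finset.mem_range] at hi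
        obtain ⟨hN, hi0, hj, hl⟩ := hi
        have hc : cut i = true := by
          by_contra hc
          have hc' : cut i = false := by simpa using hc
          obtain ⟨_, _, h3⟩ := hnot i hi0 hN hc'
          have := spR_pos par cut (par i)
          omega
        rw [spR_cut hc] at hj
        exact hj
      intro x hx z hz
      rw [key x hx, key z hz]
    | succ t ih =>
      have hsub : (range N).filter (fun i => 0 < i ∧ (spR par cut i).1 = j ∧
          (spR par cut i).2 = t + 1 + 1) ⊆
          ((range N).filter fun i => 0 < i ∧ (spR par cut i).1 = j ∧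
            (spR par cut i).2 = t + 1).biUnion
          (fun p => (range N).filter fun i => 0 < i ∧ par i = p) := by
        intro i hi
        rw [Finset.mem_filter, Finset.mem_range] at hi
        obtain ⟨hN, hi0, hj, hl⟩ := hi
        have hc' : cut i = false := by
          by_contra hc
          have hc2 : cut i = true := by simpa using hc
          rw [spR_cut hc2] at hl
          have hl' : 1 = t + 1 + 1 := hl
          omega
        obtain ⟨h1, h2, h3⟩ := hnot i hi0 hN hc'
        have hp := h.lt i hi0 hN
        rw [Finset.mem_biUnion]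
        refine ⟨par i, ?_, ?_⟩
        · rw [Finset.mem_filter, Finset.mem_range]
          exact ⟨by omega, h1, h2.trans hj, by omega⟩
        · rw [Finset.mem_filter, Finset.mem_range]
          exact ⟨hN, hi0, rfl⟩
      refine le_trans (Finset.card_le_card hsub) ?_
      refine le_trans (Finset.card_biUnion_le_card_mul _ _ Δ fun p _ => h.deg p) ?_
      rw [pow_succ]
      exact Nat.mul_le_mul_right _ ih
  have hlt : ∀ (j l : ℕ), ((range N).filter fun i => 0 < i ∧ (spR par cut i).1 = j ∧
      (spR par cut i).2 ≤ l).card ≤ (Δ + 1) ^ l := by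
    intro j l
    have hsub : (range N).filter (fun i => 0 < i ∧ (spR par cut i).1 = j ∧
        (spR par cut i).2 ≤ l) ⊆
        (range l).biUnion (fun t => (range N).filter fun i => 0 < i ∧ (spR par cut i).1 = j ∧
          (spR par cut i).2 = t + 1) := by
      intro i hi
      rw [Finset.mem_filter] at hi
      obtain ⟨hN, hi0, hj, hl⟩ := hi
      have := spR_pos par cut i
      rw [Finset.mem_biUnion]
      refine ⟨(spR par cut i).2 - 1, Finset.mem_range.2 (by omega), ?_⟩
      rw [Finset.mem_filter]
      exact ⟨hN, hi0, hj, by omega⟩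
    refine le_trans (Finset.card_le_card hsub) ?_
    refine le_trans Finset.card_biUnion_le ?_
    exact le_trans (Finset.sum_le_sum fun t _ => hlev j t) (sp_geom Δ l)
  refine ⟨fun i => (spR par cut i).1, fun i => (spR par cut i).2, hrt, ?_, ?_, ?_, ?_, ?_⟩
  · intro i hi hN hr
    show (spR par cut i).2 = 1
    rw [spR_cut (hroot i hi hN hr)]
  · intro i hi hN hr
    have hc' : cut i = false := by
      by_contra hc
      have hc2 : cut i = true := by simpa using hc
      apply hr
      show (spR par cut i).1 = i
      rw [spR_cut hc2]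
    exact hnot i hi hN hc'
  · intro j
    refine le_trans (Finset.card_le_card ?_) (hlt j k)
    intro i hi
    rw [Finset.mem_filter] at hi ⊢
    exact ⟨hi.1, hi.2.1, hi.2.2, hldk i hi.2.1 (Finset.mem_range.1 hi.1)⟩
  · intro j l
    refine le_trans (Finset.card_le_card ?_) (hlt j l)
    intro i hi
    rw [Finset.mem_filter] at hi ⊢
    exact ⟨hi.1, hi.2.1, hi.2.2.1, hi.2.2.2.le⟩
  · have hsub : (range N).filter (fun i => 0 < i ∧ (spR par cut i).1 = i) ⊆
        ((range N).filter fun i => 0 < i ∧ par i = 0) ∪
          ((range N).filter fun i => 0 < i ∧ spD par i % k = a) := by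
      intro i hi
      rw [Finset.mem_filter] at hi
      obtain ⟨hN, hi0, hr⟩ := hi
      have hc := hroot i hi0 (Finset.mem_range.1 hN) hr
      rw [Finset.mem_union, Finset.mem_filter, Finset.mem_filter]
      rcases (hct i).1 hc with h1 | h1
      · exact Or.inl ⟨hN, hi0, h1⟩
      · exact Or.inr ⟨hN, hi0, h1⟩
    have h1 := le_trans (Finset.card_le_card hsub) (Finset.card_union_le _ _)
    have h2 := h.deg 0
    calc k * ((range N).filter fun i => 0 < i ∧ (spR par cut i).1 = i).card
        ≤ k * (Δ + ((range N).filter fun i => 0 < i ∧ spD par i % k = a).card) :=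
          Nat.mul_le_mul_left k (le_trans h1 (Nat.add_le_add_right h2 _))
      _ = k * ((range N).filter fun i => 0 < i ∧ spD par i % k = a).card + k * Δ := by ring
      _ ≤ N + k * Δ := Nat.add_le_add_right hcard _

end Pool.Agent.Lib.RobT
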