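import Pool.Agent.Lib.RobT.Se

/-!
# Ss: one step of the process (about 220 lines)

`n = |V|`, `e = 4/(ρ n) (3 C z + κ (ε₀ + Cm δ))`, `δ' = δ + e`, `lam = √n`.
For `φ : Fin κ → V` put
`Π(φ) = ∑_{s', u', b} exp (lam ((if b then 1 else -1) ndev φ s' u' - δ')) ≥ 0`.
`exp_moment` for all `(s', u', b)` (with `g = if b then 1 else -1`) times `exp (-lam δ')`:
`∑ Wt φ Π(φ) ≤ Pot P lam A δ * exp (16 C² K²/(ρ² n))`.
`∑_{φ not injective} Wt φ ≤ κ² 2C/a ≤ 2 C K²/(ρ n) ≤ 1/2` (`Wt_coll`, union over pairs), so the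
injective `φ` with `Wt φ > 0` have total weight `≥ 1 - 2 C K²/(ρ n) ≥ exp (-4 C K²/(ρ n))`, and
one of
them has `Π(φ) ≤ (∑ Wt φ Π(φ)) exp (4 C K²/(ρ n))` (otherwise
`∑ Wt φ Π(φ) ≥ ∑_{good} Wt φ Π(φ) > ...`).
For injective `φ` with values in `A` and `S` = its image: `|A \ S| = a - κ`,
`ms P (A \ S) s' u' = ms P A s' u' - ∑_x PP P s' u' (φ x)`, so `dev P (A \ S) s' u' = ndev φ s' u'`
(`n ms P A = a (1 + dev)`, `a - κ > 0`) and `Π(φ) = Pot P lam (A \ S) δ'`.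
The map of the theorem is `ext κ u φ` (`Wt_pos`).  `B = 16 C² K²/ρ² + 4 C K²/ρ`;
`n₀` such that for `n ≥ n₀`: `ρ n ≥ 2 K + 2`, `√n ≥ 4 C K/ρ`, `4 C K² ≤ ρ n`.
-/

namespace Pool.Agent.Lib.RobT

open Finset

section Aux

variable {V : Type} [Fintype V] [DecidableEq V]

/-- the potential of the random set -/
private noncomputable def PI (P : V → V → ℝ) (lam : ℝ) (A : Finset V) (δ : ℝ) (κ : ℕ)
    (φ : Fin κ → V) : ℝ :=
  ∑ s : Bool, ∑ u : V, ∑ b : Bool,
    Real.exp (lam * ((if b then 1 else -1) * ndev P A κ φ s u - δ))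

omit [DecidableEq V] in
private theorem PI_nn (P : V → V → ℝ) (lam : ℝ) (A : Finset V) (δ : ℝ) (κ : ℕ)
    (φ : Fin κ → V) : 0 ≤ PI P lam A δ κ φ := by
  unfold PI
  exact Finset.sum_nonneg fun _ _ => Finset.sum_nonneg fun _ _ => Finset.sum_nonneg fun _ _ =>
    (Real.exp_pos _).le

omit [DecidableEq V] in
private theorem swap3 {ι : Type} [Fintype ι] (w : ι → ℝ) (F : ι → Bool → V → Bool → ℝ) :
    ∑ φ, w φ * ∑ s : Bool, ∑ u : V, ∑ b : Bool, F φ s u b =
      ∑ s : Bool, ∑ u : V, ∑ b : Bool, ∑ φ, w φ * F φ s u b := by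
  simp only [Finset.mul_sum]
  rw [Finset.sum_comm]
  refine Finset.sum_congr rfl fun s _ => ?_
  rw [Finset.sum_comm]
  refine Finset.sum_congr rfl fun u _ => ?_
  rw [Finset.sum_comm]

private theorem card_pairs (κ : ℕ) (φ : Fin κ → V) :
    (if Function.Injective φ then (0 : ℝ) else 1) ≤
      ∑ x : Fin κ, ∑ y : Fin κ, if x ≠ y then (if φ x = φ y then (1 : ℝ) else 0) else 0 := by
  classical
  have hnn : ∀ x y : Fin κ, (0 : ℝ) ≤
      if x ≠ y then (if φ x = φ y then (1 : ℝ) else 0) else 0 := by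
    intro x y
    split_ifs <;> norm_num
  by_cases h : Function.Injective φ
  · rw [if_pos h]
    exact Finset.sum_nonneg fun x _ => Finset.sum_nonneg fun y _ => hnn x y
  · rw [if_neg h]
    unfold Function.Injective at h
    push Not at h
    obtain ⟨x, y, hxy, hne⟩ := h
    have h1 : (1 : ℝ) = if x ≠ y then (if φ x = φ y then (1 : ℝ) else 0) else 0 := by
      rw [if_pos hne, if_pos hxy]
    refine h1.le.trans ?_
    refine le_trans ?_ (Finset.single_le_sum (f := fun x : Fin κ => ∑ y : Fin κ,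
      if x ≠ y then (if φ x = φ y then (1 : ℝ) else 0) else 0)
      (fun x _ => Finset.sum_nonneg fun y _ => hnn x y) (Finset.mem_univ x))
    exact Finset.single_le_sum (f := fun y : Fin κ =>
      if x ≠ y then (if φ x = φ y then (1 : ℝ) else 0) else 0)
      (fun y _ => hnn x y) (Finset.mem_univ y)

private theorem bad_weight (κ : ℕ) (w : (Fin κ → V) → ℝ) (hw : ∀ φ, 0 ≤ w φ) (η : ℝ)
    (h : ∀ x y : Fin κ, x ≠ y → ∑ φ, w φ * (if φ x = φ y then 1 else 0) ≤ η) (hη : 0 ≤ η) :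
    ∑ φ, w φ * (if Function.Injective φ then 0 else 1) ≤ (κ : ℝ) ^ 2 * η := by
  classical
  calc ∑ φ, w φ * (if Function.Injective φ then 0 else 1)
      ≤ ∑ φ, w φ * ∑ x : Fin κ, ∑ y : Fin κ,
          (if x ≠ y then (if φ x = φ y then (1 : ℝ) else 0) else 0) :=
        Finset.sum_le_sum fun φ _ => mul_le_mul_of_nonneg_left (card_pairs κ φ) (hw φ)
    _ = ∑ x : Fin κ, ∑ y : Fin κ, ∑ φ, w φ *
          (if x ≠ y then (if φ x = φ y then (1 : ℝ) else 0) else 0) := by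
        simp only [Finset.mul_sum]
        rw [Finset.sum_comm]
        refine Finset.sum_congr rfl fun x _ => ?_
        rw [Finset.sum_comm]
    _ ≤ ∑ x : Fin κ, ∑ y : Fin κ, η := by
        refine Finset.sum_le_sum fun x _ => Finset.sum_le_sum fun y _ => ?_
        by_cases hxy : x ≠ y
        · simp only [if_pos hxy]
          exact h x y hxy
        · simp only [if_neg hxy, mul_zero, Finset.sum_const_zero]
          exact hη
    _ = (κ : ℝ) ^ 2 * η := by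
        rw [Finset.sum_const, Finset.sum_const, Finset.card_univ, Fintype.card_fin]
        simp only [nsmul_eq_mul]
        ring

/-- averaging -/
private theorem average {ι : Type} [Fintype ι] (w F : ι → ℝ) (good : ι → Prop)
    (hw : ∀ φ, 0 ≤ w φ) (hF : ∀ φ, 0 ≤ F φ) (hsum : ∑ φ, w φ = 1) (β : ℝ) (hβ0 : 0 ≤ β)
    (hβ : β ≤ 1 / 2) (bd : ι → ℝ) (hbd0 : ∀ φ, good φ → bd φ = 0)
    (hbd1 : ∀ φ, ¬ good φ → bd φ = 1) (hbad : ∑ φ, w φ * bd φ ≤ β) :
    ∃ φ, good φ ∧ 0 < w φ ∧ F φ ≤ (∑ φ, w φ * F φ) * Real.exp (2 * β) := by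
  classical
  set S : ℝ := ∑ φ, w φ * F φ with hS
  have hS0 : 0 ≤ S := Finset.sum_nonneg fun φ _ => mul_nonneg (hw φ) (hF φ)
  set G : Finset ι := Finset.univ.filter good with hG
  have hWG : 1 - β ≤ ∑ φ ∈ G, w φ := by
    have h1 : ∑ φ, w φ = ∑ φ ∈ G, w φ + ∑ φ, w φ * bd φ := by
      rw [hG, Finset.sum_filter, ← Finset.sum_add_distrib]
      refine Finset.sum_congr rfl fun φ _ => ?_
      split_ifs with hφ
      · rw [hbd0 φ hφ, mul_zero, add_zero]
      · rw [hbd1 φ hφ, mul_one, zero_add]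
    rw [hsum] at h1
    linarith
  have he : 1 ≤ Real.exp (2 * β) * (1 - β) := by
    have h1 := Real.add_one_le_exp (2 * β)
    nlinarith
  by_contra hcon
  push Not at hcon
  have hex : ∃ φ ∈ G, 0 < w φ := by
    by_contra h
    push Not at h
    have : ∑ φ ∈ G, w φ ≤ 0 := Finset.sum_nonpos h
    linarith
  have h1 : ∑ φ ∈ G, w φ * (S * Real.exp (2 * β)) < ∑ φ ∈ G, w φ * F φ := by
    obtain ⟨φ0, hφ0, hw0⟩ := hex
    refine Finset.sum_lt_sum ?_ ⟨φ0, hφ0, ?_⟩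
    · intro φ hφ
      rcases (hw φ).eq_or_lt with h0 | h0
      · rw [← h0, zero_mul, zero_mul]
      · exact mul_le_mul_of_nonneg_left (hcon φ (Finset.mem_filter.1 hφ).2 h0).le (hw φ)
    · exact mul_lt_mul_of_pos_left (hcon φ0 (Finset.mem_filter.1 hφ0).2 hw0) hw0
  have h2 : ∑ φ ∈ G, w φ * F φ ≤ S :=
    Finset.sum_le_univ_sum_of_nonneg fun φ => mul_nonneg (hw φ) (hF φ)
  rw [← Finset.sum_mul] at h1
  have h3 : S ≤ (∑ φ ∈ G, w φ) * (S * Real.exp (2 * β)) := by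
    have h4 : (1 - β) * (S * Real.exp (2 * β)) ≤ (∑ φ ∈ G, w φ) * (S * Real.exp (2 * β)) :=
      mul_le_mul_of_nonneg_right hWG (mul_nonneg hS0 (Real.exp_pos _).le)
    have h5 : S * 1 ≤ S * (Real.exp (2 * β) * (1 - β)) := mul_le_mul_of_nonneg_left he hS0
    nlinarith
  linarith

private theorem dev_sdiff (P : V → V → ℝ) (A : Finset V) (κ : ℕ) (u : V) (φ : Fin κ → V)
    (hφ : ∀ x, φ x ∈ A) (hinj : Function.Injective φ) (hκ : κ < A.card) (s' : Bool) (u' : V) :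
    dev P (A \ (range κ).image (ext κ u φ)) s' u' = ndev P A κ φ s' u' := by
  have hext : ∀ i : Fin κ, ext κ u φ (i : ℕ) = φ i := by
    intro i
    unfold ext
    rw [dif_pos i.2]
  have hIO : Set.InjOn (ext κ u φ) ((range κ : Finset ℕ) : Set ℕ) := by
    intro x hx y hy hxy
    have hx' : x < κ := by simpa using hx
    have hy' : y < κ := by simpa using hy
    have h1 := hext ⟨x, hx'⟩
    have h2 := hext ⟨y, hy'⟩
    have h3 : φ ⟨x, hx'⟩ = φ ⟨y, hy'⟩ := by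
      rw [← h1, ← h2]
      exact hxy
    have h4 := hinj h3
    exact Fin.mk.inj_iff.1 h4
  have hsub : (range κ).image (ext κ u φ) ⊆ A := by
    intro v hv
    obtain ⟨x, hx, rfl⟩ := Finset.mem_image.1 hv
    have hx' : x < κ := Finset.mem_range.1 hx
    have h1 := hext ⟨x, hx'⟩
    simp only at h1
    rw [h1]
    exact hφ _
  have hcard : ((range κ).image (ext κ u φ)).card = κ := by
    rw [Finset.card_image_of_injOn hIO, Finset.card_range]
  have hc2 : (((A \ (range κ).image (ext κ u φ)).card : ℕ) : ℝ) = (A.card : ℝ) - κ := by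
    rw [Finset.card_sdiff_of_subset hsub, hcard, Nat.cast_sub hκ.le]
  have hms : ms P (A \ (range κ).image (ext κ u φ)) s' u' =
      ms P A s' u' - ∑ x, PP P s' u' (φ x) := by
    unfold ms
    have h1 := Finset.sum_sdiff (f := fun w => PP P s' u' w) hsub
    rw [Finset.sum_image hIO, Finset.sum_range] at h1
    have h2 : ∑ i : Fin κ, PP P s' u' (ext κ u φ (i : ℕ)) = ∑ x, PP P s' u' (φ x) :=
      Finset.sum_congr rfl fun i _ => by rw [hext]
    rw [h2] at h1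
    linarith
  unfold ndev
  unfold dev
  rw [hms, hc2]
  have ha : (A.card : ℝ) ≠ 0 := by
    have : 0 < A.card := by omega
    positivity
  have hak : (A.card : ℝ) - κ ≠ 0 := by
    have : (κ : ℝ) < A.card := by exact_mod_cast hκ
    linarith
  field_simp
  ring

end Aux

theorem step (c C ρ : ℝ) (hC : 1 ≤ C) (hρ : 0 < ρ) (K l : ℕ) (ε₀ Cm : ℝ) (hε₀ : 0 ≤ ε₀)
    (hCm : 0 ≤ Cm) :
    ∃ (B : ℝ) (n₀ : ℕ), 0 ≤ B ∧ ∀ (V : Type) [Fintype V] [DecidableEq V] (R : V → V → Prop)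
      (P : V → V → ℝ), Kern R c C P → n₀ ≤ Fintype.card V →
      ∀ (A : Finset V) (δ : ℝ), ρ * Fintype.card V ≤ A.card → 0 ≤ δ → δ ≤ 1 / 4 → QR P A δ →
      (∀ w : List Bool, l ≤ w.length → ∀ u : V, ∀ v ∈ A,
        |wk P A w (pt u) v - 1 / A.card| ≤ (ε₀ + Cm * δ) / A.card) →
      ∀ (κ : ℕ) (par : ℕ → ℕ) (s : ℕ → Bool) (ld : ℕ → ℕ), 0 < κ → κ ≤ K →
      (∀ x, 0 < x → x < κ → par x < x) → ld 0 = 1 →
      (∀ x, 0 < x → x < κ → ld x = ld (par x) + 1) → ∀ u : V,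
      ∃ φ : ℕ → V, (∀ x < κ, φ x ∈ A) ∧ Set.InjOn φ (Set.Iio κ) ∧ Arc R (s 0) u (φ 0) ∧
        (∀ x, 0 < x → x < κ → Arc R (s x) (φ (par x)) (φ x)) ∧
        Pot P (√(Fintype.card V)) (A \ (range κ).image φ)
          (δ + 4 / (ρ * Fintype.card V) * (3 * C * ((range κ).filter fun x => ld x < l).card +
            κ * (ε₀ + Cm * δ))) ≤
        Pot P (√(Fintype.card V)) A δ * Real.exp (B / Fintype.card V) := by
  refine ⟨16 * C ^ 2 * K ^ 2 / ρ ^ 2 + 4 * C * K ^ 2 / ρ,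
    ⌈(2 * (K : ℝ) + 2) / ρ⌉₊ + ⌈(4 * C * K / ρ) ^ 2⌉₊ + ⌈4 * C * K ^ 2 / ρ⌉₊ + 1,
    by positivity, ?_⟩
  intro V _ _ R P hP hn A δ hA hδ0 hδ hq hmix κ par s ld hκ hκK hpar h0 hld u
  have hn' : (((⌈(2 * (K : ℝ) + 2) / ρ⌉₊ + ⌈(4 * C * K / ρ) ^ 2⌉₊ +
      ⌈4 * C * K ^ 2 / ρ⌉₊ + 1 : ℕ) : ℕ) : ℝ) ≤ (Fintype.card V : ℝ) := by exact_mod_cast hn
  push_cast at hn'
  have c1 := Nat.le_ceil ((2 * (K : ℝ) + 2) / ρ)
  have c2 := Nat.le_ceil ((4 * C * K / ρ) ^ 2)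
  have c3 := Nat.le_ceil (4 * C * K ^ 2 / ρ)
  have p1 : (0 : ℝ) ≤ (⌈(2 * (K : ℝ) + 2) / ρ⌉₊ : ℝ) := Nat.cast_nonneg _
  have p2 : (0 : ℝ) ≤ (⌈(4 * C * K / ρ) ^ 2⌉₊ : ℝ) := Nat.cast_nonneg _
  have p3 : (0 : ℝ) ≤ (⌈4 * C * K ^ 2 / ρ⌉₊ : ℝ) := Nat.cast_nonneg _
  set n : ℝ := (Fintype.card V : ℝ) with hndef
  have hnpos : 0 < n := by linarith
  have hn1 : 2 * (K : ℝ) + 2 ≤ ρ * n := by
    have : (2 * (K : ℝ) + 2) / ρ ≤ n := by linarith
    rw [div_le_iff₀ hρ] at this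
    linarith
  have hn2 : 4 * C * K / ρ ≤ √n := by
    refine Real.le_sqrt_of_sq_le ?_
    linarith
  have hn3 : 4 * C * K ^ 2 ≤ ρ * n := by
    have : 4 * C * K ^ 2 / ρ ≤ n := by linarith
    rw [div_le_iff₀ hρ] at this
    linarith
  have hK1 : (κ : ℝ) ≤ K := by exact_mod_cast hκK
  have hK0 : (0 : ℝ) ≤ K := Nat.cast_nonneg _
  have hapos : (0 : ℝ) < A.card := lt_of_lt_of_le (mul_pos hρ hnpos) hA
  have hAne : A.Nonempty := by
    rw [← Finset.card_pos]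
    exact_mod_cast hapos
  have hκA : κ < A.card := by
    have : (κ : ℝ) < A.card := by linarith
    exact_mod_cast this
  have hδ2 : δ ≤ 1 / 2 := by linarith
  set e : ℝ := 4 / (ρ * n) * (3 * C * ((range κ).filter fun x => ld x < l).card +
      κ * (ε₀ + Cm * δ)) with he
  -- the sum of the potentials
  have hmean : ∑ φ : Fin κ → V, Wt P A κ par s u φ * PI P (√n) A (δ + e) κ φ ≤
      Pot P (√n) A δ * Real.exp (16 * C ^ 2 * K ^ 2 / (ρ ^ 2 * n)) := by
    unfold PI Pot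
    rw [swap3, Finset.sum_mul]
    refine Finset.sum_le_sum fun s' _ => ?_
    rw [Finset.sum_mul]
    refine Finset.sum_le_sum fun u' _ => ?_
    rw [Finset.sum_mul]
    refine Finset.sum_le_sum fun b _ => ?_
    have hg : (if b then (1 : ℝ) else -1) = 1 ∨ (if b then (1 : ℝ) else -1) = -1 := by
      cases b
      · right
        rfl
      · left
        rfl
    have h1 := exp_moment hP hC ρ hρ K l ε₀ Cm hε₀ hCm A δ hA hδ0 hδ hq hn1 hn2 hmix κ par s ld hκ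
      hκK hpar h0 hld u s' u' (if b then (1 : ℝ) else -1) hg
    rw [← hndef, ← he] at h1
    have h2 : ∀ φ : Fin κ → V, Wt P A κ par s u φ *
        Real.exp (√n * ((if b then (1 : ℝ) else -1) * ndev P A κ φ s' u' - (δ + e))) =
        (Wt P A κ par s u φ *
        Real.exp (√n * ((if b then (1 : ℝ) else -1) * ndev P A κ φ s' u'))) *
          Real.exp (-(√n * (δ + e))) := by
      intro φ
      rw [mul_assoc, ← Real.exp_add]
      congr 2
      ring
    rw [Finset.sum_congr rfl fun φ _ => h2 φ, ← Finset.sum_mul]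
    refine le_trans (mul_le_mul_of_nonneg_right h1 (Real.exp_pos _).le) ?_
    rw [← Real.exp_add, ← Real.exp_add]
    apply le_of_eq
    congr 1
    ring
  -- collisions
  have hβ0 : 0 ≤ 2 * C * K ^ 2 / (ρ * n) := by positivity
  have hβ : 2 * C * K ^ 2 / (ρ * n) ≤ 1 / 2 := by
    rw [div_le_iff₀ (mul_pos hρ hnpos)]
    linarith
  have hbad : ∑ φ : Fin κ → V, Wt P A κ par s u φ *
      (if Function.Injective φ then (0 : ℝ) else 1) ≤
      2 * C * K ^ 2 / (ρ * n) := by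
    have h1 := bad_weight κ (fun φ => Wt P A κ par s u φ) (Wt_nn hP A κ par s u)
      (2 * C / A.card) (fun x y hxy => Wt_coll hP (by linarith) hAne hδ2 hq κ par s hpar u x y hxy)
      (by positivity)
    have h2 : (κ : ℝ) ^ 2 * (2 * C / A.card) ≤ 2 * C * K ^ 2 / (ρ * n) := by
      have h3 : 2 * C / (A.card : ℝ) ≤ 2 * C / (ρ * n) :=
        div_le_div_of_nonneg_left (by positivity) (mul_pos hρ hnpos) hA
      have h4 : (κ : ℝ) ^ 2 ≤ K ^ 2 := pow_le_pow_left₀ (Nat.cast_nonneg _) hK1 2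
      calc (κ : ℝ) ^ 2 * (2 * C / A.card) ≤ K ^ 2 * (2 * C / (ρ * n)) :=
            mul_le_mul h4 h3 (by positivity) (by positivity)
        _ = 2 * C * K ^ 2 / (ρ * n) := by ring
    exact h1.trans h2
  obtain ⟨φ, hφi, hφw, hφF⟩ := average (fun φ : Fin κ → V => Wt P A κ par s u φ)
    (fun φ => PI P (√n) A (δ + e) κ φ) Function.Injective (Wt_nn hP A κ par s u)
    (PI_nn P (√n) A (δ + e) κ) (Wt_sum hAne hδ2 hq κ par s hpar u) _ hβ0 hβ
    (fun φ => if Function.Injective φ then (0 : ℝ) else 1) (fun φ hφ => if_pos hφ)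
    (fun φ hφ => if_neg hφ) hbad
  obtain ⟨w1, w2, w3⟩ := Wt_pos hP A κ par s hpar u φ hφw
  have hext : ∀ i : Fin κ, ext κ u φ (i : ℕ) = φ i := by
    intro i
    unfold ext
    rw [dif_pos i.2]
  refine ⟨ext κ u φ, ?_, ?_, w2 hκ, w3, ?_⟩
  · intro x hx
    have h1 := hext ⟨x, hx⟩
    simp only at h1
    rw [h1]
    exact w1 _
  · intro x hx y hy hxy
    have h1 := hext ⟨x, hx⟩
    have h2 := hext ⟨y, hy⟩
    have h3 : φ ⟨x, hx⟩ = φ ⟨y, hy⟩ := by
      rw [← h1, ← h2]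
      exact hxy
    exact Fin.mk.inj_iff.1 (hφi h3)
  · have h1 : Pot P (√n) (A \ (range κ).image (ext κ u φ)) (δ + e) =
        PI P (√n) A (δ + e) κ φ := by
      unfold Pot PI
      refine Finset.sum_congr rfl fun s' _ => Finset.sum_congr rfl fun u' _ =>
        Finset.sum_congr rfl fun b _ => ?_
      rw [dev_sdiff P A κ u φ w1 hφi hκA s' u']
    rw [h1]
    refine hφF.trans ?_
    refine le_trans (mul_le_mul_of_nonneg_right hmean (Real.exp_pos _).le) ?_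
    rw [mul_assoc, ← Real.exp_add]
    apply le_of_eq
    congr 2
    field_simp
    ring

end Pool.Agent.Lib.RobT
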