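import Pool.Agent.Lib.RobT.Ker
import Pool.Agent.Lib.RobT.Mm
import Pool.Agent.Lib.RobT.Ss
import Pool.Agent.Lib.RobT.Sp
import Pool.Agent.Lib.RobT.Sl

/-!
# Sn: embedding a tree with linear slack (about 350 lines)

We may assume `ζ ≤ 1` (`Rob` is monotone).  CONSTANTS: `c = ζ/32`, `C = 512/ζ`, `ν = nuC c C`,
`Cm` from `mixing`, `E₀ = exp (4 Cm/ρ)`, `ε₀ = ρ ν/(12 E₀)`, `l` from `mixing`, `k ≥ 1` with
`k ≥ 72 C E₀ (Δ+1)^l/(ρ ν)`, `K = (Δ+1)^k`, `B, n₁` from `step`; `n₀` so large that for `n ≥ n₀`: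
`n ≥ n₁`, `n ≥ 128/ζ`, `ρ n ≥ 16 C`, `E₀ n^(-1/4) ≤ ν/3`, `k Δ ≤ n` and
`4 n exp (2 C/√n - n^(1/4) + B) < 1`.  `P` from `exists_kern`.
Put `D(x, y) = exp (4 Cm x/(ρ n)) (n^(-1/4) + 4/(ρ n) (3 C y + ε₀ x))` for `x, y : ℕ`.
(a) `D(x, y) + 4/(ρ n) (3 C z + κ (ε₀ + Cm D(x, y))) ≤ D(x + κ, y + z)`: the right side is at least
`(1 + 4 Cm κ/(ρ n)) D(x, y) + 4/(ρ n) (3 C z + ε₀ κ)` (`exp t ≥ 1 + t`, `exp ≥ 1`).
(b) `D(x, y) ≤ ν` if `x ≤ n`, `k y ≤ 2 n (Δ+1)^l`: three terms, each at most `ν/3`.
PROCESS.  `N ≥ 1` (otherwise take a constant map).  `rt, ld` from `pieces`.  For `1 ≤ j ≤ N` put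
`B_j = {i < N | i = 0 ∨ rt i < j}`, `z_j = #{0 < i < N | rt i < j, ld i < l}`,
`r_j = #{0 < i < N | rt i = i, i < j}`.  CLAIM(j): there is `φ : ℕ → V` with `φ 0 = u₀`, injective
on
`B_j`, `Arc R (s i) (φ (par i)) (φ i)` for `0 < i ∈ B_j` (note `par i ∈ B_j`) and
`Pot P √n (univ \ φ(B_j)) (D(|B_j| - 1, z_j)) ≤ 4 n exp (2 C/√n - n^(1/4)) exp (B r_j/n)`.
By the choice of `n₀` the right side is `< 1` (`r_j ≤ n`), so every term of `Pot` is `< 1`, i.e.
`QR P (univ \ φ(B_j)) δ` with `δ = D(|B_j| - 1, z_j)`.  `z_j ≤ r_j (Δ+1)^l` and `k r_j ≤ N + k Δ ≤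
2 n`,
so `δ ≤ ν ≤ 1/4` by (b).
`j = 1`: `B_1 = {0}` (`rt i ≥ 1`), `A = univ \ {u₀}`: `n ms P A s u/(n-1) - 1
= (1 - n PP s u u₀)/(n-1)`, absolute value at most `C/(n-1) ≤ 2 C/n`; `4 n` terms, each at most
`exp (√n (2 C/n - n^(-1/4)))` (`D(0, 0) = n^(-1/4)`).
`j → j + 1` (`j < N`): if `rt j ≠ j` then no `i` has `rt i = j` (`rt (rt i) = rt i`) and `B_{j+1}
= B_j`.
If `rt j = j`: `par j ∈ B_j` (`par j = 0` or `rt (par j) ≤ par j < j`); use `local_number` and
`step` for
`A = univ \ φ(B_j)` (`|A| = n - |B_j| ≥ n - N ≥ ρ n`), the tree `p`, signs `s ∘ e`, `ld ∘ e`,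
`u = φ (par j)`; `mixing` gives the hypothesis on words.  New map: `φ i` on `B_j`, `φ_loc (e' i)`
for
`rt i = j`.  `B_{j+1} = B_j ∪ S`, `|S| = κ`, `z_{j+1} = z_j + #{x < κ | ld (e x) < l}`,
`r_{j+1} = r_j + 1`; (a) and the monotonicity of `Pot` in `δ`.
`j = N`: `B_N = [0, N)` as `rt i ≤ i`.
-/

namespace Pool.Agent.Lib.RobT

open Finset

/-- The slack function. -/
private noncomputable def Dd (ρ C Cm ε₀ n x y : ℝ) : ℝ :=
  Real.exp (4 * Cm * x / (ρ * n)) * (1 / √(√n) + 4 / (ρ * n) * (3 * C * y + ε₀ * x))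

private theorem Dd_nn {ρ C Cm ε₀ n x y : ℝ} (hρ : 0 < ρ) (hC : 0 ≤ C) (hε : 0 ≤ ε₀)
    (hn : 0 < n) (hx : 0 ≤ x) (hy : 0 ≤ y) : 0 ≤ Dd ρ C Cm ε₀ n x y := by
  unfold Dd
  positivity

private theorem Dd_step {ρ C Cm ε₀ n : ℝ} (hρ : 0 < ρ) (hC : 0 ≤ C) (hCm : 0 ≤ Cm)
    (hε : 0 ≤ ε₀) (hn : 0 < n) {x y κ z : ℝ} (hx : 0 ≤ x) (hy : 0 ≤ y) (hκ : 0 ≤ κ)
    (hz : 0 ≤ z) :
    Dd ρ C Cm ε₀ n x y + 4 / (ρ * n) * (3 * C * z + κ * (ε₀ + Cm * Dd ρ C Cm ε₀ n x y)) ≤
      Dd ρ C Cm ε₀ n (x + κ) (y + z) := by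
  unfold Dd
  have h1 : Real.exp (4 * Cm * (x + κ) / (ρ * n)) =
      Real.exp (4 * Cm * x / (ρ * n)) * Real.exp (4 * Cm * κ / (ρ * n)) := by
    rw [← Real.exp_add]
    congr 1
    ring
  rw [h1]
  set E := Real.exp (4 * Cm * x / (ρ * n)) with hE
  set F := Real.exp (4 * Cm * κ / (ρ * n)) with hF
  have hE1 : 1 ≤ E := Real.one_le_exp (by positivity)
  have hF1 : 1 + 4 * Cm * κ / (ρ * n) ≤ F := by
    have := Real.add_one_le_exp (4 * Cm * κ / (ρ * n))
    linarith
  have hq : 0 ≤ 4 * Cm * κ / (ρ * n) := by positivity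
  have hG : 0 ≤ 1 / √(√n) + 4 / (ρ * n) * (3 * C * y + ε₀ * x) := by positivity
  have hH : 0 ≤ 4 / (ρ * n) * (3 * C * z + ε₀ * κ) := by positivity
  set G := 1 / √(√n) + 4 / (ρ * n) * (3 * C * y + ε₀ * x) with hGd
  set H := 4 / (ρ * n) * (3 * C * z + ε₀ * κ) with hHd
  have e1 : E * G + 4 / (ρ * n) * (3 * C * z + κ * (ε₀ + Cm * (E * G))) =
      (1 + 4 * Cm * κ / (ρ * n)) * (E * G) + H := by
    rw [hHd]
    ring
  have e2 : E * F * (1 / √(√n) + 4 / (ρ * n) * (3 * C * (y + z) + ε₀ * (x + κ))) =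
      F * (E * G) + E * F * H := by
    rw [hHd, hGd]
    ring
  rw [e1, e2]
  have h2 : (1 + 4 * Cm * κ / (ρ * n)) * (E * G) ≤ F * (E * G) := by
    apply mul_le_mul_of_nonneg_right hF1
    positivity
  have h3 : 1 * H ≤ E * F * H := by
    apply mul_le_mul_of_nonneg_right _ hH
    nlinarith
  linarith

private theorem Dd_le {ρ C Cm ε₀ n ν L k : ℝ} (hρ : 0 < ρ) (hC : 0 < C) (hCm : 0 ≤ Cm)
    (hε : 0 ≤ ε₀) (hn : 0 < n) (hk : 0 < k) (hν : 0 < ν)
    (hε2 : ε₀ ≤ ρ * ν / (12 * Real.exp (4 * Cm / ρ)))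
    (hk2 : 72 * C * Real.exp (4 * Cm / ρ) * L ≤ ρ * ν * k)
    (hn2 : Real.exp (4 * Cm / ρ) * (1 / √(√n)) ≤ ν / 3)
    {x y : ℝ} (hx : 0 ≤ x) (hy : 0 ≤ y) (hxn : x ≤ n) (hyn : k * y ≤ 2 * n * L) :
    Dd ρ C Cm ε₀ n x y ≤ ν := by
  unfold Dd
  set E₀ := Real.exp (4 * Cm / ρ) with hE₀
  have hE0 : 0 < E₀ := Real.exp_pos _
  have h1 : Real.exp (4 * Cm * x / (ρ * n)) ≤ E₀ := by
    rw [hE₀]
    apply Real.exp_le_exp.2
    rw [div_le_div_iff₀ (by positivity) hρ]
    have : 4 * Cm * x * ρ ≤ 4 * Cm * n * ρ := by gcongr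
    linarith
  have hG : 0 ≤ 1 / √(√n) + 4 / (ρ * n) * (3 * C * y + ε₀ * x) := by positivity
  refine (mul_le_mul_of_nonneg_right h1 hG).trans ?_
  have h2 : E₀ * (4 / (ρ * n) * (3 * C * y)) ≤ ν / 3 := by
    have h3 : 72 * C * E₀ * L * n ≤ ρ * ν * k * n := by
      apply mul_le_mul_of_nonneg_right hk2 hn.le
    have h4 : 36 * C * E₀ * (k * y) ≤ 36 * C * E₀ * (2 * n * L) := by
      apply mul_le_mul_of_nonneg_left hyn
      positivity
    have h5 : k * (36 * C * E₀ * y) ≤ k * (ρ * ν * n) := by linarith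
    have h6 := le_of_mul_le_mul_left h5 hk
    have e1 : E₀ * (4 / (ρ * n) * (3 * C * y)) = (36 * C * E₀ * y) / (3 * (ρ * n)) := by
      field_simp
      ring
    rw [e1, div_le_div_iff₀ (by positivity) (by norm_num)]
    nlinarith
  have h3 : E₀ * (4 / (ρ * n) * (ε₀ * x)) ≤ ν / 3 := by
    have h4 : ε₀ * (12 * E₀) ≤ ρ * ν := by
      rwa [le_div_iff₀ (by positivity)] at hε2
    have h5 : ε₀ * (12 * E₀) * x ≤ ρ * ν * n := by
      calc ε₀ * (12 * E₀) * x ≤ ρ * ν * x := by
            apply mul_le_mul_of_nonneg_right h4 hx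
        _ ≤ ρ * ν * n := by
            apply mul_le_mul_of_nonneg_left hxn
            positivity
    have e1 : E₀ * (4 / (ρ * n) * (ε₀ * x)) = (ε₀ * (12 * E₀) * x) / (3 * (ρ * n)) := by
      field_simp
      ring
    rw [e1, div_le_div_iff₀ (by positivity) (by norm_num)]
    nlinarith
  have e : E₀ * (1 / √(√n) + 4 / (ρ * n) * (3 * C * y + ε₀ * x)) =
      E₀ * (1 / √(√n)) + E₀ * (4 / (ρ * n) * (3 * C * y)) + E₀ * (4 / (ρ * n) * (ε₀ * x)) := by
    ring
  rw [e]
  linarith

private theorem pot_mono {V : Type} [Fintype V] (P : V → V → ℝ) {lam : ℝ} (hl : 0 ≤ lam)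
    (A : Finset V) {δ δ' : ℝ} (h : δ ≤ δ') : Pot P lam A δ' ≤ Pot P lam A δ := by
  unfold Pot
  refine sum_le_sum fun s _ => sum_le_sum fun u _ => sum_le_sum fun b _ =>
    Real.exp_le_exp.2 ?_
  apply mul_le_mul_of_nonneg_left _ hl
  linarith

private theorem qr_of_pot {V : Type} [Fintype V] (P : V → V → ℝ) {lam : ℝ} (hl : 0 < lam)
    (A : Finset V) {δ : ℝ} (h : Pot P lam A δ < 1) : QR P A δ := by
  intro s u
  have key : ∀ b : Bool,
      Real.exp (lam * ((if b then 1 else -1) * dev P A s u - δ)) < 1 := by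
    intro b
    refine lt_of_le_of_lt ?_ h
    unfold Pot
    calc Real.exp (lam * ((if b then 1 else -1) * dev P A s u - δ))
        ≤ ∑ b : Bool, Real.exp (lam * ((if b then 1 else -1) * dev P A s u - δ)) :=
          single_le_sum (f := fun b : Bool =>
            Real.exp (lam * ((if b then 1 else -1) * dev P A s u - δ)))
            (fun i _ => (Real.exp_pos _).le) (mem_univ b)
      _ ≤ ∑ u : V, ∑ b : Bool, Real.exp (lam * ((if b then 1 else -1) * dev P A s u - δ)) :=
          single_le_sum (f := fun u : V => ∑ b : Bool,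
            Real.exp (lam * ((if b then 1 else -1) * dev P A s u - δ)))
            (fun i _ => sum_nonneg fun j _ => (Real.exp_pos _).le) (mem_univ u)
      _ ≤ _ :=
          single_le_sum (f := fun s : Bool => ∑ u : V, ∑ b : Bool,
            Real.exp (lam * ((if b then 1 else -1) * dev P A s u - δ)))
            (fun i _ => sum_nonneg fun k _ => sum_nonneg fun j _ => (Real.exp_pos _).le)
            (mem_univ s)
  have k0 : ∀ t : ℝ, Real.exp (lam * t) < 1 → t < 0 := by
    intro t ht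
    by_contra hcon
    push Not at hcon
    exact absurd (Real.one_le_exp (mul_nonneg hl.le hcon)) (not_le.2 ht)
  have k1 := k0 _ (key true)
  have k2 := k0 _ (key false)
  simp only [if_true, one_mul] at k1
  simp only [Bool.false_eq_true, if_false, neg_mul, one_mul] at k2
  rw [abs_le]
  constructor <;> linarith

private theorem pot_init {V : Type} [Fintype V] [DecidableEq V] {R : V → V → Prop} {c C : ℝ}
    {P : V → V → ℝ} (hP : Kern R c C P) (hC : 1 ≤ C) (h2 : 2 ≤ Fintype.card V) (u₀ : V)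
    (b : ℝ) :
    Pot P (√(Fintype.card V)) (univ \ {u₀}) b ≤
      4 * Fintype.card V * Real.exp (√(Fintype.card V) * (2 * C / Fintype.card V - b)) := by
  have hn2 : (2 : ℝ) ≤ Fintype.card V := by exact_mod_cast h2
  have hn0 : (0 : ℝ) < Fintype.card V := by linarith
  have hcard : ((univ \ {u₀} : Finset V).card : ℝ) = Fintype.card V - 1 := by
    rw [card_sdiff_of_subset (subset_univ _), card_singleton, card_univ,
      Nat.cast_sub (by omega)]
    simp
  have hdev : ∀ s u, |dev P (univ \ {u₀}) s u| ≤ 2 * C / Fintype.card V := by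
    intro s u
    have hms : ms P (univ \ {u₀}) s u = 1 - PP P s u u₀ := by
      unfold ms
      rw [sum_sdiff_eq_sub (subset_univ _), sum_singleton]
      congr 1
      cases s
      · simpa [PP] using hP.col u
      · simpa [PP] using hP.row u
    unfold dev
    rw [hcard, hms]
    have hPP0 : 0 ≤ PP P s u u₀ := by
      cases s <;> simp [PP, hP.nn]
    have hPP1 : Fintype.card V * PP P s u u₀ ≤ C := by
      have : PP P s u u₀ ≤ C / Fintype.card V := by
        cases s <;> simp [PP, hP.up]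
      rw [le_div_iff₀ hn0] at this
      linarith
    have e : (Fintype.card V : ℝ) * (1 - PP P s u u₀) / ((Fintype.card V : ℝ) - 1) - 1 =
        (1 - Fintype.card V * PP P s u u₀) / ((Fintype.card V : ℝ) - 1) := by
      have : (Fintype.card V : ℝ) - 1 ≠ 0 := by linarith
      field_simp
      ring
    rw [e, abs_div, abs_of_pos (show (0 : ℝ) < (Fintype.card V : ℝ) - 1 by linarith),
      div_le_div_iff₀ (by linarith) hn0]
    have h3 : |1 - (Fintype.card V : ℝ) * PP P s u u₀| ≤ C := by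
      rw [abs_le]
      have := mul_nonneg hn0.le hPP0
      constructor <;> linarith
    calc |1 - (Fintype.card V : ℝ) * PP P s u u₀| * (Fintype.card V : ℝ)
        ≤ C * Fintype.card V := mul_le_mul_of_nonneg_right h3 hn0.le
      _ ≤ 2 * C * ((Fintype.card V : ℝ) - 1) := by nlinarith
  unfold Pot
  have hterm : ∀ (s : Bool) (u : V) (g : Bool),
      Real.exp (√(Fintype.card V) * ((if g then 1 else -1) * dev P (univ \ {u₀}) s u - b)) ≤
      Real.exp (√(Fintype.card V) * (2 * C / Fintype.card V - b)) := by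
    intro s u g
    apply Real.exp_le_exp.2
    apply mul_le_mul_of_nonneg_left _ (Real.sqrt_nonneg _)
    have := abs_le.1 (hdev s u)
    cases g
    · simp only [Bool.false_eq_true, if_false, neg_mul, one_mul]
      linarith
    · simp only [if_true, one_mul]
      linarith
  calc _ ≤ ∑ s : Bool, ∑ u : V, ∑ g : Bool,
        Real.exp (√(Fintype.card V) * (2 * C / Fintype.card V - b)) :=
        sum_le_sum fun s _ => sum_le_sum fun u _ => sum_le_sum fun g _ => hterm s u g
    _ = _ := by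
        simp only [sum_const, card_univ, Fintype.card_bool, nsmul_eq_mul]
        push_cast
        ring

private theorem ev_exp (C B : ℝ) (hC : 0 ≤ C) : ∀ᶠ n : ℕ in Filter.atTop,
    4 * (n : ℝ) * Real.exp (√(n : ℝ) * (2 * C / n - 1 / √(√(n : ℝ)))) * Real.exp B < 1 := by
  have h1 : Filter.Tendsto (fun t : ℝ => 4 * Real.exp (2 * C + B) * (t ^ 4 * Real.exp (-t)))
      Filter.atTop (nhds (4 * Real.exp (2 * C + B) * 0)) :=
    (Real.tendsto_pow_mul_exp_neg_atTop_nhds_zero 4).const_mul _
  rw [mul_zero] at h1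
  have h2 : Filter.Tendsto (fun n : ℕ => √(√(n : ℝ))) Filter.atTop Filter.atTop :=
    Real.tendsto_sqrt_atTop.comp (Real.tendsto_sqrt_atTop.comp tendsto_natCast_atTop_atTop)
  have h3 := (h1.comp h2).eventually (gt_mem_nhds (show (0 : ℝ) < 1 by norm_num))
  filter_upwards [h3, Filter.eventually_ge_atTop 1] with n hn hn1
  refine lt_of_le_of_lt ?_ hn
  simp only [Function.comp]
  have hn0 : (1 : ℝ) ≤ n := by exact_mod_cast hn1
  set t := √(√(n : ℝ)) with ht
  have hs : √(n : ℝ) = t ^ 2 := (Real.sq_sqrt (Real.sqrt_nonneg _)).symm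
  have hnn : (n : ℝ) = t ^ 4 := by
    have : (n : ℝ) = (√(n : ℝ)) ^ 2 := (Real.sq_sqrt (by linarith)).symm
    rw [hs] at this
    rw [this]
    ring
  have ht1 : 1 ≤ t := by
    rw [ht]
    exact Real.one_le_sqrt.2 (Real.one_le_sqrt.2 hn0)
  rw [hs, mul_assoc (4 * (n : ℝ)), ← Real.exp_add]
  have e1 : t ^ 2 * (2 * C / n - 1 / t) + B ≤ (2 * C + B) + (-t) := by
    have h4 : t ^ 2 * (2 * C / n) ≤ 2 * C := by
      rw [hnn]
      have : t ^ 2 * (2 * C / t ^ 4) = 2 * C / t ^ 2 := by
        field_simp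
      rw [this]
      apply div_le_self (by positivity)
      nlinarith
    have h5 : t ^ 2 * (1 / t) = t := by
      field_simp
    nlinarith
  calc 4 * (n : ℝ) * Real.exp (t ^ 2 * (2 * C / n - 1 / t) + B)
      ≤ 4 * (n : ℝ) * Real.exp ((2 * C + B) + (-t)) := by
        apply mul_le_mul_of_nonneg_left (Real.exp_le_exp.2 e1)
        positivity
    _ = 4 * Real.exp (2 * C + B) * (t ^ 4 * Real.exp (-t)) := by
        rw [Real.exp_add, hnn]
        ring

private def Bs (N : ℕ) (rt : ℕ → ℕ) (j : ℕ) : Finset ℕ :=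
  (range N).filter fun i => i = 0 ∨ rt i < j

private def zs (N : ℕ) (rt ld : ℕ → ℕ) (l j : ℕ) : ℕ :=
  ((range N).filter fun i => 0 < i ∧ rt i < j ∧ ld i < l).card

private def rs (N : ℕ) (rt : ℕ → ℕ) (j : ℕ) : ℕ :=
  ((range N).filter fun i => 0 < i ∧ rt i = i ∧ i < j).card

private theorem zs_le {N : ℕ} {rt ld : ℕ → ℕ}
    (h1 : ∀ i, 0 < i → i < N → 0 < rt i ∧ rt i ≤ i ∧ rt (rt i) = rt i) {l L : ℕ}
    (h5 : ∀ j, ((range N).filter fun i => 0 < i ∧ rt i = j ∧ ld i < l).card ≤ L) (j : ℕ) :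
    zs N rt ld l j ≤ rs N rt j * L := by
  unfold zs rs
  have hsub : ((range N).filter fun i => 0 < i ∧ rt i < j ∧ ld i < l) ⊆
      ((range N).filter fun i => 0 < i ∧ rt i = i ∧ i < j).biUnion
        fun q => (range N).filter fun i => 0 < i ∧ rt i = q ∧ ld i < l := by
    intro i hi
    simp only [mem_filter, mem_range, mem_biUnion] at hi ⊢
    obtain ⟨hiN, hi0, hij, hil⟩ := hi
    obtain ⟨a1, a2, a3⟩ := h1 i hi0 hiN
    exact ⟨rt i, ⟨by omega, a1, a3, hij⟩, hiN, hi0, rfl, hil⟩
  refine (card_le_card hsub).trans ?_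
  exact card_biUnion_le_card_mul _ _ _ fun q _ => h5 q

private theorem process {V : Type} [Fintype V] [DecidableEq V] {R : V → V → Prop}
    {P : V → V → ℝ} {ρ C Cm ε₀ B ν M0 : ℝ} (hρ : 0 < ρ) (hC : 1 ≤ C) (hCm : 0 ≤ Cm)
    (hε : 0 ≤ ε₀) (hB : 0 ≤ B) (hn : 2 ≤ Fintype.card V) {K l k L Δ : ℕ} (u₀ : V)
    (hDle : ∀ x y : ℝ, 0 ≤ x → 0 ≤ y → x ≤ Fintype.card V →
      k * y ≤ 2 * Fintype.card V * L → Dd ρ C Cm ε₀ (Fintype.card V) x y ≤ ν)
    (hM00 : 0 ≤ M0) (hM0 : M0 * Real.exp B < 1)
    (hinit : Pot P (√(Fintype.card V)) (univ \ {u₀}) (Dd ρ C Cm ε₀ (Fintype.card V) 0 0) ≤ M0)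
    (hstep : ∀ (A : Finset V) (δ : ℝ), ρ * Fintype.card V ≤ A.card → 0 ≤ δ → δ ≤ ν →
      QR P A δ → ∀ (κ : ℕ) (par : ℕ → ℕ) (s : ℕ → Bool) (ld : ℕ → ℕ), 0 < κ → κ ≤ K →
      (∀ x, 0 < x → x < κ → par x < x) → ld 0 = 1 →
      (∀ x, 0 < x → x < κ → ld x = ld (par x) + 1) → ∀ u : V,
      ∃ φ : ℕ → V, (∀ x < κ, φ x ∈ A) ∧ Set.InjOn φ (Set.Iio κ) ∧ Arc R (s 0) u (φ 0) ∧
        (∀ x, 0 < x → x < κ → Arc R (s x) (φ (par x)) (φ x)) ∧
        Pot P (√(Fintype.card V)) (A \ (range κ).image φ)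
          (δ + 4 / (ρ * Fintype.card V) * (3 * C * ((range κ).filter fun x => ld x < l).card +
            κ * (ε₀ + Cm * δ))) ≤
        Pot P (√(Fintype.card V)) A δ * Real.exp (B / Fintype.card V))
    (N : ℕ) (par : ℕ → ℕ) (s : ℕ → Bool) (hN1 : 1 ≤ N)
    (hN : (N : ℝ) ≤ (1 - ρ) * Fintype.card V) (hpar : ∀ i, 0 < i → i < N → par i < i)
    (rt ld : ℕ → ℕ)
    (h1 : ∀ i, 0 < i → i < N → 0 < rt i ∧ rt i ≤ i ∧ rt (rt i) = rt i)
    (h2 : ∀ i, 0 < i → i < N → rt i = i → ld i = 1)
    (h3 : ∀ i, 0 < i → i < N → rt i ≠ i →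
        0 < par i ∧ rt (par i) = rt i ∧ ld i = ld (par i) + 1)
    (h4 : ∀ j, ((range N).filter fun i => 0 < i ∧ rt i = j).card ≤ K)
    (h5 : ∀ j, ((range N).filter fun i => 0 < i ∧ rt i = j ∧ ld i < l).card ≤ L)
    (h6 : k * ((range N).filter fun i => 0 < i ∧ rt i = i).card ≤ N + k * Δ)
    (hkΔ : k * Δ ≤ Fintype.card V) (j : ℕ) (hj : 1 ≤ j) (hjN : j ≤ N) :
    ∃ φ : ℕ → V, φ 0 = u₀ ∧ Set.InjOn φ (Bs N rt j) ∧
      (∀ i, 0 < i → i < N → rt i < j → Arc R (s i) (φ (par i)) (φ i)) ∧
      Pot P (√(Fintype.card V)) (univ \ (Bs N rt j).image φ)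
        (Dd ρ C Cm ε₀ (Fintype.card V) ((Bs N rt j).card - 1 : ℕ) (zs N rt ld l j)) ≤
        M0 * Real.exp (B * rs N rt j / Fintype.card V) := by
  have hn0 : (0 : ℝ) < Fintype.card V := by
    have : (2 : ℝ) ≤ Fintype.card V := by exact_mod_cast hn
    linarith
  have hNn : (N : ℝ) ≤ Fintype.card V := by nlinarith
  induction j, hj using Nat.le_induction with
  | base =>
    have hB1 : Bs N rt 1 = {0} := by
      ext i
      simp only [Bs, mem_filter, mem_range, mem_singleton]
      constructor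
      · rintro ⟨hi, rfl | h⟩
        · rfl
        · by_contra h0
          have := (h1 i (by omega) hi).1
          omega
      · rintro rfl
        exact ⟨by omega, Or.inl rfl⟩
    have hz1 : zs N rt ld l 1 = 0 := by
      unfold zs
      rw [card_eq_zero, filter_eq_empty_iff]
      rintro i hi ⟨hi0, hi1, -⟩
      have := (h1 i hi0 (mem_range.1 hi)).1
      omega
    refine ⟨fun _ => u₀, rfl, ?_, ?_, ?_⟩
    · rw [hB1]
      simp
    · intro i hi0 hiN hi1
      have := (h1 i hi0 hiN).1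
      omega
    · rw [hB1, hz1]
      simp only [image_singleton, card_singleton, Nat.sub_self, Nat.cast_zero]
      refine hinit.trans ?_
      have : 1 ≤ Real.exp (B * rs N rt 1 / Fintype.card V) :=
        Real.one_le_exp (by positivity)
      nlinarith
  | succ j hj ih =>
    obtain ⟨φ, f1, f2, f3, f4⟩ := ih (by omega)
    by_cases hrt : rt j = j
    · -- a new piece
      obtain ⟨κ, e, e', p, q1, q2, q3, q4, q5, q6⟩ := local_number N par rt hpar h1
        (fun i a b c => ⟨(h3 i a b c).1, (h3 i a b c).2.1⟩) j (by omega) (by omega) hrt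
      have hj0 : 0 < j := by omega
      have hjN' : j < N := by omega
      set δ := Dd ρ C Cm ε₀ (Fintype.card V) ((Bs N rt j).card - 1 : ℕ) (zs N rt ld l j)
        with hδ
      have hB0 : 0 ∈ Bs N rt j := by
        simp only [Bs, mem_filter, mem_range]
        exact ⟨by omega, Or.inl trivial⟩
      have hBpos : 0 < (Bs N rt j).card := card_pos.2 ⟨0, hB0⟩
      have hBN : (Bs N rt j).card ≤ N := by
        refine (card_le_card (filter_subset _ _)).trans ?_
        simp
      have hrsle : k * rs N rt j ≤ N + k * Δ := by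
        refine le_trans (Nat.mul_le_mul_left k ?_) h6
        unfold rs
        apply card_le_card
        intro i hi
        simp only [mem_filter] at hi ⊢
        exact ⟨hi.1, hi.2.1, hi.2.2.1⟩
      have hδ0 : 0 ≤ δ := Dd_nn hρ (by linarith) hε hn0 (Nat.cast_nonneg _) (Nat.cast_nonneg _)
      have hδν : δ ≤ ν := by
        apply hDle
        · exact Nat.cast_nonneg _
        · exact Nat.cast_nonneg _
        · have : (Bs N rt j).card - 1 ≤ N := by omega
          have h7 : (((Bs N rt j).card - 1 : ℕ) : ℝ) ≤ N := by exact_mod_cast this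
          linarith
        · have h7 := zs_le h1 h5 j
          have h8 : k * zs N rt ld l j ≤ (N + k * Δ) * L := by
            calc k * zs N rt ld l j ≤ k * (rs N rt j * L) := Nat.mul_le_mul_left k h7
              _ = k * rs N rt j * L := by ring
              _ ≤ (N + k * Δ) * L := Nat.mul_le_mul_right L hrsle
          have h9 : ((k * zs N rt ld l j : ℕ) : ℝ) ≤ ((N + k * Δ) * L : ℕ) := by
            exact_mod_cast h8
          push_cast at h9
          have h10 : ((k : ℝ) * Δ) ≤ Fintype.card V := by exact_mod_cast hkΔ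
          have h11 : ((N : ℝ) + k * Δ) * L ≤ (2 * Fintype.card V) * L := by
            apply mul_le_mul_of_nonneg_right _ (Nat.cast_nonneg _)
            linarith
          linarith
      have hPot1 : Pot P (√(Fintype.card V)) (univ \ (Bs N rt j).image φ) δ < 1 := by
        refine lt_of_le_of_lt (f4.trans ?_) hM0
        apply mul_le_mul_of_nonneg_left _ hM00
        apply Real.exp_le_exp.2
        rw [div_le_iff₀ hn0]
        apply mul_le_mul_of_nonneg_left _ hB
        have h7 : rs N rt j ≤ N := by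
          unfold rs
          refine (card_le_card (filter_subset _ _)).trans ?_
          simp
        have h8 : (rs N rt j : ℝ) ≤ N := by exact_mod_cast h7
        linarith
      have hQR := qr_of_pot P (Real.sqrt_pos.2 hn0) _ hPot1
      have himc : ((Bs N rt j).image φ).card = (Bs N rt j).card := card_image_of_injOn f2
      have hAcard : ρ * Fintype.card V ≤ ((univ \ (Bs N rt j).image φ).card : ℝ) := by
        rw [card_sdiff_of_subset (subset_univ _), himc, card_univ, Nat.cast_sub]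
        · have : ((Bs N rt j).card : ℝ) ≤ N := by exact_mod_cast hBN
          linarith
        · have : ((Bs N rt j).card : ℝ) ≤ Fintype.card V := by
            have : ((Bs N rt j).card : ℝ) ≤ N := by exact_mod_cast hBN
            linarith
          exact_mod_cast this
      have hκK : κ ≤ K := by
        rw [q2]
        exact h4 j
      obtain ⟨g, g1, g2, g3, g4, g5⟩ := hstep (univ \ (Bs N rt j).image φ) δ hAcard hδ0 hδν
        hQR κ p (fun x => s (e x)) (fun x => ld (e x)) q1 hκK (fun x a b => (q6 x a b).1)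
        (by simp only [q3]; exact h2 j hj0 hjN' hrt)
        (by
          intro x a b
          obtain ⟨b1, b2, b3⟩ := q6 x a b
          obtain ⟨b4, b5, b6, b7⟩ := q4 x b
          simp only [b2]
          exact (h3 (e x) b4 b5 b3).2.2) (φ (par j))
      -- the new map
      let φ' : ℕ → V := fun i => if 0 < i ∧ i < N ∧ rt i = j then g (e' i) else φ i
      have hφ'old : ∀ i, ¬ (0 < i ∧ i < N ∧ rt i = j) → φ' i = φ i := fun i hi => if_neg hi
      have hφ'new : ∀ i, 0 < i → i < N → rt i = j → φ' i = g (e' i) :=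
        fun i a b c => if_pos ⟨a, b, c⟩
      have hBold : ∀ i ∈ Bs N rt j, φ' i = φ i := by
        intro i hi
        apply hφ'old
        rintro ⟨a, b, c⟩
        simp only [Bs, mem_filter, mem_range] at hi
        rcases hi.2 with h | h
        · omega
        · omega
      set S := (range N).filter fun i => 0 < i ∧ rt i = j with hS
      have hBu : Bs N rt (j + 1) = Bs N rt j ∪ S := by
        ext i
        simp only [Bs, hS, mem_union, mem_filter, mem_range]
        constructor
        · rintro ⟨a, b⟩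
          by_cases h0 : i = 0
          · exact Or.inl ⟨a, Or.inl h0⟩
          · rcases b with b | b
            · exact absurd b h0
            · rcases Nat.lt_succ_iff_lt_or_eq.1 b with b | b
              · exact Or.inl ⟨a, Or.inr b⟩
              · exact Or.inr ⟨a, by omega, b⟩
        · rintro (⟨a, b⟩ | ⟨a, b, c⟩)
          · exact ⟨a, b.imp id (fun h => by omega)⟩
          · exact ⟨a, Or.inr (by omega)⟩
      have hdisj : Disjoint (Bs N rt j) S := by
        rw [Finset.disjoint_left]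
        intro i hi hi'
        simp only [Bs, hS, mem_filter, mem_range] at hi hi'
        rcases hi.2 with h | h
        · omega
        · omega
      have hScard : S.card = κ := q2.symm
      have hBc : (Bs N rt (j + 1)).card = (Bs N rt j).card + κ := by
        rw [hBu, card_union_of_disjoint hdisj, hScard]
      have himS : S.image φ' = (range κ).image g := by
        ext v
        simp only [mem_image, hS, mem_filter, mem_range]
        constructor
        · rintro ⟨i, ⟨a, b, c⟩, rfl⟩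
          exact ⟨e' i, (q5 i b a c).1, (hφ'new i b a c).symm⟩
        · rintro ⟨x, hx, rfl⟩
          obtain ⟨b4, b5, b6, b7⟩ := q4 x hx
          exact ⟨e x, ⟨b5, b4, b6⟩, by rw [hφ'new _ b4 b5 b6, b7]⟩
      have himB : (Bs N rt (j + 1)).image φ' = (Bs N rt j).image φ ∪ (range κ).image g := by
        rw [hBu, image_union, himS]
        congr 1
        exact image_congr fun i hi => hBold i (by exact_mod_cast hi)
      have hzs : zs N rt ld l (j + 1) = zs N rt ld l j +
          ((range κ).filter fun x => ld (e x) < l).card := by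
        have e1 : ((range N).filter fun i => 0 < i ∧ rt i < j + 1 ∧ ld i < l) =
            ((range N).filter fun i => 0 < i ∧ rt i < j ∧ ld i < l) ∪
            (((range κ).filter fun x => ld (e x) < l).image e) := by
          ext i
          simp only [mem_union, mem_filter, mem_range, mem_image]
          constructor
          · rintro ⟨a, b, c, d⟩
            rcases Nat.lt_succ_iff_lt_or_eq.1 c with c | c
            · exact Or.inl ⟨a, b, c, d⟩
            · right
              obtain ⟨c1, c2⟩ := q5 i b a c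
              exact ⟨e' i, ⟨c1, by rw [c2]; exact d⟩, c2⟩
          · rintro (⟨a, b, c, d⟩ | ⟨x, ⟨a, b⟩, rfl⟩)
            · exact ⟨a, b, by omega, d⟩
            · obtain ⟨b4, b5, b6, b7⟩ := q4 x a
              exact ⟨b5, b4, by omega, b⟩
        unfold zs
        rw [e1, card_union_of_disjoint, card_image_of_injOn]
        · intro x hx y hy hxy
          simp only [coe_filter, mem_range, Set.mem_ofPred_eq] at hx hy
          have b7 := (q4 x hx.1).2.2.2
          have b8 := (q4 y hy.1).2.2.2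
          rw [← b7, ← b8, hxy]
        · rw [Finset.disjoint_left]
          intro i hi hi'
          simp only [mem_filter, mem_range, mem_image] at hi hi'
          obtain ⟨x, ⟨a, b⟩, rfl⟩ := hi'
          have := (q4 x a).2.2.1
          omega
      have hrs : rs N rt (j + 1) = rs N rt j + 1 := by
        have e1 : ((range N).filter fun i => 0 < i ∧ rt i = i ∧ i < j + 1) =
            insert j ((range N).filter fun i => 0 < i ∧ rt i = i ∧ i < j) := by
          ext i
          simp only [mem_insert, mem_filter, mem_range]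
          constructor
          · rintro ⟨a, b, c, d⟩
            by_cases h : i = j
            · exact Or.inl h
            · exact Or.inr ⟨a, b, c, by omega⟩
          · rintro (rfl | ⟨a, b, c, d⟩)
            · exact ⟨hjN', hj0, hrt, by omega⟩
            · exact ⟨a, b, c, by omega⟩
        unfold rs
        rw [e1, card_insert_of_notMem]
        simp
      refine ⟨φ', ?_, ?_, ?_, ?_⟩
      · rw [hφ'old 0 (by omega), f1]
      · -- injectivity
        have key : ∀ i ∈ Bs N rt j, ∀ i' ∈ S, φ' i ≠ φ' i' := by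
          intro i hi i' hi' heq
          have c1 : φ' i ∈ (Bs N rt j).image φ := by
            rw [hBold i hi]
            exact mem_image_of_mem _ hi
          have c2 : φ' i' ∈ (range κ).image g := by
            rw [← himS]
            exact mem_image_of_mem _ hi'
          obtain ⟨x, hx, hx'⟩ := mem_image.1 c2
          have c3 := g1 x (mem_range.1 hx)
          rw [hx', ← heq] at c3
          exact (mem_sdiff.1 c3).2 c1
        rw [hBu]
        intro a ha b hb hab
        simp only [coe_union, Set.mem_union, mem_coe] at ha hb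
        rcases ha with ha | ha <;> rcases hb with hb | hb
        · rw [hBold a ha, hBold b hb] at hab
          exact f2 ha hb hab
        · exact absurd hab (key a ha b hb)
        · exact absurd hab.symm (key b hb a ha)
        · simp only [hS, mem_filter, mem_range] at ha hb
          rw [hφ'new a ha.2.1 ha.1 ha.2.2, hφ'new b hb.2.1 hb.1 hb.2.2] at hab
          have d1 := q5 a ha.2.1 ha.1 ha.2.2
          have d2 := q5 b hb.2.1 hb.1 hb.2.2
          have d3 := g2 (Set.mem_Iio.2 d1.1) (Set.mem_Iio.2 d2.1) hab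
          rw [← d1.2, ← d2.2, d3]
      · -- arcs
        intro i hi0 hiN hij
        have hparmem : rt i < j → par i ∈ Bs N rt j := by
          intro hlt
          simp only [Bs, mem_filter, mem_range]
          refine ⟨(hpar i hi0 hiN).trans hiN, ?_⟩
          by_cases hp0 : par i = 0
          · exact Or.inl hp0
          · right
            by_cases hri : rt i = i
            · have := (h1 (par i) (by omega) ((hpar i hi0 hiN).trans hiN)).2.1
              have := hpar i hi0 hiN
              omega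
            · rw [(h3 i hi0 hiN hri).2.1]
              exact hlt
        rcases Nat.lt_succ_iff_lt_or_eq.1 hij with hlt | heq
        · have c1 : i ∈ Bs N rt j := by
            simp only [Bs, mem_filter, mem_range]
            exact ⟨hiN, Or.inr hlt⟩
          rw [hBold i c1, hBold _ (hparmem hlt)]
          exact f3 i hi0 hiN hlt
        · obtain ⟨c1, c2⟩ := q5 i hi0 hiN heq
          by_cases hx0 : e' i = 0
          · have hij' : i = j := by
              rw [← c2, hx0, q3]
            subst hij'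
            have c3 : par i ∈ Bs N rt i := by
              simp only [Bs, mem_filter, mem_range]
              refine ⟨(hpar i hi0 hiN).trans hiN, ?_⟩
              by_cases hp0 : par i = 0
              · exact Or.inl hp0
              · right
                have := (h1 (par i) (by omega) ((hpar i hi0 hiN).trans hiN)).2.1
                have := hpar i hi0 hiN
                omega
            rw [hφ'new i hi0 hiN heq, hBold _ c3, hx0]
            simp only [q3] at g3
            exact g3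
          · obtain ⟨d1, d2, d3⟩ := q6 (e' i) (by omega) c1
            rw [c2] at d2 d3
            obtain ⟨b4, b5, b6, b7⟩ := q4 (p (e' i)) (d1.trans c1)
            rw [d2] at b4 b5 b6 b7
            rw [hφ'new i hi0 hiN heq, hφ'new (par i) b4 b5 b6, b7]
            have := g4 (e' i) (by omega) c1
            simp only [c2] at this
            exact this
      · -- potential
        have e1 : (univ : Finset V) \ (Bs N rt (j + 1)).image φ' =
            (univ \ (Bs N rt j).image φ) \ (range κ).image g := by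
          rw [himB, sdiff_sdiff_left]
          rfl
        rw [e1]
        have e2 : Dd ρ C Cm ε₀ (Fintype.card V) ((Bs N rt (j + 1)).card - 1 : ℕ)
            (zs N rt ld l (j + 1)) = Dd ρ C Cm ε₀ (Fintype.card V)
              (((Bs N rt j).card - 1 : ℕ) + (κ : ℝ))
              ((zs N rt ld l j : ℝ) + ((range κ).filter fun x => ld (e x) < l).card) := by
          rw [hzs, hBc]
          congr 1
          · rw [show (Bs N rt j).card + κ - 1 = ((Bs N rt j).card - 1) + κ by omega]
            push_cast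
            ring
          · push_cast
            ring
        rw [e2]
        have e3 := Dd_step (n := (Fintype.card V : ℝ)) (ρ := ρ) (C := C) (Cm := Cm)
          (ε₀ := ε₀) hρ (by linarith) hCm hε hn0
          (x := (((Bs N rt j).card - 1 : ℕ) : ℝ)) (y := (zs N rt ld l j : ℝ)) (κ := (κ : ℝ))
          (z := (((range κ).filter fun x => ld (e x) < l).card : ℝ)) (Nat.cast_nonneg _)
          (Nat.cast_nonneg _) (Nat.cast_nonneg _) (Nat.cast_nonneg _)
        refine (pot_mono P (Real.sqrt_nonneg _) _ e3).trans ?_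
        refine g5.trans ?_
        refine (mul_le_mul_of_nonneg_right f4 (Real.exp_pos _).le).trans ?_
        rw [mul_assoc, ← Real.exp_add, hrs]
        apply le_of_eq
        congr 2
        push_cast
        field_simp
    · -- nothing new
      have hno : ∀ i, 0 < i → i < N → rt i ≠ j := by
        intro i hi0 hiN h
        have := (h1 i hi0 hiN).2.2
        rw [h] at this
        exact hrt this
      have hBeq : Bs N rt (j + 1) = Bs N rt j := by
        unfold Bs
        apply filter_congr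
        intro i hi
        have hiN := mem_range.1 hi
        constructor
        · rintro (h | h)
          · exact Or.inl h
          · by_cases h0 : i = 0
            · exact Or.inl h0
            · have := hno i (by omega) hiN
              exact Or.inr (by omega)
        · rintro (h | h)
          · exact Or.inl h
          · exact Or.inr (by omega)
      have hzeq : zs N rt ld l (j + 1) = zs N rt ld l j := by
        unfold zs
        congr 1
        apply filter_congr
        intro i hi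
        have hiN := mem_range.1 hi
        constructor
        · rintro ⟨a, b, c⟩
          have := hno i a hiN
          exact ⟨a, by omega, c⟩
        · rintro ⟨a, b, c⟩
          exact ⟨a, by omega, c⟩
      have hreq : rs N rt (j + 1) = rs N rt j := by
        unfold rs
        congr 1
        apply filter_congr
        intro i hi
        have hiN := mem_range.1 hi
        constructor
        · rintro ⟨a, b, c⟩
          have := hno i a hiN
          exact ⟨a, b, by omega⟩
        · rintro ⟨a, b, c⟩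
          exact ⟨a, b, by omega⟩
      refine ⟨φ, f1, ?_, ?_, ?_⟩
      · rw [hBeq]
        exact f2
      · intro i hi0 hiN h
        have := hno i hi0 hiN
        exact f3 i hi0 hiN (by omega)
      · rw [hBeq, hzeq, hreq]
        exact f4

private theorem ev_consts (C B ζ ρ E₀ ν : ℝ) (hC : 0 ≤ C) (hρ : 0 < ρ) (hν : 0 < ν)
    (n₁ kΔ : ℕ) : ∃ n₀ : ℕ, ∀ n : ℕ, n₀ ≤ n → n₁ ≤ n ∧ 2 ≤ n ∧ 128 / ζ ≤ (n : ℝ) ∧
      16 * C ≤ ρ * n ∧ E₀ * (1 / √(√(n : ℝ))) ≤ ν / 3 ∧ kΔ ≤ n ∧
      4 * (n : ℝ) * Real.exp (√(n : ℝ) * (2 * C / n - 1 / √(√(n : ℝ)))) * Real.exp B < 1 := by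
  have h2 : Filter.Tendsto (fun n : ℕ => √(√(n : ℝ))) Filter.atTop Filter.atTop :=
    Real.tendsto_sqrt_atTop.comp (Real.tendsto_sqrt_atTop.comp tendsto_natCast_atTop_atTop)
  have h3 : Filter.Tendsto (fun n : ℕ => E₀ * (1 / √(√(n : ℝ)))) Filter.atTop (nhds 0) := by
    have h4 := (tendsto_inv_atTop_zero.comp h2).const_mul E₀
    rw [mul_zero] at h4
    refine h4.congr fun n => ?_
    simp
  have e3 : ∀ᶠ n : ℕ in Filter.atTop, E₀ * (1 / √(√(n : ℝ))) ≤ ν / 3 :=
    (h3.eventually (gt_mem_nhds (show (0 : ℝ) < ν / 3 by positivity))).mono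
      fun n hn => le_of_lt hn
  have e1 : ∀ᶠ n : ℕ in Filter.atTop, 128 / ζ ≤ (n : ℝ) :=
    tendsto_natCast_atTop_atTop.eventually_ge_atTop (128 / ζ)
  have e2 : ∀ᶠ n : ℕ in Filter.atTop, 16 * C ≤ ρ * (n : ℝ) := by
    filter_upwards [(tendsto_natCast_atTop_atTop (R := ℝ)).eventually_ge_atTop (16 * C / ρ)]
      with n hn
    rw [div_le_iff₀ hρ] at hn
    linarith
  have all := (Filter.eventually_ge_atTop n₁).and ((Filter.eventually_ge_atTop 2).and
    (e1.and (e2.and (e3.and ((Filter.eventually_ge_atTop kΔ).and (ev_exp C B hC))))))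
  obtain ⟨n₀, h⟩ := Filter.eventually_atTop.1 all
  exact ⟨n₀, fun n hn => h n hn⟩

theorem near_spanning (ζ ρ : ℝ) (Δ : ℕ) (hζ : 0 < ζ) (hρ : 0 < ρ) :
    ∃ n₀ : ℕ, ∀ (V : Type) [Fintype V] [DecidableEq V] (R : V → V → Prop),
      n₀ ≤ Fintype.card V → IsTour R → Rob ζ R →
      ∀ (N : ℕ) (par : ℕ → ℕ) (s : ℕ → Bool), (N : ℝ) ≤ (1 - ρ) * Fintype.card V →
      RT N Δ par → ∀ u₀ : V,
      ∃ φ : ℕ → V, φ 0 = u₀ ∧ Set.InjOn φ (Set.Iio N) ∧
        ∀ i, 0 < i → i < N → Arc R (s i) (φ (par i)) (φ i) := by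
  set z := min ζ 1 with hz
  have hz0 : 0 < z := lt_min hζ one_pos
  have hz1 : z ≤ 1 := min_le_right _ _
  set c := z / 32 with hc
  set C := 512 / z with hC
  have hc0 : 0 < c := by positivity
  have hc1 : c ≤ 1 := by
    rw [hc]
    linarith
  have hC1 : 1 ≤ C := by
    rw [hC, le_div_iff₀ hz0]
    linarith
  have hC0 : 0 < C := by linarith
  set ν := nuC c C with hν
  have hν0 : 0 < ν := by
    rw [hν, nuC]
    positivity
  have hν4 : ν ≤ 1 / 4 := by
    rw [hν, nuC, div_le_div_iff₀ (by positivity) (by norm_num)]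
    nlinarith
  obtain ⟨Cm, hCm, hmix⟩ := mixing c C hc0 hc1 hC1
  set E₀ := Real.exp (4 * Cm / ρ) with hE₀
  have hE0 : 0 < E₀ := Real.exp_pos _
  set ε₀ := ρ * ν / (12 * E₀) with hε₀
  have hε0 : 0 < ε₀ := by positivity
  obtain ⟨l, hl, hmix⟩ := hmix ε₀ hε0
  set L := (Δ + 1) ^ l with hL
  obtain ⟨k, hk⟩ := exists_nat_ge (max 1 (72 * C * E₀ * (L : ℕ) / (ρ * ν)))
  have hk1 : (1 : ℝ) ≤ k := (le_max_left _ _).trans hk
  have hk1' : 1 ≤ k := by exact_mod_cast hk1
  have hk2 : 72 * C * E₀ * (L : ℕ) ≤ ρ * ν * k := by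
    have := (le_max_right _ _).trans hk
    rw [div_le_iff₀ (by positivity)] at this
    linarith
  set K := (Δ + 1) ^ k with hK
  obtain ⟨B, n₁, hB, hstep⟩ := step c C ρ hC1 hρ K l ε₀ Cm hε0.le hCm.le
  obtain ⟨n₀, hn₀⟩ := ev_consts C B z ρ E₀ ν hC0.le hρ hν0 n₁ (k * Δ)
  refine ⟨n₀, ?_⟩
  intro V _ _ R hn hR hrob N par s hN hRT u₀
  obtain ⟨a1, a2, a3, a4, a5, a6, a7⟩ := hn₀ _ hn
  have hn2 : (2 : ℝ) ≤ Fintype.card V := by exact_mod_cast a2
  have hrob' : Rob z R := by
    intro A
    refine le_trans ?_ (hrob A)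
    apply mul_le_mul_of_nonneg_right _ (Nat.cast_nonneg _)
    exact mul_le_mul_of_nonneg_right (min_le_left _ _) (Nat.cast_nonneg _)
  obtain ⟨P, hP⟩ := exists_kern z hz0 hz1 R hR hrob' a3
  rcases Nat.eq_zero_or_pos N with hN0 | hN1
  · subst hN0
    refine ⟨fun _ => u₀, rfl, ?_, ?_⟩
    · intro a ha
      simp at ha
    · intro i _ hi
      omega
  obtain ⟨rt, ld, b1, b2, b3, b4, b5, b6⟩ := pieces Δ k N par hRT hk1'
  set M0 := 4 * (Fintype.card V : ℝ) *
    Real.exp (√(Fintype.card V) * (2 * C / Fintype.card V - 1 / √(√(Fintype.card V)))) with hM0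
  have hinit : Pot P (√(Fintype.card V)) (univ \ {u₀}) (Dd ρ C Cm ε₀ (Fintype.card V) 0 0) ≤
      M0 := by
    have : Dd ρ C Cm ε₀ (Fintype.card V) 0 0 = 1 / √(√(Fintype.card V)) := by
      unfold Dd
      simp
    rw [this]
    exact pot_init hP hC1 a2 u₀ _
  obtain ⟨φ, f1, f2, f3, f4⟩ := process (R := R) (P := P) (ρ := ρ) (C := C) (Cm := Cm)
    (ε₀ := ε₀) (B := B) (ν := ν) (M0 := M0) hρ hC1 hCm.le hε0.le hB a2 (K := K) (l := l)
    (k := k) (L := L) (Δ := Δ) u₀
    (fun x y hx hy hxn hyn => Dd_le hρ hC0 hCm.le hε0.le (by linarith) (by linarith) hν0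
      le_rfl hk2 a5 hx hy hxn hyn)
    (by positivity) a7 hinit
    (fun A δ hA hδ0 hδ hQ κ par s ld e1 e2 e3 e4 e5 u => by
      refine hstep V R P hP a1 A δ hA hδ0 (hδ.trans hν4) hQ ?_ κ par s ld e1 e2 e3 e4 e5 u
      intro w hw u v hv
      exact hmix V R P hR hP A δ (a4.trans hA) hδ0 hδ hQ w hw u v hv)
    N par s hN1 hN hRT.lt rt ld b1 b2 b3 b4 (fun j => b5 j l) b6 a6 N hN1 le_rfl
  refine ⟨φ, f1, ?_, ?_⟩
  · intro a ha b hb hab
    have hmem : ∀ i, i < N → i ∈ Bs N rt N := by
      intro i hi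
      simp only [Bs, mem_filter, mem_range]
      refine ⟨hi, ?_⟩
      by_cases h0 : i = 0
      · exact Or.inl h0
      · exact Or.inr (lt_of_le_of_lt (b1 i (by omega) hi).2.1 hi)
    exact f2 (by exact_mod_cast hmem a (Set.mem_Iio.1 ha))
      (by exact_mod_cast hmem b (Set.mem_Iio.1 hb)) hab
  · intro i hi0 hiN
    exact f3 i hi0 hiN (lt_of_le_of_lt (b1 i hi0 hiN).2.1 hiN)

end Pool.Agent.Lib.RobT
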