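import Pool.Agent.Lib.RobT.Mb

/-!
# Sw: the random embedding of a rooted tree
-/

namespace Pool.Agent.Lib.RobT

open Finset

variable {V : Type} [Fintype V] [DecidableEq V]

private theorem ext_lt {V : Type} (κ : ℕ) (u : V) (φ : Fin κ → V) (i : ℕ) (h : i < κ) :
    ext κ u φ i = φ ⟨i, h⟩ := by
  unfold ext
  rw [dif_pos h]

private theorem ext_snoc {V : Type} (κ : ℕ) (u : V) (φ : Fin κ → V) (v : V) (i : ℕ) (h : i < κ) :
    ext (κ + 1) u (Fin.snoc φ v : Fin (κ + 1) → V) i = ext κ u φ i := by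
  rw [ext_lt κ u φ i h, ext_lt (κ + 1) u _ i (by omega)]
  have e : (⟨i, by omega⟩ : Fin (κ + 1)) = Fin.castSucc ⟨i, h⟩ := rfl
  rw [e, Fin.snoc_castSucc]

private def pl {V : Type} (κ : ℕ) (par : ℕ → ℕ) (u : V) (φ : Fin κ → V) : V :=
  if κ = 0 then u else ext κ u φ (par κ)

private theorem prv_cast {V : Type} (κ : ℕ) (par : ℕ → ℕ) (u : V) (φ : Fin κ → V) (v : V)
    (hpar : ∀ x, 0 < x → x < κ + 1 → par x < x) (x : Fin κ) :
    prv (κ + 1) par u (Fin.snoc φ v : Fin (κ + 1) → V) x.castSucc = prv κ par u φ x := by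
  unfold prv
  rw [Fin.val_castSucc]
  by_cases h : (x : ℕ) = 0
  · rw [if_pos h, if_pos h]
  · rw [if_neg h, if_neg h]
    refine ext_snoc κ u φ v _ ?_
    have h1 := hpar x (by omega) (by omega)
    omega

private theorem prv_last {V : Type} (κ : ℕ) (par : ℕ → ℕ) (u : V) (φ : Fin κ → V) (v : V)
    (hpar : ∀ x, 0 < x → x < κ + 1 → par x < x) :
    prv (κ + 1) par u (Fin.snoc φ v : Fin (κ + 1) → V) (Fin.last κ) = pl κ par u φ := by
  unfold prv pl
  rw [Fin.val_last]
  by_cases h : κ = 0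
  · rw [if_pos h, if_pos h]
  · rw [if_neg h, if_neg h]
    refine ext_snoc κ u φ v _ ?_
    exact hpar κ (by omega) (by omega)

private theorem Wt_snoc (P : V → V → ℝ) (A : Finset V) (κ : ℕ) (par : ℕ → ℕ) (s : ℕ → Bool)
    (hpar : ∀ x, 0 < x → x < κ + 1 → par x < x) (u : V) (φ : Fin κ → V) (v : V) :
    Wt P A (κ + 1) par s u (Fin.snoc φ v : Fin (κ + 1) → V) =
      Wt P A κ par s u φ * qA P A (s κ) (pl κ par u φ) v := by
  unfold Wt
  rw [Fin.prod_univ_castSucc]
  congr 1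
  · refine Finset.prod_congr rfl fun x _ => ?_
    rw [prv_cast κ par u φ v hpar x, Fin.snoc_castSucc, Fin.val_castSucc]
  · rw [prv_last κ par u φ v hpar, Fin.snoc_last, Fin.val_last]

private theorem sum_snoc (κ : ℕ) (f : (Fin (κ + 1) → V) → ℝ) :
    ∑ φ : Fin (κ + 1) → V, f φ = ∑ φ : Fin κ → V, ∑ v : V, f (Fin.snoc φ v : Fin (κ + 1) → V) := by
  rw [← Equiv.sum_comp (Fin.snocEquiv (fun _ => V)), Fintype.sum_prod_type_right]
  rfl

private theorem step (P : V → V → ℝ) (A : Finset V) (κ : ℕ) (par : ℕ → ℕ) (s : ℕ → Bool)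
    (hpar : ∀ x, 0 < x → x < κ + 1 → par x < x) (u : V) (G : (Fin (κ + 1) → V) → ℝ) :
    ∑ φ : Fin (κ + 1) → V, Wt P A (κ + 1) par s u φ * G φ =
      ∑ φ : Fin κ → V, Wt P A κ par s u φ *
        ∑ v : V, qA P A (s κ) (pl κ par u φ) v * G (Fin.snoc φ v : Fin (κ + 1) → V) := by
  rw [sum_snoc]
  refine Finset.sum_congr rfl fun φ _ => ?_
  rw [Finset.mul_sum]
  refine Finset.sum_congr rfl fun v _ => ?_
  rw [Wt_snoc P A κ par s hpar u φ v, mul_assoc]

private theorem step_const {P : V → V → ℝ} {A : Finset V} {δ : ℝ} (hA : A.Nonempty)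
    (hδ : δ ≤ 1 / 2) (h : QR P A δ) (κ : ℕ) (par : ℕ → ℕ) (s : ℕ → Bool)
    (hpar : ∀ x, 0 < x → x < κ + 1 → par x < x) (u : V) (G : (Fin (κ + 1) → V) → ℝ)
    (F : (Fin κ → V) → ℝ) (hG : ∀ φ v, G (Fin.snoc φ v : Fin (κ + 1) → V) = F φ) :
    ∑ φ : Fin (κ + 1) → V, Wt P A (κ + 1) par s u φ * G φ =
      ∑ φ : Fin κ → V, Wt P A κ par s u φ * F φ := by
  rw [step P A κ par s hpar u G]
  refine Finset.sum_congr rfl fun φ _ => ?_
  congr 1
  simp only [hG]
  rw [← Finset.sum_mul, qA_sum hA hδ h, one_mul]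

theorem Wt_nn {R : V → V → Prop} {c C : ℝ} {P : V → V → ℝ} (hP : Kern R c C P) (A : Finset V)
    (κ : ℕ) (par : ℕ → ℕ) (s : ℕ → Bool) (u : V) (φ : Fin κ → V) :
    0 ≤ Wt P A κ par s u φ :=
  Finset.prod_nonneg fun _ _ => qA_nn hP A _ _ _

theorem Wt_sum {P : V → V → ℝ} {A : Finset V} {δ : ℝ} (hA : A.Nonempty) (hδ : δ ≤ 1 / 2)
    (h : QR P A δ) (κ : ℕ) (par : ℕ → ℕ) (s : ℕ → Bool)
    (hpar : ∀ x, 0 < x → x < κ → par x < x) (u : V) :
    ∑ φ : Fin κ → V, Wt P A κ par s u φ = 1 := by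
  induction κ with
  | zero =>
    unfold Wt
    simp
  | succ κ ih =>
    have h1 := step_const hA hδ h κ par s hpar u (fun _ => 1) (fun _ => 1) (fun _ _ => rfl)
    simp only [mul_one] at h1
    rw [h1]
    exact ih fun x h0 hx => hpar x h0 (by omega)

theorem Wt_marg {P : V → V → ℝ} {A : Finset V} {δ : ℝ} (hA : A.Nonempty) (hδ : δ ≤ 1 / 2)
    (h : QR P A δ) (κ : ℕ) (par : ℕ → ℕ) (s : ℕ → Bool)
    (hpar : ∀ x, 0 < x → x < κ → par x < x) (ld : ℕ → ℕ) (h0 : ld 0 = 1)
    (hld : ∀ x, 0 < x → x < κ → ld x = ld (par x) + 1) (u : V) (x : Fin κ) :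
    ∃ w : List Bool, w.length = ld x ∧ ∀ g : V → ℝ,
      ∑ φ : Fin κ → V, Wt P A κ par s u φ * g (φ x) = ∑ v, wk P A w (pt u) v * g v := by
  induction κ with
  | zero => exact x.elim0
  | succ κ ih =>
    have ih' := ih (fun x h0 hx => hpar x h0 (by omega)) (fun x h0 hx => hld x h0 (by omega))
    refine Fin.lastCases ?_ (fun x' => ?_) x
    · by_cases hκ : κ = 0
      · subst hκ
        refine ⟨[s 0], ?_, fun g => ?_⟩
        · rw [Fin.val_last, h0]; rfl
        · rw [step P A 0 par s hpar u (fun φ => g (φ (Fin.last 0)))]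
          have e1 : ∀ φ : Fin 0 → V, Wt P A 0 par s u φ = 1 := by
            intro φ
            unfold Wt
            simp
          have e2 : ∀ φ : Fin 0 → V, pl 0 par u φ = u := by
            intro φ
            unfold pl
            rw [if_pos rfl]
          simp only [e1, e2, Fin.snoc_last, one_mul]
          rw [Fintype.sum_unique]
          refine Finset.sum_congr rfl fun v _ => ?_
          congr 1
          show qA P A (s 0) u v = ∑ u', pt u u' * qA P A (s 0) u' v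
          unfold pt
          simp
      · have hp : par κ < κ := hpar κ (by omega) (by omega)
        obtain ⟨w, hw, hg⟩ := ih' ⟨par κ, hp⟩
        refine ⟨w ++ [s κ], ?_, fun g => ?_⟩
        · rw [List.length_append, hw, Fin.val_last, hld κ (by omega) (by omega)]; rfl
        · rw [step P A κ par s hpar u (fun φ => g (φ (Fin.last κ)))]
          have e2 : ∀ φ : Fin κ → V, pl κ par u φ = φ ⟨par κ, hp⟩ := by
            intro φ
            unfold pl
            rw [if_neg hκ, ext_lt κ u φ _ hp]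
          simp only [e2, Fin.snoc_last]
          rw [hg (fun y => ∑ v, qA P A (s κ) y v * g v), wk_append]
          show _ = ∑ v, (∑ y, wk P A w (pt u) y * qA P A (s κ) y v) * g v
          simp only [Finset.mul_sum, Finset.sum_mul]
          rw [Finset.sum_comm]
          refine Finset.sum_congr rfl fun v _ => Finset.sum_congr rfl fun y _ => ?_
          ring
    · obtain ⟨w, hw, hg⟩ := ih' x'
      refine ⟨w, by rw [hw, Fin.val_castSucc], fun g => ?_⟩
      rw [← hg g]
      exact step_const hA hδ h κ par s hpar u (fun φ => g (φ x'.castSucc)) (fun φ => g (φ x'))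
        (fun φ v => by rw [Fin.snoc_castSucc])

theorem Wt_coll {R : V → V → Prop} {c C : ℝ} {P : V → V → ℝ} (hP : Kern R c C P) (hC : 0 ≤ C)
    {A : Finset V} {δ : ℝ} (hA : A.Nonempty) (hδ : δ ≤ 1 / 2) (h : QR P A δ) (κ : ℕ)
    (par : ℕ → ℕ) (s : ℕ → Bool) (hpar : ∀ x, 0 < x → x < κ → par x < x) (u : V) (x y : Fin κ)
    (hxy : x ≠ y) :
    ∑ φ : Fin κ → V, Wt P A κ par s u φ * (if φ x = φ y then 1 else 0) ≤ 2 * C / A.card := by
  induction κ with
  | zero => exact x.elim0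
  | succ κ ih =>
    have hpar' : ∀ x, 0 < x → x < κ → par x < x := fun x h0 hx => hpar x h0 (by omega)
    -- the mixed case
    have key : ∀ x' : Fin κ, ∑ φ : Fin (κ + 1) → V, Wt P A (κ + 1) par s u φ *
        (if φ x'.castSucc = φ (Fin.last κ) then 1 else 0) ≤ 2 * C / A.card := by
      intro x'
      rw [step P A κ par s hpar u (fun φ => if φ x'.castSucc = φ (Fin.last κ) then 1 else 0)]
      simp only [Fin.snoc_last, Fin.snoc_castSucc]
      have e : ∀ φ : Fin κ → V, ∑ v, qA P A (s κ) (pl κ par u φ) v * (if φ x' = v then 1 else 0) =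
          qA P A (s κ) (pl κ par u φ) (φ x') := by
        intro φ
        simp
      simp only [e]
      calc ∑ φ : Fin κ → V, Wt P A κ par s u φ * qA P A (s κ) (pl κ par u φ) (φ x')
          ≤ ∑ φ : Fin κ → V, Wt P A κ par s u φ * (2 * C / A.card) :=
            Finset.sum_le_sum fun φ _ => mul_le_mul_of_nonneg_left
              (qA_le hP hC hA hδ h _ _ _) (Wt_nn hP A κ par s u φ)
        _ = 2 * C / A.card := by
            rw [← Finset.sum_mul, Wt_sum hA hδ h κ par s hpar' u, one_mul]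
    rcases Fin.eq_castSucc_or_eq_last x with ⟨x', rfl⟩ | rfl
    · rcases Fin.eq_castSucc_or_eq_last y with ⟨y', rfl⟩ | rfl
      · have h1 := ih hpar' x' y' (fun e => hxy (by rw [e]))
        refine le_trans (le_of_eq ?_) h1
        exact step_const hA hδ h κ par s hpar u
          (fun φ => if φ x'.castSucc = φ y'.castSucc then 1 else 0)
          (fun φ => if φ x' = φ y' then 1 else 0)
          (fun φ v => by rw [Fin.snoc_castSucc, Fin.snoc_castSucc])
      · exact key x'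
    · rcases Fin.eq_castSucc_or_eq_last y with ⟨y', rfl⟩ | rfl
      · have h1 := key y'
        refine le_trans (le_of_eq ?_) h1
        refine Finset.sum_congr rfl fun φ _ => ?_
        simp only [eq_comm]
      · exact absurd rfl hxy

theorem Wt_pos {R : V → V → Prop} {c C : ℝ} {P : V → V → ℝ} (hP : Kern R c C P) (A : Finset V)
    (κ : ℕ) (par : ℕ → ℕ) (s : ℕ → Bool) (hpar : ∀ x, 0 < x → x < κ → par x < x) (u : V)
    (φ : Fin κ → V) (h : 0 < Wt P A κ par s u φ) :
    (∀ x, φ x ∈ A) ∧ (0 < κ → Arc R (s 0) u (ext κ u φ 0)) ∧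
      ∀ x, 0 < x → x < κ → Arc R (s x) (ext κ u φ (par x)) (ext κ u φ x) := by
  have hne : ∀ x : Fin κ, qA P A (s x) (prv κ par u φ x) (φ x) ≠ 0 := by
    intro x
    unfold Wt at h
    exact Finset.prod_ne_zero_iff.1 h.ne' x (Finset.mem_univ x)
  have hmem : ∀ x, φ x ∈ A := by
    intro x
    by_contra hx
    refine hne x ?_
    unfold qA
    rw [if_neg hx]
  have harc : ∀ x : Fin κ, Arc R (s x) (prv κ par u φ x) (φ x) := by
    intro x
    refine PP_arc hP _ _ _ (lt_of_le_of_ne (PP_nn hP _ _ _) ?_)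
    intro e
    refine hne x ?_
    unfold qA
    rw [if_pos (hmem x), ← e, zero_div]
  refine ⟨hmem, fun h0 => ?_, fun x h0 hx => ?_⟩
  · have h1 := harc ⟨0, h0⟩
    rw [ext_lt κ u φ 0 h0]
    have e : prv κ par u φ ⟨0, h0⟩ = u := by
      unfold prv
      rw [if_pos rfl]
    rw [e] at h1
    exact h1
  · have h1 := harc ⟨x, hx⟩
    rw [ext_lt κ u φ x hx]
    have e : prv κ par u φ ⟨x, hx⟩ = ext κ u φ (par x) := by
      unfold prv
      rw [if_neg]
      show x ≠ 0
      omega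
    rw [e] at h1
    exact h1

end Pool.Agent.Lib.RobT
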