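import Pool.Agent.Lib.RobT.Defs

/-!
# Tn: enumerating a tree with a given root (about 150 lines)

`n = |V|`.  Order the vertices by the distance from `r` (`G.dist r`), ties arbitrarily: there is a
bijection `e` from `[0, n)` to `V` such that `i ↦ G.dist r (e i)` is monotone (sort the list of all
vertices by the distance; `e 0 = r`, the only vertex at distance `0`).  For `0 < i < n` the vertex
`e i` has a neighbour at distance `dist - 1` from `r` (first vertex of a shortest path from `e i` to
`r`); its index is `< i`; call it `par i`.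
The `n - 1` edges `e i - e (par i)` are distinct (the larger index of the two ends is `i`), and a
tree
has exactly `n - 1` edges (`SimpleGraph.IsTree.card_edgeFinset`), so every edge is one of them.
-/

namespace Pool.Agent.Lib.RobT

open Finset

/-- Enumeration of a finite type along a numerical function. -/
private theorem enum_aux {V : Type} [Fintype V] (d : V → ℕ) (r : V) (hr : ∀ v, v ≠ r → d r < d v) :
    ∃ e : ℕ → V, e 0 = r ∧ Set.InjOn e (Set.Iio (Fintype.card V)) ∧
      (∀ v, ∃ i < Fintype.card V, e i = v) ∧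
      (∀ i j, i < Fintype.card V → j < Fintype.card V → d (e i) < d (e j) → i < j) := by
  classical
  set n := Fintype.card V with hn
  let φ := Fintype.equivFin V
  let f : V → ℕ := fun v => d v * n + (φ v : ℕ)
  have hlt : ∀ v, (φ v : ℕ) < n := fun v => (φ v).2
  have hn0 : 0 < n := lt_of_le_of_lt (Nat.zero_le _) (hlt r)
  have hmod : ∀ v, f v % n = (φ v : ℕ) := by
    intro v
    show (d v * n + (φ v : ℕ)) % n = _
    rw [Nat.mul_comm, Nat.mul_add_mod, Nat.mod_eq_of_lt (hlt v)]
  have hdiv : ∀ v, f v / n = d v := by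
    intro v
    show (d v * n + (φ v : ℕ)) / n = _
    rw [Nat.mul_comm, Nat.mul_add_div hn0, Nat.div_eq_of_lt (hlt v), Nat.add_zero]
  have hinj : Function.Injective f := by
    intro v w h
    have h1 : f v % n = f w % n := by rw [h]
    rw [hmod, hmod] at h1
    exact φ.injective (Fin.ext h1)
  let S : Finset ℕ := univ.image f
  have hS : S.card = n := by
    rw [Finset.card_image_of_injective _ hinj, Finset.card_univ]
  let o := S.orderEmbOfFin hS
  have ho : ∀ i : Fin n, ∃ v, f v = o i := by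
    intro i
    have := Finset.orderEmbOfFin_mem S hS i
    obtain ⟨v, -, hv⟩ := Finset.mem_image.1 this
    exact ⟨v, hv⟩
  choose g hg using ho
  have hgsurj : ∀ v, ∃ i : Fin n, g i = v := by
    intro v
    have h1 : f v ∈ S := Finset.mem_image_of_mem _ (Finset.mem_univ v)
    have h2 : f v ∈ Set.range o := by
      rw [Finset.range_orderEmbOfFin]
      exact h1
    obtain ⟨i, hi⟩ := h2
    exact ⟨i, hinj ((hg i).trans hi)⟩
  have hgmono : ∀ i j : Fin n, f (g i) < f (g j) → i < j := by
    intro i j h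
    rw [hg, hg] at h
    exact o.lt_iff_lt.1 h
  have hgmono' : ∀ i j : Fin n, i < j → f (g i) < f (g j) := by
    intro i j h
    rw [hg, hg]
    exact o.lt_iff_lt.2 h
  let e : ℕ → V := fun i => if h : i < n then g ⟨i, h⟩ else r
  have he : ∀ i (h : i < n), e i = g ⟨i, h⟩ := fun i h => dif_pos h
  refine ⟨e, ?_, ?_, ?_, ?_⟩
  · obtain ⟨i, hi⟩ := hgsurj r
    rw [he 0 hn0]
    by_contra hne
    have h1 : d r < d (g ⟨0, hn0⟩) := hr _ hne
    have h2 : f r < f (g ⟨0, hn0⟩) := by
      show d r * n + (φ r : ℕ) < d (g ⟨0, hn0⟩) * n + _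
      have h3 := hlt r
      have h4 : (d r + 1) * n ≤ d (g ⟨0, hn0⟩) * n := Nat.mul_le_mul_right _ h1
      have h5 : (d r + 1) * n = d r * n + n := by ring
      omega
    rw [← hi] at h2
    have h6 := hgmono _ _ h2
    exact absurd h6 (Nat.not_lt_zero _)
  · intro i hi j hj h
    rw [Set.mem_Iio] at hi hj
    rw [he i hi, he j hj] at h
    rcases lt_trichotomy i j with h1 | h1 | h1
    · have := hgmono' ⟨i, hi⟩ ⟨j, hj⟩ h1
      rw [h] at this
      exact absurd this (lt_irrefl _)
    · exact h1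
    · have := hgmono' ⟨j, hj⟩ ⟨i, hi⟩ h1
      rw [h] at this
      exact absurd this (lt_irrefl _)
  · intro v
    obtain ⟨i, hi⟩ := hgsurj v
    exact ⟨i, i.2, by rw [he i i.2]; exact hi⟩
  · intro i j hi hj h
    rw [he i hi, he j hj] at h
    have h1 : f (g ⟨i, hi⟩) < f (g ⟨j, hj⟩) := by
      by_contra hcon
      have h2 : f (g ⟨j, hj⟩) ≤ f (g ⟨i, hi⟩) := not_lt.1 hcon
      have h3 := Nat.div_le_div_right (c := n) h2
      rw [hdiv, hdiv] at h3
      omega
    exact hgmono _ _ h1

theorem enum_tree {V : Type} [Fintype V] (G : SimpleGraph V) (hG : G.IsTree) (r : V) :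
    ∃ (e : ℕ → V) (par : ℕ → ℕ), e 0 = r ∧ Set.InjOn e (Set.Iio (Fintype.card V)) ∧
      (∀ v, ∃ i < Fintype.card V, e i = v) ∧
      (∀ i, 0 < i → i < Fintype.card V → par i < i ∧ G.Adj (e i) (e (par i))) ∧
      ∀ x y, G.Adj x y → ∃ i, 0 < i ∧ i < Fintype.card V ∧
        ((x = e i ∧ y = e (par i)) ∨ (y = e i ∧ x = e (par i))) := by
  classical
  have hconn : G.Connected := hG.1
  obtain ⟨e, he0, heinj, hesurj, hemono⟩ := enum_aux (fun v => G.dist v r) r (by
    intro v hv
    show G.dist r r < G.dist v r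
    rw [SimpleGraph.dist_self]
    exact hconn.pos_dist_of_ne hv)
  set n := Fintype.card V with hn
  have hpar : ∀ i, ∃ p, 0 < i → i < n → p < i ∧ G.Adj (e i) (e p) := by
    intro i
    by_cases hi : 0 < i ∧ i < n
    · obtain ⟨hi0, hin⟩ := hi
      have hne : e i ≠ r := by
        intro h
        rw [← he0] at h
        have := heinj (Set.mem_Iio.2 hin) (Set.mem_Iio.2 (lt_trans hi0 hin)) h
        omega
      obtain ⟨p, hp⟩ := hconn.exists_walk_length_eq_dist (e i) r
      cases p with
      | nil => exact absurd rfl hne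
      | cons h q =>
        rename_i w
        have h1 : G.dist w r ≤ q.length := SimpleGraph.dist_le q
        have h2 : q.length + 1 = G.dist (e i) r := by
          rw [← hp, SimpleGraph.Walk.length_cons]
        obtain ⟨j, hj, hjw⟩ := hesurj w
        refine ⟨j, fun _ _ => ⟨?_, ?_⟩⟩
        · apply hemono j i hj hin
          show G.dist (e j) r < G.dist (e i) r
          rw [hjw]
          omega
        · rw [hjw]
          exact h
    · exact ⟨0, fun h1 h2 => absurd ⟨h1, h2⟩ hi⟩
  choose par hpar using hpar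
  refine ⟨e, par, he0, heinj, hesurj, hpar, ?_⟩
  have hn0 : 0 < n := by
    obtain ⟨i, hi, -⟩ := hesurj r
    omega
  have hE : (G.edgeFinset).card + 1 = n := hG.card_edgeFinset
  let F : ℕ → Sym2 V := fun i => s(e i, e (par i))
  have hmaps : ∀ i ∈ Finset.Ioo 0 n, F i ∈ G.edgeFinset := by
    intro i hi
    rw [Finset.mem_Ioo] at hi
    rw [SimpleGraph.mem_edgeFinset]
    show s(e i, e (par i)) ∈ G.edgeSet
    rw [SimpleGraph.mem_edgeSet]
    exact (hpar i hi.1 hi.2).2
  have hinj : Set.InjOn F (Finset.Ioo 0 n : Finset ℕ) := by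
    intro i hi j hj h
    rw [Finset.mem_coe, Finset.mem_Ioo] at hi hj
    have hpi := (hpar i hi.1 hi.2).1
    have hpj := (hpar j hj.1 hj.2).1
    have h' : s(e i, e (par i)) = s(e j, e (par j)) := h
    rw [Sym2.eq_iff] at h'
    rcases h' with ⟨h1, -⟩ | ⟨h1, h2⟩
    · exact heinj (Set.mem_Iio.2 hi.2) (Set.mem_Iio.2 hj.2) h1
    · have h3 := heinj (Set.mem_Iio.2 hi.2) (Set.mem_Iio.2 (lt_trans hpj hj.2)) h1
      have h4 := heinj (Set.mem_Iio.2 (lt_trans hpi hi.2)) (Set.mem_Iio.2 hj.2) h2
      omega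
  have himg : (Finset.Ioo 0 n).image F = G.edgeFinset := by
    apply Finset.eq_of_subset_of_card_le
    · intro x hx
      obtain ⟨i, hi, rfl⟩ := Finset.mem_image.1 hx
      exact hmaps i hi
    · rw [Finset.card_image_of_injOn hinj, Nat.card_Ioo]
      omega
  intro x y hxy
  have h1 : s(x, y) ∈ G.edgeFinset := by
    rw [SimpleGraph.mem_edgeFinset, SimpleGraph.mem_edgeSet]
    exact hxy
  rw [← himg] at h1
  obtain ⟨i, hi, hi'⟩ := Finset.mem_image.1 h1
  rw [Finset.mem_Ioo] at hi
  refine ⟨i, hi.1, hi.2, ?_⟩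
  have h2 : s(e i, e (par i)) = s(x, y) := hi'
  rw [Sym2.eq_iff] at h2
  rcases h2 with ⟨h3, h4⟩ | ⟨h3, h4⟩
  · exact Or.inl ⟨h3.symm, h4.symm⟩
  · exact Or.inr ⟨h3.symm, h4.symm⟩

end Pool.Agent.Lib.RobT
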